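import Pool.Agent.Helper31.LS.A8

set_option autoImplicit false

open MeasureTheory Filter Topology

namespace Pool.Agent.Helper31.LS

open Pool.Agent.Helper42.Fr

/-- **(A7)** as a property of `v`. -/
def A7 (ρ : ℝ) (v : ℝ × ℝ → ℝ) : Prop :=
  ∀ χ : ℝ → ℝ, ContDiff ℝ (⊤ : ℕ∞) χ → HasCompactSupport χ → (∀ x, 0 ≤ χ x) →
    Tendsto (fun ε => J (fun z => χ z.1 * (|dX (pp ρ (moll ε v)) z| * Lop ρ (moll ε v) z)))
      (𝓝[>] (0 : ℝ)) (𝓝 0)

lemma exists_zero_of_cpt {χ : ℝ → ℝ} (hχc : HasCompactSupport χ) :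
    ∃ R : ℝ, 0 ≤ R ∧ ∀ s, R < |s| → χ s = 0 := by
  obtain ⟨R, hR⟩ := hχc.isBounded.subset_closedBall (0 : ℝ)
  refine ⟨max R 0, le_max_right _ _, fun s hs => ?_⟩
  by_contra hne
  have : s ∈ tsupport χ := subset_tsupport _ hne
  have := hR this
  simp at this
  have := le_max_left R 0
  linarith

/-- the smoothed indicator `int_{x-X2}^{x-X1} chi`. -/
noncomputable def zt (χ : ℝ → ℝ) (X₁ X₂ x : ℝ) : ℝ := ∫ s in (x - X₂)..(x - X₁), χ s

lemma zt_smooth {χ : ℝ → ℝ} (hχ : ContDiff ℝ (⊤ : ℕ∞) χ) (X₁ X₂ : ℝ) :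
    ContDiff ℝ (⊤ : ℕ∞) (zt χ X₁ X₂) := by
  have hc := hχ.continuous
  have hζ2 : zt χ X₁ X₂ = fun x => (∫ s in (0 : ℝ)..(x - X₁), χ s) - ∫ s in (0 : ℝ)..(x - X₂), χ s := by
    funext x
    unfold zt
    rw [intervalIntegral.integral_interval_sub_left (hc.intervalIntegrable _ _) (hc.intervalIntegrable _ _)]
  have hW : ContDiff ℝ (⊤ : ℕ∞) (fun x => ∫ s in (0 : ℝ)..x, χ s) := by
    have hd : deriv (fun x => ∫ s in (0 : ℝ)..x, χ s) = χ := by
      funext x
      exact hc.deriv_integral _ _ _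
    rw [contDiff_infty_iff_deriv]
    refine ⟨fun x => ?_, ?_⟩
    · exact (hc.integral_hasStrictDerivAt 0 x).hasDerivAt.differentiableAt
    · rw [hd]; exact hχ
  rw [hζ2]
  exact (hW.comp (contDiff_id.sub contDiff_const)).sub (hW.comp (contDiff_id.sub contDiff_const))

lemma zt_cpt {χ : ℝ → ℝ} (hχc : HasCompactSupport χ) (X₁ X₂ : ℝ) : HasCompactSupport (zt χ X₁ X₂) := by
  obtain ⟨R, hR0, hz⟩ := exists_zero_of_cpt hχc
  refine HasCompactSupport.of_support_subset_isCompact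
    (isCompact_Icc (a := -(R + |X₁| + |X₂|)) (b := R + |X₁| + |X₂|)) ?_
  intro x hx
  by_contra hcon
  apply hx
  unfold zt
  have hb1 := abs_nonneg X₁
  have hb2 := abs_nonneg X₂
  have hb3 := neg_abs_le X₁
  have hb4 := neg_abs_le X₂
  have hb5 := le_abs_self X₁
  have hb6 := le_abs_self X₂
  have : ∀ s ∈ Set.uIcc (x - X₂) (x - X₁), χ s = 0 := by
    intro s hs
    apply hz
    rw [Set.mem_Icc, not_and_or, not_le, not_le] at hcon
    rcases hcon with h | h
    · have : s < -R := by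
        rcases Set.mem_uIcc.1 hs with h' | h' <;> linarith [h'.2]
      rw [lt_abs]; right; linarith
    · have : R < s := by
        rcases Set.mem_uIcc.1 hs with h' | h' <;> linarith [h'.1]
      rw [lt_abs]; left; linarith
  rw [intervalIntegral.integral_congr (g := fun _ => 0) this]
  simp

lemma zt_nonneg {χ : ℝ → ℝ} (h0 : ∀ x, 0 ≤ χ x) {X₁ X₂ : ℝ} (h : X₁ ≤ X₂) (x : ℝ) : 0 ≤ zt χ X₁ X₂ x :=
  intervalIntegral.integral_nonneg (by linarith) fun s _ => h0 s

lemma zt_const {χ : ℝ → ℝ} (hχc : HasCompactSupport χ) :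
    ∃ R₀ : ℝ, 0 ≤ R₀ ∧ ∀ R x : ℝ, |x| ≤ R → zt χ (-(R + R₀)) (R + R₀) x = ∫ s, χ s := by
  obtain ⟨R, hR0, hz⟩ := exists_zero_of_cpt hχc
  refine ⟨R + 1, by linarith, fun R' x hx => ?_⟩
  unfold zt
  have h1 := abs_le.1 hx
  refine intervalIntegral.integral_eq_integral_of_support_subset ?_
  intro s hs
  have : |s| ≤ R := by
    by_contra hcon
    exact hs (hz s (not_le.1 hcon))
  have h2 := abs_le.1 this
  constructor <;> linarith [h1.1, h1.2, h2.1, h2.2]

section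
variable {ρ C : ℝ} {h : ℝ → ℝ} {v : ℝ × ℝ → ℝ}

/-- lower bound of the increment of the functional. -/
lemma Lam_sub_ge (hρ : 0 < ρ) {k : ℝ → ℝ} {κ : ℝ} (hk : ContDiff ℝ (⊤ : ℕ∞) k) (hκ : ∀ s, |k s| ≤ κ)
    (hk0 : ∀ s, 0 ≤ k s) {w : ℝ × ℝ → ℝ} (hw : Sm w) (hp : Per w) (hL : ∀ z, 0 ≤ Lop ρ w z) {χ : ℝ → ℝ}
    (hχ : ContDiff ℝ (⊤ : ℕ∞) χ) (hχc : HasCompactSupport χ) (hχ0 : ∀ x, 0 ≤ χ x) {X₁ X₂ : ℝ} (hX : X₁ ≤ X₂) :
    - ((ρ ^ 2)⁻¹ * κ * J (fun z => zt χ X₁ X₂ z.1 * (|dX (pp ρ w) z| * Lop ρ w z))) ≤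
      Lam ρ k χ (shift X₂ w) - Lam ρ k χ (shift X₁ w) := by
  rw [Lam_shift_sub hρ.ne' hk hw hp hχ hχc X₁ X₂]
  have h1 := (pp_sm (ρ := ρ) hw)
  have cζ : CX (fun z : ℝ × ℝ => zt χ X₁ X₂ z.1) := CX.of_fst (zt_cpt hχc _ _) (zt_smooth hχ _ _).continuous
  have cL := (Lop_smooth ρ hw).cont
  have c1 : CX (fun z => zt χ X₁ X₂ z.1 * (|dX (pp ρ w) z| * Lop ρ w z)) :=
    cζ.mul ((h1.dX.cont.abs).mul cL)
  rw [← J_const_mul, ← J_neg]
  refine J_mono (c1.const_mul _).neg (cζ.mul (DD_cont hk.continuous hw)) (fun z => ?_)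
  have h2 : 0 ≤ zt χ X₁ X₂ z.1 := zt_nonneg hχ0 hX z.1
  have h3 : -((ρ ^ 2)⁻¹ * κ * (|dX (pp ρ w) z| * Lop ρ w z)) ≤ DD ρ k w z := by
    unfold DD
    have h4 : 0 ≤ k (rd ρ w z) := hk0 _
    have h5 : k (rd ρ w z) ≤ κ := (le_abs_self _).trans (hκ _)
    have h6 : 0 < (ρ ^ 2)⁻¹ := by positivity
    have h7 : dX (pp ρ w) z * Lop ρ w z ≤ |dX (pp ρ w) z| * Lop ρ w z :=
      mul_le_mul_of_nonneg_right (le_abs_self _) (hL z)
    have h8 : 0 ≤ |dX (pp ρ w) z| * Lop ρ w z := mul_nonneg (abs_nonneg _) (hL z)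
    have h9 : -(κ * (|dX (pp ρ w) z| * Lop ρ w z)) ≤
        k (rd ρ w z) * ((dX (dT w) z) ^ 2 + (dX (pp ρ w) z) ^ 2 - dX (pp ρ w) z * Lop ρ w z) := by
      have e1 : 0 ≤ k (rd ρ w z) * ((dX (dT w) z) ^ 2 + (dX (pp ρ w) z) ^ 2) := by positivity
      have e2 : k (rd ρ w z) * (dX (pp ρ w) z * Lop ρ w z) ≤ k (rd ρ w z) * (|dX (pp ρ w) z| * Lop ρ w z) :=
        mul_le_mul_of_nonneg_left h7 h4
      have e3 : k (rd ρ w z) * (|dX (pp ρ w) z| * Lop ρ w z) ≤ κ * (|dX (pp ρ w) z| * Lop ρ w z) :=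
        mul_le_mul_of_nonneg_right h5 h8
      nlinarith
    have h10 := mul_le_mul_of_nonneg_left h9 h6.le
    linarith
  have h11 := mul_le_mul_of_nonneg_left h3 h2
  change _ ≤ zt χ X₁ X₂ z.1 * DD ρ k w z
  linarith

/-- **(A10 iv)** monotonicity in the limit. -/
theorem mono_of_A7 (hρ : 0 < ρ) (hv : InC ρ C h v) (h7 : A7 ρ v) {k : ℝ → ℝ} {κ : ℝ}
    (hk : ContDiff ℝ (⊤ : ℕ∞) k) (hκ : ∀ s, |k s| ≤ κ) (hk0 : ∀ s, 0 ≤ k s) {χ : ℝ → ℝ}
    (hχ : ContDiff ℝ (⊤ : ℕ∞) χ) (hχc : HasCompactSupport χ) (hχ0 : ∀ x, 0 ≤ χ x)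
    {X₁ X₂ L₁ L₂ : ℝ} (hX : X₁ ≤ X₂)
    (h1 : Tendsto (fun ε => Lam ρ k χ (moll ε (shift X₁ v))) (𝓝[>] (0 : ℝ)) (𝓝 L₁))
    (h2 : Tendsto (fun ε => Lam ρ k χ (moll ε (shift X₂ v))) (𝓝[>] (0 : ℝ)) (𝓝 L₂)) : L₁ ≤ L₂ := by
  have h3 := h7 (zt χ X₁ X₂) (zt_smooth hχ _ _) (zt_cpt hχc _ _) (zt_nonneg hχ0 hX)
  have h4 := (h3.const_mul ((ρ ^ 2)⁻¹ * κ)).neg
  have h5 := h2.sub h1
  have h6 : -((ρ ^ 2)⁻¹ * κ * 0) ≤ L₂ - L₁ := by
    refine le_of_tendsto_of_tendsto h4 h5 ?_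
    filter_upwards [self_mem_nhdsWithin] with ε hε
    rw [moll_shift, moll_shift]
    exact Lam_sub_ge hρ hk hκ hk0 (moll_smooth hε hv.locInt) (moll_per ε hv.perV)
      (fun z => Lop_moll_nonneg hv hε z) hχ hχc hχ0 hX
  simp at h6
  exact h6

/-- from the smallness of the dissipation to smallness of the differences. -/
lemma diff_le (hρ : 0 < ρ) {w : ℝ × ℝ → ℝ} (hw : Sm w) (hC : ∀ z, |dX w z| ≤ C) {ζ : ℝ → ℝ}
    (hζ : Continuous ζ) (hζc : HasCompactSupport ζ) (hζ0 : ∀ x, 0 ≤ ζ x) {m R a x₀ : ℝ} (hm : 0 < m)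
    (haR : a ≤ -R) (hx₀ : |x₀| ≤ R) (hζm : ∀ x, a ≤ x → x ≤ R → ζ x = m) :
    ∫ t in (0 : ℝ)..(2 * Real.pi), |w (x₀, t) - w (0, t)| ≤
      R * (Real.exp (ρ * R) * (2 * Real.pi * (C * Real.exp (ρ * a)) +
        Real.exp (ρ * R) / m * J (fun z => ζ z.1 * |dX (pp ρ w) z|))) := by
  have hR : 0 ≤ R := (abs_nonneg _).trans hx₀
  have h1 := (pp_sm (ρ := ρ) hw)
  have cP := h1.dX.cont
  have cζ : CX (fun z : ℝ × ℝ => ζ z.1) := CX.of_fst hζc hζ
  have cJ : CX (fun z : ℝ × ℝ => ζ z.1 * |dX (pp ρ w) z|) := cζ.mul cP.abs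
  set B : ℝ → ℝ := fun t => ∫ x, ζ x * |dX (pp ρ w) (x, t)| with hB
  -- integrability of the slices
  have hint : ∀ t, Integrable (fun x => ζ x * |dX (pp ρ w) (x, t)|) := by
    intro t
    refine Continuous.integrable_of_hasCompactSupport ?_ ?_
    · exact hζ.mul (cP.comp (continuous_id.prodMk continuous_const)).abs
    · exact hζc.mul_right
  have hBc : Continuous B := by
    rw [hB]
    have hs : ∀ t, ∀ x ∉ tsupport ζ, ζ x * |dX (pp ρ w) (x, t)| = 0 := by
      intro t x hx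
      rw [image_eq_zero_of_notMem_tsupport hx, zero_mul]
    have := continuous_parametric_integral_of_continuous (μ := (volume : Measure ℝ)) (s := tsupport ζ)
      (f := fun (t : ℝ) (x : ℝ) => ζ x * |dX (pp ρ w) (x, t)|) ?_ hζc.isCompact
    · refine this.congr fun t => ?_
      exact setIntegral_eq_integral_of_forall_compl_eq_zero (hs t)
    · exact ((hζ.comp continuous_snd).mul (cP.comp (continuous_snd.prodMk continuous_fst)).abs)
  have hJ : J (fun z : ℝ × ℝ => ζ z.1 * |dX (pp ρ w) z|) = ∫ t in (0 : ℝ)..(2 * Real.pi), B t := J_eq' cJ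
  -- derivative of exp (rho x) * w_x
  have hder : ∀ t x, HasDerivAt (fun x => Real.exp (ρ * x) * dX w (x, t))
      (Real.exp (ρ * x) * dX (pp ρ w) (x, t)) x := by
    intro t x
    have e1 : HasDerivAt (fun x : ℝ => Real.exp (ρ * x)) (Real.exp (ρ * x) * ρ) x := by
      simpa using ((hasDerivAt_id x).const_mul ρ).exp
    have e2 := hw.dX.hX x t
    refine (e1.mul e2).congr_deriv ?_
    rw [dX_pp hw]
    simp only
    ring
  -- pointwise bound for the x-derivative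
  have hpt : ∀ t y, |y| ≤ R → |dX w (y, t)| ≤
      Real.exp (ρ * R) * (C * Real.exp (ρ * a) + Real.exp (ρ * R) / m * B t) := by
    intro t y hy
    have hy' := abs_le.1 hy
    have hay : a ≤ y := by linarith [hy'.1]
    have hcont : Continuous (fun x => Real.exp (ρ * x) * dX (pp ρ w) (x, t)) := by
      have := cP.comp (continuous_id.prodMk (continuous_const (y := t)))
      exact (by fun_prop : Continuous (fun x : ℝ => Real.exp (ρ * x))).mul this
    have hftc := intervalIntegral.integral_eq_sub_of_hasDerivAt (a := a) (b := y)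
      (fun x _ => hder t x) (hcont.intervalIntegrable _ _)
    have hbd : |∫ x in a..y, Real.exp (ρ * x) * dX (pp ρ w) (x, t)| ≤ Real.exp (ρ * R) / m * B t := by
      have i1 : |∫ x in a..y, Real.exp (ρ * x) * dX (pp ρ w) (x, t)| ≤
          ∫ x in a..y, |Real.exp (ρ * x) * dX (pp ρ w) (x, t)| :=
        intervalIntegral.abs_integral_le_integral_abs hay
      have i2 : ∫ x in a..y, |Real.exp (ρ * x) * dX (pp ρ w) (x, t)| ≤
          ∫ x in a..y, Real.exp (ρ * R) / m * (ζ x * |dX (pp ρ w) (x, t)|) := by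
        refine intervalIntegral.integral_mono_on hay (hcont.abs.intervalIntegrable _ _) ?_ ?_
        · refine Continuous.intervalIntegrable ?_ _ _
          exact continuous_const.mul (hζ.mul (cP.comp (continuous_id.prodMk continuous_const)).abs)
        · intro x hx
          rw [hζm x hx.1 (by linarith [hx.2, hy'.2]), abs_mul, abs_of_pos (Real.exp_pos _)]
          have e1 : Real.exp (ρ * x) ≤ Real.exp (ρ * R) := by
            apply Real.exp_le_exp.2
            have : x ≤ R := by linarith [hx.2, hy'.2]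
            nlinarith
          have e2 : Real.exp (ρ * R) / m * (m * |dX (pp ρ w) (x, t)|) =
              Real.exp (ρ * R) * |dX (pp ρ w) (x, t)| := by field_simp
          rw [e2]
          exact mul_le_mul_of_nonneg_right e1 (abs_nonneg _)
      have i3 : ∫ x in a..y, Real.exp (ρ * R) / m * (ζ x * |dX (pp ρ w) (x, t)|) =
          Real.exp (ρ * R) / m * ∫ x in a..y, (ζ x * |dX (pp ρ w) (x, t)|) :=
        intervalIntegral.integral_const_mul _ _
      have i4 : ∫ x in a..y, (ζ x * |dX (pp ρ w) (x, t)|) ≤ B t := by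
        rw [intervalIntegral.integral_of_le hay]
        exact setIntegral_le_integral (hint t) (Eventually.of_forall fun x =>
          mul_nonneg (hζ0 x) (abs_nonneg _))
      have i5 : Real.exp (ρ * R) / m * ∫ x in a..y, (ζ x * |dX (pp ρ w) (x, t)|) ≤
          Real.exp (ρ * R) / m * B t := mul_le_mul_of_nonneg_left i4 (by positivity)
      linarith
    have hwa := hC (a, t)
    have e3 : Real.exp (ρ * y) * dX w (y, t) = Real.exp (ρ * a) * dX w (a, t) +
        ∫ x in a..y, Real.exp (ρ * x) * dX (pp ρ w) (x, t) := by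
      rw [hftc]; ring
    have e4 : Real.exp (ρ * y) * |dX w (y, t)| ≤ C * Real.exp (ρ * a) + Real.exp (ρ * R) / m * B t := by
      rw [← abs_of_pos (Real.exp_pos (ρ * y)), ← abs_mul, e3]
      refine (abs_add_le _ _).trans (add_le_add ?_ hbd)
      rw [abs_mul, abs_of_pos (Real.exp_pos _), mul_comm]
      exact mul_le_mul_of_nonneg_right hwa (Real.exp_pos _).le
    have e5 : |dX w (y, t)| = Real.exp (-(ρ * y)) * (Real.exp (ρ * y) * |dX w (y, t)|) := by
      rw [← mul_assoc, ← Real.exp_add]; simp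
    rw [e5]
    have e6 : Real.exp (-(ρ * y)) ≤ Real.exp (ρ * R) := by
      apply Real.exp_le_exp.2
      nlinarith [hy'.1]
    have e7 : 0 ≤ Real.exp (ρ * y) * |dX w (y, t)| := by positivity
    exact mul_le_mul e6 e4 e7 (Real.exp_pos _).le
  -- mean value
  have hpt2 : ∀ t, |w (x₀, t) - w (0, t)| ≤
      R * (Real.exp (ρ * R) * (C * Real.exp (ρ * a) + Real.exp (ρ * R) / m * B t)) := by
    intro t
    set M := Real.exp (ρ * R) * (C * Real.exp (ρ * a) + Real.exp (ρ * R) / m * B t) with hM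
    have hM0 : 0 ≤ M := (abs_nonneg _).trans (hpt t 0 (by simpa using hR))
    have := Convex.norm_image_sub_le_of_norm_hasDerivWithin_le (f := fun x => w (x, t))
      (f' := fun x => dX w (x, t)) (s := Set.Icc (-R) R) (C := M)
      (fun x hx => (hw.hX x t).hasDerivWithinAt) (fun x hx => hpt t x (abs_le.2 hx))
      (convex_Icc _ _) (x := 0) (y := x₀) ⟨by linarith, hR⟩ (abs_le.1 hx₀)
    rw [Real.norm_eq_abs, Real.norm_eq_abs, sub_zero] at this
    refine this.trans ?_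
    rw [mul_comm]
    exact mul_le_mul_of_nonneg_right hx₀ hM0
  have hwc : ∀ y, Continuous (fun t => w (y, t)) := fun y =>
    hw.cont.comp (continuous_const.prodMk continuous_id)
  have hfin : ∫ t in (0 : ℝ)..(2 * Real.pi), |w (x₀, t) - w (0, t)| ≤
      ∫ t in (0 : ℝ)..(2 * Real.pi), R * (Real.exp (ρ * R) * (C * Real.exp (ρ * a) + Real.exp (ρ * R) / m * B t)) := by
    refine intervalIntegral.integral_mono_on (by positivity) ?_ ?_ (fun t _ => hpt2 t)
    · exact (((hwc x₀).sub (hwc 0)).abs).intervalIntegrable _ _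
    · refine Continuous.intervalIntegrable ?_ _ _
      exact continuous_const.mul (continuous_const.mul (continuous_const.add (continuous_const.mul hBc)))
  refine hfin.trans (le_of_eq ?_)
  have hi2 : IntervalIntegrable (fun t => Real.exp (ρ * R) / m * B t) volume 0 (2 * Real.pi) :=
    (continuous_const.mul hBc).intervalIntegrable _ _
  have e9 : ∫ t in (0 : ℝ)..(2 * Real.pi), Real.exp (ρ * R) / m * B t =
      Real.exp (ρ * R) / m * ∫ t in (0 : ℝ)..(2 * Real.pi), B t := intervalIntegral.integral_const_mul _ _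
  rw [intervalIntegral.integral_const_mul, intervalIntegral.integral_const_mul,
    intervalIntegral.integral_add intervalIntegrable_const hi2, e9, hJ, intervalIntegral.integral_const]
  simp only [sub_zero, smul_eq_mul]

/-- **(A10 v)** rigidity in the limit. -/
theorem rigid_of_A7 (hρ : 0 < ρ) (hC0 : 0 ≤ C) (hv : InC ρ C h v) (h7 : A7 ρ v) {χ : ℝ → ℝ}
    (hχ : ContDiff ℝ (⊤ : ℕ∞) χ) (hχc : HasCompactSupport χ) (hχ0 : ∀ x, 0 ≤ χ x) (hχ1 : ∃ x, χ x ≠ 0)
    {L : ℝ} (hL : ∀ X, Tendsto (fun ε => Lam ρ (fun _ => 1) χ (moll ε (shift X v))) (𝓝[>] (0 : ℝ)) (𝓝 L)) :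
    ∀ x t, v (x, t) = v (0, t) := by
  obtain ⟨R₀, hR₀, hconst⟩ := zt_const hχc
  set m := ∫ s, χ s with hm
  have hmpos : 0 < m := by
    obtain ⟨x, hx⟩ := hχ1
    exact hχ.continuous.integral_pos_of_hasCompactSupport_nonneg_nonzero hχc hχ0 hx
  have hk : ContDiff ℝ (⊤ : ℕ∞) (fun _ : ℝ => (1 : ℝ)) := contDiff_const
  -- convergence to zero of J (zeta |p_x|)
  have key : ∀ X₁ X₂ : ℝ, X₁ ≤ X₂ → Tendsto (fun ε => J (fun z => zt χ X₁ X₂ z.1 *
      |dX (pp ρ (moll ε v)) z|)) (𝓝[>] (0 : ℝ)) (𝓝 0) := by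
    intro X₁ X₂ hX
    have cζ : CX (fun z : ℝ × ℝ => zt χ X₁ X₂ z.1) := CX.of_fst (zt_cpt hχc _ _) (zt_smooth hχ _ _).continuous
    have hζ0 : ∀ x, 0 ≤ zt χ X₁ X₂ x := zt_nonneg hχ0 hX
    have h3 := h7 (zt χ X₁ X₂) (zt_smooth hχ _ _) (zt_cpt hχc _ _) hζ0
    have h4 := (hL X₂).sub (hL X₁)
    have h5 := (h4.const_mul (ρ ^ 2)).add h3
    -- J (zeta p_x^2) tends to zero
    have h6 : Tendsto (fun ε => J (fun z => zt χ X₁ X₂ z.1 * (dX (pp ρ (moll ε v)) z) ^ 2))
        (𝓝[>] (0 : ℝ)) (𝓝 0) := by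
      have h5' : Tendsto (fun ε => ρ ^ 2 * (Lam ρ (fun _ => 1) χ (moll ε (shift X₂ v)) -
          Lam ρ (fun _ => 1) χ (moll ε (shift X₁ v))) +
          J (fun z => zt χ X₁ X₂ z.1 * (|dX (pp ρ (moll ε v)) z| * Lop ρ (moll ε v) z)))
          (𝓝[>] (0 : ℝ)) (𝓝 0) := by simpa using h5
      refine tendsto_of_tendsto_of_tendsto_of_le_of_le' tendsto_const_nhds h5' ?_ ?_
      · refine Eventually.of_forall fun ε => ?_
        exact J_nonneg fun z => mul_nonneg (hζ0 _) (sq_nonneg _)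
      · filter_upwards [self_mem_nhdsWithin] with ε hε
        have hε' : 0 < ε := hε
        have hw := moll_smooth hε' hv.locInt
        have hwp := moll_per ε hv.perV
        have hLn := fun z => Lop_moll_nonneg hv hε' z
        rw [moll_shift, moll_shift, Lam_shift_sub hρ.ne' hk hw hwp hχ hχc X₁ X₂]
        have cP := (pp_sm (ρ := ρ) hw).dX.cont
        have cL := (Lop_smooth ρ hw).cont
        have cD := DD_cont (ρ := ρ) (k := fun _ => 1) continuous_const hw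
        change _ ≤ ρ ^ 2 * J (fun z => zt χ X₁ X₂ z.1 * DD ρ (fun _ => 1) (moll ε v) z) + _
        have d1 : CX (fun z => ρ ^ 2 * (zt χ X₁ X₂ z.1 * DD ρ (fun _ => 1) (moll ε v) z)) :=
          (cζ.mul cD).const_mul _
        have d2 : CX (fun z => zt χ X₁ X₂ z.1 * (|dX (pp ρ (moll ε v)) z| * Lop ρ (moll ε v) z)) :=
          cζ.mul (cP.abs.mul cL)
        have d3 : CX (fun z => zt χ X₁ X₂ z.1 * (dX (pp ρ (moll ε v)) z) ^ 2) := cζ.mul (cP.pow 2)
        rw [← J_const_mul, ← J_add d1 d2]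
        refine J_mono d3 (d1.add d2) (fun z => ?_)
        have e1 : ρ ^ 2 * (zt χ X₁ X₂ z.1 * DD ρ (fun _ => 1) (moll ε v) z) =
            zt χ X₁ X₂ z.1 * ((dX (dT (moll ε v)) z) ^ 2 + (dX (pp ρ (moll ε v)) z) ^ 2 -
              dX (pp ρ (moll ε v)) z * Lop ρ (moll ε v) z) := by
          unfold DD
          have : ρ ≠ 0 := hρ.ne'
          field_simp
        rw [e1, ← mul_add]
        refine mul_le_mul_of_nonneg_left ?_ (hζ0 _)
        have e2 : dX (pp ρ (moll ε v)) z * Lop ρ (moll ε v) z ≤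
            |dX (pp ρ (moll ε v)) z| * Lop ρ (moll ε v) z :=
          mul_le_mul_of_nonneg_right (le_abs_self _) (hLn z)
        nlinarith [sq_nonneg (dX (dT (moll ε v)) z)]
    -- Cauchy-Schwarz
    rw [Metric.tendsto_nhds]
    intro η hη
    set A := J (fun z : ℝ × ℝ => zt χ X₁ X₂ z.1) with hA
    have hA0 : 0 ≤ A := J_nonneg fun z => hζ0 _
    set δ := η / (2 * (A + 1)) with hδ
    have hδ0 : 0 < δ := by positivity
    have h7' : ∀ᶠ ε in 𝓝[>] (0 : ℝ), J (fun z => zt χ X₁ X₂ z.1 * (dX (pp ρ (moll ε v)) z) ^ 2) < δ * η := by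
      have := (tendsto_order.1 h6).2 (δ * η) (by positivity)
      exact this
    filter_upwards [h7', self_mem_nhdsWithin] with ε hε1 hε
    have hε' : 0 < ε := hε
    have hw := moll_smooth hε' hv.locInt
    have cP := (pp_sm (ρ := ρ) hw).dX.cont
    have hle : J (fun z => zt χ X₁ X₂ z.1 * |dX (pp ρ (moll ε v)) z|) ≤
        δ / 2 * A + (2 * δ)⁻¹ * J (fun z => zt χ X₁ X₂ z.1 * (dX (pp ρ (moll ε v)) z) ^ 2) := by
      have d1 : CX (fun z => zt χ X₁ X₂ z.1 * |dX (pp ρ (moll ε v)) z|) := cζ.mul cP.abs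
      have d2 : CX (fun z : ℝ × ℝ => δ / 2 * zt χ X₁ X₂ z.1) := cζ.const_mul _
      have d3 : CX (fun z => (2 * δ)⁻¹ * (zt χ X₁ X₂ z.1 * (dX (pp ρ (moll ε v)) z) ^ 2)) :=
        (cζ.mul (cP.pow 2)).const_mul _
      rw [hA, ← J_const_mul, ← J_const_mul, ← J_add d2 d3]
      refine J_mono d1 (d2.add d3) (fun z => ?_)
      have e1 : |dX (pp ρ (moll ε v)) z| ≤ δ / 2 + (2 * δ)⁻¹ * (dX (pp ρ (moll ε v)) z) ^ 2 := by
        rw [← sq_abs]
        set s := |dX (pp ρ (moll ε v)) z|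
        have : 0 ≤ (s - δ) ^ 2 := sq_nonneg _
        have e2 : δ / 2 + (2 * δ)⁻¹ * s ^ 2 - s = (2 * δ)⁻¹ * (s - δ) ^ 2 := by
          field_simp
          ring
        have e3 : 0 ≤ (2 * δ)⁻¹ * (s - δ) ^ 2 := by positivity
        linarith
      have := mul_le_mul_of_nonneg_left e1 (hζ0 z.1)
      linarith
    have hnn : 0 ≤ J (fun z => zt χ X₁ X₂ z.1 * |dX (pp ρ (moll ε v)) z|) :=
      J_nonneg fun z => mul_nonneg (hζ0 _) (abs_nonneg _)
    rw [Real.dist_eq, sub_zero, abs_of_nonneg hnn]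
    have e4 : δ / 2 * A ≤ η / 4 := by
      rw [hδ]
      rw [div_div, div_mul_eq_mul_div, div_le_div_iff₀ (by positivity) (by norm_num)]
      nlinarith
    have e5 : (2 * δ)⁻¹ * J (fun z => zt χ X₁ X₂ z.1 * (dX (pp ρ (moll ε v)) z) ^ 2) < (2 * δ)⁻¹ * (δ * η) :=
      mul_lt_mul_of_pos_left hε1 (by positivity)
    have e6 : (2 * δ)⁻¹ * (δ * η) = η / 2 := by field_simp
    linarith
  -- conclusion
  intro x t
  have hvc : ∀ y, Continuous (fun t => v (y, t)) := fun y =>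
    hv.cont.comp (continuous_const.prodMk continuous_id)
  have hzero : ∫ t in (0 : ℝ)..(2 * Real.pi), |v (x, t) - v (0, t)| ≤ 0 := by
    refine le_of_forall_pos_le_add fun η hη => ?_
    rw [zero_add]
    set R := |x| with hR
    have hR0 : 0 ≤ R := abs_nonneg _
    -- choose a
    set K := R * (Real.exp (ρ * R) * (2 * Real.pi * C)) with hK
    have hK0 : 0 ≤ K := by positivity
    have hta : Tendsto (fun a : ℝ => K * Real.exp (ρ * a)) atBot (𝓝 0) := by
      have : Tendsto (fun a : ℝ => Real.exp (ρ * a)) atBot (𝓝 0) :=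
        Real.tendsto_exp_atBot.comp (tendsto_id.const_mul_atBot hρ)
      simpa using this.const_mul K
    obtain ⟨a, ha1, ha2⟩ := ((hta.eventually (gt_mem_nhds (show (0 : ℝ) < η / 3 by positivity))).and
      (eventually_le_atBot (-R))).exists
    have ha0 : a ≤ 0 := by linarith
    set R' := |a| with hR'
    have haR' : R' = -a := abs_of_nonpos ha0
    have hX : -(R' + R₀) ≤ R' + R₀ := by
      have := abs_nonneg a
      linarith
    have hkey := key (-(R' + R₀)) (R' + R₀) hX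
    set K2 := R * (Real.exp (ρ * R) * (Real.exp (ρ * R) / m)) with hK2
    have hK20 : 0 ≤ K2 := by positivity
    have h8 : Tendsto (fun ε => K2 * J (fun z => zt χ (-(R' + R₀)) (R' + R₀) z.1 *
        |dX (pp ρ (moll ε v)) z|) + 8 * Real.pi * C * ε) (𝓝[>] (0 : ℝ)) (𝓝 (K2 * 0 + 8 * Real.pi * C * 0)) :=
      (hkey.const_mul K2).add ((tendsto_nhdsWithin_of_tendsto_nhds tendsto_id).const_mul _)
    simp only [mul_zero, add_zero] at h8
    obtain ⟨ε, hε1, hε⟩ := ((h8.eventually (gt_mem_nhds (show (0 : ℝ) < η / 3 by positivity))).and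
      self_mem_nhdsWithin).exists
    have hε' : 0 < ε := hε
    have hw := moll_smooth hε' hv.locInt
    have hd := diff_le (C := C) (ρ := ρ) hρ hw (fun z => moll_dX_le hC0 hv hε' z)
      (zt_smooth hχ (-(R' + R₀)) (R' + R₀)).continuous (zt_cpt hχc _ _) (zt_nonneg hχ0 hX) (m := m)
      (R := R) (a := a) (x₀ := x) hmpos ha2 le_rfl (fun y hy1 hy2 => hconst R' y (by
        rw [abs_le]; constructor
        · linarith
        · rw [haR']; linarith))
    have hwc : ∀ y, Continuous (fun t => moll ε v (y, t)) := fun y =>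
      hw.cont.comp (continuous_const.prodMk continuous_id)
    have hcmp : ∫ t in (0 : ℝ)..(2 * Real.pi), |v (x, t) - v (0, t)| ≤
        ∫ t in (0 : ℝ)..(2 * Real.pi), (|moll ε v (x, t) - moll ε v (0, t)| + 4 * C * ε) := by
      refine intervalIntegral.integral_mono_on (by positivity) ?_ ?_ (fun t _ => ?_)
      · exact (((hvc x).sub (hvc 0)).abs).intervalIntegrable _ _
      · exact ((((hwc x).sub (hwc 0)).abs).add continuous_const).intervalIntegrable _ _
      · have b1 := moll_close hC0 hv hε' (x, t)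
        have b2 := moll_close hC0 hv hε' (0, t)
        have b3 : v (x, t) - v (0, t) = (moll ε v (x, t) - moll ε v (0, t)) -
            (moll ε v (x, t) - v (x, t)) + (moll ε v (0, t) - v (0, t)) := by ring
        rw [b3]
        have b4 := abs_add_le ((moll ε v (x, t) - moll ε v (0, t)) -
            (moll ε v (x, t) - v (x, t))) (moll ε v (0, t) - v (0, t))
        have b5 := abs_sub (moll ε v (x, t) - moll ε v (0, t)) (moll ε v (x, t) - v (x, t))
        linarith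
    have hi1 : IntervalIntegrable (fun t => |moll ε v (x, t) - moll ε v (0, t)|) volume 0 (2 * Real.pi) :=
      (((hwc x).sub (hwc 0)).abs).intervalIntegrable _ _
    rw [intervalIntegral.integral_add hi1 intervalIntegrable_const] at hcmp
    simp only [intervalIntegral.integral_const, sub_zero, smul_eq_mul] at hcmp
    have e1 : R * (Real.exp (ρ * R) * (2 * Real.pi * (C * Real.exp (ρ * a)) +
        Real.exp (ρ * R) / m * J (fun z => zt χ (-(R' + R₀)) (R' + R₀) z.1 * |dX (pp ρ (moll ε v)) z|))) =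
        K * Real.exp (ρ * a) + K2 * J (fun z => zt χ (-(R' + R₀)) (R' + R₀) z.1 * |dX (pp ρ (moll ε v)) z|) := by
      rw [hK, hK2]; ring
    rw [e1] at hd
    linarith
  have hnn : ∀ t, 0 ≤ |v (x, t) - v (0, t)| := fun t => abs_nonneg _
  have hc : Continuous (fun t => |v (x, t) - v (0, t)|) := ((hvc x).sub (hvc 0)).abs
  have hz : ∀ s ∈ Set.Icc (0 : ℝ) (2 * Real.pi), |v (x, s) - v (0, s)| = 0 := by
    intro s hs
    by_contra hne
    have hpos : 0 < ∫ t in (0 : ℝ)..(2 * Real.pi), |v (x, t) - v (0, t)| := by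
      refine intervalIntegral.integral_pos (by positivity) hc.continuousOn (fun t _ => hnn t) ?_
      exact ⟨s, hs, lt_of_le_of_ne (hnn s) (Ne.symm hne)⟩
    linarith
  have hper : Function.Periodic (fun t => v (x, t) - v (0, t)) (2 * Real.pi) := by
    intro s
    simp only
    rw [hv.per, hv.per]
  obtain ⟨s, hs, hse⟩ := hper.exists_mem_Ico₀ (by positivity) t
  have h9 := hz s ⟨hs.1, hs.2.le⟩
  have h10 : v (x, t) - v (0, t) = v (x, s) - v (0, s) := hse
  rw [abs_eq_zero] at h9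
  linarith

end

end Pool.Agent.Helper31.LS
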