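import Pool.Agent.Helper42.Fr.Cls

set_option autoImplicit false

open MeasureTheory Filter Topology

namespace Pool.Agent.Helper31.LS

open Pool.Agent.Helper42.Fr

/-- the partial derivative of `Theta` in `p`. -/
noncomputable def Thp (ρ : ℝ) (k : ℝ → ℝ) (p q : ℝ) : ℝ :=
  (ρ ^ 2)⁻¹ * ∫ τ in (0 : ℝ)..q, deriv k ((p ^ 2 + τ ^ 2) / ρ ^ 2) * (2 * p / ρ ^ 2)

section
variable {ρ : ℝ} {k : ℝ → ℝ}

lemma Theta_dq (hk : Continuous k) (p q : ℝ) :
    HasDerivAt (fun q => Theta ρ k p q) ((ρ ^ 2)⁻¹ * k ((p ^ 2 + q ^ 2) / ρ ^ 2)) q := by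
  unfold Theta
  have h1 : Continuous (fun τ => k ((p ^ 2 + τ ^ 2) / ρ ^ 2)) := by fun_prop
  exact (h1.integral_hasStrictDerivAt 0 q).hasDerivAt.const_mul _

lemma Theta_dp (hk : ContDiff ℝ (⊤ : ℕ∞) k) (p q : ℝ) :
    HasDerivAt (fun p => Theta ρ k p q) (Thp ρ k p q) p := by
  have hkd : Continuous (deriv k) := hk.continuous_deriv (by simp)
  have hkdiff : Differentiable ℝ k := hk.differentiable (by simp)
  unfold Theta Thp
  have hF' : Continuous (fun x : ℝ × ℝ => deriv k ((x.1 ^ 2 + x.2 ^ 2) / ρ ^ 2) * (2 * x.1 / ρ ^ 2)) := by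
    fun_prop
  obtain ⟨M, hM⟩ := ((isCompact_closedBall p 1).prod (isCompact_uIcc (a := (0 : ℝ)) (b := q))).exists_bound_of_continuousOn
    hF'.continuousOn
  refine (intervalIntegral.hasDerivAt_integral_of_dominated_loc_of_deriv_le
    (F := fun p τ => k ((p ^ 2 + τ ^ 2) / ρ ^ 2))
    (F' := fun p τ => deriv k ((p ^ 2 + τ ^ 2) / ρ ^ 2) * (2 * p / ρ ^ 2))
    (bound := fun _ => M) (Metric.closedBall_mem_nhds p one_pos) ?_ ?_ ?_ ?_ ?_ ?_).2.const_mul _
  · refine Eventually.of_forall fun x => ?_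
    have : Continuous (fun τ => k ((x ^ 2 + τ ^ 2) / ρ ^ 2)) := by
      have := hk.continuous
      fun_prop
    exact this.aestronglyMeasurable
  · have : Continuous (fun τ => k ((p ^ 2 + τ ^ 2) / ρ ^ 2)) := by
      have := hk.continuous
      fun_prop
    exact this.intervalIntegrable _ _
  · have : Continuous (fun τ => deriv k ((p ^ 2 + τ ^ 2) / ρ ^ 2) * (2 * p / ρ ^ 2)) := by
      fun_prop
    exact this.aestronglyMeasurable
  · refine Eventually.of_forall fun τ hτ x hx => ?_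
    exact hM (x, τ) ⟨hx, Set.uIoc_subset_uIcc hτ⟩
  · exact intervalIntegrable_const
  · refine Eventually.of_forall fun τ hτ x hx => ?_
    have h1 : HasDerivAt (fun x : ℝ => (x ^ 2 + τ ^ 2) / ρ ^ 2) (2 * x / ρ ^ 2) x := by
      have := ((hasDerivAt_pow 2 x).add_const (τ ^ 2)).div_const (ρ ^ 2)
      simpa using this
    exact (hkdiff _).hasDerivAt.comp x h1

lemma Thp_cont (hk : ContDiff ℝ (⊤ : ℕ∞) k) : Continuous (fun z : ℝ × ℝ => Thp ρ k z.1 z.2) := by
  have hkd : Continuous (deriv k) := hk.continuous_deriv (by simp)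
  unfold Thp
  refine continuous_const.mul ?_
  have := intervalIntegral.continuous_parametric_intervalIntegral_of_continuous (μ := volume)
    (X := ℝ × ℝ) (f := fun z τ => deriv k ((z.1 ^ 2 + τ ^ 2) / ρ ^ 2) * (2 * z.1 / ρ ^ 2)) (a₀ := 0)
    (s := fun z => z.2) (by fun_prop) continuous_snd
  exact this

lemma tss_cont {X : Type*} [TopologicalSpace X] {f : X → ℝ} (hf : Continuous f) :
    Continuous (fun x => ContinuousLinearMap.toSpanSingleton ℝ (f x)) := by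
  have : (fun x => ContinuousLinearMap.toSpanSingleton ℝ (f x)) =
      fun x => f x • ContinuousLinearMap.toSpanSingleton ℝ (1 : ℝ) := by
    funext x
    ext
    simp
  rw [this]
  exact hf.smul continuous_const

lemma Theta_hasFDerivAt (hk : ContDiff ℝ (⊤ : ℕ∞) k) (z : ℝ × ℝ) :
    HasStrictFDerivAt (fun z : ℝ × ℝ => Theta ρ k z.1 z.2)
      ((ContinuousLinearMap.toSpanSingleton ℝ (Thp ρ k z.1 z.2)).coprod
        (ContinuousLinearMap.toSpanSingleton ℝ ((ρ ^ 2)⁻¹ * k ((z.1 ^ 2 + z.2 ^ 2) / ρ ^ 2)))) z := by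
  have := hasStrictFDerivAt_uncurry_coprod (𝕜 := ℝ) (u := z) (f := fun p q => Theta ρ k p q)
    (f₁ := fun p q => ContinuousLinearMap.toSpanSingleton ℝ (Thp ρ k p q))
    (f₂ := fun p q => ContinuousLinearMap.toSpanSingleton ℝ ((ρ ^ 2)⁻¹ * k ((p ^ 2 + q ^ 2) / ρ ^ 2)))
    ?_ ?_ ?_ ?_
  · exact this
  · refine Eventually.of_forall fun v => ?_
    exact (Theta_dp hk v.1 v.2).hasFDerivAt
  · refine Eventually.of_forall fun v => ?_
    exact (Theta_dq hk.continuous v.1 v.2).hasFDerivAt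
  · have h1 : Continuous (fun z : ℝ × ℝ => ContinuousLinearMap.toSpanSingleton ℝ (Thp ρ k z.1 z.2)) :=
      tss_cont (Thp_cont hk)
    exact h1.continuousAt
  · have hc : Continuous (fun z : ℝ × ℝ => (ρ ^ 2)⁻¹ * k ((z.1 ^ 2 + z.2 ^ 2) / ρ ^ 2)) := by
      have := hk.continuous
      fun_prop
    have h1 : Continuous (fun z : ℝ × ℝ => ContinuousLinearMap.toSpanSingleton ℝ
        ((ρ ^ 2)⁻¹ * k ((z.1 ^ 2 + z.2 ^ 2) / ρ ^ 2))) :=
      tss_cont hc
    exact h1.continuousAt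

lemma Theta_comp (hk : ContDiff ℝ (⊤ : ℕ∞) k) {a b : ℝ → ℝ} {a' b' s : ℝ}
    (ha : HasDerivAt a a' s) (hb : HasDerivAt b b' s) :
    HasDerivAt (fun s => Theta ρ k (a s) (b s))
      (Thp ρ k (a s) (b s) * a' + (ρ ^ 2)⁻¹ * k ((a s ^ 2 + b s ^ 2) / ρ ^ 2) * b') s := by
  have h1 := (Theta_hasFDerivAt (ρ := ρ) hk (a s, b s)).hasFDerivAt
  have h2 := h1.comp_hasDerivAt s (ha.prodMk hb)
  refine h2.congr_deriv ?_
  simp
  ring

lemma Theta_cont (hk : Continuous k) : Continuous (fun z : ℝ × ℝ => Theta ρ k z.1 z.2) := by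
  unfold Theta
  refine continuous_const.mul ?_
  exact intervalIntegral.continuous_parametric_intervalIntegral_of_continuous (μ := volume)
    (X := ℝ × ℝ) (f := fun z τ => k ((z.1 ^ 2 + τ ^ 2) / ρ ^ 2)) (a₀ := 0)
    (s := fun z => z.2) (by fun_prop) continuous_snd

lemma KK_comp (hk : Continuous k) {a b : ℝ → ℝ} {a' b' s : ℝ}
    (ha : HasDerivAt a a' s) (hb : HasDerivAt b b' s) :
    HasDerivAt (fun s => KK k ((a s ^ 2 + b s ^ 2) / ρ ^ 2))
      (k ((a s ^ 2 + b s ^ 2) / ρ ^ 2) * ((2 * a s * a' + 2 * b s * b') / ρ ^ 2)) s := by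
  have h1 : HasDerivAt (KK k) (k ((a s ^ 2 + b s ^ 2) / ρ ^ 2)) ((a s ^ 2 + b s ^ 2) / ρ ^ 2) :=
    (hk.integral_hasStrictDerivAt 0 _).hasDerivAt
  have h2 : HasDerivAt (fun s => (a s ^ 2 + b s ^ 2) / ρ ^ 2) ((2 * a s * a' + 2 * b s * b') / ρ ^ 2) s := by
    have := ((ha.pow 2).add (hb.pow 2)).div_const (ρ ^ 2)
    simpa using this
  exact h1.comp s h2

lemma KK_cont (hk : Continuous k) : Continuous (KK k) :=
  intervalIntegral.continuous_primitive (fun _ _ => hk.intervalIntegrable _ _) 0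

end

/-- `p = rho v + v_x`. -/
noncomputable def pp (ρ : ℝ) (v : ℝ × ℝ → ℝ) (z : ℝ × ℝ) : ℝ := ρ * v z + dX v z

/-- squared radius `(p^2+q^2)/rho^2`. -/
noncomputable def rd (ρ : ℝ) (v : ℝ × ℝ → ℝ) (z : ℝ × ℝ) : ℝ := ((pp ρ v z) ^ 2 + (dT v z) ^ 2) / ρ ^ 2

/-- dissipation density. -/
noncomputable def DD (ρ : ℝ) (k : ℝ → ℝ) (v : ℝ × ℝ → ℝ) (z : ℝ × ℝ) : ℝ :=
  (ρ ^ 2)⁻¹ * (k (rd ρ v z) * ((dX (dT v) z) ^ 2 + (dX (pp ρ v) z) ^ 2 - dX (pp ρ v) z * Lop ρ v z))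

section
variable {ρ : ℝ} {k : ℝ → ℝ} {v : ℝ × ℝ → ℝ}

lemma pp_sm (hv : Sm v) : Sm (pp ρ v) := (hv.const_mul ρ).add hv.dX

lemma pp_per (hp : Per v) : Per (pp ρ v) := (hp.const_mul ρ).add hp.dX

lemma dT_pp (hv : Sm v) : dT (pp ρ v) = fun z => ρ * dT v z + dT (dX v) z := by
  unfold pp
  rw [dT_add (hv.const_mul ρ) hv.dX, dT_const_mul ρ hv]

lemma dX_pp (hv : Sm v) : dX (pp ρ v) = fun z => ρ * dX v z + dX (dX v) z := by
  unfold pp
  rw [dX_add (hv.const_mul ρ) hv.dX, dX_const_mul ρ hv]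

lemma FF_eq (hv : Sm v) : FF ρ k v = fun z => -(ρ / 2) * KK k (rd ρ v z) +
    Theta ρ k (pp ρ v z) (dT v z) * dT (pp ρ v) z := by
  funext z
  rw [dT_pp hv]
  rfl

lemma FF_cont (hk : Continuous k) (hv : Sm v) : Continuous (FF ρ k v) := by
  rw [FF_eq hv]
  have h1 := (pp_sm (ρ := ρ) hv)
  have h2 : Continuous (rd ρ v) := by
    unfold rd
    exact (((h1.cont.pow 2).add (hv.dT.cont.pow 2)).div_const _)
  exact (continuous_const.mul ((KK_cont hk).comp h2)).add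
    (((Theta_cont hk).comp (h1.cont.prodMk hv.dT.cont)).mul h1.dT.cont)

lemma rd_cont (hv : Sm v) : Continuous (rd ρ v) := by
  unfold rd
  exact ((((pp_sm (ρ := ρ) hv).cont.pow 2).add (hv.dT.cont.pow 2)).div_const _)

lemma DD_cont (hk : Continuous k) (hv : Sm v) : Continuous (DD ρ k v) := by
  have h1 := (pp_sm (ρ := ρ) hv)
  unfold DD
  exact continuous_const.mul ((hk.comp (rd_cont hv)).mul (((hv.dT.dX.cont.pow 2).add (h1.dX.cont.pow 2)).sub
    (h1.dX.cont.mul (Lop_smooth ρ hv).cont)))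

/-- value of the x-derivative of the density. -/
noncomputable def FX (ρ : ℝ) (k : ℝ → ℝ) (v : ℝ × ℝ → ℝ) (z : ℝ × ℝ) : ℝ :=
  -(ρ / 2) * (k (rd ρ v z) * ((2 * pp ρ v z * dX (pp ρ v) z + 2 * dT v z * dX (dT v) z) / ρ ^ 2)) +
  ((Thp ρ k (pp ρ v z) (dT v z) * dX (pp ρ v) z + (ρ ^ 2)⁻¹ * k (rd ρ v z) * dX (dT v) z) * dT (pp ρ v) z +
    Theta ρ k (pp ρ v z) (dT v z) * dX (dT (pp ρ v)) z)

/-- value of the t-derivative of `Theta * p_x`. -/
noncomputable def GT (ρ : ℝ) (k : ℝ → ℝ) (v : ℝ × ℝ → ℝ) (z : ℝ × ℝ) : ℝ :=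
  (Thp ρ k (pp ρ v z) (dT v z) * dT (pp ρ v) z + (ρ ^ 2)⁻¹ * k (rd ρ v z) * dT (dT v) z) * dX (pp ρ v) z +
    Theta ρ k (pp ρ v z) (dT v z) * dT (dX (pp ρ v)) z

lemma hasDerivAt_FF (hk : ContDiff ℝ (⊤ : ℕ∞) k) (hv : Sm v) (x t : ℝ) :
    HasDerivAt (fun y => FF ρ k v (y, t)) (FX ρ k v (x, t)) x := by
  have h1 := (pp_sm (ρ := ρ) hv)
  rw [FF_eq hv]
  have hp := h1.hX x t
  have hq := hv.dT.hX x t
  have hr := h1.dT.hX x t
  have hK := (KK_comp (ρ := ρ) hk.continuous hp hq).const_mul (-(ρ / 2))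
  have hT := (Theta_comp (ρ := ρ) hk hp hq).mul hr
  exact hK.add hT

lemma hasDerivAt_G (hk : ContDiff ℝ (⊤ : ℕ∞) k) (hv : Sm v) (x t : ℝ) :
    HasDerivAt (fun s => Theta ρ k (pp ρ v (x, s)) (dT v (x, s)) * dX (pp ρ v) (x, s))
      (GT ρ k v (x, t)) t := by
  have h1 := (pp_sm (ρ := ρ) hv)
  have hp := h1.hT x t
  have hq := hv.dT.hT x t
  have hr := h1.dX.hT x t
  exact (Theta_comp (ρ := ρ) hk hp hq).mul hr

lemma FX_eq (hρ : ρ ≠ 0) (hv : Sm v) (z : ℝ × ℝ) : FX ρ k v z = DD ρ k v z + GT ρ k v z := by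
  have h1 := (pp_sm (ρ := ρ) hv)
  have e1 : dX (dT (pp ρ v)) z = dT (dX (pp ρ v)) z := by rw [dT_dX_comm h1]
  have e2 : dT (pp ρ v) z = ρ * dT v z + dX (dT v) z := by
    rw [dT_pp hv, dT_dX_comm hv]
  have e3 : dT (dT v) z = Lop ρ v z - dX (pp ρ v) z - ρ * pp ρ v z := by
    rw [dX_pp hv]
    unfold Lop pp
    ring
  unfold FX DD GT
  rw [e1, e2, e3]
  field_simp
  ring

lemma FX_cont (hk : ContDiff ℝ (⊤ : ℕ∞) k) (hv : Sm v) : Continuous (FX ρ k v) := by
  have h1 := (pp_sm (ρ := ρ) hv)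
  have c0 : Continuous (fun z => k (rd ρ v z)) := hk.continuous.comp (rd_cont hv)
  have c1 : Continuous (fun z => Thp ρ k (pp ρ v z) (dT v z)) := (Thp_cont hk).comp (h1.cont.prodMk hv.dT.cont)
  have c2 : Continuous (fun z => Theta ρ k (pp ρ v z) (dT v z)) :=
    (Theta_cont hk.continuous).comp (h1.cont.prodMk hv.dT.cont)
  have c3 := h1.cont
  have c4 := h1.dX.cont
  have c5 := hv.dT.cont
  have c6 := hv.dT.dX.cont
  have c7 := h1.dT.cont
  have c8 := h1.dT.dX.cont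
  unfold FX
  refine (continuous_const.mul (c0.mul ((((continuous_const.mul c3).mul c4).add
    ((continuous_const.mul c5).mul c6)).div_const _))).add
    ((((c1.mul c4).add ((continuous_const.mul c0).mul c6)).mul c7).add (c2.mul c8))

lemma GT_cont (hk : ContDiff ℝ (⊤ : ℕ∞) k) (hv : Sm v) : Continuous (GT ρ k v) := by
  have h1 := (pp_sm (ρ := ρ) hv)
  have c0 : Continuous (fun z => k (rd ρ v z)) := hk.continuous.comp (rd_cont hv)
  have c1 : Continuous (fun z => Thp ρ k (pp ρ v z) (dT v z)) := (Thp_cont hk).comp (h1.cont.prodMk hv.dT.cont)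
  have c2 : Continuous (fun z => Theta ρ k (pp ρ v z) (dT v z)) :=
    (Theta_cont hk.continuous).comp (h1.cont.prodMk hv.dT.cont)
  have c3 := h1.cont
  have c4 := h1.dX.cont
  have c5 := hv.dT.cont
  have c6 := hv.dT.dT.cont
  have c7 := h1.dT.cont
  have c8 := h1.dX.dT.cont
  unfold GT
  exact ((((c1.mul c7).add ((continuous_const.mul c0).mul c6)).mul c4)).add (c2.mul c8)

lemma FF_per (hp : Per v) : Per (FF ρ k v) := by
  intro x t
  unfold FF
  have e1 := hp x t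
  have e2 := hp.dX x t
  have e3 := hp.dT x t
  have e4 := hp.dX.dT x t
  simp only [e1, e2, e3, e4]

/-- **(A8)** the dissipation identity, tested with a compactly supported function of x. -/
theorem dissip (hρ : ρ ≠ 0) (hk : ContDiff ℝ (⊤ : ℕ∞) k) (hv : Sm v) (hp : Per v) {ζ : ℝ → ℝ}
    (hζ : ContDiff ℝ (⊤ : ℕ∞) ζ) (hζc : HasCompactSupport ζ) :
    J (fun z => deriv ζ z.1 * FF ρ k v z) = - J (fun z => ζ z.1 * DD ρ k v z) := by
  have h1 := (pp_sm (ρ := ρ) hv)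
  have hζd : Continuous (deriv ζ) := hζ.continuous_deriv (by simp)
  have cζ : CX (fun z : ℝ × ℝ => ζ z.1) := CX.of_fst hζc hζ.continuous
  have cζ' : CX (fun z : ℝ × ℝ => deriv ζ z.1) := CX.of_fst hζc.deriv hζd
  have cFF := FF_cont (ρ := ρ) hk.continuous hv
  have cFX := FX_cont (ρ := ρ) hk hv
  have cGT := GT_cont (ρ := ρ) hk hv
  have cDD := DD_cont (ρ := ρ) hk.continuous hv
  -- x-derivative
  have hA : CX (fun z : ℝ × ℝ => deriv ζ z.1 * FF ρ k v z + ζ z.1 * FX ρ k v z) ∧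
      J (fun z : ℝ × ℝ => deriv ζ z.1 * FF ρ k v z + ζ z.1 * FX ρ k v z) = 0 := by
    refine J_dX (F := fun z => ζ z.1 * FF ρ k v z) (cζ.xs.mul_left _) (fun x t => ?_) ?_
    · exact ((hζ.differentiable (by simp) x).hasDerivAt).mul (hasDerivAt_FF hk hv x t)
    · have c1 := cζ.cont
      have c2 := cζ'.cont
      fun_prop
  have hB : CX (fun z : ℝ × ℝ => ζ z.1 * GT ρ k v z) ∧ J (fun z : ℝ × ℝ => ζ z.1 * GT ρ k v z) = 0 := by
    refine J_dT (F := fun z => ζ z.1 * (Theta ρ k (pp ρ v z) (dT v z) * dX (pp ρ v) z))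
      (cζ.xs.mul_left _) ?_ (fun x t => ?_) (cζ.cont.mul cGT)
    · intro x t
      have e1 := pp_per (ρ := ρ) hp x t
      have e2 := (pp_per (ρ := ρ) hp).dX x t
      have e3 := hp.dT x t
      simp only [e1, e2, e3]
    · exact (hasDerivAt_G hk hv x t).const_mul (ζ x)
  have hC : J (fun z : ℝ × ℝ => deriv ζ z.1 * FF ρ k v z + ζ z.1 * FX ρ k v z) =
      J (fun z : ℝ × ℝ => deriv ζ z.1 * FF ρ k v z) + J (fun z : ℝ × ℝ => ζ z.1 * FX ρ k v z) :=
    J_add (cζ'.mul cFF) (cζ.mul cFX)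
  have hD : J (fun z : ℝ × ℝ => ζ z.1 * FX ρ k v z) =
      J (fun z : ℝ × ℝ => ζ z.1 * DD ρ k v z) + J (fun z : ℝ × ℝ => ζ z.1 * GT ρ k v z) := by
    rw [← J_add (cζ.mul cDD) (cζ.mul cGT)]
    congr 1
    funext z
    rw [FX_eq hρ hv z]; ring
  rw [hC, hD, hB.2] at hA
  linarith [hA.2]

/-- the functional as an integral over the strip. -/
lemma Lam_eq_J (hk : Continuous k) (hv : Sm v) {χ : ℝ → ℝ} (hχ : Continuous χ) (hχc : HasCompactSupport χ) :
    Lam ρ k χ v = J (fun z => χ z.1 * FF ρ k v z) := by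
  rw [J_eq ((CX.of_fst hχc hχ).mul (FF_cont hk hv))]
  rfl

lemma FF_shift (hv : Sm v) (X : ℝ) : FF ρ k (shift X v) = shift X (FF ρ k v) := by
  funext z
  unfold FF
  rw [dX_shift hv, dT_shift hv, dT_shift hv.dX]
  rfl

lemma Lam_shift (hk : Continuous k) (hv : Sm v) {χ : ℝ → ℝ} (hχ : Continuous χ) (hχc : HasCompactSupport χ)
    (X : ℝ) : Lam ρ k χ (shift X v) = J (fun z => χ (z.1 - X) * FF ρ k v z) := by
  rw [Lam_eq_J hk (hv.shift X) hχ hχc, FF_shift hv]
  have h1 : CX (fun z : ℝ × ℝ => χ (z.1 - X) * FF ρ k v z) := by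
    have : HasCompactSupport (fun x => χ (x - X)) := by
      have := hχc.comp_homeomorph (Homeomorph.addRight (-X))
      simpa [Function.comp_def, sub_eq_add_neg] using this
    exact (CX.of_fst this (by fun_prop)).mul (FF_cont hk hv)
  rw [← J_shift h1 X]
  congr 1
  funext z
  simp [shift]

/-- difference of two translates of the functional as an integral of the dissipation. -/
theorem Lam_shift_sub (hρ : ρ ≠ 0) (hk : ContDiff ℝ (⊤ : ℕ∞) k) (hv : Sm v) (hp : Per v) {χ : ℝ → ℝ}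
    (hχ : ContDiff ℝ (⊤ : ℕ∞) χ) (hχc : HasCompactSupport χ) (X₁ X₂ : ℝ) :
    Lam ρ k χ (shift X₂ v) - Lam ρ k χ (shift X₁ v) =
      J (fun z => (∫ s in (z.1 - X₂)..(z.1 - X₁), χ s) * DD ρ k v z) := by
  set ζ : ℝ → ℝ := fun x => ∫ s in (x - X₂)..(x - X₁), χ s with hζ
  have hc := hχ.continuous
  have hζ2 : ζ = fun x => (∫ s in (0 : ℝ)..(x - X₁), χ s) - ∫ s in (0 : ℝ)..(x - X₂), χ s := by
    funext x
    rw [hζ]
    simp only
    rw [intervalIntegral.integral_interval_sub_left (hc.intervalIntegrable _ _) (hc.intervalIntegrable _ _)]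
  have hW : ContDiff ℝ (⊤ : ℕ∞) (fun x => ∫ s in (0 : ℝ)..x, χ s) := by
    have hd : deriv (fun x => ∫ s in (0 : ℝ)..x, χ s) = χ := by
      funext x
      exact hc.deriv_integral _ _ _
    rw [contDiff_infty_iff_deriv]
    refine ⟨fun x => ?_, ?_⟩
    · exact (hc.integral_hasStrictDerivAt 0 x).hasDerivAt.differentiableAt
    · rw [hd]; exact hχ
  have hζs : ContDiff ℝ (⊤ : ℕ∞) ζ := by
    rw [hζ2]
    exact (hW.comp (contDiff_id.sub contDiff_const)).sub (hW.comp (contDiff_id.sub contDiff_const))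
  have hζd : ∀ x, deriv ζ x = χ (x - X₁) - χ (x - X₂) := by
    intro x
    rw [hζ2]
    have h1 : ∀ X, HasDerivAt (fun x => ∫ s in (0 : ℝ)..(x - X), χ s) (χ (x - X)) x := by
      intro X
      have := (hc.integral_hasStrictDerivAt 0 (x - X)).hasDerivAt.comp x ((hasDerivAt_id x).sub_const X)
      rw [mul_one] at this
      exact this
    exact ((h1 X₁).sub (h1 X₂)).deriv
  have hζc : HasCompactSupport ζ := by
    obtain ⟨R, hR⟩ := hχc.isBounded.subset_closedBall (0 : ℝ)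
    have hz : ∀ s, R < |s| → χ s = 0 := by
      intro s hs
      by_contra hne
      have : s ∈ tsupport χ := subset_tsupport _ hne
      have := hR this
      simp at this
      linarith
    refine HasCompactSupport.of_support_subset_isCompact
      (isCompact_Icc (a := -(R + |X₁| + |X₂|)) (b := R + |X₁| + |X₂|)) ?_
    intro x hx
    by_contra hcon
    apply hx
    rw [hζ]
    simp only
    have hb1 := abs_nonneg X₁
    have hb2 := abs_nonneg X₂
    have hb3 := neg_abs_le X₁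
    have hb4 := neg_abs_le X₂
    have hb5 := le_abs_self X₁
    have hb6 := le_abs_self X₂
    have : ∀ s ∈ Set.uIcc (x - X₂) (x - X₁), χ s = 0 := by
      intro s hs
      apply hz
      rw [Set.mem_Icc, not_and_or, not_le, not_le] at hcon
      rcases hcon with h | h
      · have : s < -R := by
          rcases Set.mem_uIcc.1 hs with h' | h' <;> linarith [h'.2]
        rw [lt_abs]; right; linarith
      · have : R < s := by
          rcases Set.mem_uIcc.1 hs with h' | h' <;> linarith [h'.1]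
        rw [lt_abs]; left; linarith
    rw [intervalIntegral.integral_congr (g := fun _ => 0) this]
    simp
  have hmain := dissip (ρ := ρ) hρ hk hv hp hζs hζc
  rw [Lam_shift hk.continuous hv hc hχc, Lam_shift hk.continuous hv hc hχc]
  have hcx : ∀ X, CX (fun z : ℝ × ℝ => χ (z.1 - X) * FF ρ k v z) := by
    intro X
    have : HasCompactSupport (fun x => χ (x - X)) := by
      have := hχc.comp_homeomorph (Homeomorph.addRight (-X))
      simpa [Function.comp_def, sub_eq_add_neg] using this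
    exact (CX.of_fst this (by fun_prop)).mul (FF_cont hk.continuous hv)
  rw [← J_sub (hcx X₂) (hcx X₁)]
  have e : (fun z : ℝ × ℝ => χ (z.1 - X₂) * FF ρ k v z - χ (z.1 - X₁) * FF ρ k v z) =
      fun z => - (deriv ζ z.1 * FF ρ k v z) := by
    funext z
    rw [hζd]; ring
  rw [e, J_neg, hmain]
  ring

end

end Pool.Agent.Helper31.LS
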