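import Pool.Agent.Helper31.LS.A10

set_option autoImplicit false

open MeasureTheory Filter Topology

namespace Pool.Agent.Helper31.LS

open Pool.Agent.Helper42.Fr

section
variable {ρ κ : ℝ} {k : ℝ → ℝ}

lemma KK_lip (hk : Continuous k) (hκ : ∀ s, |k s| ≤ κ) (s s' : ℝ) :
    |KK k s - KK k s'| ≤ κ * |s - s'| := by
  unfold KK
  rw [intervalIntegral.integral_interval_sub_left (hk.intervalIntegrable _ _) (hk.intervalIntegrable _ _)]
  have := intervalIntegral.norm_integral_le_of_norm_le_const (a := s') (b := s) (f := k) (C := κ)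
    (fun x _ => by rw [Real.norm_eq_abs]; exact hκ x)
  rwa [Real.norm_eq_abs] at this

lemma Theta_bound (hκ : ∀ s, |k s| ≤ κ) (p q : ℝ) :
    |Theta ρ k p q| ≤ (ρ ^ 2)⁻¹ * (κ * |q|) := by
  unfold Theta
  rw [abs_mul, abs_of_nonneg (by positivity : (0 : ℝ) ≤ (ρ ^ 2)⁻¹)]
  refine mul_le_mul_of_nonneg_left ?_ (by positivity)
  have := intervalIntegral.norm_integral_le_of_norm_le_const (a := 0) (b := q)
    (f := fun τ => k ((p ^ 2 + τ ^ 2) / ρ ^ 2)) (C := κ) (fun x _ => by rw [Real.norm_eq_abs]; exact hκ _)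
  rw [Real.norm_eq_abs, sub_zero] at this
  exact this

lemma Thp_bound (hκ : ∀ s, |deriv k s| ≤ κ) (p q : ℝ) :
    |Thp ρ k p q| ≤ (ρ ^ 2)⁻¹ * (κ * (2 * |p| / ρ ^ 2) * |q|) := by
  unfold Thp
  rw [abs_mul, abs_of_nonneg (by positivity : (0 : ℝ) ≤ (ρ ^ 2)⁻¹)]
  refine mul_le_mul_of_nonneg_left ?_ (by positivity)
  have := intervalIntegral.norm_integral_le_of_norm_le_const (a := 0) (b := q)
    (f := fun τ => deriv k ((p ^ 2 + τ ^ 2) / ρ ^ 2) * (2 * p / ρ ^ 2)) (C := κ * (2 * |p| / ρ ^ 2))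
    (fun x _ => by
      rw [Real.norm_eq_abs, abs_mul, abs_div, abs_mul, abs_of_nonneg (by norm_num : (0 : ℝ) ≤ 2),
        abs_of_nonneg (by positivity : (0 : ℝ) ≤ ρ ^ 2)]
      exact mul_le_mul_of_nonneg_right (hκ _) (by positivity))
  rw [Real.norm_eq_abs, sub_zero] at this
  exact this

lemma k_lip (hk : ContDiff ℝ (⊤ : ℕ∞) k) (hκ : ∀ s, |deriv k s| ≤ κ) (s s' : ℝ) :
    |k s - k s'| ≤ κ * |s - s'| := by
  have := Convex.norm_image_sub_le_of_norm_deriv_le (f := k) (s := Set.univ) (C := κ) (x := s') (y := s)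
    (fun x _ => hk.differentiable (by simp) x) (fun x _ => by rw [Real.norm_eq_abs]; exact hκ x)
    convex_univ trivial trivial
  simpa [Real.norm_eq_abs] using this

lemma Theta_lip (hk : ContDiff ℝ (⊤ : ℕ∞) k) (hκ : ∀ s, |k s| ≤ κ) (hκ' : ∀ s, |deriv k s| ≤ κ)
    (p q p' q' : ℝ) : |Theta ρ k p q - Theta ρ k p' q'| ≤
      (ρ ^ 2)⁻¹ * (κ * (|p ^ 2 - p' ^ 2| / ρ ^ 2) * |q| + κ * |q - q'|) := by
  have hc : ∀ p : ℝ, Continuous fun τ => k ((p ^ 2 + τ ^ 2) / ρ ^ 2) := fun p => by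
    have := hk.continuous
    fun_prop
  have e : Theta ρ k p q - Theta ρ k p' q' = (ρ ^ 2)⁻¹ *
      ((∫ τ in (0 : ℝ)..q, (k ((p ^ 2 + τ ^ 2) / ρ ^ 2) - k ((p' ^ 2 + τ ^ 2) / ρ ^ 2))) +
        ∫ τ in q'..q, k ((p' ^ 2 + τ ^ 2) / ρ ^ 2)) := by
    unfold Theta
    rw [intervalIntegral.integral_sub ((hc p).intervalIntegrable _ _) ((hc p').intervalIntegrable _ _),
      ← intervalIntegral.integral_interval_sub_left ((hc p').intervalIntegrable 0 q)
        ((hc p').intervalIntegrable 0 q')]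
    ring
  rw [e, abs_mul, abs_of_nonneg (by positivity : (0 : ℝ) ≤ (ρ ^ 2)⁻¹)]
  refine mul_le_mul_of_nonneg_left ((abs_add_le _ _).trans (add_le_add ?_ ?_)) (by positivity)
  · have := intervalIntegral.norm_integral_le_of_norm_le_const (a := 0) (b := q)
      (f := fun τ => k ((p ^ 2 + τ ^ 2) / ρ ^ 2) - k ((p' ^ 2 + τ ^ 2) / ρ ^ 2))
      (C := κ * (|p ^ 2 - p' ^ 2| / ρ ^ 2))
      (fun x _ => by
        rw [Real.norm_eq_abs]
        refine (k_lip hk hκ' _ _).trans (le_of_eq ?_)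
        rw [← sub_div, abs_div, abs_of_nonneg (by positivity : (0 : ℝ) ≤ ρ ^ 2)]
        congr 3
        ring)
    rw [Real.norm_eq_abs, sub_zero] at this
    exact this
  · have := intervalIntegral.norm_integral_le_of_norm_le_const (a := q') (b := q)
      (f := fun τ => k ((p' ^ 2 + τ ^ 2) / ρ ^ 2)) (C := κ) (fun x _ => by rw [Real.norm_eq_abs]; exact hκ _)
    rwa [Real.norm_eq_abs] at this

end

/-- smooth periodic functions with first order bounds. -/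
structure Bd (C : ℝ) (w : ℝ × ℝ → ℝ) : Prop where
  sm : Sm w
  per : Per w
  b0 : ∀ z, |w z| ≤ C
  bX : ∀ z, |dX w z| ≤ C
  bT : ∀ z, |dT w z| ≤ C

section
variable {ρ κ C : ℝ} {k : ℝ → ℝ}

/-- comparison of the functional on two smooth functions. -/
theorem Lam_compare (hρ : 0 < ρ) (hC : 0 ≤ C) (hκ0 : 0 ≤ κ) : ∃ c : ℝ, 0 ≤ c ∧
    ∀ k : ℝ → ℝ, ContDiff ℝ (⊤ : ℕ∞) k → (∀ s, |k s| ≤ κ) → (∀ s, |deriv k s| ≤ κ) →
    ∀ w w' : ℝ × ℝ → ℝ, Bd C w → Bd C w' →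
    ∀ χ χ₂ : ℝ → ℝ, ContDiff ℝ (⊤ : ℕ∞) χ → HasCompactSupport χ → Continuous χ₂ → HasCompactSupport χ₂ →
    (∀ x, |χ x| ≤ χ₂ x) → (∀ x, |deriv χ x| ≤ χ₂ x) →
    |Lam ρ k χ w - Lam ρ k χ w'| ≤ c * J (fun z => χ₂ z.1 *
      ((1 + |dX (dT w) z| + |dX (pp ρ w') z| + |dX (dT w') z|) *
        (|w z - w' z| + |dX w z - dX w' z| + |dT w z - dT w' z|))) := by
  set B := (ρ + 1) * C with hB
  have hB0 : 0 ≤ B := by positivity
  have hCB : C ≤ B := by rw [hB]; nlinarith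
  have hρ2 : 0 < ρ ^ 2 := by positivity
  set a1 := ρ / 2 * (κ * (2 * B / ρ ^ 2) * (ρ + 1)) with ha1
  set a2 := (ρ ^ 2)⁻¹ * (κ * (2 * B / ρ ^ 2) * B + κ) * (ρ + 1) * (ρ * C + 1) with ha2
  set a3 := (ρ ^ 2)⁻¹ * (κ * B) * (ρ + 1) with ha3
  set a4 := (ρ ^ 2)⁻¹ * (κ * (2 * B / ρ ^ 2) * B) + (ρ ^ 2)⁻¹ * κ with ha4
  have ha1' : 0 ≤ a1 := by positivity
  have ha2' : 0 ≤ a2 := by positivity
  have ha3' : 0 ≤ a3 := by positivity
  have ha4' : 0 ≤ a4 := by positivity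
  refine ⟨a1 + a2 + 2 * a3 + a4, by positivity, ?_⟩
  intro k hk hκ hκ' w w' hw hw' χ χ₂ hχ hχc hχ₂ hχ₂c hle hle'
  have hχd : Continuous (deriv χ) := hχ.continuous_deriv (by simp)
  have cχ : CX (fun z : ℝ × ℝ => χ z.1) := CX.of_fst hχc hχ.continuous
  have cχ' : CX (fun z : ℝ × ℝ => deriv χ z.1) := CX.of_fst hχc.deriv hχd
  have cχ₂ : CX (fun z : ℝ × ℝ => χ₂ z.1) := CX.of_fst hχ₂c hχ₂
  have sp := pp_sm (ρ := ρ) hw.sm
  have sp' := pp_sm (ρ := ρ) hw'.sm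
  have cFF := FF_cont (ρ := ρ) hk.continuous hw.sm
  have cFF' := FF_cont (ρ := ρ) hk.continuous hw'.sm
  have cTh' : Continuous (fun z => Theta ρ k (pp ρ w' z) (dT w' z)) :=
    (Theta_cont hk.continuous).comp (sp'.cont.prodMk hw'.sm.dT.cont)
  have cThp' : Continuous (fun z => Thp ρ k (pp ρ w' z) (dT w' z)) :=
    (Thp_cont hk).comp (sp'.cont.prodMk hw'.sm.dT.cont)
  have ck' : Continuous (fun z => k (rd ρ w' z)) := hk.continuous.comp (rd_cont hw'.sm)
  -- abbreviations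
  set b : ℝ × ℝ → ℝ := fun z => |w z - w' z| + |dX w z - dX w' z| + |dT w z - dT w' z| with hb
  set G : ℝ × ℝ → ℝ := fun z => 1 + |dX (dT w) z| + |dX (pp ρ w') z| + |dX (dT w') z| with hG
  have hbc : Continuous b := by
    have c1 := (hw.sm.cont.sub hw'.sm.cont).abs
    have c2 := (hw.sm.dX.cont.sub hw'.sm.dX.cont).abs
    have c3 := (hw.sm.dT.cont.sub hw'.sm.dT.cont).abs
    exact (c1.add c2).add c3
  have hGc : Continuous G := by
    have c1 := hw.sm.dT.dX.cont.abs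
    have c2 := sp'.dX.cont.abs
    have c3 := hw'.sm.dT.dX.cont.abs
    exact ((continuous_const.add c1).add c2).add c3
  have hb0 : ∀ z, 0 ≤ b z := fun z => by positivity
  have hG1 : ∀ z, 1 ≤ G z := fun z => by
    rw [hG]; simp only
    have h1 := abs_nonneg (dX (dT w) z)
    have h2 := abs_nonneg (dX (pp ρ w') z)
    have h3 := abs_nonneg (dX (dT w') z)
    linarith
  -- difference of second component
  set D : ℝ × ℝ → ℝ := fun z => dX (dT w) z - dX (dT w') z with hD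
  have hDc : Continuous D := hw.sm.dT.dX.cont.sub hw'.sm.dT.dX.cont
  -- integration by parts
  set S : ℝ × ℝ → ℝ := fun z => (deriv χ z.1 * Theta ρ k (pp ρ w' z) (dT w' z) +
    χ z.1 * (Thp ρ k (pp ρ w' z) (dT w' z) * dX (pp ρ w') z + (ρ ^ 2)⁻¹ * k (rd ρ w' z) * dX (dT w') z)) *
    (dT w z - dT w' z) with hS
  have hSc : CX S := by
    have c1 : Continuous (fun z : ℝ × ℝ => dT w z - dT w' z) := hw.sm.dT.cont.sub hw'.sm.dT.cont
    refine CX.mul (CX.add (cχ'.mul cTh') (cχ.mul ?_)) c1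
    exact (cThp'.mul sp'.dX.cont).add ((continuous_const.mul ck').mul hw'.sm.dT.dX.cont)
  have hTD : CX (fun z => χ z.1 * (Theta ρ k (pp ρ w' z) (dT w' z) * D z)) := cχ.mul (cTh'.mul hDc)
  have ibp : J (fun z => χ z.1 * (Theta ρ k (pp ρ w' z) (dT w' z) * D z)) = - J S := by
    have h1 : CX (fun z => S z + χ z.1 * (Theta ρ k (pp ρ w' z) (dT w' z) * D z)) ∧
        J (fun z => S z + χ z.1 * (Theta ρ k (pp ρ w' z) (dT w' z) * D z)) = 0 := by
      refine J_dX (F := fun z => (χ z.1 * Theta ρ k (pp ρ w' z) (dT w' z)) * (dT w z - dT w' z))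
        (((cχ.mul cTh').mul (hw.sm.dT.cont.sub hw'.sm.dT.cont)).xs) (fun x t => ?_) (hSc.add hTD).cont
      have e1 := (hχ.differentiable (by simp) x).hasDerivAt
      have e2 := Theta_comp (ρ := ρ) hk (sp'.hX x t) (hw'.sm.dT.hX x t)
      have e3 := (hw.sm.dT.hX x t).sub (hw'.sm.dT.hX x t)
      refine ((e1.mul e2).mul e3).congr_deriv ?_
      simp only [hS, hD, rd, Pi.mul_apply, Pi.sub_apply]
      ring
    rw [J_add hSc hTD] at h1
    linarith [h1.2]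
  -- the remaining part
  set E : ℝ × ℝ → ℝ := fun z => χ z.1 * (FF ρ k w z - FF ρ k w' z) -
    χ z.1 * (Theta ρ k (pp ρ w' z) (dT w' z) * D z) with hE
  have hEc : CX E := (cχ.mul (cFF.sub cFF')).sub hTD
  have hdiff : Lam ρ k χ w - Lam ρ k χ w' = J E - J S := by
    rw [Lam_eq_J hk.continuous hw.sm hχ.continuous hχc, Lam_eq_J hk.continuous hw'.sm hχ.continuous hχc,
      ← J_sub (cχ.mul cFF) (cχ.mul cFF')]
    have : J E = J (fun z => χ z.1 * (FF ρ k w z - FF ρ k w' z)) -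
        J (fun z => χ z.1 * (Theta ρ k (pp ρ w' z) (dT w' z) * D z)) := by
      rw [hE]; exact J_sub (cχ.mul (cFF.sub cFF')) hTD
    rw [this, ibp]
    have e2 : (fun z : ℝ × ℝ => χ z.1 * FF ρ k w z - χ z.1 * FF ρ k w' z) =
        fun z => χ z.1 * (FF ρ k w z - FF ρ k w' z) := by
      funext z; ring
    rw [e2]; ring
  -- pointwise bounds
  have hpp : ∀ z, |pp ρ w z| ≤ B := fun z => by
    unfold pp
    have h1 := hw.b0 z
    have h2 := hw.bX z
    calc |ρ * w z + dX w z| ≤ |ρ * w z| + |dX w z| := abs_add_le _ _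
      _ = ρ * |w z| + |dX w z| := by rw [abs_mul, abs_of_pos hρ]
      _ ≤ ρ * C + C := by gcongr
      _ = B := by rw [hB]; ring
  have hpp' : ∀ z, |pp ρ w' z| ≤ B := fun z => by
    unfold pp
    have h1 := hw'.b0 z
    have h2 := hw'.bX z
    calc |ρ * w' z + dX w' z| ≤ |ρ * w' z| + |dX w' z| := abs_add_le _ _
      _ = ρ * |w' z| + |dX w' z| := by rw [abs_mul, abs_of_pos hρ]
      _ ≤ ρ * C + C := by gcongr
      _ = B := by rw [hB]; ring
  have hq : ∀ z, |dT w z| ≤ B := fun z => (hw.bT z).trans hCB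
  have hq' : ∀ z, |dT w' z| ≤ B := fun z => (hw'.bT z).trans hCB
  have hpd : ∀ z, |pp ρ w z - pp ρ w' z| ≤ ρ * |w z - w' z| + |dX w z - dX w' z| := fun z => by
    unfold pp
    have : ρ * w z + dX w z - (ρ * w' z + dX w' z) = ρ * (w z - w' z) + (dX w z - dX w' z) := by ring
    rw [this]
    refine (abs_add_le _ _).trans ?_
    rw [abs_mul, abs_of_pos hρ]
  have hsum : ∀ z, |pp ρ w z - pp ρ w' z| + |dT w z - dT w' z| ≤ (ρ + 1) * b z := fun z => by
    have h1 := hpd z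
    have h2 := abs_nonneg (w z - w' z)
    have h3 := abs_nonneg (dX w z - dX w' z)
    have h4 := abs_nonneg (dT w z - dT w' z)
    rw [hb]; simp only
    nlinarith
  have sqd : ∀ x y : ℝ, |x| ≤ B → |y| ≤ B → |x ^ 2 - y ^ 2| ≤ 2 * B * |x - y| := by
    intro x y hx hy
    have : x ^ 2 - y ^ 2 = (x + y) * (x - y) := by ring
    rw [this, abs_mul]
    refine mul_le_mul_of_nonneg_right ?_ (abs_nonneg _)
    exact (abs_add_le _ _).trans (by linarith)
  -- bound for K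
  have bK : ∀ z, |KK k (rd ρ w z) - KK k (rd ρ w' z)| ≤ κ * (2 * B / ρ ^ 2) * ((ρ + 1) * b z) := fun z => by
    refine (KK_lip hk.continuous hκ _ _).trans ?_
    rw [mul_assoc]
    refine mul_le_mul_of_nonneg_left ?_ hκ0
    unfold rd
    rw [← sub_div, abs_div, abs_of_pos hρ2]
    have e1 : pp ρ w z ^ 2 + dT w z ^ 2 - (pp ρ w' z ^ 2 + dT w' z ^ 2) =
      (pp ρ w z ^ 2 - pp ρ w' z ^ 2) + (dT w z ^ 2 - dT w' z ^ 2) := by ring
    rw [e1]
    have e2 : |(pp ρ w z ^ 2 - pp ρ w' z ^ 2) + (dT w z ^ 2 - dT w' z ^ 2)| ≤ 2 * B * ((ρ + 1) * b z) := by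
      refine (abs_add_le _ _).trans ?_
      have := sqd _ _ (hpp z) (hpp' z)
      have := sqd _ _ (hq z) (hq' z)
      have h5 := mul_le_mul_of_nonneg_left (hsum z) (by positivity : 0 ≤ 2 * B)
      linarith
    calc _ ≤ 2 * B * ((ρ + 1) * b z) / ρ ^ 2 := by gcongr
      _ = _ := by ring
  -- bound for Theta difference
  have bTh : ∀ z, |Theta ρ k (pp ρ w z) (dT w z) - Theta ρ k (pp ρ w' z) (dT w' z)| ≤
      (ρ ^ 2)⁻¹ * (κ * (2 * B / ρ ^ 2) * B + κ) * ((ρ + 1) * b z) := fun z => by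
    refine (Theta_lip hk hκ hκ' _ _ _ _).trans ?_
    have e0 : (ρ ^ 2)⁻¹ * (κ * (2 * B / ρ ^ 2) * B + κ) * ((ρ + 1) * b z) =
      (ρ ^ 2)⁻¹ * ((κ * (2 * B / ρ ^ 2) * B + κ) * ((ρ + 1) * b z)) := by ring
    rw [e0]
    refine mul_le_mul_of_nonneg_left ?_ (inv_nonneg.2 hρ2.le)
    have e1 := sqd _ _ (hpp z) (hpp' z)
    have e2 : κ * (|pp ρ w z ^ 2 - pp ρ w' z ^ 2| / ρ ^ 2) * |dT w z| ≤
        κ * (2 * B * |pp ρ w z - pp ρ w' z| / ρ ^ 2) * B := by
      have h8 : κ * (|pp ρ w z ^ 2 - pp ρ w' z ^ 2| / ρ ^ 2) ≤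
          κ * (2 * B * |pp ρ w z - pp ρ w' z| / ρ ^ 2) :=
        mul_le_mul_of_nonneg_left (div_le_div_of_nonneg_right e1 hρ2.le) hκ0
      exact mul_le_mul h8 (hq z) (abs_nonneg _) (by positivity)
    have e3 : κ * (2 * B * |pp ρ w z - pp ρ w' z| / ρ ^ 2) * B =
        κ * (2 * B / ρ ^ 2) * B * |pp ρ w z - pp ρ w' z| := by ring
    have e4 : |pp ρ w z - pp ρ w' z| ≤ (ρ + 1) * b z := by
      have := hsum z
      have := abs_nonneg (dT w z - dT w' z)
      linarith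
    have e5 : |dT w z - dT w' z| ≤ (ρ + 1) * b z := by
      have := hsum z
      have := abs_nonneg (pp ρ w z - pp ρ w' z)
      linarith
    have e6 : κ * (2 * B / ρ ^ 2) * B * |pp ρ w z - pp ρ w' z| ≤
        κ * (2 * B / ρ ^ 2) * B * ((ρ + 1) * b z) := by gcongr
    have e7 : κ * |dT w z - dT w' z| ≤ κ * ((ρ + 1) * b z) := by gcongr
    linarith
  have bTh' : ∀ z, |Theta ρ k (pp ρ w' z) (dT w' z)| ≤ (ρ ^ 2)⁻¹ * (κ * B) := fun z => by
    refine (Theta_bound hκ _ _).trans ?_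
    have := hq' z
    gcongr
  have bThp' : ∀ z, |Thp ρ k (pp ρ w' z) (dT w' z)| ≤ (ρ ^ 2)⁻¹ * (κ * (2 * B / ρ ^ 2) * B) := fun z => by
    refine (Thp_bound hκ' _ _).trans ?_
    have := hq' z
    have := hpp' z
    gcongr
  have bpt : ∀ z, |dT (pp ρ w) z| ≤ (ρ * C + 1) * G z := fun z => by
    rw [dT_pp hw.sm, dT_dX_comm hw.sm]
    simp only
    have h1 := hw.bT z
    have h2 : |dX (dT w) z| + 1 ≤ G z := by
      rw [hG]; simp only
      have h2 := abs_nonneg (dX (pp ρ w') z)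
      have h3 := abs_nonneg (dX (dT w') z)
      linarith
    have h3 := hG1 z
    have h4 : 0 ≤ ρ * C := by positivity
    calc |ρ * dT w z + dX (dT w) z| ≤ |ρ * dT w z| + |dX (dT w) z| := abs_add_le _ _
      _ = ρ * |dT w z| + |dX (dT w) z| := by rw [abs_mul, abs_of_pos hρ]
      _ ≤ ρ * C + |dX (dT w) z| := by gcongr
      _ ≤ (ρ * C + 1) * G z := by nlinarith
  -- bound for E
  have hEb : ∀ z, |E z| ≤ (a1 + a2 + a3) * (χ₂ z.1 * (G z * b z)) := fun z => by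
    have hχz := hle z.1
    have hχ₂0 : 0 ≤ χ₂ z.1 := (abs_nonneg _).trans hχz
    have e1 : E z = χ z.1 * (-(ρ / 2) * (KK k (rd ρ w z) - KK k (rd ρ w' z)) +
        (Theta ρ k (pp ρ w z) (dT w z) - Theta ρ k (pp ρ w' z) (dT w' z)) * dT (pp ρ w) z +
        Theta ρ k (pp ρ w' z) (dT w' z) * (ρ * (dT w z - dT w' z))) := by
      rw [hE, FF_eq hw.sm, FF_eq hw'.sm]
      simp only
      rw [dT_pp hw.sm, dT_pp hw'.sm, dT_dX_comm hw.sm, dT_dX_comm hw'.sm, hD]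
      ring
    rw [e1, abs_mul]
    have t1 : |-(ρ / 2) * (KK k (rd ρ w z) - KK k (rd ρ w' z))| ≤ a1 * (G z * b z) := by
      rw [abs_mul, abs_neg, abs_of_pos (by positivity : 0 < ρ / 2)]
      calc ρ / 2 * |KK k (rd ρ w z) - KK k (rd ρ w' z)| ≤ ρ / 2 * (κ * (2 * B / ρ ^ 2) * ((ρ + 1) * b z)) := by
            gcongr; exact bK z
        _ = a1 * (1 * b z) := by rw [ha1]; ring
        _ ≤ a1 * (G z * b z) := by
            have := hG1 z
            have := hb0 z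
            gcongr
    have t2 : |(Theta ρ k (pp ρ w z) (dT w z) - Theta ρ k (pp ρ w' z) (dT w' z)) * dT (pp ρ w) z| ≤
        a2 * (G z * b z) := by
      rw [abs_mul]
      calc _ ≤ ((ρ ^ 2)⁻¹ * (κ * (2 * B / ρ ^ 2) * B + κ) * ((ρ + 1) * b z)) * ((ρ * C + 1) * G z) := by
            have h1 := bTh z
            have h2 := bpt z
            have h3 : 0 ≤ (ρ ^ 2)⁻¹ * (κ * (2 * B / ρ ^ 2) * B + κ) * ((ρ + 1) * b z) := (abs_nonneg _).trans h1
            exact mul_le_mul h1 h2 (abs_nonneg _) h3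
        _ = a2 * (G z * b z) := by rw [ha2]; ring
    have t3 : |Theta ρ k (pp ρ w' z) (dT w' z) * (ρ * (dT w z - dT w' z))| ≤ a3 * (G z * b z) := by
      rw [abs_mul, abs_mul, abs_of_pos hρ]
      have h1 := bTh' z
      have h2 : ρ * |dT w z - dT w' z| ≤ (ρ + 1) * b z := by
        have h4 := abs_nonneg (w z - w' z)
        have h5 := abs_nonneg (dX w z - dX w' z)
        have h6 := abs_nonneg (dT w z - dT w' z)
        rw [hb]; simp only
        nlinarith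
      calc _ ≤ ((ρ ^ 2)⁻¹ * (κ * B)) * ((ρ + 1) * b z) := by
            have h3 : 0 ≤ (ρ ^ 2)⁻¹ * (κ * B) := by positivity
            exact mul_le_mul h1 h2 (by positivity) h3
        _ = a3 * (1 * b z) := by rw [ha3]; ring
        _ ≤ a3 * (G z * b z) := by
            have := hG1 z
            have := hb0 z
            gcongr
    have t4 : |-(ρ / 2) * (KK k (rd ρ w z) - KK k (rd ρ w' z)) +
        (Theta ρ k (pp ρ w z) (dT w z) - Theta ρ k (pp ρ w' z) (dT w' z)) * dT (pp ρ w) z +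
        Theta ρ k (pp ρ w' z) (dT w' z) * (ρ * (dT w z - dT w' z))| ≤ (a1 + a2 + a3) * (G z * b z) := by
      refine (abs_add_le _ _).trans ?_
      have := abs_add_le (-(ρ / 2) * (KK k (rd ρ w z) - KK k (rd ρ w' z)))
        ((Theta ρ k (pp ρ w z) (dT w z) - Theta ρ k (pp ρ w' z) (dT w' z)) * dT (pp ρ w) z)
      linarith
    calc _ ≤ χ₂ z.1 * ((a1 + a2 + a3) * (G z * b z)) := mul_le_mul hχz t4 (abs_nonneg _) hχ₂0
      _ = _ := by ring
  -- bound for S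
  have hSb : ∀ z, |S z| ≤ (a3 + a4) * (χ₂ z.1 * (G z * b z)) := fun z => by
    have hχz := hle z.1
    have hχz' := hle' z.1
    have hχ₂0 : 0 ≤ χ₂ z.1 := (abs_nonneg _).trans hχz
    have h6 : |dT w z - dT w' z| ≤ b z := by
      have h4 := abs_nonneg (w z - w' z)
      have h5 := abs_nonneg (dX w z - dX w' z)
      rw [hb]; simp only
      linarith
    have t1 : |deriv χ z.1 * Theta ρ k (pp ρ w' z) (dT w' z)| ≤ χ₂ z.1 * (a3 * G z) := by
      rw [abs_mul]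
      have h1 := bTh' z
      have h2 : (ρ ^ 2)⁻¹ * (κ * B) ≤ a3 * G z := by
        have h3 : (ρ ^ 2)⁻¹ * (κ * B) ≤ a3 := by
          rw [ha3]
          have : 0 ≤ (ρ ^ 2)⁻¹ * (κ * B) := by positivity
          nlinarith
        have := hG1 z
        nlinarith
      exact mul_le_mul hχz' (h1.trans h2) (abs_nonneg _) hχ₂0
    have t2 : |χ z.1 * (Thp ρ k (pp ρ w' z) (dT w' z) * dX (pp ρ w') z +
        (ρ ^ 2)⁻¹ * k (rd ρ w' z) * dX (dT w') z)| ≤ χ₂ z.1 * (a4 * G z) := by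
      rw [abs_mul]
      refine mul_le_mul hχz ?_ (abs_nonneg _) hχ₂0
      refine (abs_add_le _ _).trans ?_
      have g1 : |dX (pp ρ w') z| ≤ G z := by
        rw [hG]; simp only
        have h1 := abs_nonneg (dX (dT w) z)
        have h3 := abs_nonneg (dX (dT w') z)
        linarith
      have g2 : |dX (dT w') z| ≤ G z := by
        rw [hG]; simp only
        have h1 := abs_nonneg (dX (dT w) z)
        have h3 := abs_nonneg (dX (pp ρ w') z)
        linarith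
      have g3 : |Thp ρ k (pp ρ w' z) (dT w' z) * dX (pp ρ w') z| ≤ (ρ ^ 2)⁻¹ * (κ * (2 * B / ρ ^ 2) * B) * G z := by
        rw [abs_mul]
        exact mul_le_mul (bThp' z) g1 (abs_nonneg _) (by positivity)
      have g4 : |(ρ ^ 2)⁻¹ * k (rd ρ w' z) * dX (dT w') z| ≤ (ρ ^ 2)⁻¹ * κ * G z := by
        rw [abs_mul, abs_mul, abs_of_nonneg (by positivity : (0 : ℝ) ≤ (ρ ^ 2)⁻¹)]
        refine mul_le_mul ?_ g2 (abs_nonneg _) (by positivity)
        exact mul_le_mul_of_nonneg_left (hκ _) (by positivity)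
      rw [ha4, add_mul]
      exact add_le_add g3 g4
    rw [hS]
    simp only
    rw [abs_mul]
    have t3 := (abs_add_le (deriv χ z.1 * Theta ρ k (pp ρ w' z) (dT w' z)) (χ z.1 *
      (Thp ρ k (pp ρ w' z) (dT w' z) * dX (pp ρ w') z +
        (ρ ^ 2)⁻¹ * k (rd ρ w' z) * dX (dT w') z))).trans (add_le_add t1 t2)
    have hG0 : 0 ≤ G z := by linarith [hG1 z]
    calc _ ≤ (χ₂ z.1 * (a3 * G z) + χ₂ z.1 * (a4 * G z)) * b z :=
          mul_le_mul t3 h6 (abs_nonneg _) (by positivity)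
      _ = _ := by ring
  have cGb : CX (fun z => χ₂ z.1 * (G z * b z)) := cχ₂.mul (hGc.mul hbc)
  have j1 : |J E| ≤ (a1 + a2 + a3) * J (fun z => χ₂ z.1 * (G z * b z)) := by
    rw [← J_const_mul]
    exact J_abs (cGb.const_mul _) hEb
  have j2 : |J S| ≤ (a3 + a4) * J (fun z => χ₂ z.1 * (G z * b z)) := by
    rw [← J_const_mul]
    exact J_abs (cGb.const_mul _) hSb
  rw [hdiff]
  have j3 := abs_sub (J E) (J S)
  have j4 : J (fun z => χ₂ z.1 * ((1 + |dX (dT w) z| + |dX (pp ρ w') z| + |dX (dT w') z|) *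
        (|w z - w' z| + |dX w z - dX w' z| + |dT w z - dT w' z|))) = J (fun z => χ₂ z.1 * (G z * b z)) := rfl
  rw [j4]
  have j5 : 0 ≤ J (fun z => χ₂ z.1 * (G z * b z)) := J_nonneg fun z =>
    mul_nonneg ((abs_nonneg _).trans (hle z.1)) (mul_nonneg (by linarith [hG1 z]) (hb0 z))
  have j6 : (a1 + a2 + a3) * J (fun z => χ₂ z.1 * (G z * b z)) + (a3 + a4) * J (fun z => χ₂ z.1 * (G z * b z)) ≤
      (a1 + a2 + 2 * a3 + a4) * J (fun z => χ₂ z.1 * (G z * b z)) := le_of_eq (by ring)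
  linarith

end

end Pool.Agent.Helper31.LS
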