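import Pool.Agent.Helper31.LS.A9

set_option autoImplicit false

open MeasureTheory Filter Topology

namespace Pool.Agent.Helper31.LS

open Pool.Agent.Helper42.Fr

/-- **(A3)** as a property of the class. -/
def A3 (ρ C : ℝ) (h : ℝ → ℝ) : Prop :=
  ∀ χ : ℝ → ℝ, ContDiff ℝ (⊤ : ℕ∞) χ → HasCompactSupport χ → (∀ x, 0 ≤ χ x) →
    ∃ M : ℝ, ∀ v, InC ρ C h v → ∀ ε : ℝ, 0 < ε → ε < 1 →
      J (fun z => χ z.1 * ((dX (dX (moll ε v)) z) ^ 2 + (dT (dX (moll ε v)) z) ^ 2)) ≤ M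

/-- **(A4)** as a property of the class. -/
def A4 (ρ C : ℝ) (h : ℝ → ℝ) : Prop :=
  ∀ χ : ℝ → ℝ, ContDiff ℝ (⊤ : ℕ∞) χ → HasCompactSupport χ → (∀ x, 0 ≤ χ x) →
    ∃ M : ℝ, ∀ v, InC ρ C h v → ∀ ε ε' : ℝ, 0 < ε → ε < 1 → 0 < ε' → ε' < 1 →
      J (fun z => χ z.1 * ((dX (moll ε v) z - dX (moll ε' v) z) ^ 2 +
        (dT (moll ε v) z - dT (moll ε' v) z) ^ 2)) ≤ M * (ε + ε')

/-- a smooth majorant of a cutoff and its derivative. -/
lemma exists_majorant {χ : ℝ → ℝ} (hχ : ContDiff ℝ (⊤ : ℕ∞) χ) (hχc : HasCompactSupport χ) :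
    ∃ χ₂ : ℝ → ℝ, ContDiff ℝ (⊤ : ℕ∞) χ₂ ∧ HasCompactSupport χ₂ ∧ (∀ x, 0 ≤ χ₂ x) ∧
      (∀ x, |χ x| ≤ χ₂ x) ∧ (∀ x, |deriv χ x| ≤ χ₂ x) := by
  have hχd : Continuous (deriv χ) := hχ.continuous_deriv (by simp)
  obtain ⟨R, hR0, hz⟩ := exists_zero_of_cpt hχc
  have hzd : ∀ s, R < |s| → deriv χ s = 0 := by
    intro s hs
    have ho : IsOpen {y : ℝ | R < |y|} := isOpen_lt continuous_const continuous_abs
    have : χ =ᶠ[𝓝 s] fun _ => 0 := by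
      filter_upwards [ho.mem_nhds hs] with y hy
      exact hz y hy
    rw [this.deriv_eq]; simp
  obtain ⟨A, hA⟩ := (hχ.continuous.abs).bounded_above_of_compact_support (by
    simpa using hχc.norm)
  obtain ⟨B, hB⟩ := (hχd.abs).bounded_above_of_compact_support (by
    simpa using hχc.deriv.norm)
  set f : ContDiffBump (0 : ℝ) := ⟨R + 1, R + 2, by linarith, by linarith⟩ with hf
  set K := max A B with hK
  have hK0 : 0 ≤ K := ((norm_nonneg _).trans (hA 0)).trans (le_max_left _ _)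
  refine ⟨fun x => K * f x, contDiff_const.mul f.contDiff, f.hasCompactSupport.mul_left,
    fun x => mul_nonneg hK0 f.nonneg, fun x => ?_, fun x => ?_⟩
  · by_cases hx : R < |x|
    · rw [hz x hx, abs_zero]
      exact mul_nonneg hK0 f.nonneg
    · have h1 : f x = 1 := f.one_of_mem_closedBall (by
        rw [Metric.mem_closedBall, Real.dist_eq, sub_zero]
        change |x| ≤ R + 1
        linarith [not_lt.1 hx])
      simp only
      rw [h1, mul_one]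
      have := hA x
      rw [Real.norm_eq_abs, abs_abs] at this
      exact this.trans (le_max_left _ _)
  · by_cases hx : R < |x|
    · rw [hzd x hx, abs_zero]
      exact mul_nonneg hK0 f.nonneg
    · have h1 : f x = 1 := f.one_of_mem_closedBall (by
        rw [Metric.mem_closedBall, Real.dist_eq, sub_zero]
        change |x| ≤ R + 1
        linarith [not_lt.1 hx])
      simp only
      rw [h1, mul_one]
      have := hB x
      rw [Real.norm_eq_abs, abs_abs] at this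
      exact this.trans (le_max_right _ _)

section
variable {ρ C κ : ℝ} {h : ℝ → ℝ}

lemma moll_bd (hC : 0 ≤ C) {v : ℝ × ℝ → ℝ} (hv : InC ρ C h v) {ε : ℝ} (hε : 0 < ε) : Bd C (moll ε v) :=
  ⟨moll_smooth hε hv.locInt, moll_per ε hv.perV, fun z => moll_bound hε hv.bdd z,
    fun z => moll_dX_le hC hv hε z, fun z => moll_dT_le hC hv hε z⟩

/-- Cauchy estimate for the functional along mollifications. -/
theorem Lam_cauchy (hρ : 0 < ρ) (hC : 0 ≤ C) (hκ0 : 0 ≤ κ) (h3 : A3 ρ C h) (h4 : A4 ρ C h) {χ : ℝ → ℝ}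
    (hχ : ContDiff ℝ (⊤ : ℕ∞) χ) (hχc : HasCompactSupport χ) :
    ∃ M : ℝ, 0 ≤ M ∧ ∀ k : ℝ → ℝ, ContDiff ℝ (⊤ : ℕ∞) k → (∀ s, |k s| ≤ κ) → (∀ s, |deriv k s| ≤ κ) →
      ∀ v, InC ρ C h v → ∀ ε ε' : ℝ, 0 < ε → ε < 1 → 0 < ε' → ε' < 1 →
      |Lam ρ k χ (moll ε v) - Lam ρ k χ (moll ε' v)| ≤ M * Real.sqrt (ε + ε') := by
  obtain ⟨χ₂, s2, c2, n2, m2, m2'⟩ := exists_majorant hχ hχc
  obtain ⟨c, hc0, hc⟩ := Lam_compare (ρ := ρ) (κ := κ) (C := C) hρ hC hκ0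
  obtain ⟨M3, hM3⟩ := h3 χ₂ s2 c2 n2
  obtain ⟨M4, hM4⟩ := h4 χ₂ s2 c2 n2
  set A := J (fun z : ℝ × ℝ => χ₂ z.1) with hA
  set N := c * ((4 * (1 + 2 * ρ ^ 2 * C ^ 2) * A + 16 * M3 + 3 * (8 * C ^ 2 * A + M4)) / 2) with hN
  refine ⟨|N|, abs_nonneg _, ?_⟩
  intro k hk hκ hκ' v hv ε ε' hε hε1 hε' hε1'
  set lam := Real.sqrt (ε + ε') with hlam
  have hlam0 : 0 < lam := Real.sqrt_pos.2 (by linarith)
  have hlam2 : lam ^ 2 = ε + ε' := Real.sq_sqrt (by linarith)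
  have b1 := moll_bd hC hv hε
  have b2 := moll_bd hC hv hε'
  have hmain := hc k hk hκ hκ' _ _ b1 b2 χ χ₂ hχ hχc s2.continuous c2 m2 m2'
  set w := moll ε v with hw
  set w' := moll ε' v with hw'
  have sp' := pp_sm (ρ := ρ) b2.sm
  have cχ₂ : CX (fun z : ℝ × ℝ => χ₂ z.1) := CX.of_fst c2 s2.continuous
  set b : ℝ × ℝ → ℝ := fun z => |w z - w' z| + |dX w z - dX w' z| + |dT w z - dT w' z| with hb
  set G : ℝ × ℝ → ℝ := fun z => 1 + |dX (dT w) z| + |dX (pp ρ w') z| + |dX (dT w') z| with hG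
  have hbc : Continuous b := by
    have c1 := (b1.sm.cont.sub b2.sm.cont).abs
    have c2 := (b1.sm.dX.cont.sub b2.sm.dX.cont).abs
    have c3 := (b1.sm.dT.cont.sub b2.sm.dT.cont).abs
    exact (c1.add c2).add c3
  have hGc : Continuous G := by
    have c1 := b1.sm.dT.dX.cont.abs
    have c2 := sp'.dX.cont.abs
    have c3 := b2.sm.dT.dX.cont.abs
    exact ((continuous_const.add c1).add c2).add c3
  -- the two energies
  set e1 : ℝ × ℝ → ℝ := fun z => (dX (dX w) z) ^ 2 + (dT (dX w) z) ^ 2 with he1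
  set e2 : ℝ × ℝ → ℝ := fun z => (dX (dX w') z) ^ 2 + (dT (dX w') z) ^ 2 with he2
  set e3 : ℝ × ℝ → ℝ := fun z => (dX w z - dX w' z) ^ 2 + (dT w z - dT w' z) ^ 2 with he3
  have ce1 : Continuous e1 := (b1.sm.dX.dX.cont.pow 2).add (b1.sm.dX.dT.cont.pow 2)
  have ce2 : Continuous e2 := (b2.sm.dX.dX.cont.pow 2).add (b2.sm.dX.dT.cont.pow 2)
  have ce3 : Continuous e3 := ((b1.sm.dX.cont.sub b2.sm.dX.cont).pow 2).add
    ((b1.sm.dT.cont.sub b2.sm.dT.cont).pow 2)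
  have j1 : J (fun z => χ₂ z.1 * e1 z) ≤ M3 := hM3 v hv ε hε hε1
  have j2 : J (fun z => χ₂ z.1 * e2 z) ≤ M3 := hM3 v hv ε' hε' hε1'
  have j3 : J (fun z => χ₂ z.1 * e3 z) ≤ M4 * (ε + ε') := hM4 v hv ε ε' hε hε1 hε' hε1'
  have hdX : dX (dT w) = dT (dX w) := (dT_dX_comm b1.sm).symm
  have hdX' : dX (dT w') = dT (dX w') := (dT_dX_comm b2.sm).symm
  -- G^2
  have hG2 : ∀ z, (G z) ^ 2 ≤ 4 * (1 + 2 * ρ ^ 2 * C ^ 2) + 4 * e1 z + 12 * e2 z := fun z => by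
    have p1 : (G z) ^ 2 ≤ 4 * (1 + |dX (dT w) z| ^ 2 + |dX (pp ρ w') z| ^ 2 + |dX (dT w') z| ^ 2) := by
      rw [hG]; simp only
      nlinarith [sq_nonneg (1 - |dX (dT w) z|), sq_nonneg (1 - |dX (pp ρ w') z|), sq_nonneg (1 - |dX (dT w') z|),
        sq_nonneg (|dX (dT w) z| - |dX (pp ρ w') z|), sq_nonneg (|dX (dT w) z| - |dX (dT w') z|),
        sq_nonneg (|dX (pp ρ w') z| - |dX (dT w') z|)]
    rw [sq_abs, sq_abs, sq_abs, dX_pp b2.sm, hdX, hdX'] at p1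
    have p2 : (ρ * dX w' z + dX (dX w') z) ^ 2 ≤ 2 * (ρ ^ 2 * C ^ 2) + 2 * (dX (dX w') z) ^ 2 := by
      have q1 : (dX w' z) ^ 2 ≤ C ^ 2 := sq_le_sq' (abs_le.1 (b2.bX z)).1 (abs_le.1 (b2.bX z)).2
      have q2 : ρ ^ 2 * (dX w' z) ^ 2 ≤ ρ ^ 2 * C ^ 2 := mul_le_mul_of_nonneg_left q1 (sq_nonneg _)
      nlinarith [sq_nonneg (ρ * dX w' z - dX (dX w') z)]
    simp only at p1
    rw [he1, he2]; simp only
    nlinarith [sq_nonneg (dX (dX w) z), sq_nonneg (dT (dX w') z), sq_nonneg (dX (dX w') z)]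
  have hb2 : ∀ z, (b z) ^ 2 ≤ 3 * (8 * C ^ 2 * (ε + ε')) + 3 * e3 z := fun z => by
    have p1 : (b z) ^ 2 ≤ 3 * (|w z - w' z| ^ 2 + |dX w z - dX w' z| ^ 2 + |dT w z - dT w' z| ^ 2) := by
      rw [hb]; simp only
      nlinarith [sq_nonneg (|w z - w' z| - |dX w z - dX w' z|), sq_nonneg (|w z - w' z| - |dT w z - dT w' z|),
        sq_nonneg (|dX w z - dX w' z| - |dT w z - dT w' z|)]
    rw [sq_abs (dX w z - dX w' z), sq_abs (dT w z - dT w' z)] at p1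
    have p2 : |w z - w' z| ≤ 2 * C * (ε + ε') := by
      have q1 := moll_close hC hv hε z
      have q2 := moll_close hC hv hε' z
      have q3 : w z - w' z = (w z - v z) - (w' z - v z) := by ring
      rw [q3]
      refine (abs_sub _ _).trans ?_
      linarith
    have p3 : |w z - w' z| ^ 2 ≤ 8 * C ^ 2 * (ε + ε') := by
      have q0 : |w z - w' z| ^ 2 ≤ (2 * C * (ε + ε')) ^ 2 := by
        exact pow_le_pow_left₀ (abs_nonneg _) p2 2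
      have q4 : (2 * C * (ε + ε')) ^ 2 = 4 * C ^ 2 * (ε + ε') * (ε + ε') := by ring
      have q5 : 4 * C ^ 2 * (ε + ε') * (ε + ε') ≤ 4 * C ^ 2 * (ε + ε') * 2 := by
        refine mul_le_mul_of_nonneg_left (by linarith) ?_
        have : 0 ≤ ε + ε' := by linarith
        positivity
      linarith
    rw [he3]; simp only
    linarith
  have cG2 : CX (fun z => χ₂ z.1 * (G z) ^ 2) := cχ₂.mul (hGc.pow 2)
  have cb2 : CX (fun z => χ₂ z.1 * (b z) ^ 2) := cχ₂.mul (hbc.pow 2)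
  have cGb : CX (fun z => χ₂ z.1 * (G z * b z)) := cχ₂.mul (hGc.mul hbc)
  have JG : J (fun z => χ₂ z.1 * (G z) ^ 2) ≤ 4 * (1 + 2 * ρ ^ 2 * C ^ 2) * A + 16 * M3 := by
    have d1 : CX (fun z : ℝ × ℝ => 4 * (1 + 2 * ρ ^ 2 * C ^ 2) * χ₂ z.1) := cχ₂.const_mul _
    have d2 : CX (fun z : ℝ × ℝ => 4 * (χ₂ z.1 * e1 z)) := (cχ₂.mul ce1).const_mul _
    have d3 : CX (fun z : ℝ × ℝ => 12 * (χ₂ z.1 * e2 z)) := (cχ₂.mul ce2).const_mul _
    have i1 : J (fun z => χ₂ z.1 * (G z) ^ 2) ≤ J (fun z : ℝ × ℝ => 4 * (1 + 2 * ρ ^ 2 * C ^ 2) * χ₂ z.1 +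
        4 * (χ₂ z.1 * e1 z) + 12 * (χ₂ z.1 * e2 z)) := by
      refine J_mono cG2 ((d1.add d2).add d3) (fun z => ?_)
      have := mul_le_mul_of_nonneg_left (hG2 z) (n2 z.1)
      linarith
    rw [J_add (d1.add d2) d3, J_add d1 d2, J_const_mul, J_const_mul, J_const_mul] at i1
    have : 0 ≤ J (fun z : ℝ × ℝ => χ₂ z.1 * e1 z) := J_nonneg fun z =>
      mul_nonneg (n2 _) (by rw [he1]; positivity)
    linarith
  have Jb : J (fun z => χ₂ z.1 * (b z) ^ 2) ≤ 3 * (8 * C ^ 2 * A + M4) * (ε + ε') := by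
    have d1 : CX (fun z : ℝ × ℝ => 3 * (8 * C ^ 2 * (ε + ε')) * χ₂ z.1) := cχ₂.const_mul _
    have d2 : CX (fun z : ℝ × ℝ => 3 * (χ₂ z.1 * e3 z)) := (cχ₂.mul ce3).const_mul _
    have i1 : J (fun z => χ₂ z.1 * (b z) ^ 2) ≤ J (fun z : ℝ × ℝ => 3 * (8 * C ^ 2 * (ε + ε')) * χ₂ z.1 +
        3 * (χ₂ z.1 * e3 z)) := by
      refine J_mono cb2 (d1.add d2) (fun z => ?_)
      have := mul_le_mul_of_nonneg_left (hb2 z) (n2 z.1)
      linarith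
    rw [J_add d1 d2, J_const_mul, J_const_mul] at i1
    linarith
  have Jm : J (fun z => χ₂ z.1 * (G z * b z)) ≤ lam / 2 * J (fun z => χ₂ z.1 * (G z) ^ 2) +
      (2 * lam)⁻¹ * J (fun z => χ₂ z.1 * (b z) ^ 2) := by
    rw [← J_const_mul, ← J_const_mul, ← J_add (cG2.const_mul _) (cb2.const_mul _)]
    refine J_mono cGb ((cG2.const_mul _).add (cb2.const_mul _)) (fun z => ?_)
    have p1 : G z * b z ≤ lam / 2 * (G z) ^ 2 + (2 * lam)⁻¹ * (b z) ^ 2 := by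
      have : lam / 2 * (G z) ^ 2 + (2 * lam)⁻¹ * (b z) ^ 2 - G z * b z =
          (2 * lam)⁻¹ * (lam * G z - b z) ^ 2 := by
        field_simp
        ring
      have h0 : 0 ≤ (2 * lam)⁻¹ * (lam * G z - b z) ^ 2 := by positivity
      linarith
    have := mul_le_mul_of_nonneg_left p1 (n2 z.1)
    linarith
  have hfin : c * J (fun z => χ₂ z.1 * (G z * b z)) ≤ N * lam := by
    have i1 : lam / 2 * J (fun z => χ₂ z.1 * (G z) ^ 2) ≤
        lam / 2 * (4 * (1 + 2 * ρ ^ 2 * C ^ 2) * A + 16 * M3) := mul_le_mul_of_nonneg_left JG (by positivity)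
    have i2 : (2 * lam)⁻¹ * J (fun z => χ₂ z.1 * (b z) ^ 2) ≤ (2 * lam)⁻¹ *
        (3 * (8 * C ^ 2 * A + M4) * (ε + ε')) := mul_le_mul_of_nonneg_left Jb (by positivity)
    have i3 : (2 * lam)⁻¹ * (3 * (8 * C ^ 2 * A + M4) * (ε + ε')) = lam / 2 * (3 * (8 * C ^ 2 * A + M4)) := by
      rw [← hlam2]
      field_simp
    have i4 : J (fun z => χ₂ z.1 * (G z * b z)) ≤ lam / 2 * (4 * (1 + 2 * ρ ^ 2 * C ^ 2) * A + 16 * M3 +
        3 * (8 * C ^ 2 * A + M4)) := by linarith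
    have := mul_le_mul_of_nonneg_left i4 hc0
    refine this.trans (le_of_eq ?_)
    rw [hN]; ring
  refine hmain.trans (hfin.trans ?_)
  exact mul_le_mul_of_nonneg_right (le_abs_self _) hlam0.le

/-- **(A9)** uniform modulus (and existence) of the limit functional. -/
theorem mod_of (hρ : 0 < ρ) (hC : 0 ≤ C) (h3 : A3 ρ C h) (h4 : A4 ρ C h) {χ : ℝ → ℝ}
    (hχ : ContDiff ℝ (⊤ : ℕ∞) χ) (hχc : HasCompactSupport χ) (κ : ℝ) :
    ∃ M : ℝ, ∀ k : ℝ → ℝ, ContDiff ℝ (⊤ : ℕ∞) k → (∀ s, |k s| ≤ κ) → (∀ s, |deriv k s| ≤ κ) →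
      ∀ v, InC ρ C h v →
      Tendsto (fun ε => Lam ρ k χ (moll ε v)) (𝓝[>] (0 : ℝ))
        (𝓝 (limUnder (𝓝[>] (0 : ℝ)) (fun ε => Lam ρ k χ (moll ε v)))) ∧
      ∀ ε : ℝ, 0 < ε → ε < 1 →
      |Lam ρ k χ (moll ε v) - limUnder (𝓝[>] (0 : ℝ)) (fun ε => Lam ρ k χ (moll ε v))| ≤ M * Real.sqrt ε := by
  by_cases hκ0 : 0 ≤ κ
  swap
  · refine ⟨0, fun k _ hκ => ?_⟩
    exact absurd ((abs_nonneg _).trans (hκ 0)) hκ0
  obtain ⟨M, hM0, hM⟩ := Lam_cauchy (κ := κ) hρ hC hκ0 h3 h4 hχ hχc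
  refine ⟨M, fun k hk hκ hκ' v hv => ?_⟩
  set F : ℝ → ℝ := fun ε => Lam ρ k χ (moll ε v) with hF
  have hmem : Set.Ioo (0 : ℝ) 1 ∈ 𝓝[>] (0 : ℝ) := Ioo_mem_nhdsGT one_pos
  have hcauchy : Cauchy (map F (𝓝[>] (0 : ℝ))) := by
    rw [Metric.cauchy_iff]
    refine ⟨inferInstance, fun η hη => ?_⟩
    obtain ⟨δ, hδ0, hδ⟩ : ∃ δ : ℝ, 0 < δ ∧ M * Real.sqrt (δ + δ) < η := by
      have : Tendsto (fun δ : ℝ => M * Real.sqrt (δ + δ)) (𝓝[>] 0) (𝓝 (M * Real.sqrt (0 + 0))) := by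
        refine Tendsto.mono_left ?_ nhdsWithin_le_nhds
        exact (by fun_prop : Continuous fun δ : ℝ => M * Real.sqrt (δ + δ)).tendsto 0
      simp only [add_zero, Real.sqrt_zero, mul_zero] at this
      obtain ⟨δ, hδ1, hδ2⟩ := ((this.eventually (gt_mem_nhds hη)).and self_mem_nhdsWithin).exists
      exact ⟨δ, hδ2, hδ1⟩
    refine ⟨F '' (Set.Ioo 0 (min δ 1)), image_mem_map (Ioo_mem_nhdsGT (lt_min hδ0 one_pos)), ?_⟩
    rintro _ ⟨ε, hε, rfl⟩ _ ⟨ε', hε', rfl⟩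
    have a1 := hε.2.trans_le (min_le_left _ _)
    have a2 := hε'.2.trans_le (min_le_left _ _)
    have := hM k hk hκ hκ' v hv ε ε' hε.1 (hε.2.trans_le (min_le_right _ _)) hε'.1
      (hε'.2.trans_le (min_le_right _ _))
    rw [Real.dist_eq]
    refine this.trans_lt (lt_of_le_of_lt ?_ hδ)
    exact mul_le_mul_of_nonneg_left (Real.sqrt_le_sqrt (by linarith)) hM0
  have hex : ∃ L, Tendsto F (𝓝[>] (0 : ℝ)) (𝓝 L) := cauchy_map_iff_exists_tendsto.1 hcauchy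
  have hlim : Tendsto F (𝓝[>] (0 : ℝ)) (𝓝 (limUnder (𝓝[>] (0 : ℝ)) F)) := tendsto_nhds_limUnder hex
  refine ⟨hlim, fun ε hε hε1 => ?_⟩
  have g1 : Tendsto (fun ε' => |F ε - F ε'|) (𝓝[>] (0 : ℝ)) (𝓝 |F ε - limUnder (𝓝[>] (0 : ℝ)) F|) :=
    (tendsto_const_nhds.sub hlim).abs
  have g2 : Tendsto (fun ε' : ℝ => M * Real.sqrt (ε + ε')) (𝓝[>] (0 : ℝ)) (𝓝 (M * Real.sqrt ε)) := by
    refine Tendsto.mono_left ?_ nhdsWithin_le_nhds
    have := (by fun_prop : Continuous fun δ : ℝ => M * Real.sqrt (ε + δ)).tendsto 0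
    simpa using this
  refine le_of_tendsto_of_tendsto g1 g2 ?_
  filter_upwards [hmem] with ε' hε'
  exact hM k hk hκ hκ' v hv ε ε' hε hε1 hε'.1 hε'.2

end

end Pool.Agent.Helper31.LS
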