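import Pool.Agent.Helper31.LS.Sard

set_option autoImplicit false

open MeasureTheory Filter Topology Set
open scoped ComplexConjugate

namespace Pool.Agent.Helper31.LS

/-- a Lipschitz curve, periodic up to the rotation `ω`. -/
structure Curve (L A : ℝ) (ω : ℂ) (Z : ℝ → ℂ) : Prop where
  lip : ∀ s s', ‖Z s - Z s'‖ ≤ A * |s - s'|
  per : ∀ s, Z (s + L) = ω * Z s

/-- properties of the localised weight `κ u = K u / (2 u)`. -/
structure Wt (t0 δ : ℝ) (κ : ℝ → ℝ) : Prop where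
  cont : Continuous κ
  low : ∀ u, u ≤ t0 - δ → κ u = 0
  high : ∀ u, t0 + δ ≤ u → κ u = 1 / u
  bd : ∀ u, 0 < u → 0 ≤ κ u ∧ κ u ≤ 1 / u

noncomputable def dens (κ : ℝ → ℝ) (Z : ℝ → ℂ) (x : ℝ) : ℝ :=
  κ (Complex.normSq (Z x)) * (conj (Z x) * deriv Z x).im

variable {L A : ℝ} {ω : ℂ} {Z : ℝ → ℂ} {t0 δ : ℝ} {κ : ℝ → ℝ}

theorem Curve.A_nonneg (hZ : Curve L A ω Z) : 0 ≤ A := by
  have := hZ.lip 1 0
  simp at this
  exact (norm_nonneg _).trans this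

theorem Curve.lipschitz (hZ : Curve L A ω Z) : LipschitzWith A.toNNReal Z := by
  apply LipschitzWith.of_dist_le_mul
  intro x y
  rw [dist_eq_norm, Real.dist_eq, Real.coe_toNNReal A hZ.A_nonneg]
  exact hZ.lip x y

theorem Curve.continuous (hZ : Curve L A ω Z) : Continuous Z := hZ.lipschitz.continuous

theorem Curve.norm_deriv_le (hZ : Curve L A ω Z) (x : ℝ) : ‖deriv Z x‖ ≤ A := by
  have := norm_deriv_le_of_lipschitz (x₀ := x) hZ.lipschitz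
  rwa [Real.coe_toNNReal A hZ.A_nonneg] at this

theorem Wt.mul_sqrt (hκ : Wt t0 δ κ) (ht : 0 < t0) (hδ : δ ≤ t0 / 2) (z : ℂ) :
    κ (Complex.normSq z) * ‖z‖ ≤ √(2 / t0) ∧ 0 ≤ κ (Complex.normSq z) := by
  rw [Complex.normSq_eq_norm_sq]
  by_cases h : ‖z‖ ^ 2 ≤ t0 - δ
  · rw [hκ.low _ h]
    exact ⟨by rw [zero_mul]; positivity, le_rfl⟩
  · push Not at h
    have h1 : t0 / 2 < ‖z‖ ^ 2 := by linarith
    have h0 : 0 < ‖z‖ ^ 2 := by linarith
    have hz : 0 < ‖z‖ := by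
      by_contra hcon
      have : ‖z‖ = 0 := le_antisymm (not_lt.1 hcon) (norm_nonneg _)
      rw [this] at h0
      simp at h0
    obtain ⟨h2, h3⟩ := hκ.bd _ h0
    refine ⟨?_, h2⟩
    have h4 : κ (‖z‖ ^ 2) * ‖z‖ ≤ 1 / ‖z‖ := by
      calc κ (‖z‖ ^ 2) * ‖z‖ ≤ 1 / ‖z‖ ^ 2 * ‖z‖ := by gcongr
        _ = 1 / ‖z‖ := by field_simp
    refine h4.trans ?_
    apply Real.le_sqrt_of_sq_le
    rw [div_pow, one_pow, div_le_div_iff₀ h0 ht]
    linarith

theorem dens_abs_le (hZ : Curve L A ω Z) (hκ : Wt t0 δ κ) (ht : 0 < t0) (hδ : δ ≤ t0 / 2) (x : ℝ) :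
    |dens κ Z x| ≤ A * √(2 / t0) := by
  unfold dens
  obtain ⟨h1, h2⟩ := hκ.mul_sqrt ht hδ (Z x)
  rw [abs_mul, abs_of_nonneg h2]
  calc κ (Complex.normSq (Z x)) * |(conj (Z x) * deriv Z x).im|
      ≤ κ (Complex.normSq (Z x)) * (‖Z x‖ * ‖deriv Z x‖) := by
        gcongr
        refine (Complex.abs_im_le_norm _).trans ?_
        rw [norm_mul, Complex.norm_conj]
    _ = κ (Complex.normSq (Z x)) * ‖Z x‖ * ‖deriv Z x‖ := by ring
    _ ≤ √(2 / t0) * A := by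
        gcongr
        exact hZ.norm_deriv_le x
    _ = _ := by ring

theorem dens_measurable (hZ : Curve L A ω Z) (hκ : Wt t0 δ κ) : Measurable (dens κ Z) := by
  unfold dens
  have h1 : Measurable (fun x => κ (Complex.normSq (Z x))) :=
    (hκ.cont.comp (Complex.continuous_normSq.comp hZ.continuous)).measurable
  have h2 : Measurable (fun x => conj (Z x) * deriv Z x) :=
    ((Complex.continuous_conj.comp hZ.continuous).measurable).mul (measurable_deriv Z)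
  exact h1.mul (Complex.measurable_im.comp h2)

theorem dens_locallyIntegrable (hZ : Curve L A ω Z) (hκ : Wt t0 δ κ) (ht : 0 < t0)
    (hδ : δ ≤ t0 / 2) : LocallyIntegrable (dens κ Z) volume := by
  rw [locallyIntegrable_iff]
  intro K hK
  apply Measure.integrableOn_of_bounded (M := A * √(2 / t0)) hK.measure_lt_top.ne
  · exact (dens_measurable hZ hκ).aestronglyMeasurable
  · filter_upwards with x
    exact dens_abs_le hZ hκ ht hδ x

theorem dens_intervalIntegrable (hZ : Curve L A ω Z) (hκ : Wt t0 δ κ) (ht : 0 < t0)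
    (hδ : δ ≤ t0 / 2) (a b : ℝ) : IntervalIntegrable (dens κ Z) volume a b :=
  intervalIntegrable_iff.mpr <|
      ((dens_locallyIntegrable hZ hκ ht hδ).integrableOn_isCompact isCompact_uIcc).mono_set
        uIoc_subset_uIcc

/-- the phase -/
noncomputable def phase (κ : ℝ → ℝ) (Z : ℝ → ℂ) (b0 s : ℝ) : ℝ := ∫ x in b0..s, dens κ Z x

noncomputable def EE (κ : ℝ → ℝ) (Z : ℝ → ℂ) (b0 s : ℝ) : ℂ :=
  Complex.exp (((-phase κ Z b0 s : ℝ) : ℂ) * Complex.I)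

theorem norm_EE (b0 s : ℝ) : ‖EE κ Z b0 s‖ = 1 := Complex.norm_exp_ofReal_mul_I _

theorem norm_exp_sub_exp (x y : ℝ) :
    ‖Complex.exp ((x : ℂ) * Complex.I) - Complex.exp ((y : ℂ) * Complex.I)‖ ≤ |x - y| := by
  have h := Real.norm_exp_I_mul_ofReal_sub_one_le (x := x - y)
  have e : Complex.exp ((x : ℂ) * Complex.I) - Complex.exp ((y : ℂ) * Complex.I)
      = Complex.exp ((y : ℂ) * Complex.I) * (Complex.exp (Complex.I * ((x - y : ℝ) : ℂ)) - 1) := by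
    rw [mul_sub, ← Complex.exp_add, mul_one]
    congr 2
    push_cast
    ring
  rw [e, norm_mul, Complex.norm_exp_ofReal_mul_I, one_mul]
  exact h

theorem phase_sub (hZ : Curve L A ω Z) (hκ : Wt t0 δ κ) (ht : 0 < t0)
    (hδ : δ ≤ t0 / 2) (b0 s s' : ℝ) :
    phase κ Z b0 s' - phase κ Z b0 s = ∫ x in s..s', dens κ Z x := by
  unfold phase
  rw [intervalIntegral.integral_interval_sub_left (dens_intervalIntegrable hZ hκ ht hδ _ _)
    (dens_intervalIntegrable hZ hκ ht hδ _ _)]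

theorem phase_lip (hZ : Curve L A ω Z) (hκ : Wt t0 δ κ) (ht : 0 < t0)
    (hδ : δ ≤ t0 / 2) (b0 s s' : ℝ) :
    |phase κ Z b0 s' - phase κ Z b0 s| ≤ A * √(2 / t0) * |s' - s| := by
  rw [phase_sub hZ hκ ht hδ]
  have h := intervalIntegral.norm_integral_le_of_norm_le_const (a := s) (b := s')
    (f := dens κ Z) (C := A * √(2 / t0))
    (fun x _ => by rw [Real.norm_eq_abs]; exact dens_abs_le hZ hκ ht hδ x)
  rwa [Real.norm_eq_abs] at h

theorem EE_lip (hZ : Curve L A ω Z) (hκ : Wt t0 δ κ) (ht : 0 < t0)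
    (hδ : δ ≤ t0 / 2) (b0 s s' : ℝ) :
    ‖EE κ Z b0 s' - EE κ Z b0 s‖ ≤ A * √(2 / t0) * |s' - s| := by
  unfold EE
  refine (norm_exp_sub_exp _ _).trans ?_
  have e : -phase κ Z b0 s' - -phase κ Z b0 s = -(phase κ Z b0 s' - phase κ Z b0 s) := by ring
  rw [e, abs_neg]
  exact phase_lip hZ hκ ht hδ b0 s s'

/-- the direction of a nonzero number -/
noncomputable def dir (z : ℂ) : ℂ := z * ((‖z‖⁻¹ : ℝ) : ℂ)

theorem norm_dir {z : ℂ} (hz : z ≠ 0) : ‖dir z‖ = 1 := by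
  unfold dir
  rw [norm_mul, Complex.norm_real, Real.norm_eq_abs, abs_inv, abs_norm]
  exact mul_inv_cancel₀ (norm_ne_zero_iff.2 hz)

theorem dir_sub_le {z w : ℂ} (hw : w ≠ 0) : ‖dir z - dir w‖ ≤ 2 * ‖z - w‖ / ‖w‖ := by
  by_cases hz : z = 0
  · subst hz
    have h0 : dir 0 = 0 := by simp [dir]
    rw [h0, zero_sub, norm_neg, norm_dir hw, zero_sub, norm_neg]
    have : 0 < ‖w‖ := norm_pos_iff.2 hw
    rw [le_div_iff₀ this]
    linarith
  have hw' : 0 < ‖w‖ := norm_pos_iff.2 hw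
  have hz' : 0 < ‖z‖ := norm_pos_iff.2 hz
  have e : dir z - dir w = z * (((‖z‖⁻¹ - ‖w‖⁻¹ : ℝ)) : ℂ) + (z - w) * ((‖w‖⁻¹ : ℝ) : ℂ) := by
    unfold dir
    push_cast
    ring
  rw [e]
  calc _ ≤ ‖z * (((‖z‖⁻¹ - ‖w‖⁻¹ : ℝ)) : ℂ)‖ + ‖(z - w) * ((‖w‖⁻¹ : ℝ) : ℂ)‖ := norm_add_le _ _
    _ = ‖z‖ * |‖z‖⁻¹ - ‖w‖⁻¹| + ‖z - w‖ * ‖w‖⁻¹ := by
        rw [norm_mul, norm_mul, Complex.norm_real, Complex.norm_real, Real.norm_eq_abs,
          Real.norm_eq_abs, abs_inv, abs_norm]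
    _ = |‖w‖ - ‖z‖| / ‖w‖ + ‖z - w‖ / ‖w‖ := by
        congr 1
        have : ‖z‖⁻¹ - ‖w‖⁻¹ = (‖w‖ - ‖z‖) * (‖z‖ * ‖w‖)⁻¹ := by
          field_simp
        rw [this, abs_mul, abs_of_pos (by positivity : 0 < (‖z‖ * ‖w‖)⁻¹)]
        field_simp
    _ ≤ ‖z - w‖ / ‖w‖ + ‖z - w‖ / ‖w‖ := by
        gcongr
        rw [abs_sub_comm]
        exact abs_norm_sub_norm_le z w
    _ = _ := by ring

theorem dir_mul {c z : ℂ} (hc : ‖c‖ = 1) : dir (c * z) = c * dir z := by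
  unfold dir
  rw [norm_mul, hc, one_mul, mul_assoc]

end Pool.Agent.Helper31.LS
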