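import Pool.Agent.Helper31.LS.Abs

set_option autoImplicit false

open MeasureTheory Filter Topology Set
open scoped ComplexConjugate

namespace Pool.Agent.Helper31.LS

variable {L A : ℝ} {ω : ℂ} {Z : ℝ → ℂ} {t0 δ : ℝ} {κ : ℝ → ℝ}

theorem out_const (hZ : Curve L A ω Z) (hκ : Wt t0 δ κ) (ht : 0 < t0) (hδ0 : 0 < δ)
    (hδ : δ ≤ t0 / 2) {a b : ℝ} (hab : a ≤ b)
    (hout : ∀ s ∈ Icc a b, t0 + δ ≤ Complex.normSq (Z s)) (b0 : ℝ) :
    EE κ Z b0 a * dir (Z a) = EE κ Z b0 b * dir (Z b) := by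
  have hA := hZ.A_nonneg
  have hnz : ∀ s ∈ Icc a b, Z s ≠ 0 := by
    intro s hs h0
    have := hout s hs
    rw [h0, map_zero] at this
    linarith
  have hnorm : ∀ s ∈ Icc a b, √t0 ≤ ‖Z s‖ := by
    intro s hs
    have := hout s hs
    rw [Complex.normSq_eq_norm_sq] at this
    rw [Real.sqrt_le_left (norm_nonneg _)]
    linarith
  have hst : 0 < √t0 := Real.sqrt_pos.2 ht
  set F : ℝ → ℂ := fun s => EE κ Z b0 s * dir (Z s) with hF
  have hlip : LipschitzOnWith (A * √(2 / t0) + 2 * A / √t0).toNNReal F (uIcc a b) := by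
    apply LipschitzOnWith.of_dist_le_mul
    intro s hs s' hs'
    rw [uIcc_of_le hab] at hs hs'
    rw [dist_eq_norm, Real.dist_eq, Real.coe_toNNReal _ (by positivity)]
    have e : F s - F s' = (EE κ Z b0 s - EE κ Z b0 s') * dir (Z s)
        + EE κ Z b0 s' * (dir (Z s) - dir (Z s')) := by
      simp only [hF]; ring
    rw [e]
    calc _ ≤ ‖(EE κ Z b0 s - EE κ Z b0 s') * dir (Z s)‖
          + ‖EE κ Z b0 s' * (dir (Z s) - dir (Z s'))‖ := norm_add_le _ _
      _ = ‖EE κ Z b0 s - EE κ Z b0 s'‖ + ‖dir (Z s) - dir (Z s')‖ := by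
          rw [norm_mul, norm_mul, norm_dir (hnz s hs), norm_EE, mul_one, one_mul]
      _ ≤ A * √(2 / t0) * |s - s'| + 2 * (A * |s - s'|) / √t0 := by
          gcongr
          · exact EE_lip hZ hκ ht hδ b0 s' s
          · refine (dir_sub_le (hnz s' hs')).trans ?_
            gcongr
            · exact hZ.lip s s'
            · exact hnorm s' hs'
      _ = _ := by ring
  have hac := hlip.absolutelyContinuousOnInterval
  have hd1 := hZ.lipschitz.ae_differentiableAt (μ := volume)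
  have hd2 := LocallyIntegrable.ae_hasDerivAt_integral (dens_locallyIntegrable hZ hκ ht hδ)
  obtain ⟨C, hC⟩ := hac.const_of_ae_hasDerivAt_zero (by
    filter_upwards [hd1, hd2] with x hx1 hx2 hx
    rw [uIcc_of_le hab] at hx
    have hZx := hx1.hasDerivAt
    set z' := deriv Z x with hz'
    have hph : HasDerivAt (fun s => phase κ Z b0 s) (dens κ Z x) x := hx2 b0
    have hEE : HasDerivAt (fun s => EE κ Z b0 s)
        (EE κ Z b0 x * (((-dens κ Z x : ℝ) : ℂ) * Complex.I)) x := by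
      have h1 : HasDerivAt (fun s => (((-phase κ Z b0 s : ℝ) : ℂ) * Complex.I))
          ((((-dens κ Z x : ℝ) : ℂ) * Complex.I)) x :=
        (hph.neg.ofReal_comp).mul_const Complex.I
      exact h1.cexp
    have hN : HasDerivAt (fun s => Complex.normSq (Z s)) (2 * (conj (Z x) * z').re) x := by
      have hre : HasDerivAt (fun s => (Z s).re) z'.re x :=
        (Complex.reCLM.hasFDerivAt.comp_hasDerivAt x hZx)
      have him : HasDerivAt (fun s => (Z s).im) z'.im x :=
        (Complex.imCLM.hasFDerivAt.comp_hasDerivAt x hZx)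
      have h := (hre.mul hre).add (him.mul him)
      have e : (fun s => Complex.normSq (Z s)) =
          (fun s => (Z s).re) * (fun s => (Z s).re) + (fun s => (Z s).im) * (fun s => (Z s).im) := by
        funext s
        simp [Complex.normSq_apply]
      rw [e]
      have e2 : 2 * (conj (Z x) * z').re
          = z'.re * (Z x).re + (Z x).re * z'.re + (z'.im * (Z x).im + (Z x).im * z'.im) := by
        rw [Complex.mul_re, Complex.conj_re, Complex.conj_im]
        ring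
      rw [e2]
      exact h
    have hNpos : 0 < Complex.normSq (Z x) := Complex.normSq_pos.2 (hnz x hx)
    have hnm : HasDerivAt (fun s => ‖Z s‖) ((conj (Z x) * z').re / ‖Z x‖) x := by
      have h := hN.sqrt hNpos.ne'
      have e : (fun s => ‖Z s‖) = fun s => √(Complex.normSq (Z s)) := by
        funext s
        rw [Complex.normSq_eq_norm_sq, Real.sqrt_sq (norm_nonneg _)]
      rw [e]
      convert h using 1
      rw [Complex.normSq_eq_norm_sq, Real.sqrt_sq (norm_nonneg _)]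
      field_simp
    have hnpos : 0 < ‖Z x‖ := norm_pos_iff.2 (hnz x hx)
    have hinv := hnm.inv hnpos.ne'
    have hdir : HasDerivAt (fun s => dir (Z s))
        (z' * ((‖Z x‖⁻¹ : ℝ) : ℂ) + Z x * ((-((conj (Z x) * z').re / ‖Z x‖) / ‖Z x‖ ^ 2 : ℝ) : ℂ)) x := by
      have := hZx.mul hinv.ofReal_comp
      exact this
    have hFd := hEE.mul hdir
    have hval : dens κ Z x = (conj (Z x) * z').im / ‖Z x‖ ^ 2 := by
      unfold dens
      rw [hκ.high _ (hout x hx), Complex.normSq_eq_norm_sq]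
      ring
    have key : EE κ Z b0 x * (((-dens κ Z x : ℝ) : ℂ) * Complex.I) * dir (Z x) +
        EE κ Z b0 x * (z' * ((‖Z x‖⁻¹ : ℝ) : ℂ) +
          Z x * ((-((conj (Z x) * z').re / ‖Z x‖) / ‖Z x‖ ^ 2 : ℝ) : ℂ)) = 0 := by
      have hc : conj (Z x) * z' = (((conj (Z x) * z').re : ℝ) : ℂ)
          + (((conj (Z x) * z').im : ℝ) : ℂ) * Complex.I := (Complex.re_add_im _).symm
      have hzz : Z x * conj (Z x) = ((‖Z x‖ ^ 2 : ℝ) : ℂ) := by
        rw [Complex.mul_conj, Complex.normSq_eq_norm_sq]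
      have hn0 : ((‖Z x‖ : ℝ) : ℂ) ≠ 0 := by exact_mod_cast hnpos.ne'
      have h5 : z' * ((‖Z x‖ ^ 2 : ℝ) : ℂ) = Z x * (((conj (Z x) * z').re : ℝ) : ℂ)
          + Z x * ((((conj (Z x) * z').im : ℝ) : ℂ) * Complex.I) := by
        rw [← hzz, ← mul_add, ← hc]; ring
      rw [hval]
      unfold dir
      generalize (conj (Z x) * z').re = p at *
      generalize (conj (Z x) * z').im = q at *
      have h6 : z' = (Z x * (p : ℂ) + Z x * ((q : ℂ) * Complex.I)) / ((‖Z x‖ : ℝ) : ℂ) ^ 2 := by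
        rw [eq_div_iff (pow_ne_zero 2 hn0), ← h5]
        push_cast
        ring
      rw [h6]
      push_cast
      field_simp
      ring
    rw [key] at hFd
    exact hFd)
  have hfin : F a = F b := by rw [hC a (by simp), hC b (by simp)]
  exact hfin

/-- `Z` follows `Zh` on the closed set `Sc` and rests off `Sc`. -/
structure Follow (Zh Z : ℝ → ℂ) (Sc : Set ℝ) : Prop where
  closed : IsClosed Sc
  agree : ∀ s ∈ Sc, Z s = Zh s
  rest : ∀ a b, a ≤ b → (∀ s ∈ Icc a b, s ∉ Sc) → Z a = Z b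

open Classical in
noncomputable def tau (t0 δ : ℝ) (Z : ℝ → ℂ) (s : ℝ) : ℂ :=
  if t0 + δ ≤ Complex.normSq (Z s) then dir (Z s) else 1

noncomputable def ff (t0 δ : ℝ) (κ : ℝ → ℝ) (Z : ℝ → ℂ) (b0 s : ℝ) : ℂ :=
  EE κ Z b0 s * tau t0 δ Z s

theorem norm_tau (ht : 0 < t0) (hδ0 : 0 < δ) (s : ℝ) : ‖tau t0 δ Z s‖ = 1 := by
  unfold tau
  split_ifs with h
  · apply norm_dir
    intro h0
    rw [h0, map_zero] at h
    linarith
  · simp

theorem norm_ff (ht : 0 < t0) (hδ0 : 0 < δ) (b0 s : ℝ) : ‖ff t0 δ κ Z b0 s‖ = 1 := by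
  unfold ff
  rw [norm_mul, norm_EE, norm_tau ht hδ0, one_mul]

theorem phase_const_of_dens_zero (hZ : Curve L A ω Z) (hκ : Wt t0 δ κ) (ht : 0 < t0)
    (hδ : δ ≤ t0 / 2) {a b : ℝ} (hab : a ≤ b) (h : ∀ x ∈ Ioo a b, dens κ Z x = 0) (b0 : ℝ) :
    phase κ Z b0 a = phase κ Z b0 b := by
  have h1 := phase_sub hZ hκ ht hδ b0 a b
  have h2 : ∫ x in a..b, dens κ Z x = 0 := by
    rw [intervalIntegral.integral_of_le hab, integral_Ioc_eq_integral_Ioo]
    exact setIntegral_eq_zero_of_forall_eq_zero h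
  linarith

theorem ff_const_of_rest {Zh : ℝ → ℂ} {Sc : Set ℝ} (hZ : Curve L A ω Z) (hκ : Wt t0 δ κ)
    (ht : 0 < t0) (hδ : δ ≤ t0 / 2) (hf : Follow Zh Z Sc) {a b : ℝ} (hab : a ≤ b)
    (h : ∀ s ∈ Icc a b, s ∉ Sc) (b0 : ℝ) : ff t0 δ κ Z b0 a = ff t0 δ κ Z b0 b := by
  have hZc : ∀ s ∈ Icc a b, Z s = Z a := by
    intro s hs
    exact (hf.rest a s hs.1 (fun u hu => h u ⟨hu.1, hu.2.trans hs.2⟩)).symm
  have hd : ∀ x ∈ Ioo a b, dens κ Z x = 0 := by
    intro x hx
    have : deriv Z x = 0 := by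
      have he : Z =ᶠ[𝓝 x] fun _ => Z a := by
        filter_upwards [Ioo_mem_nhds hx.1 hx.2] with y hy
        exact hZc y ⟨hy.1.le, hy.2.le⟩
      rw [he.deriv_eq]
      simp
    unfold dens
    rw [this]
    simp
  have hp := phase_const_of_dens_zero hZ hκ ht hδ hab hd b0
  unfold ff EE tau
  rw [hp, hZc b (right_mem_Icc.2 hab)]

end Pool.Agent.Helper31.LS
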