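import Pool.Agent.Helper31.LS.Abs2

set_option autoImplicit false

open MeasureTheory Filter Topology Set
open scoped ComplexConjugate

namespace Pool.Agent.Helper31.LS

variable {L A : ℝ} {ω : ℂ} {Z Zh : ℝ → ℂ} {t0 δ : ℝ} {κ : ℝ → ℝ} {Sc : Set ℝ}

theorem exists_contact_value (hZ : Curve L A ω Z) (hf : Follow Zh Z Sc) {a b c : ℝ}
    (hc : c ∈ Icc a b) (hcS : c ∈ Sc) {s : ℝ} (hs : s ∈ Icc a b) :
    ∃ e ∈ Icc a b, e ∈ Sc ∧ Z s = Zh e := by
  by_cases hsS : s ∈ Sc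
  · exact ⟨s, hs, hsS, hf.agree s hsS⟩
  have hcont := hZ.continuous
  rcases le_total s c with hsc | hsc
  · -- first contact point to the right of `s`
    have hK : IsCompact (Sc ∩ Icc s c) := (isCompact_Icc).inter_left hf.closed
    have hne : (Sc ∩ Icc s c).Nonempty := ⟨c, hcS, right_mem_Icc.2 hsc⟩
    obtain ⟨e, he, hmin⟩ := hK.exists_isLeast hne
    refine ⟨e, ⟨hs.1.trans he.2.1, he.2.2.trans hc.2⟩, he.1, ?_⟩
    rw [← hf.agree e he.1]
    have hse : s < e := lt_of_le_of_ne he.2.1 (fun h => hsS (h ▸ he.1))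
    have hconst : ∀ u ∈ Ico s e, Z u = Z s := by
      intro u hu
      refine (hf.rest s u hu.1 ?_).symm
      intro v hv hvS
      have := hmin ⟨hvS, ⟨hv.1, hv.2.trans (hu.2.le.trans he.2.2)⟩⟩
      have h2 := hv.2
      have h3 := hu.2
      linarith
    have ht1 : Tendsto Z (𝓝[<] e) (𝓝 (Z e)) := hcont.continuousAt.tendsto.mono_left inf_le_left
    have ht2 : Tendsto Z (𝓝[<] e) (𝓝 (Z s)) := by
      refine tendsto_const_nhds.congr' ?_
      filter_upwards [Ico_mem_nhdsLT hse] with u hu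
      exact (hconst u hu).symm
    exact tendsto_nhds_unique ht2 ht1
  · have hK : IsCompact (Sc ∩ Icc c s) := (isCompact_Icc).inter_left hf.closed
    have hne : (Sc ∩ Icc c s).Nonempty := ⟨c, hcS, left_mem_Icc.2 hsc⟩
    obtain ⟨e, he, hmax⟩ := hK.exists_isGreatest hne
    refine ⟨e, ⟨hc.1.trans he.2.1, he.2.2.trans hs.2⟩, he.1, ?_⟩
    rw [← hf.agree e he.1]
    have hse : e < s := lt_of_le_of_ne he.2.2 (fun h => hsS (h ▸ he.1))
    have hconst : ∀ u ∈ Ioc e s, Z u = Z s := by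
      intro u hu
      refine (hf.rest u s hu.2 ?_)
      intro v hv hvS
      have := hmax ⟨hvS, ⟨he.2.1.trans (hu.1.le.trans hv.1), hv.2⟩⟩
      have h2 := hv.1
      have h3 := hu.1
      linarith
    have ht1 : Tendsto Z (𝓝[>] e) (𝓝 (Z e)) := hcont.continuousAt.tendsto.mono_left inf_le_left
    have ht2 : Tendsto Z (𝓝[>] e) (𝓝 (Z s)) := by
      refine tendsto_const_nhds.congr' ?_
      filter_upwards [Ioc_mem_nhdsGT hse] with u hu
      exact (hconst u hu).symm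
    exact tendsto_nhds_unique ht2 ht1

theorem ff_const_of_avoid (hZ : Curve L A ω Z) (hκ : Wt t0 δ κ) (ht : 0 < t0) (hδ0 : 0 < δ)
    (hδ : δ ≤ t0 / 2) (hf : Follow Zh Z Sc) {a b : ℝ} (hab : a ≤ b)
    (h : ∀ e ∈ Icc a b, e ∈ Sc → δ < |Complex.normSq (Zh e) - t0|) (b0 : ℝ) :
    ff t0 δ κ Z b0 a = ff t0 δ κ Z b0 b := by
  by_cases hcon : ∃ c ∈ Icc a b, c ∈ Sc
  swap
  · push Not at hcon
    exact ff_const_of_rest hZ hκ ht hδ hf hab hcon b0
  obtain ⟨c, hc, hcS⟩ := hcon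
  have hrad : ∀ s ∈ Icc a b, δ < |Complex.normSq (Z s) - t0| := by
    intro s hs
    obtain ⟨e, he, heS, hse⟩ := exists_contact_value hZ hf hc hcS hs
    rw [hse]
    exact h e he heS
  have hcontr : Continuous (fun s => Complex.normSq (Z s) - t0) :=
    (Complex.continuous_normSq.comp hZ.continuous).sub continuous_const
  have hdich : (∀ s ∈ Icc a b, δ < Complex.normSq (Z s) - t0) ∨
      (∀ s ∈ Icc a b, Complex.normSq (Z s) - t0 < -δ) := by
    by_contra hno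
    push Not at hno
    obtain ⟨⟨s1, hs1, h1⟩, ⟨s2, hs2, h2⟩⟩ := hno
    have h1' : Complex.normSq (Z s1) - t0 < 0 := by
      have := hrad s1 hs1
      rcases lt_abs.1 this with h | h
      · linarith
      · linarith
    have h2' : 0 < Complex.normSq (Z s2) - t0 := by
      have := hrad s2 hs2
      rcases lt_abs.1 this with h | h
      · linarith
      · linarith
    have hpc : IsPreconnected (Icc a b) := isPreconnected_Icc
    have hivt := hpc.intermediate_value hs1 hs2 hcontr.continuousOn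
    obtain ⟨s3, hs3, h3⟩ := hivt (⟨h1'.le, h2'.le⟩ : (0:ℝ) ∈ Icc _ _)
    have := hrad s3 hs3
    simp only at h3
    rw [h3, abs_zero] at this
    linarith
  rcases hdich with hout | hin
  · have hout' : ∀ s ∈ Icc a b, t0 + δ ≤ Complex.normSq (Z s) := by
      intro s hs
      have := hout s hs
      linarith
    have := out_const hZ hκ ht hδ0 hδ hab hout' b0
    unfold ff tau
    rw [if_pos (hout' a (left_mem_Icc.2 hab)), if_pos (hout' b (right_mem_Icc.2 hab))]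
    exact this
  · have hd : ∀ x ∈ Ioo a b, dens κ Z x = 0 := by
      intro x hx
      unfold dens
      rw [hκ.low _ (by have := hin x ⟨hx.1.le, hx.2.le⟩; linarith), zero_mul]
    have hp := phase_const_of_dens_zero hZ hκ ht hδ hab hd b0
    unfold ff EE tau
    rw [if_neg (by have := hin a (left_mem_Icc.2 hab); linarith),
      if_neg (by have := hin b (right_mem_Icc.2 hab); linarith), hp]

theorem norm_inv_sub_inv {z w : ℂ} (hz : ‖z‖ = 1) (hw : ‖w‖ = 1) : ‖z⁻¹ - w⁻¹‖ = ‖z - w‖ := by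
  have hz0 : z ≠ 0 := by rintro rfl; simp at hz
  have hw0 : w ≠ 0 := by rintro rfl; simp at hw
  rw [inv_sub_inv hz0 hw0, norm_div, norm_mul, hz, hw, one_mul, div_one, norm_sub_rev]

theorem norm_mul_inv_sub {a b c d : ℂ} (hb : ‖b‖ = 1) (hc : ‖c‖ = 1)
    (hd : ‖d‖ = 1) : ‖a * b⁻¹ - c * d⁻¹‖ ≤ ‖a - c‖ + ‖b - d‖ := by
  have e : a * b⁻¹ - c * d⁻¹ = (a - c) * b⁻¹ + c * (b⁻¹ - d⁻¹) := by ring
  rw [e]
  refine (norm_add_le _ _).trans ?_
  rw [norm_mul, norm_mul, norm_inv, hb, hc, inv_one, mul_one, one_mul, norm_inv_sub_inv hb hd]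

theorem small_jump (hZ : Curve L A ω Z) (hZh : Curve L A ω Zh) (hκ : Wt t0 δ κ) (ht : 0 < t0)
    (hδ0 : 0 < δ) (hδ : δ ≤ t0 / 2) (hf : Follow Zh Z Sc) {σ η : ℝ} (hη : 0 < η)
    (hσ : Complex.normSq (Zh σ) = t0) (b0 : ℝ) :
    ∃ ξ ∈ ({1, dir (Zh σ), (dir (Zh σ))⁻¹} : Finset ℂ),
      ‖ff t0 δ κ Z b0 (σ + η) * (ff t0 δ κ Z b0 (σ - η))⁻¹ - ξ‖
        ≤ (2 * A * √(2 / t0) + 12 * A / √t0) * η := by
  have hA := hZ.A_nonneg
  have hst : 0 < √t0 := Real.sqrt_pos.2 ht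
  by_cases hcon : ∃ c ∈ Icc (σ - η) (σ + η), c ∈ Sc
  swap
  · push Not at hcon
    have h1 := ff_const_of_rest hZ hκ ht hδ hf (by linarith) hcon b0
    refine ⟨1, by simp, ?_⟩
    have hne : ff t0 δ κ Z b0 (σ + η) ≠ 0 := by
      intro h0
      have := norm_ff (κ := κ) (Z := Z) ht hδ0 b0 (σ + η)
      rw [h0] at this
      simp at this
    rw [h1, mul_inv_cancel₀ hne, sub_self, norm_zero]
    positivity
  obtain ⟨c, hc, hcS⟩ := hcon
  have hnσ : ‖Zh σ‖ = √t0 := by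
    rw [← hσ, Complex.normSq_eq_norm_sq, Real.sqrt_sq (norm_nonneg _)]
  have hσ0 : Zh σ ≠ 0 := by
    intro h0
    rw [h0, norm_zero] at hnσ
    linarith
  have hclose : ∀ s ∈ Icc (σ - η) (σ + η), ‖Z s - Zh σ‖ ≤ 3 * A * η := by
    intro s hs
    have e : Z s - Zh σ = (Z s - Z c) + (Zh c - Zh σ) := by
      rw [hf.agree c hcS]; ring
    rw [e]
    refine (norm_add_le _ _).trans ?_
    have h1 := hZ.lip s c
    have h2 := hZh.lip c σ
    have h3 : |s - c| ≤ 2 * η := by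
      rw [abs_le]
      constructor <;> linarith [hs.1, hs.2, hc.1, hc.2]
    have h4 : |c - σ| ≤ η := by
      rw [abs_le]
      constructor <;> linarith [hc.1, hc.2]
    have h5 : A * |s - c| ≤ A * (2 * η) := by gcongr
    have h6 : A * |c - σ| ≤ A * η := by gcongr
    linarith
  have hthe : ∀ s ∈ Icc (σ - η) (σ + η), ∃ θ, (θ = 1 ∨ θ = dir (Zh σ)) ∧
      ‖tau t0 δ Z s - θ‖ ≤ 6 * A * η / √t0 := by
    intro s hs
    unfold tau
    split_ifs with h
    · refine ⟨dir (Zh σ), Or.inr rfl, (dir_sub_le hσ0).trans ?_⟩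
      rw [hnσ]
      have := hclose s hs
      calc 2 * ‖Z s - Zh σ‖ / √t0 ≤ 2 * (3 * A * η) / √t0 := by gcongr
        _ = 6 * A * η / √t0 := by ring
    · refine ⟨1, Or.inl rfl, ?_⟩
      rw [sub_self, norm_zero]
      positivity
  obtain ⟨θ1, hθ1, hn1⟩ := hthe (σ + η) ⟨by linarith, le_rfl⟩
  obtain ⟨θ2, hθ2, hn2⟩ := hthe (σ - η) ⟨le_rfl, by linarith⟩
  have hdir1 : ‖dir (Zh σ)‖ = 1 := norm_dir hσ0
  have hdir0 : dir (Zh σ) ≠ 0 := by
    intro h0; rw [h0] at hdir1; simp at hdir1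
  have hθ1n : ‖θ1‖ = 1 := by rcases hθ1 with rfl | rfl; exacts [norm_one, hdir1]
  have hθ2n : ‖θ2‖ = 1 := by rcases hθ2 with rfl | rfl; exacts [norm_one, hdir1]
  refine ⟨θ1 * θ2⁻¹, ?_, ?_⟩
  · rcases hθ1 with rfl | rfl <;> rcases hθ2 with rfl | rfl
    · simp
    · simp
    · simp
    · rw [mul_inv_cancel₀ hdir0]; simp
  · unfold ff
    set e1 := EE κ Z b0 (σ + η) with he1
    set e2 := EE κ Z b0 (σ - η) with he2
    have hee : ‖e1 - e2‖ ≤ A * √(2 / t0) * (2 * η) := by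
      refine (EE_lip hZ hκ ht hδ b0 (σ - η) (σ + η)).trans ?_
      have : |σ + η - (σ - η)| = 2 * η := by
        rw [abs_of_nonneg (by linarith)]; ring
      rw [this]
    have he1n : ‖e1‖ = 1 := norm_EE _ _
    have he2n : ‖e2‖ = 1 := norm_EE _ _
    have he20 : e2 ≠ 0 := by intro h0; rw [h0] at he2n; simp at he2n
    have hτ1 := norm_tau (Z := Z) ht hδ0 (σ + η)
    have hτ2 := norm_tau (Z := Z) ht hδ0 (σ - η)
    have e : e1 * tau t0 δ Z (σ + η) * (e2 * tau t0 δ Z (σ - η))⁻¹ - θ1 * θ2⁻¹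
        = (e1 * e2⁻¹ - 1) * (tau t0 δ Z (σ + η) * (tau t0 δ Z (σ - η))⁻¹)
          + (tau t0 δ Z (σ + η) * (tau t0 δ Z (σ - η))⁻¹ - θ1 * θ2⁻¹) := by
      rw [mul_inv]; ring
    rw [e]
    refine (norm_add_le _ _).trans ?_
    have h1 : ‖e1 * e2⁻¹ - 1‖ = ‖e1 - e2‖ := by
      have : e1 * e2⁻¹ - 1 = (e1 - e2) * e2⁻¹ := by
        rw [sub_mul, mul_inv_cancel₀ he20]
      rw [this, norm_mul, norm_inv, he2n, inv_one, mul_one]
    have h2 := norm_mul_inv_sub (a := tau t0 δ Z (σ + η)) hτ2 hθ1n hθ2n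
    have h3 : ‖tau t0 δ Z (σ + η) * (tau t0 δ Z (σ - η))⁻¹‖ = 1 := by
      rw [norm_mul, norm_inv, hτ1, hτ2]; simp
    rw [norm_mul, h3, mul_one, h1]
    calc _ ≤ A * √(2 / t0) * (2 * η) + (6 * A * η / √t0 + 6 * A * η / √t0) := by
          refine add_le_add hee (h2.trans (add_le_add hn1 hn2))
      _ = _ := by ring

end Pool.Agent.Helper31.LS
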