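import Pool.Agent.Helper31.LS.Abs3

set_option autoImplicit false

open MeasureTheory Filter Topology Set
open scoped ComplexConjugate

namespace Pool.Agent.Helper31.LS

variable {L A : ℝ} {ω : ℂ} {Zh : ℝ → ℂ}

theorem Curve.norm_periodic (hω : ‖ω‖ = 1) (hZ : Curve L A ω Zh) :
    Function.Periodic (fun s => ‖Zh s‖) L := by
  intro s
  simp only
  rw [hZ.per, norm_mul, hω, one_mul]

theorem Curve.bounded (hL : 0 < L) (hω : ‖ω‖ = 1) (hZ : Curve L A ω Zh) :
    ∃ M : ℝ, 0 < M ∧ ∀ s, ‖Zh s‖ ≤ M := by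
  obtain ⟨M, hM⟩ := (isCompact_Icc (a := (0 : ℝ)) (b := L)).exists_bound_of_continuousOn
    hZ.continuous.continuousOn
  refine ⟨max M 1, by positivity, fun s => ?_⟩
  obtain ⟨y, hy, hys⟩ := (hZ.norm_periodic hω).exists_mem_Ico₀ hL s
  have h : ‖Zh s‖ = ‖Zh y‖ := hys
  rw [h]
  exact (hM y ⟨hy.1, hy.2.le⟩).trans (le_max_left _ _)

theorem Curve.normSq_lipschitz (hL : 0 < L) (hω : ‖ω‖ = 1) (hZ : Curve L A ω Zh) :
    ∃ K : NNReal, LipschitzWith K (fun s => Complex.normSq (Zh s)) := by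
  obtain ⟨M, hM0, hM⟩ := hZ.bounded hL hω
  have hA := hZ.A_nonneg
  refine ⟨(2 * M * A).toNNReal, LipschitzWith.of_dist_le_mul fun s s' => ?_⟩
  rw [Real.dist_eq, Real.dist_eq, Real.coe_toNNReal _ (by positivity)]
  rw [Complex.normSq_eq_norm_sq, Complex.normSq_eq_norm_sq]
  have e : ‖Zh s‖ ^ 2 - ‖Zh s'‖ ^ 2 = (‖Zh s‖ + ‖Zh s'‖) * (‖Zh s‖ - ‖Zh s'‖) := by ring
  rw [e, abs_mul]
  have h1 : |‖Zh s‖ + ‖Zh s'‖| ≤ 2 * M := by
    rw [abs_of_nonneg (by positivity)]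
    linarith [hM s, hM s']
  have h2 : |‖Zh s‖ - ‖Zh s'‖| ≤ A * |s - s'| := (abs_norm_sub_norm_le _ _).trans (hZ.lip s s')
  calc _ ≤ 2 * M * (A * |s - s'|) := by gcongr
    _ = _ := by ring

theorem zeros_finite {r : ℝ → ℝ} (hr : Continuous r) {t0 : ℝ}
    (h : ∀ s, r s = t0 → DifferentiableAt ℝ r s ∧ deriv r s ≠ 0) (a b : ℝ) :
    {s | s ∈ Icc a b ∧ r s = t0}.Finite := by
  by_contra hinf
  have hinf' : {s | s ∈ Icc a b ∧ r s = t0}.Infinite := hinf
  obtain ⟨x, hx, hacc⟩ := hinf'.exists_accPt_of_subset_isCompact (isCompact_Icc (a := a) (b := b))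
    (fun s hs => hs.1)
  have hcl : IsClosed {s | r s = t0} := isClosed_eq hr continuous_const
  have hxr : r x = t0 := by
    have h1 : AccPt x (𝓟 {s | r s = t0}) := hacc.mono (principal_mono.2 fun s hs => hs.2)
    exact hcl.closure_subset_iff.2 (fun s hs => hs) (mem_closure_iff_clusterPt.2 h1.clusterPt)
  obtain ⟨hd, hne⟩ := h x hxr
  have h2 := hd.hasDerivAt.eventually_ne (c := t0) hne
  have h3 := accPt_iff_frequently_nhdsNE.1 hacc
  exact h3 (by
    filter_upwards [h2] with s hs hmem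
    exact hs hmem.2)

theorem abs_finite (hL : 0 < L) (hω : ‖ω‖ = 1) (hZh : Curve L A ω Zh) :
    ∀ᵐ t0 : ℝ, 0 < t0 → ∃ S : Finset ℂ, ∃ b0 : ℝ, ∀ ε : ℝ, 0 < ε → ∃ δ0 : ℝ, 0 < δ0 ∧
      ∀ δ : ℝ, 0 < δ → δ < δ0 → ∀ κ : ℝ → ℝ, Wt t0 δ κ → ∀ (Z : ℝ → ℂ) (Sc : Set ℝ),
        Curve L A ω Z → Follow Zh Z Sc → ∃ s ∈ S, ‖EE κ Z b0 (b0 + L) - s‖ ≤ ε := by
  classical
  obtain ⟨K, hK⟩ := hZh.normSq_lipschitz hL hω
  filter_upwards [lipschitz_sard hK] with t0 hgood ht
  have hA := hZh.A_nonneg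
  have hst : 0 < √t0 := Real.sqrt_pos.2 ht
  set r : ℝ → ℝ := fun s => Complex.normSq (Zh s) with hr
  have hrc : Continuous r := hK.continuous
  have hrper : ∀ s, r (s + L) = r s := by
    intro s
    simp only [hr]
    rw [hZh.per, map_mul, Complex.normSq_eq_norm_sq ω, hω]
    simp
  -- base point
  obtain ⟨b0, hb0⟩ : ∃ b0, r b0 ≠ t0 := by
    by_cases h0 : r 0 = t0
    · obtain ⟨hd, hne⟩ := hgood 0 h0
      have h2 := hd.hasDerivAt.eventually_ne (c := t0) hne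
      exact h2.exists
    · exact ⟨0, h0⟩
  have hfin := zeros_finite hrc hgood b0 (b0 + L)
  set F : Finset ℝ := hfin.toFinset with hFdef
  have hF : ∀ s, s ∈ F ↔ s ∈ Icc b0 (b0 + L) ∧ r s = t0 := by
    intro s
    rw [hFdef, Set.Finite.mem_toFinset]
    rfl
  have hFin : ∀ s ∈ F, b0 < s ∧ s < b0 + L := by
    intro s hs
    obtain ⟨h1, h2⟩ := (hF s).1 hs
    constructor
    · refine lt_of_le_of_ne h1.1 ?_
      rintro rfl
      exact hb0 h2
    · refine lt_of_le_of_ne h1.2 ?_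
      rintro rfl
      rw [hrper] at h2
      exact hb0 h2
  set S : Finset ℂ := ((({1, ω⁻¹} : Finset ℂ) ×ˢ
    Fintype.piFinset (fun i : F => ({1, dir (Zh i), (dir (Zh i))⁻¹} : Finset ℂ))).image
      (fun p => p.1 * ∏ i, p.2 i)) with hS
  refine ⟨S, b0, fun ε hε => ?_⟩
  set C : ℝ := 2 * A * √(2 / t0) + 12 * A / √t0 with hC
  have hC0 : 0 ≤ C := by positivity
  -- choice of η
  have hev1 : ∀ᶠ η in 𝓝 (0:ℝ), ∀ s ∈ F, b0 < s - η ∧ s + η < b0 + L := by
    rw [Filter.eventually_all_finset]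
    intro s hs
    obtain ⟨h1, h2⟩ := hFin s hs
    have t1 : Tendsto (fun η : ℝ => s - η) (𝓝 0) (𝓝 s) := by
      have : Continuous (fun η : ℝ => s - η) := by fun_prop
      simpa using this.tendsto 0
    have t2 : Tendsto (fun η : ℝ => s + η) (𝓝 0) (𝓝 s) := by
      have : Continuous (fun η : ℝ => s + η) := by fun_prop
      simpa using this.tendsto 0
    exact (t1.eventually_const_lt h1).and (t2.eventually_lt_const h2)
  have hev2 : ∀ᶠ η in 𝓝 (0:ℝ), ∀ s ∈ F, ∀ s' ∈ F, s < s' → s + η < s' - η := by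
    rw [Filter.eventually_all_finset]
    intro s hs
    rw [Filter.eventually_all_finset]
    intro s' hs'
    by_cases hss : s < s'
    · have t1 : Tendsto (fun η : ℝ => s' - η - (s + η)) (𝓝 0) (𝓝 (s' - s)) := by
        have : Continuous (fun η : ℝ => s' - η - (s + η)) := by fun_prop
        simpa using this.tendsto 0
      filter_upwards [t1.eventually_const_lt (sub_pos.2 hss)] with η hη _
      linarith
    · filter_upwards with η h
      exact absurd h hss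
  have hev3 : ∀ᶠ η in 𝓝 (0:ℝ), F.card * (C * η) < ε := by
    have t1 : Tendsto (fun η : ℝ => F.card * (C * η)) (𝓝 0) (𝓝 0) := by
      have : Continuous (fun η : ℝ => (F.card : ℝ) * (C * η)) := by fun_prop
      simpa using this.tendsto 0
    exact t1.eventually_lt_const hε
  obtain ⟨η, ⟨hη1, hη2, hη3⟩, hη⟩ : ∃ η, ((∀ s ∈ F, b0 < s - η ∧ s + η < b0 + L) ∧
      (∀ s ∈ F, ∀ s' ∈ F, s < s' → s + η < s' - η) ∧ F.card * (C * η) < ε) ∧ 0 < η := by
    have h1 := (hev1.and (hev2.and hev3)).filter_mono (nhdsWithin_le_nhds (s := Ioi (0:ℝ)))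
    have h2 : ∀ᶠ η in 𝓝[>] (0:ℝ), 0 < η := eventually_mem_nhdsWithin
    exact (h1.and h2).exists
  -- choice of δ0
  set Kc : Set ℝ := Icc b0 (b0 + L) ∩ {x | ∀ s ∈ F, x ∉ Ioo (s - η) (s + η)} with hKc
  have hKcomp : IsCompact Kc := by
    apply (isCompact_Icc).inter_right
    have : {x : ℝ | ∀ s ∈ F, x ∉ Ioo (s - η) (s + η)} = ⋂ s ∈ F, (Ioo (s - η) (s + η))ᶜ := by
      ext x
      simp
    rw [this]
    exact isClosed_biInter fun s _ => isOpen_Ioo.isClosed_compl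
  have hKpos : ∀ x ∈ Kc, 0 < |r x - t0| := by
    intro x hx
    rw [abs_pos, sub_ne_zero]
    intro h0
    have hxF : x ∈ F := (hF x).2 ⟨hx.1, h0⟩
    exact hx.2 x hxF ⟨by linarith, by linarith⟩
  obtain ⟨δ1, hδ1, hδ1K⟩ : ∃ δ1, 0 < δ1 ∧ ∀ x ∈ Kc, δ1 ≤ |r x - t0| :=
    hKcomp.exists_forall_le' ((hrc.sub continuous_const).abs.continuousOn) hKpos
  refine ⟨min δ1 (t0 / 2), by positivity, ?_⟩
  intro δ hδ0 hδlt κ hκ Z Sc hZ hf
  have hδt : δ ≤ t0 / 2 := (hδlt.le).trans (min_le_right _ _)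
  have hδδ : δ < δ1 := hδlt.trans_le (min_le_left _ _)
  have htel := telescope (f := ff t0 δ κ Z b0) (fun s h0 => by
      have := norm_ff (κ := κ) (Z := Z) ht hδ0 b0 s
      rw [h0] at this; simp at this) hη F b0 (b0 + L) (by linarith) hη1 hη2 (by
        intro x y hx hxy hy hav
        apply ff_const_of_avoid hZ hκ ht hδ0 hδt hf hxy
        intro e he _
        have heK : e ∈ Kc := ⟨⟨hx.trans he.1, he.2.trans hy⟩, fun s hs => hav s hs e he⟩
        exact hδδ.trans_le (hδ1K e heK))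
  have hjump : ∀ i : F, ∃ ξ ∈ ({1, dir (Zh i), (dir (Zh i))⁻¹} : Finset ℂ),
      ‖ff t0 δ κ Z b0 (i + η) * (ff t0 δ κ Z b0 (i - η))⁻¹ - ξ‖ ≤ C * η := by
    intro i
    exact small_jump hZ hZh hκ ht hδ0 hδt hf hη ((hF i).1 i.2).2 b0
  choose ξ hξ1 hξ2 using hjump
  set pre : ℂ := tau t0 δ Z b0 * (tau t0 δ Z (b0 + L))⁻¹ with hpre
  have hω0 : ω ≠ 0 := by rintro rfl; simp at hω
  have hprein : pre ∈ ({1, ω⁻¹} : Finset ℂ) := by
    rw [hpre]
    unfold tau
    have e : Complex.normSq (Z (b0 + L)) = Complex.normSq (Z b0) := by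
      rw [hZ.per, map_mul, Complex.normSq_eq_norm_sq ω, hω]
      simp
    rw [e]
    split_ifs with hh
    · have hz0 : Z b0 ≠ 0 := by
        intro h0
        rw [h0, map_zero] at hh
        linarith
      have hd0 : dir (Z b0) ≠ 0 := by
        intro h0
        have := norm_dir hz0
        rw [h0] at this
        simp at this
      rw [hZ.per, dir_mul hω, mul_inv, mul_comm ω⁻¹, ← mul_assoc, mul_inv_cancel₀ hd0, one_mul]
      simp
    · simp
  refine ⟨pre * ∏ i : F, ξ i, ?_, ?_⟩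
  · rw [hS, Finset.mem_image]
    refine ⟨(pre, ξ), ?_, rfl⟩
    rw [Finset.mem_product]
    exact ⟨hprein, Fintype.mem_piFinset.2 hξ1⟩
  · have hτL := norm_tau (Z := Z) ht hδ0 (b0 + L)
    have hτ0 := norm_tau (Z := Z) ht hδ0 b0
    have hτL0 : tau t0 δ Z (b0 + L) ≠ 0 := by intro h0; rw [h0] at hτL; simp at hτL
    have hE0 : EE κ Z b0 b0 = 1 := by
      unfold EE phase
      simp
    have hval : EE κ Z b0 (b0 + L)
        = pre * ∏ i : F, (ff t0 δ κ Z b0 (i + η) * (ff t0 δ κ Z b0 (i - η))⁻¹) := by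
      have h1 : EE κ Z b0 (b0 + L) = ff t0 δ κ Z b0 (b0 + L) * (tau t0 δ Z (b0 + L))⁻¹ := by
        unfold ff
        rw [mul_assoc, mul_inv_cancel₀ hτL0, mul_one]
      rw [h1, htel, hpre]
      have h2 : ff t0 δ κ Z b0 b0 = tau t0 δ Z b0 := by
        unfold ff
        rw [hE0, one_mul]
      rw [h2, ← Finset.prod_coe_sort]
      ring
    have hpn : ‖pre‖ = 1 := by
      rw [hpre, norm_mul, norm_inv, hτ0, hτL]
      simp
    rw [hval, ← mul_sub, norm_mul, hpn, one_mul]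
    refine (norm_prod_sub_prod_le Finset.univ _ _ ?_ ?_).trans ?_
    · intro i _
      rw [norm_mul, norm_inv, norm_ff ht hδ0, norm_ff ht hδ0]
      simp
    · intro i _
      have hn : ‖dir (Zh i)‖ = 1 := by
        apply norm_dir
        intro h0
        have := ((hF i).1 i.2).2
        simp only [hr] at this
        rw [h0, map_zero] at this
        linarith
      have := hξ1 i
      simp only [Finset.mem_insert, Finset.mem_singleton] at this
      rcases this with h | h | h <;> rw [h]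
      · simp
      · rw [hn]
      · rw [norm_inv, hn]; simp
    · calc _ ≤ ∑ i : F, C * η := Finset.sum_le_sum fun i _ => hξ2 i
        _ = F.card * (C * η) := by simp
        _ ≤ ε := hη3.le

end Pool.Agent.Helper31.LS
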