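import Pool.Agent.Helper31.LS.OneD

set_option autoImplicit false

open MeasureTheory Filter Topology Set
open scoped ContDiff Convolution

namespace Pool.Agent.Helper31.LS

open Pool.Agent.Helper42.Fr

/-- radius of the n-th mollifier -/
noncomputable def rad (n : ℕ) : ℝ := 1 / ((n : ℝ) + 1)

theorem rad_pos (n : ℕ) : 0 < rad n := by unfold rad; positivity

theorem rad_tendsto : Tendsto rad atTop (𝓝 0) := tendsto_one_div_add_atTop_nhds_zero_nat

noncomputable def bu (n : ℕ) : ContDiffBump (0 : ℝ) :=
  ⟨rad n / 2, rad n, by have := rad_pos n; positivity, by have := rad_pos n; linarith⟩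

noncomputable def kn (n : ℕ) : ℝ → ℝ := (bu n).normed volume

theorem kn_contDiff (n : ℕ) : ContDiff ℝ (⊤ : ℕ∞) (kn n) := (bu n).contDiff_normed
theorem kn_cpt (n : ℕ) : HasCompactSupport (kn n) := (bu n).hasCompactSupport_normed
theorem kn_nonneg (n : ℕ) (x : ℝ) : 0 ≤ kn n x := (bu n).nonneg_normed x

theorem kn_tsupport (n : ℕ) : tsupport (kn n) = Metric.closedBall 0 (rad n) := by
  have := (bu n).tsupport_normed_eq (μ := (volume : Measure ℝ))
  exact this

/-- mollification in one variable -/
noncomputable def gm (n : ℕ) (g : ℝ → ℝ) : ℝ → ℝ := fun x => ∫ s, g s * kn n (x - s)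

theorem conv_eq (k : ℝ → ℝ) (g : ℝ → ℝ) (x : ℝ) :
    (k ⋆[ContinuousLinearMap.lsmul ℝ ℝ, volume] g) x = ∫ s, g s * k (x - s) := by
  rw [convolution_def]
  rw [← integral_sub_left_eq_self (fun s => g s * k (x - s)) volume x]
  apply integral_congr_ae
  filter_upwards with t
  simp
  ring

theorem gm_eq (n : ℕ) (g : ℝ → ℝ) :
    gm n g = (kn n ⋆[ContinuousLinearMap.lsmul ℝ ℝ, volume] g) := by
  funext x
  rw [conv_eq]
  rfl

theorem gm_hasDerivAt {g : ℝ → ℝ} (hg : Continuous g) (n : ℕ) (x : ℝ) :
    HasDerivAt (gm n g) (∫ s, g s * deriv (kn n) (x - s)) x := by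
  rw [gm_eq, ← conv_eq]
  exact (kn_cpt n).hasDerivAt_convolution_left _ ((kn_contDiff n).of_le (by exact_mod_cast le_top))
    hg.locallyIntegrable x

theorem gm_deriv {g : ℝ → ℝ} (hg : Continuous g) (n : ℕ) :
    deriv (gm n g) = fun x => ∫ s, g s * deriv (kn n) (x - s) := by
  funext x
  exact (gm_hasDerivAt hg n x).deriv

theorem gm_deriv2 {g : ℝ → ℝ} (hg : Continuous g) (n : ℕ) :
    deriv (deriv (gm n g)) = fun x => ∫ s, g s * deriv (deriv (kn n)) (x - s) := by
  funext x
  rw [gm_deriv hg n]
  have h1 : (fun x => ∫ s, g s * deriv (kn n) (x - s))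
      = (deriv (kn n) ⋆[ContinuousLinearMap.lsmul ℝ ℝ, volume] g) := by
    funext y
    rw [conv_eq]
  rw [h1, ← conv_eq]
  exact ((kn_cpt n).deriv.hasDerivAt_convolution_left _
    ((contDiff_deriv' (kn_contDiff n)).of_le (by exact_mod_cast le_top))
    hg.locallyIntegrable x).deriv

theorem gm_contDiff {g : ℝ → ℝ} (hg : Continuous g) (n : ℕ) : ContDiff ℝ (⊤ : ℕ∞) (gm n g) := by
  rw [gm_eq]
  exact (kn_cpt n).contDiff_convolution_left _ (kn_contDiff n) hg.locallyIntegrable

/-- reflected kernel and its derivatives -/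
theorem refl_deriv2 (n : ℕ) (x : ℝ) :
    deriv (deriv (fun s => kn n (x - s))) = fun s => deriv (deriv (kn n)) (x - s) := by
  have hd : ∀ {u : ℝ → ℝ}, ContDiff ℝ (⊤ : ℕ∞) u → Differentiable ℝ u := fun h =>
    h.differentiable (by simp)
  have h1 : ∀ {u : ℝ → ℝ}, ContDiff ℝ (⊤ : ℕ∞) u →
      deriv (fun s => u (x - s)) = fun s => - deriv u (x - s) := by
    intro u hu
    funext s
    have h2 : HasDerivAt (fun s => x - s) (-1) s := by
      simpa using (hasDerivAt_id s).const_sub x
    have := ((hd hu) (x - s)).hasDerivAt.comp s h2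
    rw [show (fun s => u (x - s)) = u ∘ fun s => x - s from rfl, this.deriv]
    ring
  rw [h1 (kn_contDiff n)]
  have h3 : deriv (fun s => - deriv (kn n) (x - s)) = fun s => - deriv (fun s => deriv (kn n) (x - s)) s := by
    funext s
    exact deriv.fun_neg
  rw [h3]
  have h4 := h1 (contDiff_deriv' (kn_contDiff n))
  funext s
  rw [h4]
  ring

theorem refl_contDiff (n : ℕ) (x : ℝ) : ContDiff ℝ (⊤ : ℕ∞) (fun s => kn n (x - s)) :=
  (kn_contDiff n).comp (contDiff_const.sub contDiff_id)

theorem refl_tsupport (n : ℕ) (x : ℝ) :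
    tsupport (fun s => kn n (x - s)) ⊆ Metric.closedBall x (rad n) := by
  apply closure_minimal _ Metric.isClosed_closedBall
  intro s hs
  have h1 : x - s ∈ tsupport (kn n) := subset_tsupport _ hs
  rw [kn_tsupport, mem_closedBall_zero_iff, Real.norm_eq_abs] at h1
  rw [Metric.mem_closedBall, Real.dist_eq, abs_sub_comm]
  exact h1

theorem refl_cpt (n : ℕ) (x : ℝ) : HasCompactSupport (fun s => kn n (x - s)) := by
  apply (isCompact_closedBall x (rad n)).of_isClosed_subset (isClosed_tsupport _)
  exact refl_tsupport n x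

theorem gm_op {ρ : ℝ} {g : ℝ → ℝ} (hg : Continuous g) (n : ℕ) (x : ℝ) :
    deriv (deriv (gm n g)) x + ρ ^ 2 * gm n g x
      = ∫ s, g s * (deriv (deriv (fun s => kn n (x - s))) s + ρ ^ 2 * kn n (x - s)) := by
  rw [gm_deriv2 hg n, refl_deriv2]
  unfold gm
  rw [← integral_const_mul, ← integral_add]
  · apply integral_congr_ae
    filter_upwards with s
    ring
  · have h1 : Continuous (fun s => deriv (deriv (kn n)) (x - s)) :=
      (contDiff_deriv' (contDiff_deriv' (kn_contDiff n))).continuous.comp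
        (continuous_const.sub continuous_id)
    apply (hg.mul h1).integrable_of_hasCompactSupport
    have h2 : HasCompactSupport (fun s => deriv (deriv (kn n)) (x - s)) := by
      rw [← refl_deriv2]
      exact (refl_cpt n x).deriv.deriv
    exact h2.mul_left
  · apply Integrable.const_mul
    exact (hg.mul (refl_contDiff n x).continuous).integrable_of_hasCompactSupport
      (refl_cpt n x).mul_left

variable {ρ C : ℝ} {h g : ℝ → ℝ}

theorem contDiff_two {u : ℝ → ℝ} (hu : ContDiff ℝ (⊤ : ℕ∞) u) : ContDiff ℝ 2 u := by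
  have := contDiff_infty.1 hu 2
  exact_mod_cast this

theorem gm_close (hg : InC ρ C h (fun z => g z.2)) (n : ℕ) (x : ℝ) :
    |gm n g x - g x| ≤ C * rad n := by
  have h1 := (bu n).dist_normed_convolution_le (μ := (volume : Measure ℝ)) (g := g) (x₀ := x)
    (ε := C * rad n) (cont1 hg).aestronglyMeasurable (by
      intro y hy
      rw [Metric.mem_ball] at hy
      rw [Real.dist_eq]
      refine (lip1 hg y x).trans ?_
      have : |y - x| ≤ rad n := by
        rw [← Real.dist_eq]
        exact hy.le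
      exact mul_le_mul_of_nonneg_left this (C_nonneg hg))
  rw [Real.dist_eq] at h1
  rw [gm_eq]
  exact h1

theorem gm_tendsto (hg : InC ρ C h (fun z => g z.2)) (x : ℝ) :
    Tendsto (fun n => gm n g x) atTop (𝓝 (g x)) := by
  rw [tendsto_iff_norm_sub_tendsto_zero]
  have h1 : Tendsto (fun n => C * rad n) atTop (𝓝 0) := by
    simpa using rad_tendsto.const_mul C
  exact squeeze_zero (fun n => norm_nonneg _) (fun n => gm_close hg n x) h1

theorem gm_sub (hg : InC ρ C h (fun z => g z.2)) (n : ℕ) (x : ℝ) :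
    0 ≤ deriv (deriv (gm n g)) x + ρ ^ 2 * gm n g x := by
  rw [gm_op (cont1 hg)]
  exact oneD_sub hg (refl_contDiff n x) (refl_cpt n x) (fun t => kn_nonneg n _)

theorem gm_harm (hg : InC ρ C h (fun z => g z.2)) (n : ℕ) (x : ℝ)
    (hx : Metric.closedBall x (rad n) ⊆ {t | g t < h t}) :
    deriv (deriv (gm n g)) x + ρ ^ 2 * gm n g x = 0 := by
  rw [gm_op (cont1 hg)]
  exact oneD_harm hg (refl_contDiff n x) (refl_cpt n x) (fun t => kn_nonneg n _)
    ((refl_tsupport n x).trans hx)

/-- homogeneous states are trigonometrically convex -/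
theorem trigConvex_of_InC (hρ : 0 < ρ) (hg : InC ρ C h (fun z => g z.2)) :
    Pool.Agent.LS.TrigConvex ρ g := by
  intro a b c hab hbc hac
  refine le_of_tendsto_of_tendsto' ((gm_tendsto hg b).mul_const _)
    (((gm_tendsto hg a).mul_const _).add ((gm_tendsto hg c).mul_const _)) (fun n => ?_)
  exact trig3_of_smooth hρ (contDiff_two (gm_contDiff (cont1 hg) n)) hab hbc hac
    (fun t _ => gm_sub hg n t)

theorem convex_of_InC (hg : InC ρ C h (fun z => g z.2)) :
    ConvexOn ℝ univ (fun t => g t + ρ ^ 2 * C / 2 * t ^ 2) := by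
  have hC := C_nonneg hg
  have hn : ∀ n, ConvexOn ℝ univ (fun t => gm n g t + ρ ^ 2 * (C + C * rad n) / 2 * t ^ 2) := by
    intro n
    have hsm := gm_contDiff (cont1 hg) n
    have hd : ∀ {u : ℝ → ℝ}, ContDiff ℝ (⊤ : ℕ∞) u → Differentiable ℝ u := fun h =>
      h.differentiable (by simp)
    set q := ρ ^ 2 * (C + C * rad n) / 2 with hq
    have h1 : ∀ t, HasDerivAt (fun t => gm n g t + q * t ^ 2) (deriv (gm n g) t + q * (2 * t)) t := by
      intro t
      have h2 := (hd hsm t).hasDerivAt
      have h3 : HasDerivAt (fun t : ℝ => q * t ^ 2) (q * (2 * t)) t := by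
        have := ((hasDerivAt_pow 2 t)).const_mul q
        simpa using this
      exact h2.add h3
    have h1' : deriv (fun t => gm n g t + q * t ^ 2) = fun t => deriv (gm n g) t + q * (2 * t) := by
      funext t
      exact (h1 t).deriv
    have h2 : ∀ t, HasDerivAt (fun t => deriv (gm n g) t + q * (2 * t))
        (deriv (deriv (gm n g)) t + q * 2) t := by
      intro t
      have h2 := (hd (contDiff_deriv' hsm) t).hasDerivAt
      have h3 : HasDerivAt (fun t : ℝ => q * (2 * t)) (q * 2) t := by
        have := (((hasDerivAt_id t).const_mul 2)).const_mul q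
        simpa using this
      exact h2.add h3
    apply convexOn_of_deriv2_nonneg' convex_univ
    · exact fun t _ => (h1 t).differentiableAt.differentiableWithinAt
    · rw [h1']
      exact fun t _ => (h2 t).differentiableAt.differentiableWithinAt
    · intro t _
      simp only [Function.iterate_succ, Function.iterate_zero, Function.comp_apply, id_eq]
      rw [h1', (h2 t).deriv]
      have h4 := gm_sub hg n t
      have h5 : gm n g t ≤ C + C * rad n := by
        have h6 := gm_close hg n t
        have h7 := hg.bdd (0, t)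
        simp only at h7
        have h8 := (abs_le.1 h6).2
        have h9 := (abs_le.1 h7).2
        linarith
      have h6 : ρ ^ 2 * gm n g t ≤ ρ ^ 2 * (C + C * rad n) :=
        mul_le_mul_of_nonneg_left h5 (sq_nonneg ρ)
      have h7 : q * 2 = ρ ^ 2 * (C + C * rad n) := by rw [hq]; ring
      rw [h7]
      linarith
  have ht : ∀ t, Tendsto (fun n => gm n g t + ρ ^ 2 * (C + C * rad n) / 2 * t ^ 2) atTop
      (𝓝 (g t + ρ ^ 2 * C / 2 * t ^ 2)) := by
    intro t
    refine (gm_tendsto hg t).add ?_
    have h1 : Tendsto (fun n => C + C * rad n) atTop (𝓝 (C + C * 0)) :=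
      (rad_tendsto.const_mul C).const_add C
    rw [mul_zero, add_zero] at h1
    exact ((h1.const_mul (ρ ^ 2)).div_const 2).mul_const _
  refine ⟨convex_univ, fun x _ y _ a b ha hb hab => ?_⟩
  refine le_of_tendsto_of_tendsto' (ht _) (((ht x).const_smul a).add ((ht y).const_smul b))
    (fun n => (hn n).2 (mem_univ x) (mem_univ y) ha hb hab)

/-- off the contact set a homogeneous state is locally a sinusoid -/
theorem sinusoid_of_InC (hρ : 0 < ρ) (hh : Continuous h) (hg : InC ρ C h (fun z => g z.2)) {t : ℝ}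
    (ht : g t < h t) : ∃ ε > 0, (∀ s, |s - t| < ε → g s < h s) ∧
      ∃ α β : ℝ, ∀ s, |s - t| < ε → g s = α * Real.cos (ρ * s) + β * Real.sin (ρ * s) := by
  have hgc := cont1 hg
  have hopen : IsOpen {s | g s < h s} := isOpen_lt hgc hh
  obtain ⟨ε0, hε0, hball⟩ := Metric.isOpen_iff.1 hopen t ht
  set ε : ℝ := min (ε0 / 2) (Real.pi / (4 * ρ)) with hε
  have hπ := Real.pi_pos
  have hεpos : 0 < ε := by rw [hε]; positivity
  have hε1 : ε ≤ ε0 / 2 := min_le_left _ _
  have hε2 : ε ≤ Real.pi / (4 * ρ) := min_le_right _ _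
  refine ⟨ε, hεpos, ?_, ?_⟩
  · intro s hs
    apply hball
    rw [Metric.mem_ball, Real.dist_eq]
    linarith
  set a := t - ε with ha
  set c := t + ε with hc
  have hac : c - a < Real.pi / ρ := by
    have h1 : c - a = 2 * ε := by rw [ha, hc]; ring
    have h2 : 2 * ε ≤ 2 * (Real.pi / (4 * ρ)) := by linarith
    have h3 : 2 * (Real.pi / (4 * ρ)) = (Real.pi / ρ) / 2 := by field_simp; norm_num
    have h4 : 0 < Real.pi / ρ := by positivity
    linarith
  have hac0 : 0 < c - a := by rw [ha, hc]; linarith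
  have hev : ∀ᶠ n in atTop, ∀ x ∈ Icc a c, deriv (deriv (gm n g)) x + ρ ^ 2 * gm n g x = 0 := by
    have : ∀ᶠ n in atTop, rad n < ε0 / 2 := rad_tendsto.eventually_lt_const (by positivity)
    filter_upwards [this] with n hn x hx
    apply gm_harm hg
    intro y hy
    apply hball
    rw [Metric.mem_closedBall, Real.dist_eq] at hy
    rw [Metric.mem_ball, Real.dist_eq]
    have h1 : |x - t| ≤ ε := by
      rw [abs_le]
      constructor <;> linarith [hx.1, hx.2]
    calc |y - t| = |(y - x) + (x - t)| := by ring_nf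
      _ ≤ |y - x| + |x - t| := abs_add_le _ _
      _ < ε0 := by linarith
  have key : ∀ b ∈ Ioo a c, g b * Real.sin (ρ * (c - a))
      = g a * Real.sin (ρ * (c - b)) + g c * Real.sin (ρ * (b - a)) := by
    intro b hb
    apply le_antisymm
    · exact trigConvex_of_InC hρ hg a b c hb.1 hb.2 hac
    · refine le_of_tendsto_of_tendsto
        (((gm_tendsto hg a).mul_const _).add ((gm_tendsto hg c).mul_const _))
        ((gm_tendsto hg b).mul_const _) ?_
      filter_upwards [hev] with n hn
      have hsm : ContDiff ℝ 2 (fun x => - gm n g x) :=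
        (contDiff_two (gm_contDiff hgc n)).neg
      have h1 := trig3_of_smooth hρ hsm hb.1 hb.2 hac (by
        intro x hx
        have e1 : deriv (fun x => - gm n g x) = fun x => - deriv (gm n g) x := by
          funext y; exact deriv.fun_neg
        have e2 : deriv (fun x => - deriv (gm n g) x) x = - deriv (deriv (gm n g)) x :=
          deriv.fun_neg
        rw [e1, e2]
        have := hn x hx
        linarith)
      linarith
  have hS : 0 < Real.sin (ρ * (c - a)) := by
    apply Real.sin_pos_of_pos_of_lt_pi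
    · positivity
    · have := mul_lt_mul_of_pos_left hac hρ
      rwa [mul_div_cancel₀ _ hρ.ne'] at this
  refine ⟨(g a * Real.sin (ρ * c) - g c * Real.sin (ρ * a)) / Real.sin (ρ * (c - a)),
    (g c * Real.cos (ρ * a) - g a * Real.cos (ρ * c)) / Real.sin (ρ * (c - a)), ?_⟩
  intro s hs
  have hs' : s ∈ Ioo a c := by
    rw [abs_lt] at hs
    constructor <;> linarith [hs.1, hs.2]
  have h1 := key s hs'
  have e1 : ρ * (c - s) = ρ * c - ρ * s := by ring
  have e2 : ρ * (s - a) = ρ * s - ρ * a := by ring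
  rw [e1, e2, Real.sin_sub, Real.sin_sub] at h1
  rw [div_mul_eq_mul_div, div_mul_eq_mul_div, ← add_div, eq_div_iff hS.ne', h1]
  ring

end Pool.Agent.Helper31.LS
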