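import Pool.Agent.Helper31.LS.Formula2
import Pool.Agent.Helper31.LS.OneD2
import Pool.Agent.Helper31.LS.Abs4

set_option autoImplicit false

open MeasureTheory Filter Topology Set
open scoped ComplexConjugate

namespace Pool.Agent.Helper31.LS

open Pool.Agent.Helper42.Fr

variable {ρ C : ℝ} {h g : ℝ → ℝ}

theorem semi_of_IndH (hh : IndH ρ C h) : Semi (ρ ^ 2 * C / 2) C h where
  c0_nonneg := by have := hh.C_pos; positivity
  bdd := hh.bdd
  lip := hh.lip
  per := hh.per
  cvx := hh.conv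

theorem semi_of_InC (hg : InC ρ C h (fun z => g z.2)) : Semi (ρ ^ 2 * C / 2) C g where
  c0_nonneg := by have := C_nonneg hg; positivity
  bdd := fun t => hg.bdd (0, t)
  lip := lip1 hg
  per := fun t => hg.per 0 t
  cvx := convex_of_InC hg

/-- the value of the curve where `g` is a sinusoid -/
theorem ZZ_sinusoid (hρ : 0 < ρ) {c0 : ℝ} (hg : Semi c0 C g) {s ε α β : ℝ}
    (hsin : ∀ t, |t - th c0 g s| < ε → g t = α * Real.cos (ρ * t) + β * Real.sin (ρ * t)) :
    ∀ s', |s' - s| < ε → ZZ ρ c0 g s' = (α : ℂ) + (β : ℂ) * Complex.I := by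
  intro s' hs'
  set t := th c0 g s' with ht
  have htt : |t - th c0 g s| < ε := (hg.th_lip s' s).trans_lt hs'
  have hd : HasDerivAt g (ρ * (-α * Real.sin (ρ * t) + β * Real.cos (ρ * t))) t := by
    have h1 : HasDerivAt (fun t : ℝ => ρ * t) ρ t := by
      simpa using (hasDerivAt_id t).const_mul ρ
    have h2 := (h1.cos.const_mul α).fun_add (h1.sin.const_mul β)
    have h3 : g =ᶠ[𝓝 t] fun t => α * Real.cos (ρ * t) + β * Real.sin (ρ * t) := by
      have : ∀ᶠ u in 𝓝 t, |u - th c0 g s| < ε := by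
        have hc : Continuous (fun u => |u - th c0 g s|) := by fun_prop
        exact hc.continuousAt.eventually_lt continuousAt_const htt
      filter_upwards [this] with u hu
      exact hsin u hu
    have h4 := h2.congr_of_eventuallyEq h3
    convert! h4 using 1
    ring
  have hm : mm c0 g s' = ρ * (-α * Real.sin (ρ * t) + β * Real.cos (ρ * t)) :=
    (hg.sub_th s').eq_deriv hd
  have hgt : g t = α * Real.cos (ρ * t) + β * Real.sin (ρ * t) := hsin t htt
  unfold ZZ
  rw [← ht, hm, hgt, mul_div_cancel_left₀ _ hρ.ne']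
  rw [Complex.exp_mul_I]
  rw [← Complex.ofReal_cos, ← Complex.ofReal_sin]
  set cc := Real.cos (ρ * t)
  set ss := Real.sin (ρ * t)
  have hcs : (cc : ℂ) ^ 2 + (ss : ℂ) ^ 2 = 1 := by
    have := Real.cos_sq_add_sin_sq (ρ * t)
    exact_mod_cast this
  push_cast
  have hI : Complex.I ^ 2 = -1 := Complex.I_sq
  linear_combination ((α : ℂ) + (β : ℂ) * Complex.I) * hcs
    + (-(α : ℂ) * (ss : ℂ) ^ 2 + (β : ℂ) * (cc : ℂ) * (ss : ℂ)) * hI

theorem follow_ZZ (hh : IndH ρ C h) (hg : InC ρ C h (fun z => g z.2)) :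
    Follow (ZZ ρ (ρ ^ 2 * C / 2) h) (ZZ ρ (ρ ^ 2 * C / 2) g)
      {s | g (th (ρ ^ 2 * C / 2) g s) = h (th (ρ ^ 2 * C / 2) g s)} := by
  have hρ := hh.rho_pos
  set c0 := ρ ^ 2 * C / 2 with hc0
  have sg : Semi c0 C g := semi_of_InC hg
  have sh : Semi c0 C h := semi_of_IndH hh
  have hthc : Continuous (th c0 g) := by
    have : LipschitzWith 1 (th c0 g) := by
      apply LipschitzWith.of_dist_le_mul
      intro x y
      rw [Real.dist_eq, Real.dist_eq, NNReal.coe_one, one_mul]
      exact sg.th_lip x y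
    exact this.continuous
  constructor
  · exact isClosed_eq (sg.cont.comp hthc) (sh.cont.comp hthc)
  · intro s hs
    have hs' : g (th c0 g s) = h (th c0 g s) := hs
    have h1 : SubD c0 h (th c0 g s) (mm c0 g s) := by
      intro t'
      rw [← hs']
      exact (sg.sub_th s t').trans (hg.le 0 t')
    have h2 := sh.unique h1 (s := s) (by unfold mm; ring)
    unfold ZZ
    rw [← h2.1, ← h2.2, hs']
  · intro a b hab hno
    have hcont : Continuous (ZZ ρ c0 g) := (curve_ZZ hρ sg).continuous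
    have hder : ∀ x ∈ Ico a b, HasDerivWithinAt (ZZ ρ c0 g) 0 (Ici x) x := by
      intro x hx
      have hne : g (th c0 g x) ≠ h (th c0 g x) := hno x ⟨hx.1, hx.2.le⟩
      have hlt : g (th c0 g x) < h (th c0 g x) := lt_of_le_of_ne (hg.le 0 _) hne
      obtain ⟨ε, hε, _, α, β, hsin⟩ := sinusoid_of_InC hρ sh.cont hg hlt
      have hz := ZZ_sinusoid hρ sg hsin
      have hev : ZZ ρ c0 g =ᶠ[𝓝 x] fun _ => (α : ℂ) + (β : ℂ) * Complex.I := by
        have : ∀ᶠ u in 𝓝 x, |u - x| < ε := by
          have hc : Continuous (fun u => |u - x|) := by fun_prop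
          exact hc.continuousAt.eventually_lt continuousAt_const (by simpa using hε)
        filter_upwards [this] with u hu
        exact hz u hu
      exact ((hasDerivAt_const x _).congr_of_eventuallyEq hev).hasDerivWithinAt
    exact (constant_of_has_deriv_right_zero hcont.continuousOn hder b (right_mem_Icc.2 hab)).symm

/-! ### the thin bump -/

theorem etaS_integral {δ : ℝ} (hδ : 0 < δ) : ∫ x, etaS δ x = 1 := by
  unfold etaS
  rw [integral_const_mul, Measure.integral_comp_div, eta_integral, abs_of_pos hδ]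
  simp [hδ.ne']

theorem kth_cont {δ t0 : ℝ} : Continuous (kth δ t0) := by
  unfold kth etaS
  have := eta_contDiff.continuous
  fun_prop

theorem kth_nonneg {δ t0 : ℝ} (hδ : 0 < δ) (t : ℝ) : 0 ≤ kth δ t0 t := by
  unfold kth etaS
  have := eta_nonneg ((t - t0) / δ)
  positivity

theorem eta_zero {x : ℝ} (hx : 1 ≤ |x|) : eta x = 0 := by
  have h1 : Function.support eta = Metric.ball 0 1 := by
    have := bmp.support_normed_eq (μ := (volume : Measure ℝ))
    exact this
  by_contra hne
  have h2 : x ∈ Function.support eta := hne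
  rw [h1, mem_ball_zero_iff, Real.norm_eq_abs] at h2
  linarith

theorem kth_zero {δ t0 : ℝ} (hδ : 0 < δ) {t : ℝ} (ht : δ ≤ |t - t0|) : kth δ t0 t = 0 := by
  unfold kth etaS
  rw [eta_zero, mul_zero, mul_zero]
  rw [abs_div, abs_of_pos hδ, le_div_iff₀ hδ, one_mul]
  exact ht

theorem kth_integral {δ t0 : ℝ} (hδ : 0 < δ) : ∫ t, kth δ t0 t = 2 := by
  unfold kth
  rw [integral_const_mul, integral_sub_right_eq_self (fun t => etaS δ t) t0, etaS_integral hδ,
    mul_one]

theorem kth_integrable {δ t0 : ℝ} (hδ : 0 < δ) : Integrable (kth δ t0) := by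
  apply kth_cont.integrable_of_hasCompactSupport
  apply HasCompactSupport.intro (isCompact_Icc (a := t0 - δ) (b := t0 + δ))
  intro x hx
  apply kth_zero hδ
  rw [mem_Icc, not_and_or] at hx
  rcases hx with h | h
  · push Not at h
    rw [le_abs]; right; linarith
  · push Not at h
    rw [le_abs]; left; linarith

theorem kth_low {δ t0 : ℝ} (hδ : 0 < δ) (hδt : δ < t0) : Low (kth δ t0) (t0 - δ) where
  cont := kth_cont
  pos := by linarith
  zero := by
    intro u hu
    apply kth_zero hδ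
    rw [le_abs]; right; linarith

theorem kth_wt {δ t0 : ℝ} (hδ : 0 < δ) (hδt : δ < t0) : Wt t0 δ (kap (kth δ t0)) where
  cont := (kth_low hδ hδt).kap_cont
  low := fun u hu => (kth_low hδ hδt).kap_zero hu
  high := by
    intro u hu
    have h1 : KK (kth δ t0) u = 2 := by
      unfold KK
      rw [intervalIntegral.integral_eq_integral_of_support_subset, kth_integral hδ]
      intro x hx
      have h2 : |x - t0| < δ := by
        by_contra hcon
        push Not at hcon
        exact hx (kth_zero hδ hcon)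
      rw [abs_lt] at h2
      constructor <;> linarith [h2.1, h2.2]
    unfold kap
    rw [h1]
    have : 0 < u := by linarith
    field_simp
  bd := by
    intro u hu
    have h0 : 0 ≤ KK (kth δ t0) u := by
      unfold KK
      exact intervalIntegral.integral_nonneg hu.le (fun x _ => kth_nonneg hδ x)
    have h2 : KK (kth δ t0) u ≤ 2 := by
      unfold KK
      rw [intervalIntegral.integral_of_le hu.le, ← kth_integral (t0 := t0) hδ]
      exact setIntegral_le_integral (kth_integrable hδ) (by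
        filter_upwards with x
        exact kth_nonneg hδ x)
    unfold kap
    refine ⟨by positivity, ?_⟩
    rw [div_le_div_iff₀ (by positivity) hu]
    nlinarith

/-- **Block E**. -/
theorem blockE (hh : IndH ρ C h) :
    ∀ᵐ t0 : ℝ, 0 < t0 → ∃ S : Finset ℂ, ∀ ε : ℝ, 0 < ε → ∃ δ0 : ℝ, 0 < δ0 ∧
      ∀ δ : ℝ, 0 < δ → δ < δ0 → ∀ g : ℝ → ℝ, InC ρ C h (fun z => g z.2) →
        ∃ s ∈ S, ‖Complex.exp (Complex.I * ((lamH ρ (kth δ t0) g : ℝ) : ℂ)) - s‖ ≤ ε := by
  have hρ := hh.rho_pos
  have hC := hh.C_pos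
  have hπ := Real.pi_pos
  set c0 := ρ ^ 2 * C / 2 with hc0
  have sh : Semi c0 C h := semi_of_IndH hh
  have hc : 0 ≤ c0 := sh.c0_nonneg
  have hL : 0 < 2 * Real.pi * (2 * c0 + 1) := by positivity
  have hω : ‖Complex.exp (((ρ * (2 * Real.pi) : ℝ) : ℂ) * Complex.I)‖ = 1 :=
    Complex.norm_exp_ofReal_mul_I _
  filter_upwards [abs_finite hL hω (curve_ZZ hρ sh)] with t0 habs ht0
  obtain ⟨S, b0, hS⟩ := habs ht0
  refine ⟨S, fun ε hε => ?_⟩
  obtain ⟨δ0, hδ0, hmain⟩ := hS ε hε
  refine ⟨min δ0 (t0 / 2), by positivity, ?_⟩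
  intro δ hδ hδlt g hg
  have hδ1 : δ < δ0 := hδlt.trans_le (min_le_left _ _)
  have hδ2 : δ < t0 / 2 := hδlt.trans_le (min_le_right _ _)
  have hδt : δ < t0 := by linarith
  have sg : Semi c0 C g := semi_of_InC hg
  obtain ⟨s, hsS, hs⟩ := hmain δ hδ hδ1 (kap (kth δ t0)) (kth_wt hδ hδt) (ZZ ρ c0 g)
    {s | g (th c0 g s) = h (th c0 g s)} (curve_ZZ hρ sg) (follow_ZZ hh hg)
  refine ⟨s, hsS, ?_⟩
  rw [exp_lamH hρ (kth_low hδ hδt) sg (kth_wt hδ hδt) ht0 hδ2.le b0]
  exact hs

end Pool.Agent.Helper31.LS
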