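import Pool.Agent.Helper31.LS.H1

set_option autoImplicit false

open MeasureTheory Filter Topology Set

namespace Pool.Agent.Helper31.LS

open Pool.Agent.Helper42.Fr

/-- `exp(-ρ x) log |f(exp(x + i t))|`. -/
noncomputable def vhat (ρ : ℝ) (f : ℂ → ℂ) (z : ℝ × ℝ) : ℝ :=
  Real.exp (-ρ * z.1) * Real.log ‖f (Complex.exp ((z.1 : ℂ) + (z.2 : ℂ) * Complex.I))‖

lemma locInt_shift {w : ℝ × ℝ → ℝ} (hw : LocallyIntegrable w) (X : ℝ) : LocallyIntegrable (shift X w) := by
  rw [locallyIntegrable_iff]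
  intro K hK
  have hmp : MeasurePreserving (fun z : ℝ × ℝ => z + (X, 0)) := measurePreserving_add_right _ _
  have hemb : MeasurableEmbedding (fun z : ℝ × ℝ => z + (X, 0)) := measurableEmbedding_addRight _
  have hK' : IsCompact ((fun z : ℝ × ℝ => z + (X, 0)) '' K) := hK.image (by fun_prop)
  have h1 : IntegrableOn w ((fun z : ℝ × ℝ => z + (X, 0)) '' K) := hw.integrableOn_isCompact hK'
  have h2 := (hmp.integrableOn_image hemb).1 h1
  have e : (w ∘ fun z : ℝ × ℝ => z + (X, 0)) = shift X w := by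
    funext z
    have : z + (X, 0) = (z.1 + X, z.2) := by ext <;> simp
    simp only [Function.comp, shift, this]
  rw [e] at h2
  exact h2

section
variable {φ : ℂ → ℝ}

/-- the test function in logarithmic coordinates (without the hat). -/
noncomputable def tf (ρ : ℝ) (φ : ℂ → ℝ) (z : ℝ × ℝ) : ℝ := Real.exp ((2 + ρ) * z.1) * φ (ex z)

lemma tf_cont (ρ : ℝ) (hφ : Continuous φ) : Continuous (tf ρ φ) := by
  unfold tf
  exact (by fun_prop : Continuous fun z : ℝ × ℝ => Real.exp ((2 + ρ) * z.1)).mul (hφ.comp ex_cont)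

lemma tf_per (ρ : ℝ) : Per (tf ρ φ) := fun x t => by
  unfold tf
  rw [ex_per]

lemma tf_xs (ρ : ℝ) (hc : HasCompactSupport φ) (h0 : (0 : ℂ) ∉ tsupport φ) :
    ∃ R : ℝ, ∀ x t, R < |x| → tf ρ φ (x, t) = 0 := by
  obtain ⟨M, hM⟩ := hc.isBounded.subset_closedBall (0 : ℂ)
  have hop : IsOpen (tsupport φ)ᶜ := (isClosed_tsupport φ).isOpen_compl
  obtain ⟨r, hr0, hr⟩ := Metric.isOpen_iff.1 hop 0 h0
  refine ⟨max |Real.log r| |Real.log (max M 1)|, fun x t hx => ?_⟩
  unfold tf
  have : φ (ex (x, t)) = 0 := by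
    by_contra hne
    have hmem : ex (x, t) ∈ tsupport φ := subset_tsupport _ hne
    have h1 : Real.exp x ≤ M := by
      have := hM hmem
      rw [Metric.mem_closedBall, dist_zero_right, ex_norm] at this
      exact this
    have h2 : r ≤ Real.exp x := by
      by_contra hcon
      have : ex (x, t) ∈ Metric.ball (0 : ℂ) r := by
        rw [Metric.mem_ball, dist_zero_right, ex_norm]
        exact not_le.1 hcon
      exact hr this hmem
    have h3 : x ≤ Real.log (max M 1) := by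
      rw [Real.le_log_iff_exp_le (by positivity)]
      exact h1.trans (le_max_left _ _)
    have h4 : Real.log r ≤ x := (Real.log_le_iff_le_exp hr0).2 h2
    have h5 : |x| ≤ max |Real.log r| |Real.log (max M 1)| := by
      rw [abs_le']
      constructor
      · exact (h3.trans (le_abs_self _)).trans (le_max_right _ _)
      · exact ((neg_le_neg h4).trans (neg_le_abs _)).trans (le_max_left _ _)
    linarith
  rw [this, mul_zero]

lemma tf_int {w : ℝ × ℝ → ℝ} (hw : LocallyIntegrable w) (ρ : ℝ) (hφ : Continuous φ)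
    (hc : HasCompactSupport φ) (h0 : (0 : ℂ) ∉ tsupport φ) (a b : ℝ) :
    IntegrableOn (fun z => w z * tf ρ φ z) (univ ×ˢ Icc a b) := by
  obtain ⟨R, hR⟩ := tf_xs ρ hc h0
  have hK : IsCompact (Icc (-R) R ×ˢ Icc a b) := isCompact_Icc.prod isCompact_Icc
  have h1 : IntegrableOn (fun z => w z * tf ρ φ z) (Icc (-R) R ×ˢ Icc a b) :=
    (hw.integrableOn_isCompact hK).mul_continuousOn (tf_cont ρ hφ).continuousOn hK
  have h2 : IntegrableOn (fun z => w z * tf ρ φ z) ((univ ×ˢ Icc a b) \ (Icc (-R) R ×ˢ Icc a b)) := by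
    refine (integrableOn_zero (s := (univ ×ˢ Icc a b) \ (Icc (-R) R ×ˢ Icc a b)) (μ := volume)
      (ε' := ℝ)).congr_fun (fun z hz => ?_)
      ((MeasurableSet.univ.prod measurableSet_Icc).diff (measurableSet_Icc.prod measurableSet_Icc))
    have : R < |z.1| := by
      by_contra hcon
      exact hz.2 ⟨abs_le.1 (not_lt.1 hcon), hz.1.2⟩
    simp only
    rw [hR z.1 z.2 this, mul_zero]
  refine (h1.union h2).mono_set (fun z hz => ?_)
  by_cases h : z ∈ Icc (-R) R ×ˢ Icc a b
  · exact Or.inl h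
  · exact Or.inr ⟨hz, h⟩

/-- the plane test function. -/
noncomputable def Psi (ρ : ℝ) (φ : ℂ → ℝ) (z : ℝ × ℝ) : ℝ := tf ρ φ z * hat z.2

lemma Psi_cont (ρ : ℝ) (hφ : Continuous φ) : Continuous (Psi ρ φ) :=
  (tf_cont ρ hφ).mul (hat_cont.comp continuous_snd)

lemma Psi_cpt (ρ : ℝ) (hc : HasCompactSupport φ) (h0 : (0 : ℂ) ∉ tsupport φ) :
    HasCompactSupport (Psi ρ φ) := by
  obtain ⟨R, hR⟩ := tf_xs ρ hc h0
  refine HasCompactSupport.of_support_subset_isCompact
    (K := Icc (-R) R ×ˢ Icc (-(2 * Real.pi)) (2 * Real.pi)) (isCompact_Icc.prod isCompact_Icc) ?_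
  intro z hz
  by_contra hcon
  apply hz
  unfold Psi
  by_cases h : R < |z.1|
  · rw [hR z.1 z.2 h, zero_mul]
  · have : 2 * Real.pi ≤ |z.2| := by
      by_contra h2
      exact hcon ⟨abs_le.1 (not_lt.1 h), abs_le.1 (not_le.1 h2).le⟩
    rw [hat_zero this, mul_zero]

/-- integrals of periodic functions against the plane test function. -/
lemma int_Psi {w : ℝ × ℝ → ℝ} (hw : LocallyIntegrable w) (hp : Per w) (ρ : ℝ) (hφ : Continuous φ)
    (hc : HasCompactSupport φ) (h0 : (0 : ℂ) ∉ tsupport φ) :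
    ∫ z, w z * Psi ρ φ z = ∫ z in univ ×ˢ Ioo (-Real.pi) Real.pi, w z * tf ρ φ z := by
  have := hat_int2 (G := fun z => w z * tf ρ φ z) (hp.mul (tf_per ρ)) (tf_int hw ρ hφ hc h0 _ _)
  rw [← this]
  refine integral_congr_ae (Eventually.of_forall fun z => ?_)
  simp only [Psi]
  ring

end

lemma int_vhat {ρ : ℝ} {f : ℂ → ℂ} (hw : LocallyIntegrable (vhat ρ f)) (hp : Per (vhat ρ f)) {φ : ℂ → ℝ}
    (hφ : Continuous φ) (hc : HasCompactSupport φ) (h0 : (0 : ℂ) ∉ tsupport φ) {t : ℝ} (ht : 0 < t) :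
    ∫ z : ℂ, (t ^ ρ)⁻¹ * Real.log ‖f ((t : ℂ) * z)‖ * φ z =
      ∫ z, shift (Real.log t) (vhat ρ f) z * Psi ρ φ z := by
  rw [int_Psi (locInt_shift hw _) (hp.shift _) ρ hφ hc h0, logpolar]
  refine setIntegral_congr_fun (MeasurableSet.univ.prod measurableSet_Ioo) (fun z _ => ?_)
  have e1 : (t : ℂ) * ex z = Complex.exp (((z.1 + Real.log t : ℝ) : ℂ) + (z.2 : ℂ) * Complex.I) := by
    unfold ex
    have : (t : ℂ) = Complex.exp ((Real.log t : ℝ) : ℂ) := by
      rw [← Complex.ofReal_exp, Real.exp_log ht]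
    conv_lhs => rw [this]
    rw [← Complex.exp_add]
    congr 1
    push_cast
    ring
  have e2 : (t ^ ρ)⁻¹ = Real.exp (ρ * z.1) * Real.exp (-ρ * (z.1 + Real.log t)) := by
    rw [Real.rpow_def_of_pos ht, ← Real.exp_neg, ← Real.exp_add]
    congr 1
    ring
  have e3 : Real.exp ((2 + ρ) * z.1) = Real.exp (2 * z.1) * Real.exp (ρ * z.1) := by
    rw [← Real.exp_add]
    congr 1
    ring
  simp only [shift, vhat, tf]
  rw [e1, e2, e3]
  ring

lemma int_hom {ρ : ℝ} {g : ℝ → ℝ} (hg : Continuous g) (hp : ∀ t, g (t + 2 * Real.pi) = g t) {φ : ℂ → ℝ}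
    (hφ : Continuous φ) (hc : HasCompactSupport φ) (h0 : (0 : ℂ) ∉ tsupport φ) :
    ∫ z : ℂ, g (Complex.arg z) * ‖z‖ ^ ρ * φ z = ∫ z : ℝ × ℝ, g z.2 * Psi ρ φ z := by
  rw [int_Psi (w := fun z => g z.2) (hg.comp continuous_snd).locallyIntegrable (fun _ t => hp t) ρ hφ hc h0,
    logpolar]
  refine setIntegral_congr_fun (MeasurableSet.univ.prod measurableSet_Ioo) (fun z hz => ?_)
  simp only [tf]
  rw [ex_arg ⟨hz.2.1, hz.2.2.le⟩, ex_norm, ← Real.exp_mul]
  have e3 : Real.exp ((2 + ρ) * z.1) = Real.exp (2 * z.1) * Real.exp (z.1 * ρ) := by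
    rw [← Real.exp_add]
    congr 1
    ring
  rw [e3]
  ring

/-- **BLOCK H**: from the limit class back to the frozen statement. -/
theorem blockH (ρ : ℝ) (hρ : 0 < ρ) (f : ℂ → ℂ) (C : ℝ) (h : ℝ → ℝ) (hT : Traj ρ C h (vhat ρ f))
    (hG : ∀ (X : ℕ → ℝ) (v : ℝ × ℝ → ℝ), Tendsto X atTop atTop → InC ρ C h v →
      ConvD (fun j => shift (X j) (vhat ρ f)) v → ∀ x t, v (x, t) = v (0, t)) :
    ∀ v : ℂ → ℝ, MeasureTheory.LocallyIntegrable v MeasureTheory.volume →
    ∀ t : ℕ → ℝ, Filter.Tendsto t Filter.atTop Filter.atTop →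
    (∀ φ : ℂ → ℝ, ContDiff ℝ (⊤ : ℕ∞) φ → HasCompactSupport φ →
      Filter.Tendsto
        (fun j : ℕ => ∫ z : ℂ, (t j ^ ρ)⁻¹ * Real.log ‖f ((t j : ℂ) * z)‖ * φ z)
        Filter.atTop (nhds (∫ z : ℂ, v z * φ z))) →
    ∃ h : ℝ → ℝ, Function.Periodic h (2 * Real.pi) ∧
      (∀ θ₁ θ₂ θ₃ : ℝ, θ₁ < θ₂ → θ₂ < θ₃ → θ₃ - θ₁ < Real.pi / ρ →
        h θ₂ * Real.sin (ρ * (θ₃ - θ₁))
          ≤ h θ₁ * Real.sin (ρ * (θ₃ - θ₂)) + h θ₃ * Real.sin (ρ * (θ₂ - θ₁))) ∧
      ∀ᵐ z : ℂ ∂MeasureTheory.volume, v z = h (Complex.arg z) * ‖z‖ ^ ρ := by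
  intro v hv t ht hconv
  -- the subsequence
  have hX : Tendsto (fun j => Real.log (t j)) atTop atTop := Real.tendsto_log_atTop.comp ht
  obtain ⟨ψ, hψ, v₀, hv₀, hc₀⟩ := hT.cpt (fun j => Real.log (t j)) hX
  have hXψ : Tendsto (fun j => Real.log (t (ψ j))) atTop atTop := hX.comp hψ.tendsto_atTop
  have hhom := hG (fun j => Real.log (t (ψ j))) v₀ hXψ hv₀ hc₀
  set g : ℝ → ℝ := fun s => v₀ (0, s) with hg
  have hv₀g : v₀ = fun z => g z.2 := by
    funext ⟨x, s⟩
    exact hhom x s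
  have hgc : Continuous g := hv₀.cont.comp (continuous_const.prodMk continuous_id)
  have hgp : ∀ s, g (s + 2 * Real.pi) = g s := fun s => hv₀.per 0 s
  refine ⟨g, hgp, ?_, ?_⟩
  · have hin : InC ρ C h (fun z => g z.2) := by rw [← hv₀g]; exact hv₀
    exact trigConvex_of_InC hρ hin
  · -- the identity of the distributional limits off the origin
    set w : ℂ → ℝ := fun z => g (Complex.arg z) * ‖z‖ ^ ρ with hw
    have hwm : Measurable w := by
      exact (hgc.measurable.comp Complex.measurable_arg).mul (measurable_norm.pow_const ρ)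
    have hwl : LocallyIntegrable w := by
      rw [locallyIntegrable_iff]
      intro K hK
      have hb : IntegrableOn (fun z : ℂ => C * ‖z‖ ^ ρ) K := by
        refine ContinuousOn.integrableOn_compact hK ?_
        exact (continuous_const.mul (continuous_norm.rpow_const fun _ => Or.inr hρ.le)).continuousOn
      refine hb.mono' hwm.aestronglyMeasurable (Eventually.of_forall fun z => ?_)
      rw [hw]
      simp only
      rw [Real.norm_eq_abs, abs_mul, abs_of_nonneg (Real.rpow_nonneg (norm_nonneg _) _)]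
      exact mul_le_mul_of_nonneg_right (hv₀.bdd _) (Real.rpow_nonneg (norm_nonneg _) _)
    have hU : IsOpen ({0}ᶜ : Set ℂ) := isOpen_compl_singleton
    have hkey : ∀ φ : ℂ → ℝ, ContDiff ℝ (⊤ : ℕ∞) φ → HasCompactSupport φ → tsupport φ ⊆ ({0}ᶜ : Set ℂ) →
        ∫ z, v z * φ z = ∫ z, w z * φ z := by
      intro φ hφ hφc hφs
      have h0 : (0 : ℂ) ∉ tsupport φ := fun hmem => (hφs hmem) rfl
      have h1 := (hconv φ hφ hφc).comp hψ.tendsto_atTop
      have h2 := hc₀ (Psi ρ φ) (Psi_cont ρ hφ.continuous) (Psi_cpt ρ hφc h0)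
      have h3 : (∫ z, v₀ z * Psi ρ φ z) = ∫ z, w z * φ z := by
        rw [hv₀g]
        exact (int_hom hgc hgp hφ.continuous hφc h0).symm
      rw [h3] at h2
      refine tendsto_nhds_unique_of_eventuallyEq h1 h2 ?_
      filter_upwards [(ht.comp hψ.tendsto_atTop).eventually_gt_atTop 0] with j hj
      exact int_vhat hT.locInt hT.per hφ.continuous hφc h0 hj
    have hae := hU.ae_eq_zero_of_integral_contDiff_smul_eq_zero (f := fun z => v z - w z) (μ := volume)
      ((hv.sub hwl).locallyIntegrableOn _) (fun φ hφ hφc hφs => by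
        have h1 := hkey φ hφ hφc hφs
        have i1 : Integrable (fun z => v z * φ z) := by
          have := hv.integrable_smul_left_of_hasCompactSupport hφ.continuous hφc
          refine this.congr (Eventually.of_forall fun z => ?_)
          simp [mul_comm]
        have i2 : Integrable (fun z => w z * φ z) := by
          have := hwl.integrable_smul_left_of_hasCompactSupport hφ.continuous hφc
          refine this.congr (Eventually.of_forall fun z => ?_)
          simp [mul_comm]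
        have : (fun z => φ z • (v z - w z)) = fun z => v z * φ z - w z * φ z := by
          funext z
          simp only [smul_eq_mul]
          ring
        rw [this, integral_sub i1 i2, h1, sub_self])
    have hne : ∀ᵐ z : ℂ, z ∈ ({0}ᶜ : Set ℂ) := by
      rw [ae_iff]
      simp
    filter_upwards [hae, hne] with z hz1 hz2
    have := hz1 hz2
    linarith

end Pool.Agent.Helper31.LS
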