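import Pool.Agent.Helper31.LS.Abs
import Pool.Agent.Helper42.Fr.Defs

set_option autoImplicit false

open MeasureTheory Filter Topology Set

namespace Pool.Agent.Helper31.LS

open Pool.Agent.Helper42.Fr

/-- the weight `κ u = K u / (2u)`. -/
noncomputable def kap (k : ℝ → ℝ) (u : ℝ) : ℝ := KK k u / (2 * u)

noncomputable def kap' (k : ℝ → ℝ) (u : ℝ) : ℝ := k u / (2 * u) - KK k u / (2 * u ^ 2)

/-- a continuous weight vanishing on `(-∞, c]`, `c > 0`. -/
structure Low (k : ℝ → ℝ) (c : ℝ) : Prop where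
  cont : Continuous k
  pos : 0 < c
  zero : ∀ u, u ≤ c → k u = 0

variable {k : ℝ → ℝ} {c : ℝ}

theorem Low.KK_deriv (hk : Low k c) (u : ℝ) : HasDerivAt (KK k) (k u) u := by
  unfold KK
  exact intervalIntegral.integral_hasDerivAt_right (hk.cont.intervalIntegrable _ _)
    (hk.cont.stronglyMeasurableAtFilter volume (𝓝 u)) hk.cont.continuousAt

theorem Low.KK_zero (hk : Low k c) {u : ℝ} (hu : u ≤ c) : KK k u = 0 := by
  unfold KK
  rw [intervalIntegral.integral_zero_ae]
  filter_upwards with x hx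
  apply hk.zero
  rw [mem_uIoc] at hx
  rcases hx with h | h
  · exact h.2.trans hu
  · exact h.2.trans hk.pos.le

theorem Low.kap_zero (hk : Low k c) {u : ℝ} (hu : u ≤ c) : kap k u = 0 := by
  unfold kap
  rw [hk.KK_zero hu, zero_div]

theorem Low.kap'_zero (hk : Low k c) {u : ℝ} (hu : u ≤ c) : kap' k u = 0 := by
  unfold kap'
  rw [hk.KK_zero hu, hk.zero u hu, zero_div, zero_div, sub_zero]

theorem Low.mul_kap (hk : Low k c) (u : ℝ) : 2 * (u * kap k u) = KK k u := by
  by_cases hu : u ≤ c
  · rw [hk.kap_zero hu, hk.KK_zero hu]; ring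
  · push Not at hu
    have : 0 < u := hk.pos.trans hu
    unfold kap
    field_simp

theorem Low.kap_deriv (hk : Low k c) (u : ℝ) : HasDerivAt (kap k) (kap' k u) u := by
  by_cases hu : u < c
  · rw [hk.kap'_zero hu.le]
    apply (hasDerivAt_const u (0:ℝ)).congr_of_eventuallyEq
    filter_upwards [Iio_mem_nhds hu] with x hx
    exact hk.kap_zero (le_of_lt hx)
  · push Not at hu
    have hu0 : 0 < u := hk.pos.trans_le hu
    have h1 : HasDerivAt (fun u : ℝ => 2 * u) 2 u := by
      simpa using (hasDerivAt_id u).const_mul 2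
    have h2 := (hk.KK_deriv u).div h1 (by positivity)
    unfold kap
    convert! h2 using 1
    unfold kap'
    field_simp

theorem Low.kap'_cont (hk : Low k c) : Continuous (kap' k) := by
  rw [continuous_iff_continuousAt]
  intro u
  by_cases hu : u < c
  · apply (continuousAt_const (y := (0:ℝ))).congr
    filter_upwards [Iio_mem_nhds hu] with x hx
    exact (hk.kap'_zero (le_of_lt hx)).symm
  · push Not at hu
    have hu0 : 0 < u := hk.pos.trans_le hu
    have hK : ContinuousAt (KK k) u := (hk.KK_deriv u).continuousAt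
    unfold kap'
    apply ContinuousAt.sub
    · exact hk.cont.continuousAt.div (by fun_prop) (by positivity)
    · exact hK.div (by fun_prop) (by positivity)

theorem Low.kap_cont (hk : Low k c) : Continuous (kap k) := by
  rw [continuous_iff_continuousAt]
  exact fun u => (hk.kap_deriv u).continuousAt

theorem Low.two_kap_add (hk : Low k c) (u : ℝ) : 2 * kap k u + 2 * u * kap' k u = k u := by
  by_cases hu : u ≤ c
  · rw [hk.kap_zero hu, hk.kap'_zero hu, hk.zero u hu]; ring
  · push Not at hu
    have : 0 < u := hk.pos.trans hu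
    unfold kap kap'
    field_simp
    ring

/-- the potential -/
noncomputable def Pot (k : ℝ → ℝ) (P Q : ℝ) : ℝ := ∫ σ in (0:ℝ)..Q, kap k (P ^ 2 + σ ^ 2) * P

noncomputable def TT (k : ℝ → ℝ) (P Q : ℝ) : ℝ := ∫ σ in (0:ℝ)..Q, k (P ^ 2 + σ ^ 2)

theorem TT_cont (hk : Low k c) : Continuous (fun z : ℝ × ℝ => TT k z.1 z.2) := by
  unfold TT
  have h1 : Continuous (Function.uncurry fun (z : ℝ × ℝ) (σ : ℝ) => k (z.1 ^ 2 + σ ^ 2)) := by
    have := hk.cont
    unfold Function.uncurry
    fun_prop
  exact intervalIntegral.continuous_parametric_intervalIntegral_of_continuous h1 continuous_snd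

theorem Pot_dQ (hk : Low k c) (P Q : ℝ) :
    HasDerivAt (fun Q => Pot k P Q) (kap k (P ^ 2 + Q ^ 2) * P) Q := by
  unfold Pot
  have hc : Continuous (fun σ : ℝ => kap k (P ^ 2 + σ ^ 2) * P) := by
    have := hk.kap_cont
    fun_prop
  exact intervalIntegral.integral_hasDerivAt_right (hc.intervalIntegrable _ _)
    (hc.stronglyMeasurableAtFilter volume (𝓝 Q)) hc.continuousAt

theorem Pot_dP (hk : Low k c) (P Q : ℝ) :
    HasDerivAt (fun P => Pot k P Q) (TT k P Q - kap k (P ^ 2 + Q ^ 2) * Q) P := by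
  have hkc := hk.kap_cont
  have hkc' := hk.kap'_cont
  have hkc0 := hk.cont
  set F' : ℝ → ℝ → ℝ := fun P σ => 2 * P ^ 2 * kap' k (P ^ 2 + σ ^ 2) + kap k (P ^ 2 + σ ^ 2) with hF'
  have hFc : Continuous (Function.uncurry F') := by
    simp only [hF']
    unfold Function.uncurry
    fun_prop
  obtain ⟨M, hM⟩ := ((isCompact_closedBall P (1:ℝ)).prod
    (isCompact_uIcc (a := (0:ℝ)) (b := Q))).exists_bound_of_continuousOn hFc.continuousOn
  have hmain := intervalIntegral.hasDerivAt_integral_of_dominated_loc_of_deriv_le (μ := volume)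
    (a := 0) (b := Q) (F := fun P σ => kap k (P ^ 2 + σ ^ 2) * P) (F' := F') (x₀ := P)
    (s := Metric.closedBall P 1) (bound := fun _ => M) (Metric.closedBall_mem_nhds P one_pos)
    (by
      filter_upwards with x
      have : Continuous (fun σ : ℝ => kap k (x ^ 2 + σ ^ 2) * x) := by fun_prop
      exact this.aestronglyMeasurable)
    (by
      have : Continuous (fun σ : ℝ => kap k (P ^ 2 + σ ^ 2) * P) := by fun_prop
      exact this.intervalIntegrable _ _)
    (by
      have : Continuous (F' P) := by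
        simp only [hF']
        fun_prop
      exact this.aestronglyMeasurable)
    (by
      filter_upwards with σ hσ x hx
      exact hM (x, σ) ⟨hx, uIoc_subset_uIcc hσ⟩)
    (by exact intervalIntegrable_const)
    (by
      filter_upwards with σ _ x _
      have h1 : HasDerivAt (fun x : ℝ => x ^ 2 + σ ^ 2) (2 * x) x := by
        simpa using (hasDerivAt_pow 2 x).add_const (σ ^ 2)
      have h2 := ((hk.kap_deriv (x ^ 2 + σ ^ 2)).comp x h1).mul (hasDerivAt_id x)
      convert! h2 using 1
      simp only [hF', id_eq, Function.comp_apply]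
      ring)
  have hval : ∫ σ in (0:ℝ)..Q, F' P σ = TT k P Q - kap k (P ^ 2 + Q ^ 2) * Q := by
    have h1 : ∀ σ ∈ uIcc 0 Q, HasDerivAt (fun σ : ℝ => kap k (P ^ 2 + σ ^ 2) * σ)
        (2 * σ ^ 2 * kap' k (P ^ 2 + σ ^ 2) + kap k (P ^ 2 + σ ^ 2)) σ := by
      intro σ _
      have h1 : HasDerivAt (fun σ : ℝ => P ^ 2 + σ ^ 2) (2 * σ) σ := by
        simpa using (hasDerivAt_pow 2 σ).const_add (P ^ 2)
      have h2 := ((hk.kap_deriv (P ^ 2 + σ ^ 2)).comp σ h1).mul (hasDerivAt_id σ)
      convert! h2 using 1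
      simp only [id_eq, Function.comp_apply]
      ring
    have hc1 : Continuous (fun σ : ℝ => 2 * σ ^ 2 * kap' k (P ^ 2 + σ ^ 2) + kap k (P ^ 2 + σ ^ 2)) := by
      fun_prop
    have h2 := intervalIntegral.integral_eq_sub_of_hasDerivAt h1 (hc1.intervalIntegrable _ _)
    have h3 : TT k P Q = ∫ σ in (0:ℝ)..Q, (F' P σ
        + (2 * σ ^ 2 * kap' k (P ^ 2 + σ ^ 2) + kap k (P ^ 2 + σ ^ 2))) := by
      unfold TT
      apply intervalIntegral.integral_congr
      intro σ _
      simp only [hF']
      have := hk.two_kap_add (P ^ 2 + σ ^ 2)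
      linarith
    rw [h3, intervalIntegral.integral_add _ (hc1.intervalIntegrable _ _), h2]
    · ring
    · have : Continuous (F' P) := by
        simp only [hF']
        fun_prop
      exact this.intervalIntegrable _ _
  have := hmain.2
  rw [hval] at this
  exact this

theorem tss_cont : Continuous (fun x : ℝ => ContinuousLinearMap.toSpanSingleton ℝ x) := by
  have e : (fun x : ℝ => ContinuousLinearMap.toSpanSingleton ℝ x)
      = fun x : ℝ => x • ContinuousLinearMap.toSpanSingleton ℝ (1:ℝ) := by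
    funext x
    ext
    simp
  rw [e]
  fun_prop

theorem Pot_curve (hk : Low k c) {P Q : ℝ → ℝ} {P' Q' s : ℝ} (hP : HasDerivAt P P' s)
    (hQ : HasDerivAt Q Q' s) :
    HasDerivAt (fun s => Pot k (P s) (Q s))
      ((TT k (P s) (Q s) - kap k (P s ^ 2 + Q s ^ 2) * Q s) * P'
        + kap k (P s ^ 2 + Q s ^ 2) * P s * Q') s := by
  have hkc := hk.kap_cont
  have hTT := TT_cont hk
  have h := hasStrictFDerivAt_uncurry_coprod (𝕜 := ℝ) (u := (P s, Q s)) (f := Pot k)
    (f₁ := fun P Q => ContinuousLinearMap.toSpanSingleton ℝ (TT k P Q - kap k (P ^ 2 + Q ^ 2) * Q))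
    (f₂ := fun P Q => ContinuousLinearMap.toSpanSingleton ℝ (kap k (P ^ 2 + Q ^ 2) * P))
    (by
      filter_upwards with v
      exact (Pot_dP hk v.1 v.2).hasFDerivAt)
    (by
      filter_upwards with v
      exact (Pot_dQ hk v.1 v.2).hasFDerivAt)
    (by
      apply Continuous.continuousAt
      have h1 : Continuous (fun z : ℝ × ℝ => TT k z.1 z.2 - kap k (z.1 ^ 2 + z.2 ^ 2) * z.2) := by
        fun_prop
      have h2 : Continuous (fun x : ℝ => ContinuousLinearMap.toSpanSingleton ℝ x) := by
        exact tss_cont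
      exact h2.comp h1)
    (by
      apply Continuous.continuousAt
      have h1 : Continuous (fun z : ℝ × ℝ => kap k (z.1 ^ 2 + z.2 ^ 2) * z.1) := by
        fun_prop
      have h2 : Continuous (fun x : ℝ => ContinuousLinearMap.toSpanSingleton ℝ x) := by
        exact tss_cont
      exact h2.comp h1)
  have h' : HasFDerivAt (fun z : ℝ × ℝ => Pot k z.1 z.2)
      ((ContinuousLinearMap.toSpanSingleton ℝ
          (TT k (P s) (Q s) - kap k (P s ^ 2 + Q s ^ 2) * Q s)).coprod
        (ContinuousLinearMap.toSpanSingleton ℝ (kap k (P s ^ 2 + Q s ^ 2) * P s))) (P s, Q s) :=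
    h.hasFDerivAt
  have h2 := h'.comp_hasDerivAt s (hP.prodMk hQ)
  convert! h2 using 1
  simp
  ring

end Pool.Agent.Helper31.LS
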