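import Pool.Agent.Helper31.LS.Minty
import Pool.Agent.Helper31.LS.Potential

set_option autoImplicit false

open MeasureTheory Filter Topology Set
open scoped ComplexConjugate

namespace Pool.Agent.Helper31.LS

open Pool.Agent.Helper42.Fr

variable {ρ c0 C c : ℝ} {g k : ℝ → ℝ}

/-- the curve in the rotating frame -/
noncomputable def ZZ (ρ c0 : ℝ) (g : ℝ → ℝ) (s : ℝ) : ℂ :=
  Complex.exp (((ρ * th c0 g s : ℝ) : ℂ) * Complex.I) *
    ((g (th c0 g s) : ℂ) + ((mm c0 g s / ρ : ℝ) : ℂ) * Complex.I)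

theorem normSq_ZZ (s : ℝ) :
    Complex.normSq (ZZ ρ c0 g s) = g (th c0 g s) ^ 2 + (mm c0 g s / ρ) ^ 2 := by
  unfold ZZ
  rw [map_mul, Complex.normSq_eq_norm_sq (Complex.exp _), Complex.norm_exp_ofReal_mul_I,
    Complex.normSq_add_mul_I]
  ring

noncomputable def lipC (ρ c0 C : ℝ) : ℝ := ρ * (C + C / ρ) + (C + (2 * c0 + 2) / ρ)

theorem norm_W_le (hρ : 0 < ρ) (hg : Semi c0 C g) (s : ℝ) :
    ‖(g (th c0 g s) : ℂ) + ((mm c0 g s / ρ : ℝ) : ℂ) * Complex.I‖ ≤ C + C / ρ := by
  refine (norm_add_le _ _).trans ?_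
  rw [norm_mul, Complex.norm_I, mul_one, Complex.norm_real, Complex.norm_real, Real.norm_eq_abs,
    Real.norm_eq_abs, abs_div, abs_of_pos hρ]
  have h1 := hg.bdd (th c0 g s)
  have h2 := (hg.sub_th s).abs_le hg
  gcongr

theorem curve_ZZ (hρ : 0 < ρ) (hg : Semi c0 C g) :
    Curve (2 * Real.pi * (2 * c0 + 1)) (lipC ρ c0 C)
      (Complex.exp (((ρ * (2 * Real.pi) : ℝ) : ℂ) * Complex.I)) (ZZ ρ c0 g) := by
  constructor
  · intro s s'
    have hC := hg.C_nonneg
    have hc := hg.c0_nonneg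
    set W : ℝ → ℂ := fun s => (g (th c0 g s) : ℂ) + ((mm c0 g s / ρ : ℝ) : ℂ) * Complex.I with hW
    set e : ℝ → ℂ := fun s => Complex.exp (((ρ * th c0 g s : ℝ) : ℂ) * Complex.I) with he
    have h0 : ZZ ρ c0 g s - ZZ ρ c0 g s' = (e s - e s') * W s + e s' * (W s - W s') := by
      simp only [ZZ, hW, he]; ring
    rw [h0]
    refine (norm_add_le _ _).trans ?_
    rw [norm_mul, norm_mul]
    have h1 : ‖e s - e s'‖ ≤ ρ * |s - s'| := by
      refine (norm_exp_sub_exp _ _).trans ?_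
      rw [← mul_sub, abs_mul, abs_of_pos hρ]
      exact mul_le_mul_of_nonneg_left (hg.th_lip s s') hρ.le
    have h2 : ‖e s'‖ = 1 := Complex.norm_exp_ofReal_mul_I _
    have h3 : ‖W s - W s'‖ ≤ (C + (2 * c0 + 2) / ρ) * |s - s'| := by
      have e1 : W s - W s' = ((g (th c0 g s) - g (th c0 g s') : ℝ) : ℂ)
          + (((mm c0 g s - mm c0 g s') / ρ : ℝ) : ℂ) * Complex.I := by
        simp only [hW]; push_cast; ring
      rw [e1]
      refine (norm_add_le _ _).trans ?_
      rw [norm_mul, Complex.norm_I, mul_one, Complex.norm_real, Complex.norm_real,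
        Real.norm_eq_abs, Real.norm_eq_abs, abs_div, abs_of_pos hρ]
      have h4 : |g (th c0 g s) - g (th c0 g s')| ≤ C * |s - s'| :=
        (hg.lip _ _).trans (mul_le_mul_of_nonneg_left (hg.th_lip s s') hC)
      have h5 : |mm c0 g s - mm c0 g s'| / ρ ≤ (2 * c0 + 2) * |s - s'| / ρ := by
        gcongr
        exact hg.mm_lip s s'
      calc _ ≤ C * |s - s'| + (2 * c0 + 2) * |s - s'| / ρ := add_le_add h4 h5
        _ = _ := by ring
    rw [h2, one_mul]
    calc _ ≤ ρ * |s - s'| * (C + C / ρ) + (C + (2 * c0 + 2) / ρ) * |s - s'| := by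
          refine add_le_add ?_ h3
          apply mul_le_mul h1 (norm_W_le hρ hg s) (norm_nonneg _) (by positivity)
      _ = _ := by unfold lipC; ring
  · intro s
    obtain ⟨h1, h2⟩ := hg.th_per s
    unfold ZZ
    rw [h1, h2, hg.per]
    have e1 : Complex.exp (((ρ * (th c0 g s + 2 * Real.pi) : ℝ) : ℂ) * Complex.I)
        = Complex.exp (((ρ * (2 * Real.pi) : ℝ) : ℂ) * Complex.I)
          * Complex.exp (((ρ * th c0 g s : ℝ) : ℂ) * Complex.I) := by
      rw [← Complex.exp_add]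
      congr 1
      push_cast
      ring
    rw [e1, mul_assoc]

/-- density of the functional as a function of `(g, g')` -/
noncomputable def Dn (ρ : ℝ) (k : ℝ → ℝ) (z : ℝ × ℝ) : ℝ :=
  -(ρ / 2) * KK k (z.1 ^ 2 + (z.2 / ρ) ^ 2) + TT k z.1 (z.2 / ρ) * z.2

theorem Fden_eq (hρ : 0 < ρ) (P q : ℝ) : Fden ρ k (ρ * P) q (ρ * q) = Dn ρ k (P, q) := by
  unfold Fden Dn Theta TT
  have e1 : ((ρ * P) ^ 2 + q ^ 2) / ρ ^ 2 = P ^ 2 + (q / ρ) ^ 2 := by field_simp
  have e2 : ∫ τ in (0:ℝ)..q, k (((ρ * P) ^ 2 + τ ^ 2) / ρ ^ 2)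
      = ρ * ∫ σ in (0:ℝ)..(q / ρ), k (P ^ 2 + σ ^ 2) := by
    have h1 := intervalIntegral.integral_comp_div (a := 0) (b := q)
      (fun σ => k (P ^ 2 + σ ^ 2)) hρ.ne'
    rw [zero_div, smul_eq_mul] at h1
    rw [← h1]
    apply intervalIntegral.integral_congr
    intro τ _
    simp only
    congr 1
    field_simp
  rw [e1, e2]
  field_simp

theorem Dn_cont (hk : Low k c) : Continuous (Dn ρ k) := by
  unfold Dn
  have h1 : Continuous (KK k) := by
    rw [continuous_iff_continuousAt]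
    exact fun u => (hk.KK_deriv u).continuousAt
  have h2 : Continuous (fun z : ℝ × ℝ => TT k z.1 (z.2 / ρ)) :=
    (TT_cont hk).comp (continuous_fst.prodMk (continuous_snd.div_const ρ))
  fun_prop

noncomputable def Dd (ρ : ℝ) (k g : ℝ → ℝ) (t : ℝ) : ℝ := Dn ρ k (g t, deriv g t)

theorem lamH_eq (hρ : 0 < ρ) : lamH ρ k g = ∫ t in (0:ℝ)..(2 * Real.pi), Dd ρ k g t := by
  unfold lamH Dd
  apply intervalIntegral.integral_congr
  intro t _
  exact Fden_eq hρ _ _

theorem Semi.abs_deriv_le (hg : Semi c0 C g) (t : ℝ) : |deriv g t| ≤ C := by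
  have : LipschitzWith C.toNNReal g := by
    apply LipschitzWith.of_dist_le_mul
    intro x y
    rw [Real.dist_eq, Real.dist_eq, Real.coe_toNNReal _ hg.C_nonneg]
    exact hg.lip x y
  have := norm_deriv_le_of_lipschitz (x₀ := t) this
  rwa [Real.coe_toNNReal _ hg.C_nonneg] at this

theorem Semi.ae_diff (hg : Semi c0 C g) : ∀ᵐ t, DifferentiableAt ℝ g t := by
  have : LipschitzWith C.toNNReal g := by
    apply LipschitzWith.of_dist_le_mul
    intro x y
    rw [Real.dist_eq, Real.dist_eq, Real.coe_toNNReal _ hg.C_nonneg]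
    exact hg.lip x y
  exact this.ae_differentiableAt_real

theorem Dd_bound (hk : Low k c) (hg : Semi c0 C g) : ∃ M, 0 ≤ M ∧ ∀ t, |Dd ρ k g t| ≤ M := by
  obtain ⟨M, hM⟩ := ((isCompact_closedBall (0:ℝ) C).prod
    (isCompact_closedBall (0:ℝ) C)).exists_bound_of_continuousOn (Dn_cont (ρ := ρ) hk).continuousOn
  refine ⟨M, ?_, fun t => ?_⟩
  · refine (norm_nonneg _).trans (hM (0, 0) ?_)
    have := hg.C_nonneg
    constructor <;> simp [this]
  · apply hM (g t, deriv g t)
    constructor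
    · simp only [mem_closedBall_zero_iff, Real.norm_eq_abs]
      exact hg.bdd t
    · simp only [mem_closedBall_zero_iff, Real.norm_eq_abs]
      exact hg.abs_deriv_le t

theorem Dd_meas (hk : Low k c) (hg : Semi c0 C g) : Measurable (Dd ρ k g) := by
  unfold Dd
  exact (Dn_cont hk).measurable.comp (hg.cont.measurable.prodMk (measurable_deriv g))

theorem Dd_int (hk : Low k c) (hg : Semi c0 C g) (a b : ℝ) :
    IntervalIntegrable (Dd ρ k g) volume a b := by
  obtain ⟨M, hM0, hM⟩ := Dd_bound (ρ := ρ) hk hg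
  rw [intervalIntegrable_iff]
  apply Measure.integrableOn_of_bounded (M := M) (by simp)
  · exact (Dd_meas hk hg).aestronglyMeasurable
  · filter_upwards with x
    exact hM x

theorem Semi.th_surj (hg : Semi c0 C g) : Function.Surjective (th c0 g) := by
  have hc := hg.c0_nonneg
  have hcont : Continuous (th c0 g) := by
    have : LipschitzWith 1 (th c0 g) := by
      apply LipschitzWith.of_dist_le_mul
      intro x y
      rw [Real.dist_eq, Real.dist_eq, NNReal.coe_one, one_mul]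
      exact hg.th_lip x y
    exact this.continuous
  have hval : ∀ s, (2 * c0 + 1) * th c0 g s = s - mm c0 g s := fun s => by unfold mm; ring
  have hm : ∀ s, |mm c0 g s| ≤ C := fun s => (hg.sub_th s).abs_le hg
  intro t
  have h1 : th c0 g ((2 * c0 + 1) * t - C) ≤ t := by
    have h := hval ((2 * c0 + 1) * t - C)
    have h2 := (abs_le.1 (hm ((2 * c0 + 1) * t - C))).1
    have h3 : (2 * c0 + 1) * th c0 g ((2 * c0 + 1) * t - C) ≤ (2 * c0 + 1) * t := by linarith
    exact le_of_mul_le_mul_left h3 (by linarith)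
  have h2 : t ≤ th c0 g ((2 * c0 + 1) * t + C) := by
    have h := hval ((2 * c0 + 1) * t + C)
    have h2 := (abs_le.1 (hm ((2 * c0 + 1) * t + C))).2
    have h3 : (2 * c0 + 1) * t ≤ (2 * c0 + 1) * th c0 g ((2 * c0 + 1) * t + C) := by linarith
    exact le_of_mul_le_mul_left h3 (by linarith)
  have hC := hg.C_nonneg
  obtain ⟨s, _, hs⟩ := intermediate_value_Icc (by linarith : (2 * c0 + 1) * t - C ≤ (2 * c0 + 1) * t + C)
    hcont.continuousOn ⟨h1, h2⟩
  exact ⟨s, hs⟩

/-- near the base point of a parameter where the parametrisation moves, `g'` is close to the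
slope. -/
theorem Semi.deriv_tendsto (hg : Semi c0 C g) {s θ : ℝ} (hθ : HasDerivAt (th c0 g) θ s)
    (hθ0 : θ ≠ 0) :
    Tendsto (fun t => deriv g t) (𝓝 (th c0 g s) ⊓ ae volume) (𝓝 (mm c0 g s)) := by
  have hc := hg.c0_nonneg
  have hr : ∀ η > 0, th c0 g s < th c0 g (s + η) := by
    intro η hη
    by_contra hcon
    push Not at hcon
    have hconst : ∀ x ∈ Icc s (s + η), th c0 g x = th c0 g s := fun x hx =>
      le_antisymm ((hg.th_mono hx.2).trans hcon) (hg.th_mono hx.1)
    have h1 : HasDerivWithinAt (th c0 g) 0 (Icc s (s + η)) s := by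
      apply (hasDerivWithinAt_const s (Icc s (s + η)) (th c0 g s)).congr hconst rfl
    have h2 : HasDerivWithinAt (th c0 g) θ (Icc s (s + η)) s := hθ.hasDerivWithinAt
    have hu : UniqueDiffWithinAt ℝ (Icc s (s + η)) s :=
      uniqueDiffOn_Icc (by linarith) s (left_mem_Icc.2 (by linarith))
    exact hθ0 (hu.eq_deriv _ h2 h1)
  have hl : ∀ η > 0, th c0 g (s - η) < th c0 g s := by
    intro η hη
    by_contra hcon
    push Not at hcon
    have hconst : ∀ x ∈ Icc (s - η) s, th c0 g x = th c0 g s := fun x hx =>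
      le_antisymm (hg.th_mono hx.2) (hcon.trans (hg.th_mono hx.1))
    have h1 : HasDerivWithinAt (th c0 g) 0 (Icc (s - η) s) s := by
      apply (hasDerivWithinAt_const s (Icc (s - η) s) (th c0 g s)).congr hconst rfl
    have h2 : HasDerivWithinAt (th c0 g) θ (Icc (s - η) s) s := hθ.hasDerivWithinAt
    have hu : UniqueDiffWithinAt ℝ (Icc (s - η) s) s :=
      uniqueDiffOn_Icc (by linarith) s (right_mem_Icc.2 (by linarith))
    exact hθ0 (hu.eq_deriv _ h2 h1)
  rw [Metric.tendsto_nhds]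
  intro ε hε
  set η := ε / (2 * c0 + 3) with hη
  have hη0 : 0 < η := by positivity
  have h1 : Ioo (th c0 g (s - η)) (th c0 g (s + η)) ∈ 𝓝 (th c0 g s) :=
    Ioo_mem_nhds (hl η hη0) (hr η hη0)
  have h2 : ∀ᶠ t in 𝓝 (th c0 g s) ⊓ ae volume, t ∈ Ioo (th c0 g (s - η)) (th c0 g (s + η)) :=
    mem_inf_of_left h1
  have h3 : ∀ᶠ t in 𝓝 (th c0 g s) ⊓ ae volume, DifferentiableAt ℝ g t :=
    mem_inf_of_right hg.ae_diff
  filter_upwards [h2, h3] with t ht htd
  obtain ⟨s', rfl⟩ := hg.th_surj t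
  have h4 : s - η < s' := by
    by_contra hcon
    push Not at hcon
    have := hg.th_mono hcon
    linarith [ht.1]
  have h5 : s' < s + η := by
    by_contra hcon
    push Not at hcon
    have := hg.th_mono hcon
    linarith [ht.2]
  have h6 : mm c0 g s' = deriv g (th c0 g s') := (hg.sub_th s').eq_deriv htd.hasDerivAt
  rw [← h6, Real.dist_eq]
  have h7 := hg.mm_lip s' s
  have h8 : |s' - s| ≤ η := by
    rw [abs_le]; constructor <;> linarith
  calc |mm c0 g s' - mm c0 g s| ≤ (2 * c0 + 2) * |s' - s| := h7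
    _ ≤ (2 * c0 + 2) * η := by gcongr
    _ < (2 * c0 + 3) * η := by
        apply mul_lt_mul_of_pos_right _ hη0
        linarith
    _ = ε := by rw [hη]; field_simp

/-- derivative of the change of variables -/
theorem Semi.integral_deriv (hk : Low k c) (hg : Semi c0 C g) {s θ : ℝ}
    (hθ : HasDerivAt (th c0 g) θ s) :
    HasDerivAt (fun s => ∫ t in (0:ℝ)..(th c0 g s), Dd ρ k g t)
      (Dn ρ k (g (th c0 g s), mm c0 g s) * θ) s := by
  by_cases hθ0 : θ = 0
  · subst hθ0
    rw [mul_zero]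
    obtain ⟨M, hM0, hM⟩ := Dd_bound (ρ := ρ) hk hg
    rw [hasDerivAt_iff_isLittleO] at hθ ⊢
    simp only [smul_zero, sub_zero] at hθ ⊢
    refine Asymptotics.IsBigO.trans_isLittleO ?_ hθ
    apply Asymptotics.IsBigO.of_bound M
    filter_upwards with s'
    rw [intervalIntegral.integral_interval_sub_left (Dd_int hk hg _ _) (Dd_int hk hg _ _)]
    have := intervalIntegral.norm_integral_le_of_norm_le_const (a := th c0 g s)
      (b := th c0 g s') (f := Dd ρ k g) (C := M) (fun x _ => by rw [Real.norm_eq_abs]; exact hM x)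
    exact this
  · have h1 := hg.deriv_tendsto hθ hθ0
    have h2 : Tendsto (fun t => g t) (𝓝 (th c0 g s) ⊓ ae volume) (𝓝 (g (th c0 g s))) :=
      (hg.cont.tendsto _).mono_left inf_le_left
    have h3 : Tendsto (Dd ρ k g) (𝓝 (th c0 g s) ⊓ ae volume)
        (𝓝 (Dn ρ k (g (th c0 g s), mm c0 g s))) :=
      ((Dn_cont (ρ := ρ) hk).tendsto _).comp (h2.prodMk_nhds h1)
    have h4 := intervalIntegral.integral_hasDerivAt_of_tendsto_ae_right
      (Dd_int (ρ := ρ) hk hg 0 (th c0 g s))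
      ((Dd_meas hk hg).stronglyMeasurable.stronglyMeasurableAtFilter) h3
    exact h4.comp s hθ

end Pool.Agent.Helper31.LS
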