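import Pool.Agent.Helper31.LS.Formula

set_option autoImplicit false

open MeasureTheory Filter Topology Set
open scoped ComplexConjugate

namespace Pool.Agent.Helper31.LS

open Pool.Agent.Helper42.Fr

variable {ρ c0 C c t0 δ : ℝ} {g k : ℝ → ℝ}

theorem ZZ_deriv (hg : Semi c0 C g) {s θ μ : ℝ} (hθ : HasDerivAt (th c0 g) θ s)
    (hμ : HasDerivAt (mm c0 g) μ s) :
    HasDerivAt (ZZ ρ c0 g) (Complex.exp (((ρ * th c0 g s : ℝ) : ℂ) * Complex.I) *
      (((ρ * θ : ℝ) : ℂ) * Complex.I * ((g (th c0 g s) : ℂ) + ((mm c0 g s / ρ : ℝ) : ℂ) * Complex.I)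
        + (((mm c0 g s * θ : ℝ) : ℂ) + ((μ / ρ : ℝ) : ℂ) * Complex.I))) s := by
  have h1 : HasDerivAt (fun s => Complex.exp (((ρ * th c0 g s : ℝ) : ℂ) * Complex.I))
      (Complex.exp (((ρ * th c0 g s : ℝ) : ℂ) * Complex.I) * (((ρ * θ : ℝ) : ℂ) * Complex.I)) s := by
    have h2 : HasDerivAt (fun s => ((ρ * th c0 g s : ℝ) : ℂ) * Complex.I)
        (((ρ * θ : ℝ) : ℂ) * Complex.I) s := ((hθ.const_mul ρ).ofReal_comp).mul_const Complex.I
    exact h2.cexp
  have h2 : HasDerivAt (fun s => (g (th c0 g s) : ℂ) + ((mm c0 g s / ρ : ℝ) : ℂ) * Complex.I)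
      (((mm c0 g s * θ : ℝ) : ℂ) + ((μ / ρ : ℝ) : ℂ) * Complex.I) s :=
    ((hg.comp_deriv hθ).ofReal_comp).fun_add (((hμ.div_const ρ).ofReal_comp).mul_const Complex.I)
  have h3 := h1.mul h2
  convert! h3 using 1
  ring

theorem dens_ZZ (hρ : 0 < ρ) (hg : Semi c0 C g) {s θ μ : ℝ} (hθ : HasDerivAt (th c0 g) θ s)
    (hμ : HasDerivAt (mm c0 g) μ s) :
    dens (kap k) (ZZ ρ c0 g) s = kap k (g (th c0 g s) ^ 2 + (mm c0 g s / ρ) ^ 2) *
      (ρ * θ * g (th c0 g s) ^ 2 + g (th c0 g s) * (μ / ρ)) := by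
  unfold dens
  rw [normSq_ZZ, (ZZ_deriv hg hθ hμ).deriv]
  congr 1
  unfold ZZ
  set e := Complex.exp (((ρ * th c0 g s : ℝ) : ℂ) * Complex.I) with he
  set P := g (th c0 g s)
  set m := mm c0 g s
  have hee : conj e * e = 1 := by
    rw [mul_comm, Complex.mul_conj, Complex.normSq_eq_norm_sq, he, Complex.norm_exp_ofReal_mul_I]
    simp
  have e1 : conj (e * ((P : ℂ) + ((m / ρ : ℝ) : ℂ) * Complex.I)) *
      (e * (((ρ * θ : ℝ) : ℂ) * Complex.I * ((P : ℂ) + ((m / ρ : ℝ) : ℂ) * Complex.I)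
        + (((m * θ : ℝ) : ℂ) + ((μ / ρ : ℝ) : ℂ) * Complex.I)))
      = conj ((P : ℂ) + ((m / ρ : ℝ) : ℂ) * Complex.I) *
        (((ρ * θ : ℝ) : ℂ) * Complex.I * ((P : ℂ) + ((m / ρ : ℝ) : ℂ) * Complex.I)
        + (((m * θ : ℝ) : ℂ) + ((μ / ρ : ℝ) : ℂ) * Complex.I)) := by
    rw [map_mul]
    calc _ = (conj e * e) * (conj ((P : ℂ) + ((m / ρ : ℝ) : ℂ) * Complex.I) *
        (((ρ * θ : ℝ) : ℂ) * Complex.I * ((P : ℂ) + ((m / ρ : ℝ) : ℂ) * Complex.I)
        + (((m * θ : ℝ) : ℂ) + ((μ / ρ : ℝ) : ℂ) * Complex.I))) := by ring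
      _ = _ := by rw [hee, one_mul]
  rw [e1]
  simp only [map_add, map_mul, Complex.conj_ofReal, Complex.conj_I, Complex.mul_im, Complex.add_re,
    Complex.add_im, Complex.mul_re, Complex.ofReal_re, Complex.ofReal_im, Complex.I_re,
    Complex.I_im, Complex.neg_re, Complex.neg_im, mul_zero, zero_mul, mul_one, sub_zero, add_zero,
    zero_add, zero_sub, neg_zero, mul_neg]
  field_simp
  ring

theorem Pot_lip (hk : Low k c) (R : ℝ) : ∃ M, 0 ≤ M ∧ ∀ P Q P' Q', |P| ≤ R → |Q| ≤ R → |P'| ≤ R →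
    |Q'| ≤ R → |Pot k P Q - Pot k P' Q'| ≤ M * (|P - P'| + |Q - Q'|) := by
  have hkc := hk.kap_cont
  have hTT := TT_cont hk
  have h1 : Continuous (fun z : ℝ × ℝ => TT k z.1 z.2 - kap k (z.1 ^ 2 + z.2 ^ 2) * z.2) := by
    fun_prop
  have h2 : Continuous (fun z : ℝ × ℝ => kap k (z.1 ^ 2 + z.2 ^ 2) * z.1) := by
    fun_prop
  obtain ⟨M1, hM1⟩ := ((isCompact_Icc (a := -R) (b := R)).prod
    (isCompact_Icc (a := -R) (b := R))).exists_bound_of_continuousOn h1.continuousOn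
  obtain ⟨M2, hM2⟩ := ((isCompact_Icc (a := -R) (b := R)).prod
    (isCompact_Icc (a := -R) (b := R))).exists_bound_of_continuousOn h2.continuousOn
  refine ⟨max (max M1 M2) 0, le_max_right _ _, ?_⟩
  intro P Q P' Q' hP hQ hP' hQ'
  rw [abs_le] at hP hQ hP' hQ'
  have a1 : |Pot k P Q - Pot k P' Q| ≤ M1 * |P - P'| := by
    have := Convex.norm_image_sub_le_of_norm_hasDerivWithin_le (f := fun P => Pot k P Q)
      (f' := fun P => TT k P Q - kap k (P ^ 2 + Q ^ 2) * Q) (s := Icc (-R) R) (C := M1)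
      (x := P') (y := P) (fun x _ => (Pot_dP hk x Q).hasDerivWithinAt)
      (fun x hx => hM1 (x, Q) ⟨hx, hQ⟩) (convex_Icc _ _) hP' hP
    exact this
  have a2 : |Pot k P' Q - Pot k P' Q'| ≤ M2 * |Q - Q'| := by
    have := Convex.norm_image_sub_le_of_norm_hasDerivWithin_le (f := fun Q => Pot k P' Q)
      (f' := fun Q => kap k (P' ^ 2 + Q ^ 2) * P') (s := Icc (-R) R) (C := M2)
      (x := Q') (y := Q) (fun x _ => (Pot_dQ hk P' x).hasDerivWithinAt)
      (fun x hx => hM2 (P', x) ⟨hP', hx⟩) (convex_Icc _ _) hQ' hQ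
    exact this
  have e : Pot k P Q - Pot k P' Q' = (Pot k P Q - Pot k P' Q) + (Pot k P' Q - Pot k P' Q') := by
    ring
  rw [e]
  calc _ ≤ M1 * |P - P'| + M2 * |Q - Q'| := (abs_add_le _ _).trans (add_le_add a1 a2)
    _ ≤ max (max M1 M2) 0 * |P - P'| + max (max M1 M2) 0 * |Q - Q'| := by
        gcongr
        · exact (le_max_left M1 M2).trans (le_max_left _ _)
        · exact (le_max_right M1 M2).trans (le_max_left _ _)
    _ = _ := by ring

theorem Semi.ae_th (hg : Semi c0 C g) : ∀ᵐ s, DifferentiableAt ℝ (th c0 g) s := by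
  have : LipschitzWith 1 (th c0 g) := by
    apply LipschitzWith.of_dist_le_mul
    intro x y
    rw [Real.dist_eq, Real.dist_eq, NNReal.coe_one, one_mul]
    exact hg.th_lip x y
  exact this.ae_differentiableAt_real

theorem Semi.ae_mm (hg : Semi c0 C g) : ∀ᵐ s, DifferentiableAt ℝ (mm c0 g) s := by
  filter_upwards [hg.ae_th] with s hs
  unfold mm
  exact differentiableAt_id.sub (hs.const_mul _)

theorem lamH_eq_phase (hρ : 0 < ρ) (hk : Low k c) (hg : Semi c0 C g) (hwt : Wt t0 δ (kap k))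
    (ht : 0 < t0) (hδ : δ ≤ t0 / 2) (b0 : ℝ) :
    lamH ρ k g = -phase (kap k) (ZZ ρ c0 g) b0 (b0 + 2 * Real.pi * (2 * c0 + 1)) := by
  set L := 2 * Real.pi * (2 * c0 + 1) with hL
  have hC := hg.C_nonneg
  have hc := hg.c0_nonneg
  have hcurve := curve_ZZ hρ hg
  obtain ⟨M, hM0, hM⟩ := Dd_bound (ρ := ρ) hk hg
  obtain ⟨M', hM'0, hM'⟩ := Pot_lip hk (max C (C / ρ))
  have hP : ∀ s, |g (th c0 g s)| ≤ max C (C / ρ) := fun s => (hg.bdd _).trans (le_max_left _ _)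
  have hQ : ∀ s, |mm c0 g s / ρ| ≤ max C (C / ρ) := by
    intro s
    rw [abs_div, abs_of_pos hρ]
    refine le_trans ?_ (le_max_right _ _)
    gcongr
    exact (hg.sub_th s).abs_le hg
  set V1 : ℝ → ℝ := fun s => ∫ t in (0:ℝ)..(th c0 g s), Dd ρ k g t with hV1
  set V2 : ℝ → ℝ := fun s => Pot k (g (th c0 g s)) (mm c0 g s / ρ) with hV2
  set V3 : ℝ → ℝ := fun s => phase (kap k) (ZZ ρ c0 g) b0 s with hV3
  have l1 : ∀ s s', |V1 s - V1 s'| ≤ M * |s - s'| := by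
    intro s s'
    simp only [hV1]
    rw [intervalIntegral.integral_interval_sub_left (Dd_int hk hg _ _) (Dd_int hk hg _ _)]
    have := intervalIntegral.norm_integral_le_of_norm_le_const (a := th c0 g s')
      (b := th c0 g s) (f := Dd ρ k g) (C := M) (fun x _ => by rw [Real.norm_eq_abs]; exact hM x)
    exact this.trans (mul_le_mul_of_nonneg_left (hg.th_lip s s') hM0)
  have l2 : ∀ s s', |V2 s - V2 s'| ≤ (M' * (C + (2 * c0 + 2) / ρ)) * |s - s'| := by
    intro s s'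
    refine (hM' _ _ _ _ (hP s) (hQ s) (hP s') (hQ s')).trans ?_
    rw [mul_assoc]
    apply mul_le_mul_of_nonneg_left _ hM'0
    have h4 : |g (th c0 g s) - g (th c0 g s')| ≤ C * |s - s'| :=
      (hg.lip _ _).trans (mul_le_mul_of_nonneg_left (hg.th_lip s s') hC)
    have h5 : |mm c0 g s / ρ - mm c0 g s' / ρ| ≤ (2 * c0 + 2) * |s - s'| / ρ := by
      rw [← sub_div, abs_div, abs_of_pos hρ]
      gcongr
      exact hg.mm_lip s s'
    calc _ ≤ C * |s - s'| + (2 * c0 + 2) * |s - s'| / ρ := add_le_add h4 h5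
      _ = _ := by ring
  have l3 : ∀ s s', |V3 s - V3 s'| ≤ (lipC ρ c0 C * √(2 / t0)) * |s - s'| := by
    intro s s'
    exact phase_lip hcurve hwt ht hδ b0 s' s
  have hlc : 0 ≤ lipC ρ c0 C := by unfold lipC; positivity
  set V : ℝ → ℝ := fun s => V1 s - V2 s + V3 s with hV
  have hVlip : LipschitzWith (M + M' * (C + (2 * c0 + 2) / ρ) + lipC ρ c0 C * √(2 / t0)).toNNReal V := by
    apply LipschitzWith.of_dist_le_mul
    intro s s'
    rw [Real.dist_eq, Real.dist_eq, Real.coe_toNNReal _ (by positivity)]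
    have e : V s - V s' = (V1 s - V1 s') + (-(V2 s - V2 s')) + (V3 s - V3 s') := by
      simp only [hV]; ring
    rw [e]
    calc _ ≤ |V1 s - V1 s'| + |-(V2 s - V2 s')| + |V3 s - V3 s'| := abs_add_three _ _ _
      _ ≤ M * |s - s'| + (M' * (C + (2 * c0 + 2) / ρ)) * |s - s'|
          + (lipC ρ c0 C * √(2 / t0)) * |s - s'| := by
          rw [abs_neg]
          exact add_le_add (add_le_add (l1 s s') (l2 s s')) (l3 s s')
      _ = _ := by ring
  have hac : AbsolutelyContinuousOnInterval V b0 (b0 + L) :=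
    (hVlip.lipschitzOnWith (s := uIcc b0 (b0 + L))).absolutelyContinuousOnInterval
  have hd3 := LocallyIntegrable.ae_hasDerivAt_integral (dens_locallyIntegrable hcurve hwt ht hδ)
  obtain ⟨K, hK⟩ := hac.const_of_ae_hasDerivAt_zero (by
    filter_upwards [hg.ae_th, hg.ae_mm, hd3] with s hs1 hs2 hs3 _
    have hθ := hs1.hasDerivAt
    have hμ := hs2.hasDerivAt
    set θ := deriv (th c0 g) s
    set μ := deriv (mm c0 g) s
    have d1 : HasDerivAt V1 _ s := hg.integral_deriv (ρ := ρ) hk hθ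
    have d2 : HasDerivAt V2 _ s := Pot_curve hk (hg.comp_deriv hθ) (hμ.div_const ρ)
    have d3 : HasDerivAt V3 (dens (kap k) (ZZ ρ c0 g) s) s := hs3 b0
    have d := (d1.fun_sub d2).fun_add d3
    convert! d using 1
    rw [dens_ZZ hρ hg hθ hμ]
    unfold Dn
    simp only
    have hkk := hk.mul_kap (g (th c0 g s) ^ 2 + (mm c0 g s / ρ) ^ 2)
    rw [← hkk]
    field_simp
    ring)
  have hend : V (b0 + L) = V b0 := by
    rw [hK _ right_mem_uIcc, hK _ left_mem_uIcc]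
  obtain ⟨p1, p2⟩ := hg.th_per b0
  rw [← hL] at p1 p2
  have hV2p : V2 (b0 + L) = V2 b0 := by
    simp only [hV2]
    rw [p1, p2, hg.per]
  have hV30 : V3 b0 = 0 := by simp only [hV3]; unfold phase; simp
  have hV1p : V1 (b0 + L) - V1 b0 = lamH ρ k g := by
    simp only [hV1]
    rw [intervalIntegral.integral_interval_sub_left (Dd_int hk hg _ _) (Dd_int hk hg _ _), p1,
      lamH_eq hρ]
    have hper : Function.Periodic (Dd ρ k g) (2 * Real.pi) := by
      intro t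
      unfold Dd
      have h1 : deriv g (t + 2 * Real.pi) = deriv g t := by
        have : (fun t => g (t + 2 * Real.pi)) = g := funext hg.per
        rw [← deriv_comp_add_const, this]
      rw [h1, hg.per]
    have := hper.intervalIntegral_add_eq (th c0 g b0) 0
    rw [zero_add] at this
    exact this
  have : V1 (b0 + L) - V2 (b0 + L) + V3 (b0 + L) = V1 b0 - V2 b0 + V3 b0 := hend
  rw [hV2p, hV30] at this
  have h3 : V3 (b0 + L) = phase (kap k) (ZZ ρ c0 g) b0 (b0 + L) := rfl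
  linarith

theorem exp_lamH (hρ : 0 < ρ) (hk : Low k c) (hg : Semi c0 C g) (hwt : Wt t0 δ (kap k))
    (ht : 0 < t0) (hδ : δ ≤ t0 / 2) (b0 : ℝ) :
    Complex.exp (Complex.I * ((lamH ρ k g : ℝ) : ℂ))
      = EE (kap k) (ZZ ρ c0 g) b0 (b0 + 2 * Real.pi * (2 * c0 + 1)) := by
  unfold EE
  rw [lamH_eq_phase hρ hk hg hwt ht hδ b0, mul_comm]

end Pool.Agent.Helper31.LS
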