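import Pool.Agent.Helper31.LS.G3b

set_option autoImplicit false

open MeasureTheory Filter Topology Set

namespace Pool.Agent.Helper31.LS

open Pool.Agent.Helper42.Fr

section
variable {ρ C : ℝ} {h : ℝ → ℝ} {vh v : ℝ × ℝ → ℝ}

/-- vague convergence is stable under convergent translations. -/
lemma convD_shift (hT : Traj ρ C h vh) {X : ℕ → ℝ} (hX : Tendsto X atTop atTop)
    (hc : ConvD (fun j => shift (X j) vh) v) {T : ℕ → ℝ} {T₀ : ℝ} (hTT : Tendsto T atTop (𝓝 T₀)) :
    ConvD (fun j => shift (X j + T j) vh) (shift T₀ v) := by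
  intro ψ hψ hψc
  have hadd : ∀ j, shift (X j + T j) vh = shift (T j) (shift (X j) vh) := by
    intro j
    funext z
    simp only [shift]
    congr 2
    ring
  have e1 : ∀ j, ∫ z, shift (X j + T j) vh z * ψ z = ∫ z, shift (X j) vh z * shift (-T j) ψ z := by
    intro j
    rw [hadd j]
    exact integral_shift (shift (X j) vh) ψ (T j)
  have e2 : ∫ z, shift T₀ v z * ψ z = ∫ z, v z * shift (-T₀) ψ z := integral_shift v ψ T₀
  -- the fixed translate
  have c0 : Continuous (shift (-T₀) ψ) := by
    unfold shift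
    exact hψ.comp ((continuous_fst.add continuous_const).prodMk continuous_snd)
  have h0 := hc (shift (-T₀) ψ) c0 (cpt_shift hψc (-T₀))
  -- a common box
  obtain ⟨R₀, hR₀⟩ := hψc.isBounded.subset_closedBall (0 : ℝ × ℝ)
  set R : ℝ := |R₀| + |T₀| + 1 with hR
  have hsupp : ∀ s : ℝ, |s - T₀| ≤ 1 → ∀ z : ℝ × ℝ, z ∉ Icc (-R) R ×ˢ Icc (-R) R → shift (-s) ψ z = 0 := by
    intro s hs z hz
    by_contra hne
    have h1 : (z.1 + -s, z.2) ∈ tsupport ψ := subset_tsupport _ hne
    have h2 := hR₀ h1
    rw [Metric.mem_closedBall, dist_zero_right, Prod.norm_def] at h2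
    simp only [Real.norm_eq_abs] at h2
    have h3 : |z.1 + -s| ≤ |R₀| := (le_max_left _ _).trans (h2.trans (le_abs_self _))
    have h4 : |z.2| ≤ |R₀| := (le_max_right _ _).trans (h2.trans (le_abs_self _))
    have h5 := abs_nonneg T₀
    have h6 := abs_le.1 h3
    have h7 := abs_le.1 h4
    have h8 := abs_le.1 hs
    have h9 := neg_abs_le T₀
    have h10 := le_abs_self T₀
    exact hz ⟨⟨by linarith, by linarith⟩, ⟨by linarith, by linarith⟩⟩
  obtain ⟨M, X₀, hM⟩ := hT.l1 R
  have hM0 : 0 ≤ M := (integral_nonneg fun _ => abs_nonneg _).trans (hM X₀ le_rfl)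
  have huc : UniformContinuous ψ := hψ.uniformContinuous_of_tendsto_cocompact hψc.is_zero_at_infty
  have hloc : ∀ s : ℝ, LocallyIntegrable (shift s vh) := by
    intro s
    rw [locallyIntegrable_iff]
    intro K hK
    have hmp : MeasurePreserving (fun z : ℝ × ℝ => z + (s, 0)) := measurePreserving_add_right _ _
    have hemb : MeasurableEmbedding (fun z : ℝ × ℝ => z + (s, 0)) := measurableEmbedding_addRight _
    have hK' : IsCompact ((fun z : ℝ × ℝ => z + (s, 0)) '' K) := hK.image (by fun_prop)
    have h1 : IntegrableOn vh ((fun z : ℝ × ℝ => z + (s, 0)) '' K) := hT.locInt.integrableOn_isCompact hK'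
    have h2 := (hmp.integrableOn_image hemb).1 h1
    have e : (vh ∘ fun z : ℝ × ℝ => z + (s, 0)) = shift s vh := by
      funext z
      have : z + (s, 0) = (z.1 + s, z.2) := by ext <;> simp
      simp only [Function.comp, shift, this]
    rw [e] at h2
    exact h2
  have hint : ∀ (s : ℝ) (g : ℝ × ℝ → ℝ), Continuous g → HasCompactSupport g → Integrable (fun z => shift s vh z * g z) := by
    intro s g hg hgc
    have := (hloc s).integrable_smul_left_of_hasCompactSupport hg hgc
    refine this.congr (Eventually.of_forall fun z => ?_)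
    simp [mul_comm]
  have hdiff : Tendsto (fun j => (∫ z, shift (X j) vh z * shift (-T j) ψ z) -
      ∫ z, shift (X j) vh z * shift (-T₀) ψ z) atTop (𝓝 0) := by
    rw [Metric.tendsto_atTop]
    intro e he
    obtain ⟨η, hη0, hη⟩ := Metric.uniformContinuous_iff.1 huc (e / (2 * (M + 1))) (by positivity)
    have e1 : ∀ᶠ j in atTop, |T j - T₀| < min η 1 := by
      have := (Metric.tendsto_nhds.1 hTT) (min η 1) (lt_min hη0 one_pos)
      filter_upwards [this] with j hj
      rwa [Real.dist_eq] at hj
    obtain ⟨N, hN⟩ := eventually_atTop.1 (e1.and (hX.eventually_ge_atTop X₀))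
    refine ⟨N, fun j hj => ?_⟩
    obtain ⟨h1, h2⟩ := hN j hj
    have h3 : |T j - T₀| < η := h1.trans_le (min_le_left _ _)
    have h4 : |T j - T₀| ≤ 1 := (h1.trans_le (min_le_right _ _)).le
    have c1 : Continuous (shift (-T j) ψ) := by
      unfold shift
      exact hψ.comp ((continuous_fst.add continuous_const).prodMk continuous_snd)
    rw [dist_zero_right, ← integral_sub (hint _ _ c1 (cpt_shift hψc _)) (hint _ _ c0 (cpt_shift hψc _))]
    have h5 : ∫ z, (shift (X j) vh z * shift (-T j) ψ z - shift (X j) vh z * shift (-T₀) ψ z) =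
        ∫ z in Icc (-R) R ×ˢ Icc (-R) R, (shift (X j) vh z * shift (-T j) ψ z - shift (X j) vh z * shift (-T₀) ψ z) := by
      refine (setIntegral_eq_integral_of_forall_compl_eq_zero fun z hz => ?_).symm
      rw [hsupp (T j) h4 z hz, hsupp T₀ (by simp) z hz]
      ring
    rw [h5]
    have h6 : ‖∫ z in Icc (-R) R ×ˢ Icc (-R) R, (shift (X j) vh z * shift (-T j) ψ z -
        shift (X j) vh z * shift (-T₀) ψ z)‖ ≤
        ∫ z in Icc (-R) R ×ˢ Icc (-R) R, (e / (2 * (M + 1))) * |shift (X j) vh z| := by
      refine norm_integral_le_of_norm_le ?_ (Eventually.of_forall fun z => ?_)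
      · exact (((hloc (X j)).integrableOn_isCompact (isCompact_Icc.prod isCompact_Icc)).abs).const_mul _
      · rw [← mul_sub, Real.norm_eq_abs, abs_mul, mul_comm]
        refine mul_le_mul_of_nonneg_right ?_ (abs_nonneg _)
        have : dist (z.1 + -T j, z.2) (z.1 + -T₀, z.2) < η := by
          rw [Prod.dist_eq]
          simp only [dist_self, Real.dist_eq]
          rw [max_eq_left (abs_nonneg _)]
          have : z.1 + -T j - (z.1 + -T₀) = -(T j - T₀) := by ring
          rw [this, abs_neg]
          exact h3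
        have := hη this
        rw [Real.dist_eq] at this
        exact this.le
    refine h6.trans_lt ?_
    rw [integral_const_mul]
    have h7 := hM (X j) h2
    calc e / (2 * (M + 1)) * ∫ z in Icc (-R) R ×ˢ Icc (-R) R, |shift (X j) vh z| ≤ e / (2 * (M + 1)) * M :=
          mul_le_mul_of_nonneg_left h7 (by positivity)
      _ < e := by
          rw [div_mul_eq_mul_div, div_lt_iff₀ (by positivity)]
          nlinarith
  have := hdiff.add h0
  simp only [sub_add_cancel, zero_add] at this
  simp only [e1, e2]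
  exact this

end

end Pool.Agent.Helper31.LS
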