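import Pool.Agent.Helper31.LS.G1
import Pool.Agent.Helper31.LS.BlockE

set_option autoImplicit false

open MeasureTheory Filter Topology Set

namespace Pool.Agent.Helper31.LS

open Pool.Agent.Helper42.Fr

/-- crossing lemma. -/
lemma crossing {G : ℝ → ℝ} (hG : Continuous G) {a c : ℝ} (hac : a < c) (h1 : ∀ N : ℝ, ∃ x, N ≤ x ∧ c ≤ G x)
    (h2 : ∀ N : ℝ, ∃ x, N ≤ x ∧ G x ≤ a) :
    ∃ X B : ℕ → ℝ, Tendsto X atTop atTop ∧ ∀ n, X n < B n ∧ G (X n) = c ∧ G (B n) ≤ a ∧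
      ∀ x ∈ Icc (X n) (B n), G x ≤ c := by
  have key : ∀ n : ℕ, ∃ X B : ℝ, (n : ℝ) ≤ X ∧ X < B ∧ G X = c ∧ G B ≤ a ∧ ∀ x ∈ Icc X B, G x ≤ c := by
    intro n
    obtain ⟨A, hA1, hA2⟩ := h1 n
    obtain ⟨B, hB1, hB2⟩ := h2 A
    have hK : IsCompact (Icc A B ∩ {x | c ≤ G x}) :=
      isCompact_Icc.inter_right (isClosed_le continuous_const hG)
    have hne : (Icc A B ∩ {x | c ≤ G x}).Nonempty := ⟨A, ⟨le_rfl, hB1⟩, hA2⟩
    obtain ⟨X, hX1, hX2⟩ := hK.exists_isGreatest hne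
    have hXB : X < B := by
      refine lt_of_le_of_ne hX1.1.2 ?_
      rintro rfl
      have := hX1.2
      simp only [mem_ofPred_eq] at this
      linarith
    have hlt : ∀ x, X < x → x ≤ B → G x < c := by
      intro x hx1 hx2
      by_contra hcon
      have : x ≤ X := hX2 ⟨⟨hX1.1.1.trans hx1.le, hx2⟩, not_lt.1 hcon⟩
      linarith
    have hle : G X ≤ c := by
      have h3 : Tendsto G (𝓝[>] X) (𝓝 (G X)) := (hG.tendsto X).mono_left nhdsWithin_le_nhds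
      refine le_of_tendsto h3 ?_
      filter_upwards [Ioo_mem_nhdsGT hXB] with x hx
      exact (hlt x hx.1 hx.2.le).le
    refine ⟨X, B, hA1.trans hX1.1.1, hXB, le_antisymm hle hX1.2, hB2, fun x hx => ?_⟩
    rcases hx.1.eq_or_lt with rfl | h
    · exact hle
    · exact (hlt x h hx.2).le
  choose X B hX using key
  refine ⟨X, B, tendsto_atTop_mono (fun n => (hX n).1) tendsto_natCast_atTop_atTop, fun n => (hX n).2⟩

/-- interface lemmas of block G (continuity and compactness). -/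
structure GI (ρ C : ℝ) (h : ℝ → ℝ) (vh : ℝ × ℝ → ℝ) : Prop where
  cont : ∀ {k χ : ℝ → ℝ} {κ : ℝ}, KB κ k → IsCut χ → ∀ {ε : ℝ}, 0 < ε → ε < 1 →
    Continuous (fun X => Lam ρ k χ (moll ε (shift X vh)))
  lim : ∀ {k χ : ℝ → ℝ} {κ : ℝ}, KB κ k → IsCut χ → ∀ {ε : ℝ}, 0 < ε → ε < 1 →
    ∀ {X : ℕ → ℝ}, Tendsto X atTop atTop → ∀ {v : ℝ × ℝ → ℝ}, InC ρ C h v →
    ConvD (fun j => shift (X j) vh) v →
    Tendsto (fun j => Lam ρ k χ (moll ε (shift (X j) vh))) atTop (𝓝 (Lam ρ k χ (moll ε v)))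
  compact : ∀ (vs : ℕ → ℝ × ℝ → ℝ), (∀ j, InC ρ C h (vs j)) →
    ∃ φ : ℕ → ℕ, StrictMono φ ∧ ∃ v, InC ρ C h v ∧ ∀ z, Tendsto (fun j => vs (φ j) z) atTop (𝓝 (v z))
  contC : ∀ {k χ : ℝ → ℝ} {κ : ℝ}, KB κ k → IsCut χ → ∀ (vs : ℕ → ℝ × ℝ → ℝ) (v : ℝ × ℝ → ℝ),
    (∀ j, InC ρ C h (vs j)) → InC ρ C h v → (∀ z, Tendsto (fun j => vs j z) atTop (𝓝 (v z))) →
    Tendsto (fun j => LamC ρ k χ (vs j)) atTop (𝓝 (LamC ρ k χ v))
  hom : ∀ {k χ : ℝ → ℝ} {κ : ℝ}, KB κ k → IsCut χ → ∀ {g : ℝ → ℝ}, InC ρ C h (fun z => g z.2) →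
    LamC ρ k χ (fun z => g z.2) = (∫ x, χ x) * lamH ρ k g

/-- the limit set. -/
def InU (ρ C : ℝ) (h : ℝ → ℝ) (vh v : ℝ × ℝ → ℝ) : Prop :=
  InC ρ C h v ∧ ∃ X : ℕ → ℝ, Tendsto X atTop atTop ∧ ConvD (fun j => shift (X j) vh) v

section
variable {ρ C : ℝ} {h : ℝ → ℝ} {vh : ℝ × ℝ → ℝ}

lemma shift_zero' (v : ℝ × ℝ → ℝ) : shift 0 v = v := by
  funext z
  simp [shift]

lemma shift_add' (a b : ℝ) (v : ℝ × ℝ → ℝ) : shift a (shift b v) = shift (a + b) v := by
  funext z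
  simp only [shift]
  congr 2
  ring

lemma InU.sh (hT : Traj ρ C h vh) {v : ℝ × ℝ → ℝ} (hv : InU ρ C h vh v) (T : ℝ) :
    InU ρ C h vh (shift T v) := by
  obtain ⟨h1, X, hX, hc⟩ := hv
  exact ⟨h1.shift T, fun j => X j + T, tendsto_atTop_add_const_right _ _ hX,
    convD_shift hT hX hc tendsto_const_nhds⟩

/-- **(G1)** level argument: every interval between two values of the functional contains a value on a
homogeneous state. -/
theorem level (hh : IndH ρ C h) (hT : Traj ρ C h vh) (gi : GI ρ C h vh) {k χ : ℝ → ℝ} {κ : ℝ} (hk : KB κ k)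
    (hk0 : ∀ s, 0 ≤ k s) (hχ : IsCut χ) (hχ1 : ∫ x, χ x = 1) {v₁ v₂ : ℝ × ℝ → ℝ}
    (h1 : InU ρ C h vh v₁) (h2 : InU ρ C h vh v₂) {c e : ℝ} (he : 0 < e)
    (hl : LamC ρ k χ v₁ < c - 4 * e) (hr : c + 4 * e < LamC ρ k χ v₂) :
    ∃ g : ℝ → ℝ, InC ρ C h (fun z => g z.2) ∧ |lamH ρ k g - c| ≤ e := by
  obtain ⟨M, hM⟩ := blockA_mod hh hχ κ
  -- choose eps
  obtain ⟨ε, hε0, hε1, hεM⟩ : ∃ ε : ℝ, 0 < ε ∧ ε < 1 ∧ M * Real.sqrt ε ≤ e := by
    have h1 : Tendsto (fun ε : ℝ => M * Real.sqrt ε) (𝓝[>] 0) (𝓝 (M * Real.sqrt 0)) := by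
      refine Tendsto.mono_left ?_ nhdsWithin_le_nhds
      exact (by fun_prop : Continuous fun δ : ℝ => M * Real.sqrt δ).tendsto 0
    simp only [Real.sqrt_zero, mul_zero] at h1
    obtain ⟨ε, hε1, hε2⟩ := ((h1.eventually (gt_mem_nhds he)).and (Ioo_mem_nhdsGT one_pos)).exists
    exact ⟨ε, hε2.1, hε2.2, hε1.le⟩
  have hcmp : ∀ v, InC ρ C h v → |Lam ρ k χ (moll ε v) - LamC ρ k χ v| ≤ e := fun v hv =>
    (hM k hk v hv ε hε0 hε1).trans hεM
  set G : ℝ → ℝ := fun X => Lam ρ k χ (moll ε (shift X vh)) with hGdef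
  have hGc : Continuous G := gi.cont hk hχ hε0 hε1
  -- small values
  have hlow : ∀ N : ℝ, ∃ x, N ≤ x ∧ G x ≤ c - 3 * e := by
    intro N
    obtain ⟨hv, X, hX, hc⟩ := h1
    have h3 := gi.lim hk hχ hε0 hε1 hX hv hc
    have h4 := abs_le.1 (hcmp v₁ hv)
    have h5 : Lam ρ k χ (moll ε v₁) < c - 3 * e := by linarith [h4.2]
    obtain ⟨j, hj1, hj2⟩ := ((h3.eventually (gt_mem_nhds h5)).and (hX.eventually_ge_atTop N)).exists
    exact ⟨X j, hj2, hj1.le⟩
  have hhigh : ∀ N : ℝ, ∃ x, N ≤ x ∧ c ≤ G x := by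
    intro N
    obtain ⟨hv, X, hX, hc⟩ := h2
    have h3 := gi.lim hk hχ hε0 hε1 hX hv hc
    have h4 := abs_le.1 (hcmp v₂ hv)
    have h5 : c < Lam ρ k χ (moll ε v₂) := by linarith [h4.1]
    obtain ⟨j, hj1, hj2⟩ := ((h3.eventually (lt_mem_nhds h5)).and (hX.eventually_ge_atTop N)).exists
    exact ⟨X j, hj2, hj1.le⟩
  obtain ⟨X, B, hX, hXB⟩ := crossing hGc (by linarith : c - 3 * e < c) hhigh hlow
  obtain ⟨φ, hφ, v, hv, hc⟩ := hT.cpt X hX
  have hXφ : Tendsto (fun j => X (φ j)) atTop atTop := hX.comp hφ.tendsto_atTop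
  have hlim := gi.lim hk hχ hε0 hε1 hXφ hv hc
  have hval : Lam ρ k χ (moll ε v) = c := by
    refine tendsto_nhds_unique hlim ?_
    refine tendsto_const_nhds.congr fun j => ?_
    exact (hXB (φ j)).2.1.symm
  have hvc : |c - LamC ρ k χ v| ≤ e := by
    have := hcmp v hv
    rwa [hval] at this
  have hvc' := abs_le.1 hvc
  have hmono := blockA_mono hh hk hk0 hχ hv
  set T : ℕ → ℝ := fun j => B (φ j) - X (φ j) with hTdef
  have hT0 : ∀ j, 0 ≤ T j := fun j => by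
    have := (hXB (φ j)).1
    rw [hTdef]; simp only; linarith
  by_cases hb : Tendsto T atTop atTop
  swap
  · -- bounded subsequence: contradiction
    exfalso
    rw [tendsto_atTop] at hb
    push Not at hb
    obtain ⟨K, hK⟩ := hb
    have hfr : ∃ᶠ j in atTop, T j ∈ Icc 0 K := by
      exact hK.mono fun j hj => ⟨hT0 j, hj.le⟩
    obtain ⟨T₀, hT₀, ψ, hψ, hTψ⟩ := tendsto_subseq_of_frequently_bounded (Metric.isBounded_Icc 0 K) hfr
    rw [isClosed_Icc.closure_eq] at hT₀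
    have hXψ : Tendsto (fun j => X (φ (ψ j))) atTop atTop := hXφ.comp hψ.tendsto_atTop
    have hcψ : ConvD (fun j => shift (X (φ (ψ j))) vh) v := fun f hf hfc => (hc f hf hfc).comp hψ.tendsto_atTop
    have hcB := convD_shift hT hXψ hcψ hTψ
    have hB : ∀ j, X (φ (ψ j)) + (T ∘ ψ) j = B (φ (ψ j)) := by
      intro j
      simp only [hTdef, Function.comp]
      ring
    have hBt : Tendsto (fun j => B (φ (ψ j))) atTop atTop :=
      tendsto_atTop_mono (fun j => (hXB (φ (ψ j))).1.le) hXψ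
    simp only [hB] at hcB
    have h6 := gi.lim hk hχ hε0 hε1 hBt (hv.shift T₀) hcB
    have h7 : Lam ρ k χ (moll ε (shift T₀ v)) ≤ c - 3 * e :=
      le_of_tendsto h6 (Eventually.of_forall fun j => (hXB (φ (ψ j))).2.2.1)
    have h8 := abs_le.1 (hcmp _ (hv.shift T₀))
    have h9 := hmono (show (0 : ℝ) ≤ T₀ from hT₀.1)
    simp only [shift_zero'] at h9
    linarith [h8.1, h8.2, hvc'.1, hvc'.2]
  · -- unbounded times
    have hup : ∀ S : ℝ, 0 ≤ S → LamC ρ k χ (shift S v) ≤ c + e := by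
      intro S hS
      have hcS := convD_shift hT hXφ hc (T := fun _ => S) tendsto_const_nhds
      have hXS : Tendsto (fun j => X (φ j) + S) atTop atTop := tendsto_atTop_add_const_right _ _ hXφ
      have h6 := gi.lim hk hχ hε0 hε1 hXS (hv.shift S) hcS
      have h7 : Lam ρ k χ (moll ε (shift S v)) ≤ c := by
        refine le_of_tendsto h6 ?_
        filter_upwards [hb.eventually_ge_atTop S] with j hj
        refine (hXB (φ j)).2.2.2 _ ⟨by linarith, ?_⟩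
        simp only [hTdef] at hj
        linarith
      have h8 := abs_le.1 (hcmp _ (hv.shift S))
      linarith [h8.1]
    have hdown : ∀ S : ℝ, 0 ≤ S → c - e ≤ LamC ρ k χ (shift S v) := by
      intro S hS
      have h9 := hmono hS
      simp only [shift_zero'] at h9
      linarith [hvc'.2]
    -- the functional with weight one converges
    have hmono1 := blockA_mono hh KB_one (fun _ => zero_le_one) hχ hv
    obtain ⟨M₁, hM₁⟩ := blockG_small hh hχ
    have hbd : BddAbove (range fun S => LamC ρ (fun _ => 1) χ (shift S v)) := by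
      refine ⟨M₁ * Real.sqrt (∫ s in (0 : ℝ)..M₁, (1 : ℝ)), ?_⟩
      rintro _ ⟨S, rfl⟩
      exact (le_abs_self _).trans (hM₁ 1 _ KB_one (fun _ => ⟨zero_le_one, le_rfl⟩) _ (hv.shift S))
    have hlim1 := tendsto_atTop_ciSup hmono1 hbd
    set L := ⨆ S, LamC ρ (fun _ => 1) χ (shift S v) with hL
    obtain ⟨ψ, hψ, w, hw, hpt⟩ := gi.compact (fun n : ℕ => shift (n : ℝ) v) (fun n => hv.shift _)
    have hψt : Tendsto (fun n => ((ψ n : ℕ) : ℝ)) atTop atTop :=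
      tendsto_natCast_atTop_atTop.comp hψ.tendsto_atTop
    have hptX : ∀ Y : ℝ, ∀ z, Tendsto (fun j => shift ((ψ j : ℝ) + Y) v z) atTop (𝓝 (shift Y w z)) := by
      intro Y z
      have := hpt (z.1 + Y, z.2)
      refine this.congr fun j => ?_
      simp only [shift]
      congr 2
      ring
    have hone : ∀ Y : ℝ, LamC ρ (fun _ => 1) χ (shift Y w) = L := by
      intro Y
      have h10 := gi.contC KB_one hχ (fun j => shift ((ψ j : ℝ) + Y) v) (shift Y w)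
        (fun j => hv.shift _) (hw.shift Y) (hptX Y)
      have h11 : Tendsto (fun j => LamC ρ (fun _ => 1) χ (shift ((ψ j : ℝ) + Y) v)) atTop (𝓝 L) :=
        hlim1.comp (tendsto_atTop_add_const_right _ _ hψt)
      exact tendsto_nhds_unique h10 h11
    have hχne : ∃ x, χ x ≠ 0 := by
      by_contra hcon
      push Not at hcon
      simp [hcon] at hχ1
    have hrig := blockA_rigid hh hχ hχne hw (fun Y => by
      rw [hone Y]
      have := hone 0
      rw [shift_zero'] at this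
      exact this.symm)
    set g : ℝ → ℝ := fun t => w (0, t) with hg
    have hwg : w = fun z => g z.2 := by
      funext ⟨x, t⟩
      exact hrig x t
    have hgin : InC ρ C h (fun z => g z.2) := by rw [← hwg]; exact hw
    refine ⟨g, hgin, ?_⟩
    have h12 := gi.hom hk hχ hgin
    rw [← hwg, hχ1, one_mul] at h12
    have h13 := gi.contC hk hχ (fun j => shift ((ψ j : ℝ)) v) w (fun j => hv.shift _) hw hpt
    rw [← h12, abs_le]
    constructor
    · have : c - e ≤ LamC ρ k χ w :=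
        ge_of_tendsto h13 (Eventually.of_forall fun j => hdown _ (Nat.cast_nonneg _))
      linarith
    · have : LamC ρ k χ w ≤ c + e :=
        le_of_tendsto h13 (Eventually.of_forall fun j => hup _ (Nat.cast_nonneg _))
      linarith

lemma chord {a b : ℝ} (h : |a - b| ≤ 1) :
    |a - b| / 2 ≤ ‖Complex.exp (Complex.I * (a : ℂ)) - Complex.exp (Complex.I * (b : ℂ))‖ := by
  have e1 : Complex.exp (Complex.I * (a : ℂ)) - Complex.exp (Complex.I * (b : ℂ)) =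
      Complex.exp (Complex.I * (b : ℂ)) * (Complex.exp (Complex.I * ((a - b : ℝ) : ℂ)) - 1) := by
    rw [mul_sub, ← Complex.exp_add]
    congr 2
    · push_cast; ring
    · ring
  have e2 : ‖Complex.exp (Complex.I * (b : ℂ))‖ = 1 := by
    rw [mul_comm]; exact Complex.norm_exp_ofReal_mul_I b
  rw [e1, norm_mul, e2, one_mul, Complex.norm_exp_I_mul_ofReal_sub_one]
  rw [norm_mul, Real.norm_eq_abs, Real.norm_eq_abs, abs_of_pos (by norm_num : (0 : ℝ) < 2)]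
  have h1 : |Real.sin ((a - b) / 2)| = Real.sin (|a - b| / 2) := by
    have h2 := Real.pi_gt_three
    rcases le_total 0 (a - b) with h3 | h3
    · rw [abs_of_nonneg h3] at h ⊢
      exact abs_of_nonneg (Real.sin_nonneg_of_nonneg_of_le_pi (by linarith) (by linarith))
    · rw [abs_of_nonpos h3] at h ⊢
      rw [neg_div, Real.sin_neg]
      exact abs_of_nonpos (Real.sin_nonpos_of_nonpos_of_neg_pi_le (by linarith) (by linarith))
  rw [h1]
  have h4 : 2 / Real.pi * (|a - b| / 2) ≤ Real.sin (|a - b| / 2) :=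
    Real.mul_le_sin (by positivity) (by have := Real.pi_gt_three; linarith)
  have h5 : (1 : ℝ) / 2 ≤ 2 / Real.pi := by
    rw [div_le_div_iff₀ (by norm_num) Real.pi_pos]
    have := Real.pi_le_four
    linarith
  have h6 : (1 : ℝ) / 2 * (|a - b| / 2) ≤ 2 / Real.pi * (|a - b| / 2) :=
    mul_le_mul_of_nonneg_right h5 (by positivity)
  linarith

/-- **(G2)** -/
theorem osc_tendsto (hh : IndH ρ C h) (hT : Traj ρ C h vh) (gi : GI ρ C h vh) {χ : ℝ → ℝ}
    (hχ : IsCut χ) (hχ1 : ∫ x, χ x = 1) :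
    ∀ᵐ t₀ : ℝ, 0 < t₀ → ∀ v₁ v₂ : ℝ × ℝ → ℝ, InU ρ C h vh v₁ → InU ρ C h vh v₂ →
      Tendsto (fun n : ℕ => LamC ρ (kth (1 / ((n : ℝ) + 1)) t₀) χ v₁ -
        LamC ρ (kth (1 / ((n : ℝ) + 1)) t₀) χ v₂) atTop (𝓝 0) := by
  filter_upwards [blockE hh] with t₀ hE ht₀
  obtain ⟨S, hS⟩ := hE ht₀
  have hδ : ∀ n : ℕ, 0 < 1 / ((n : ℝ) + 1) := fun n => by positivity
  have aux : ∀ v₁ v₂ : ℝ × ℝ → ℝ, InU ρ C h vh v₁ → InU ρ C h vh v₂ → ∀ η : ℝ, 0 < η → η ≤ 1 →
      ∀ᶠ n : ℕ in atTop, LamC ρ (kth (1 / ((n : ℝ) + 1)) t₀) χ v₂ -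
        LamC ρ (kth (1 / ((n : ℝ) + 1)) t₀) χ v₁ ≤ η := by
    intro v₁ v₂ h1 h2 η hη hη1
    set N := S.card with hN
    set w : ℝ := η / (N + 2) with hw
    have hw0 : 0 < w := by positivity
    have hwN : w * (N + 2) = η := by rw [hw]; field_simp
    obtain ⟨δ₀, hδ₀, hS'⟩ := hS (w / 8) (by positivity)
    have h0 : Tendsto (fun n : ℕ => 1 / ((n : ℝ) + 1)) atTop (𝓝 0) := tendsto_one_div_add_atTop_nhds_zero_nat
    filter_upwards [h0.eventually (gt_mem_nhds hδ₀)] with n hn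
    by_contra hcon
    push Not at hcon
    set k := kth (1 / ((n : ℝ) + 1)) t₀ with hk
    obtain ⟨κ, _, hκ⟩ := kth_KB (hδ n)
    have hk0 : ∀ s, 0 ≤ k s := fun s => by
      rw [hk]; unfold kth
      exact mul_nonneg (by norm_num) (etaS_nonneg (hδ n) _)
    set a := LamC ρ k χ v₁ with ha
    set b := LamC ρ k χ v₂ with hb
    have hi : ∀ i : Fin (N + 1), ((i : ℕ) : ℝ) ≤ N := fun i => by
      have := i.2
      exact_mod_cast Nat.lt_succ_iff.1 this
    have hlev : ∀ i : Fin (N + 1), ∃ g : ℝ → ℝ, InC ρ C h (fun z => g z.2) ∧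
        |lamH ρ k g - (a + w * ((i : ℕ) + 1))| ≤ w / 8 := by
      intro i
      refine level hh hT gi (hκ t₀) hk0 hχ hχ1 h1 h2 (by positivity) ?_ ?_
      · have : (0 : ℝ) ≤ ((i : ℕ) : ℝ) := Nat.cast_nonneg _
        have h3 : w * 1 ≤ w * (((i : ℕ) : ℝ) + 1) := mul_le_mul_of_nonneg_left (by linarith) hw0.le
        change a < _
        linarith
      · have h3 : w * (((i : ℕ) : ℝ) + 1) ≤ w * (N + 1) := mul_le_mul_of_nonneg_left (by linarith [hi i]) hw0.le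
        change _ < b
        nlinarith
    choose g hg1 hg2 using hlev
    have hs : ∀ i : Fin (N + 1), ∃ s ∈ S, ‖Complex.exp (Complex.I * (lamH ρ k (g i) : ℂ)) - s‖ ≤ w / 8 := fun i =>
      hS' _ (hδ n) hn (g i) (hg1 i)
    choose s hsS hs' using hs
    obtain ⟨i, _, j, _, hij, hsij⟩ := Finset.exists_ne_map_eq_of_card_lt_of_maps_to
      (s := (Finset.univ : Finset (Fin (N + 1)))) (t := S) (f := s) (by simp [hN]) (fun i _ => hsS i)
    set p := lamH ρ k (g i) with hp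
    set q := lamH ρ k (g j) with hq
    have hpi := abs_le.1 (hg2 i)
    have hqj := abs_le.1 (hg2 j)
    have hd1 : ‖Complex.exp (Complex.I * (p : ℂ)) - Complex.exp (Complex.I * (q : ℂ))‖ ≤ w / 4 := by
      have e1 : Complex.exp (Complex.I * (p : ℂ)) - Complex.exp (Complex.I * (q : ℂ)) =
          (Complex.exp (Complex.I * (p : ℂ)) - s i) - (Complex.exp (Complex.I * (q : ℂ)) - s j) := by
        rw [hsij]; ring
      rw [e1]
      refine (norm_sub_le _ _).trans ?_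
      have := hs' i
      have := hs' j
      linarith
    have hij' : (i : ℕ) ≠ (j : ℕ) := fun h => hij (Fin.ext h)
    have hdiff : |((i : ℕ) : ℝ) - ((j : ℕ) : ℝ)| ≤ N ∧ 1 ≤ |((i : ℕ) : ℝ) - ((j : ℕ) : ℝ)| := by
      have h3 := hi i
      have h4 := hi j
      have h5 : (0 : ℝ) ≤ ((i : ℕ) : ℝ) := Nat.cast_nonneg _
      have h6 : (0 : ℝ) ≤ ((j : ℕ) : ℝ) := Nat.cast_nonneg _
      refine ⟨abs_le.2 ⟨by linarith, by linarith⟩, ?_⟩
      have h7 : (1 : ℤ) ≤ |((i : ℕ) : ℤ) - ((j : ℕ) : ℤ)| := by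
        apply Int.one_le_abs
        omega
      have h8 : ((1 : ℤ) : ℝ) ≤ ((|((i : ℕ) : ℤ) - ((j : ℕ) : ℤ)| : ℤ) : ℝ) := by exact_mod_cast h7
      push_cast at h8
      exact h8
    have hpq : |(p - q) - w * (((i : ℕ) : ℝ) - ((j : ℕ) : ℝ))| ≤ w / 4 := by
      rw [abs_le]
      constructor
      · linarith [hpi.1, hqj.2]
      · linarith [hpi.2, hqj.1]
    have habs : |w * (((i : ℕ) : ℝ) - ((j : ℕ) : ℝ))| = w * |((i : ℕ) : ℝ) - ((j : ℕ) : ℝ)| := by
      rw [abs_mul, abs_of_pos hw0]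
    have hpq1 : |p - q| ≤ 1 := by
      have e1 : p - q = ((p - q) - w * (((i : ℕ) : ℝ) - ((j : ℕ) : ℝ))) + w * (((i : ℕ) : ℝ) - ((j : ℕ) : ℝ)) := by
        ring
      rw [e1]
      refine (abs_add_le _ _).trans ?_
      rw [habs]
      have h3 : w * |((i : ℕ) : ℝ) - ((j : ℕ) : ℝ)| ≤ w * N := mul_le_mul_of_nonneg_left hdiff.1 hw0.le
      nlinarith
    have hpq2 : 3 * w / 4 ≤ |p - q| := by
      have e1 : w * (((i : ℕ) : ℝ) - ((j : ℕ) : ℝ)) = (p - q) - ((p - q) - w * (((i : ℕ) : ℝ) - ((j : ℕ) : ℝ))) := by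
        ring
      have h3 : w * |((i : ℕ) : ℝ) - ((j : ℕ) : ℝ)| ≤ |p - q| + w / 4 := by
        rw [← habs, e1]
        refine (abs_sub _ _).trans ?_
        linarith
      have h4 : w * 1 ≤ w * |((i : ℕ) : ℝ) - ((j : ℕ) : ℝ)| := mul_le_mul_of_nonneg_left hdiff.2 hw0.le
      linarith
    have := chord hpq1
    linarith
  intro v₁ v₂ h1 h2
  rw [Metric.tendsto_nhds]
  intro e he
  have a1 := aux v₁ v₂ h1 h2 (min (e / 2) 1) (by positivity) (min_le_right _ _)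
  have a2 := aux v₂ v₁ h2 h1 (min (e / 2) 1) (by positivity) (min_le_right _ _)
  filter_upwards [a1, a2] with n hn1 hn2
  rw [dist_zero_right, Real.norm_eq_abs, abs_lt]
  have := min_le_left (e / 2) (1 : ℝ)
  constructor <;> linarith

/-- **BLOCK G** (from the interface lemmas). -/
theorem blockG_of (hh : IndH ρ C h) (hT : Traj ρ C h vh) (gi : GI ρ C h vh)
    {X : ℕ → ℝ} (hX : Tendsto X atTop atTop) {v : ℝ × ℝ → ℝ} (hv : InC ρ C h v)
    (hc : ConvD (fun j => shift (X j) vh) v) : ∀ x t, v (x, t) = v (0, t) := by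
  have hU : InU ρ C h vh v := ⟨hv, X, hX, hc⟩
  have hχ : IsCut eta := ⟨eta_smooth, eta_cpt, eta_nonneg⟩
  have hχ1 : ∫ x, eta x = 1 := eta_int
  have hχne : ∃ x, eta x ≠ 0 := by
    by_contra hcon
    push Not at hcon
    simp [hcon] at hχ1
  refine blockA_rigid hh hχ hχne hv fun Y => ?_
  refine G3 hh hχ (hv.shift Y) hv ?_
  filter_upwards [osc_tendsto hh hT gi hχ hχ1] with t₀ h1 h2
  exact h1 h2 _ _ (hU.sh hT Y) hU

end

end Pool.Agent.Helper31.LS
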