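import Pool.Agent.Helper42.Fr.Small
import Pool.Agent.Helper42.Fr.Mono

set_option autoImplicit false

open MeasureTheory Filter Topology Set

namespace Pool.Agent.Helper31.LS

open Pool.Agent.Helper42.Fr

/-- Egorov: a sequence tending to zero a.e. with uniformly absolutely continuous integrals has
integrals tending to zero. -/
lemma egorov_int {S : Set ℝ} (hS : MeasurableSet S) (hSf : volume S ≠ ⊤) {D : ℕ → ℝ → ℝ}
    (hc : ∀ n, Continuous (D n)) (hae : ∀ᵐ t, t ∈ S → Tendsto (fun n => D n t) atTop (𝓝 0))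
    (hint : ∀ n, IntegrableOn (D n) S) {M : ℝ} (hM : 0 ≤ M)
    (hZ : ∀ n, ∀ Z : Set ℝ, MeasurableSet Z → Z ⊆ S → |∫ t in Z, D n t| ≤ M * Real.sqrt (volume.real Z)) :
    Tendsto (fun n => ∫ t in S, D n t) atTop (𝓝 0) := by
  haveI : IsFiniteMeasure (volume.restrict S) := ⟨by
    rw [Measure.restrict_apply_univ]; exact lt_top_iff_ne_top.2 hSf⟩
  rw [Metric.tendsto_atTop]
  intro ε hε
  -- small exceptional set
  obtain ⟨η, hη0, hη⟩ : ∃ η : ℝ, 0 < η ∧ M * Real.sqrt η < ε / 2 := by
    have : Tendsto (fun δ : ℝ => M * Real.sqrt δ) (𝓝[>] 0) (𝓝 (M * Real.sqrt 0)) := by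
      refine Tendsto.mono_left ?_ nhdsWithin_le_nhds
      exact (by fun_prop : Continuous fun δ : ℝ => M * Real.sqrt δ).tendsto 0
    simp only [Real.sqrt_zero, mul_zero] at this
    obtain ⟨δ, hδ1, hδ2⟩ := ((this.eventually (gt_mem_nhds (show (0 : ℝ) < ε / 2 by positivity))).and
      self_mem_nhdsWithin).exists
    exact ⟨δ, hδ2, hδ1⟩
  have hae' : ∀ᵐ t ∂(volume.restrict S), Tendsto (fun n => D n t) atTop (𝓝 ((fun _ => (0 : ℝ)) t)) := by
    rw [ae_restrict_iff' hS]
    exact hae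
  obtain ⟨t, htm, htμ, htu⟩ := tendstoUniformlyOn_of_ae_tendsto' (μ := volume.restrict S)
    (fun n => (hc n).stronglyMeasurable) stronglyMeasurable_const hae' hη0
  rw [Metric.tendstoUniformlyOn_iff] at htu
  set A := volume.real S with hA
  have hA0 : 0 ≤ A := measureReal_nonneg
  have h2 := htu (ε / (2 * (A + 1))) (by positivity)
  obtain ⟨N, hN⟩ := eventually_atTop.1 h2
  refine ⟨N, fun n hn => ?_⟩
  have hsplit : ∫ s in S, D n s = (∫ s in S ∩ t, D n s) + ∫ s in S \ t, D n s :=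
    (integral_inter_add_diff htm (hint n)).symm
  have b1 : |∫ s in S ∩ t, D n s| < ε / 2 := by
    refine (hZ n (S ∩ t) (hS.inter htm) inter_subset_left).trans_lt (lt_of_le_of_lt ?_ hη)
    refine mul_le_mul_of_nonneg_left (Real.sqrt_le_sqrt ?_) hM
    have h3 : volume (S ∩ t) ≤ ENNReal.ofReal η := by
      rw [Measure.restrict_apply htm, inter_comm] at htμ
      exact htμ
    have := ENNReal.toReal_mono ENNReal.ofReal_ne_top h3
    rw [ENNReal.toReal_ofReal hη0.le] at this
    exact this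
  have b2 : |∫ s in S \ t, D n s| ≤ ε / (2 * (A + 1)) * A := by
    have h4 : ∀ s ∈ S \ t, ‖D n s‖ ≤ ε / (2 * (A + 1)) := by
      intro s hs
      have := hN n hn s hs.2
      rw [dist_comm, dist_zero_right] at this
      exact this.le
    have hfin : volume (S \ t) < ⊤ := lt_of_le_of_lt (measure_mono diff_subset) (lt_top_iff_ne_top.2 hSf)
    have := norm_setIntegral_le_of_norm_le_const hfin h4
    rw [Real.norm_eq_abs] at this
    refine this.trans ?_
    refine mul_le_mul_of_nonneg_left ?_ (by positivity)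
    exact measureReal_mono diff_subset hSf
  have b3 : ε / (2 * (A + 1)) * A < ε / 2 := by
    rw [div_mul_eq_mul_div, div_lt_div_iff₀ (by positivity) (by norm_num)]
    nlinarith
  rw [dist_zero_right, Real.norm_eq_abs, hsplit]
  refine (abs_add_le _ _).trans_lt ?_
  linarith

/-! ### averaged weights -/

/-- the average of the thin bumps over `Z` (half of it). -/
noncomputable def kZ (δ : ℝ) (Z : Set ℝ) (s : ℝ) : ℝ := ∫ t in Z, etaS δ (s - t)

lemma etaS_le {δ : ℝ} (hδ : 0 < δ) : ∃ K : ℝ, 0 ≤ K ∧ (∀ x, |etaS δ x| ≤ K) ∧ ∀ x, |deriv (etaS δ) x| ≤ K := by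
  have h1 := etaS_cpt hδ
  have h2 := (etaS_smooth δ).continuous
  have h3 := (etaS_smooth δ).continuous_deriv (by simp)
  obtain ⟨A, hA⟩ := h2.bounded_above_of_compact_support h1
  obtain ⟨B, hB⟩ := h3.bounded_above_of_compact_support h1.deriv
  refine ⟨max A B, ((norm_nonneg _).trans (hA 0)).trans (le_max_left _ _), fun x => ?_, fun x => ?_⟩
  · have := hA x
    rw [Real.norm_eq_abs] at this
    exact this.trans (le_max_left _ _)
  · have := hB x
    rw [Real.norm_eq_abs] at this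
    exact this.trans (le_max_right _ _)

lemma kth_KB {δ : ℝ} (hδ : 0 < δ) : ∃ κ : ℝ, 0 ≤ κ ∧ ∀ t₀, KB κ (kth δ t₀) := by
  obtain ⟨K, hK0, hK, hK'⟩ := etaS_le hδ
  refine ⟨2 * K, by positivity, fun t₀ => ⟨?_, ?_, ?_⟩⟩
  · unfold kth
    exact contDiff_const.mul ((etaS_smooth δ).comp (contDiff_id.sub contDiff_const))
  · intro s
    unfold kth
    rw [abs_mul, abs_of_pos (by norm_num : (0 : ℝ) < 2)]
    exact mul_le_mul_of_nonneg_left (hK _) (by norm_num)
  · intro s
    have h1 : HasDerivAt (fun s => kth δ t₀ s) (2 * deriv (etaS δ) (s - t₀)) s := by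
      unfold kth
      have h2 := ((etaS_smooth δ).differentiable (by simp) (s - t₀)).hasDerivAt
      have h3 := h2.comp s ((hasDerivAt_id s).sub_const t₀)
      rw [mul_one] at h3
      exact h3.const_mul 2
    have : deriv (kth δ t₀) s = 2 * deriv (etaS δ) (s - t₀) := h1.deriv
    rw [this, abs_mul, abs_of_pos (by norm_num : (0 : ℝ) < 2)]
    exact mul_le_mul_of_nonneg_left (hK' _) (by norm_num)

section
variable {δ : ℝ} {Z : Set ℝ}

lemma kZ_conv (hZ : MeasurableSet Z) :
    kZ δ Z = MeasureTheory.convolution (Z.indicator fun _ => (1 : ℝ)) (etaS δ) (ContinuousLinearMap.mul ℝ ℝ) volume := by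
  funext s
  unfold kZ MeasureTheory.convolution
  rw [← integral_indicator hZ]
  congr 1
  funext t
  by_cases ht : t ∈ Z
  · simp [ht]
  · simp [ht]

lemma ind_locInt (hZ : MeasurableSet Z) : LocallyIntegrable (Z.indicator fun _ => (1 : ℝ)) volume := by
  exact (locallyIntegrable_const (1 : ℝ)).indicator hZ

lemma kZ_smooth (hδ : 0 < δ) (hZ : MeasurableSet Z) : ContDiff ℝ (⊤ : ℕ∞) (kZ δ Z) := by
  rw [kZ_conv hZ]
  exact (etaS_cpt hδ).contDiff_convolution_right _ (ind_locInt hZ) (etaS_smooth δ)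

lemma etaS_integrable (hδ : 0 < δ) : Integrable (etaS δ) :=
  (etaS_smooth δ).continuous.integrable_of_hasCompactSupport (etaS_cpt hδ)

lemma etaS_refl_integrable (hδ : 0 < δ) (s : ℝ) : Integrable (fun t => etaS δ (s - t)) :=
  (etaS_integrable hδ).comp_sub_left s

lemma kZ_nonneg (hδ : 0 < δ) (s : ℝ) : 0 ≤ kZ δ Z s :=
  integral_nonneg fun _ => etaS_nonneg hδ _

lemma kZ_le_one (hδ : 0 < δ) (s : ℝ) : kZ δ Z s ≤ 1 := by
  unfold kZ
  have h1 : ∫ t in Z, etaS δ (s - t) ≤ ∫ t, etaS δ (s - t) :=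
    setIntegral_le_integral (etaS_refl_integrable hδ s) (Eventually.of_forall fun t => etaS_nonneg hδ _)
  have h2 : ∫ t, etaS δ (s - t) = 1 := by
    rw [integral_sub_left_eq_self (fun t => etaS δ t) volume s]
    exact etaS_int hδ
  linarith

lemma kZ_deriv (hδ : 0 < δ) (hZ : MeasurableSet Z) : ∃ K : ℝ, 0 ≤ K ∧ ∀ s, |deriv (kZ δ Z) s| ≤ K := by
  refine ⟨∫ t, |deriv (etaS δ) t|, integral_nonneg fun _ => abs_nonneg _, fun s => ?_⟩
  have hd : HasDerivAt (kZ δ Z) (MeasureTheory.convolution (Z.indicator fun _ => (1 : ℝ)) (deriv (etaS δ))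
      (ContinuousLinearMap.mul ℝ ℝ) volume s) s := by
    rw [kZ_conv hZ]
    exact (etaS_cpt hδ).hasDerivAt_convolution_right _ (ind_locInt hZ)
      ((etaS_smooth δ).of_le (by exact_mod_cast le_top)) s
  rw [hd.deriv]
  unfold MeasureTheory.convolution
  have hI : Integrable (fun t => |deriv (etaS δ) (s - t)|) := by
    have : Integrable (deriv (etaS δ)) :=
      ((etaS_smooth δ).continuous_deriv (by simp)).integrable_of_hasCompactSupport (etaS_cpt hδ).deriv
    exact (this.comp_sub_left s).abs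
  have h1 : |∫ t, (ContinuousLinearMap.mul ℝ ℝ) (Z.indicator (fun _ => (1 : ℝ)) t) (deriv (etaS δ) (s - t))| ≤
      ∫ t, |deriv (etaS δ) (s - t)| := by
    have := norm_integral_le_of_norm_le (μ := volume) hI
      (f := fun t => (ContinuousLinearMap.mul ℝ ℝ) (Z.indicator (fun _ => (1 : ℝ)) t) (deriv (etaS δ) (s - t)))
      (Eventually.of_forall fun t => by
        by_cases ht : t ∈ Z
        · simp [ht]
        · simp [ht])
    rwa [Real.norm_eq_abs] at this
  refine h1.trans (le_of_eq ?_)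
  exact integral_sub_left_eq_self (fun t => |deriv (etaS δ) t|) volume s

lemma kZ_KB (hδ : 0 < δ) (hZ : MeasurableSet Z) : ∃ κ : ℝ, KB κ (kZ δ Z) := by
  obtain ⟨K, hK0, hK⟩ := kZ_deriv hδ hZ
  refine ⟨max 1 K, ⟨kZ_smooth hδ hZ, fun s => ?_, fun s => (hK s).trans (le_max_right _ _)⟩⟩
  rw [abs_of_nonneg (kZ_nonneg hδ s)]
  exact (kZ_le_one hδ s).trans (le_max_left _ _)

lemma kZ_int (hδ : 0 < δ) (hZ : MeasurableSet Z) (hZf : volume Z ≠ ⊤) (M : ℝ) :
    ∫ s in (0 : ℝ)..M, kZ δ Z s ≤ volume.real Z := by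
  by_cases hM : 0 ≤ M
  · have hi : Integrable (Z.indicator fun _ => (1 : ℝ)) := by
      rw [integrable_indicator_iff hZ]
      exact integrableOn_const hZf
    have h1 : Integrable (kZ δ Z) := by
      rw [kZ_conv hZ]
      exact hi.integrable_convolution _ (etaS_integrable hδ)
    have h2 : ∫ s, kZ δ Z s = volume.real Z := by
      rw [kZ_conv hZ, integral_convolution _ hi (etaS_integrable hδ), integral_indicator hZ, etaS_int hδ]
      simp
    rw [intervalIntegral.integral_of_le hM, ← h2]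
    exact setIntegral_le_integral h1 (Eventually.of_forall fun s => kZ_nonneg hδ s)
  · rw [intervalIntegral.integral_symm]
    have : 0 ≤ ∫ s in M..(0 : ℝ), kZ δ Z s :=
      intervalIntegral.integral_nonneg (not_le.1 hM).le fun s _ => kZ_nonneg hδ s
    have h3 : 0 ≤ volume.real Z := measureReal_nonneg
    linarith

lemma kZ_one (hδ : 0 < δ) {a b s : ℝ} (h1 : a ≤ s - δ) (h2 : s + δ ≤ b) : kZ δ (Icc a b) s = 1 := by
  unfold kZ
  have h3 : ∫ t in Icc a b, etaS δ (s - t) = ∫ t, etaS δ (s - t) := by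
    refine setIntegral_eq_integral_of_forall_compl_eq_zero fun t ht => etaS_zero hδ ?_
    by_contra hcon
    have := abs_le.1 (not_lt.1 hcon)
    exact ht ⟨by linarith [this.2], by linarith [this.1]⟩
  rw [h3, integral_sub_left_eq_self (fun t => etaS δ t) volume s]
  exact etaS_int hδ

end

end Pool.Agent.Helper31.LS
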