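import Pool.Agent.Helper31.LS.G3a

set_option autoImplicit false

open MeasureTheory Filter Topology Set

namespace Pool.Agent.Helper31.LS

open Pool.Agent.Helper42.Fr

section
variable {ρ δ a b : ℝ} {Z : Set ℝ}

lemma kth_cont2 (δ : ℝ) : Continuous (fun y : ℝ × ℝ => kth δ y.1 y.2) := by
  unfold kth
  have := (etaS_smooth δ).continuous
  fun_prop

/-- Fubini for a jointly continuous integrand, interval × bounded set. -/
lemma fub1 {F : ℝ → ℝ → ℝ} (hF : Continuous (Function.uncurry F)) (hZm : MeasurableSet Z) (hZ : Z ⊆ Icc a b) (s : ℝ) :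
    ∫ σ in (0 : ℝ)..s, ∫ t in Z, F σ t = ∫ t in Z, ∫ σ in (0 : ℝ)..s, F σ t := by
  have key : ∀ u v : ℝ, ∫ σ in Ioc u v, ∫ t in Z, F σ t = ∫ t in Z, ∫ σ in Ioc u v, F σ t := by
    intro u v
    refine integral_integral_swap ?_
    rw [Measure.prod_restrict]
    have h1 : IntegrableOn (Function.uncurry F) (Icc u v ×ˢ Icc a b) (volume.prod volume) := by
      rw [← Measure.volume_eq_prod]
      exact hF.continuousOn.integrableOn_compact (isCompact_Icc.prod isCompact_Icc)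
    exact h1.mono_set (prod_mono Ioc_subset_Icc_self hZ)
  simp only [intervalIntegral]
  rw [key, key]
  rw [← integral_sub]
  · -- integrability of the first
    have : IntegrableOn (fun t => ∫ σ in Ioc 0 s, F σ t) (Icc a b) := by
      refine ContinuousOn.integrableOn_compact isCompact_Icc ?_
      have h2 : Continuous (fun t => ∫ σ in Icc 0 s, F σ t) := by
        refine continuous_parametric_integral_of_continuous (μ := volume) (f := fun t σ => F σ t) ?_ isCompact_Icc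
        exact hF.comp continuous_swap
      refine h2.continuousOn.congr fun t _ => ?_
      exact integral_Icc_eq_integral_Ioc.symm
    exact this.mono_set hZ
  · have : IntegrableOn (fun t => ∫ σ in Ioc s 0, F σ t) (Icc a b) := by
      refine ContinuousOn.integrableOn_compact isCompact_Icc ?_
      have h2 : Continuous (fun t => ∫ σ in Icc s 0, F σ t) := by
        refine continuous_parametric_integral_of_continuous (μ := volume) (f := fun t σ => F σ t) ?_ isCompact_Icc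
        exact hF.comp continuous_swap
      refine h2.continuousOn.congr fun t _ => ?_
      exact integral_Icc_eq_integral_Ioc.symm
    exact this.mono_set hZ

lemma kZ_eq (δ : ℝ) (Z : Set ℝ) (s : ℝ) : kZ δ Z s = (1 / 2) * ∫ t in Z, kth δ t s := by
  unfold kZ kth
  rw [integral_const_mul]
  ring

lemma KK_avg (hZm : MeasurableSet Z) (hZ : Z ⊆ Icc a b) (s : ℝ) :
    KK (kZ δ Z) s = (1 / 2) * ∫ t in Z, KK (kth δ t) s := by
  unfold KK
  rw [← fub1 (F := fun σ t => kth δ t σ) ((kth_cont2 δ).comp continuous_swap) hZm hZ s,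
    ← intervalIntegral.integral_const_mul]
  refine intervalIntegral.integral_congr fun σ _ => ?_
  exact kZ_eq δ Z σ

lemma Theta_avg (hZm : MeasurableSet Z) (hZ : Z ⊆ Icc a b) (p q : ℝ) :
    Theta ρ (kZ δ Z) p q = (1 / 2) * ∫ t in Z, Theta ρ (kth δ t) p q := by
  unfold Theta
  rw [integral_const_mul,
    ← fub1 (F := fun σ t => kth δ t ((p ^ 2 + σ ^ 2) / ρ ^ 2)) ?_ hZm hZ q]
  · have : ∫ σ in (0 : ℝ)..q, kZ δ Z ((p ^ 2 + σ ^ 2) / ρ ^ 2) =
        (1 / 2) * ∫ σ in (0 : ℝ)..q, ∫ t in Z, kth δ t ((p ^ 2 + σ ^ 2) / ρ ^ 2) := by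
      rw [← intervalIntegral.integral_const_mul]
      refine intervalIntegral.integral_congr fun σ _ => ?_
      exact kZ_eq δ Z _
    rw [this]
    ring
  · have h1 := kth_cont2 δ
    have h2 : Continuous (fun x : ℝ × ℝ => (x.2, (p ^ 2 + x.1 ^ 2) / ρ ^ 2)) := by fun_prop
    exact h1.comp h2

lemma KK_cont2 (δ : ℝ) : Continuous (fun y : ℝ × ℝ => KK (kth δ y.1) y.2) := by
  unfold KK
  exact intervalIntegral.continuous_parametric_intervalIntegral_of_continuous (μ := volume)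
    (X := ℝ × ℝ) (f := fun y σ => kth δ y.1 σ) (a₀ := 0) (s := fun y => y.2)
    ((kth_cont2 δ).comp (by fun_prop : Continuous fun x : (ℝ × ℝ) × ℝ => (x.1.1, x.2))) continuous_snd

lemma Theta_cont2 (ρ δ : ℝ) : Continuous (fun y : ℝ × (ℝ × ℝ) => Theta ρ (kth δ y.1) y.2.1 y.2.2) := by
  unfold Theta
  refine continuous_const.mul ?_
  exact intervalIntegral.continuous_parametric_intervalIntegral_of_continuous (μ := volume)
    (X := ℝ × (ℝ × ℝ)) (f := fun y τ => kth δ y.1 ((y.2.1 ^ 2 + τ ^ 2) / ρ ^ 2)) (a₀ := 0)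
    (s := fun y => y.2.2)
    ((kth_cont2 δ).comp (by fun_prop : Continuous fun x : (ℝ × (ℝ × ℝ)) × ℝ =>
      (x.1.1, (x.1.2.1 ^ 2 + x.2 ^ 2) / ρ ^ 2))) (by fun_prop)

variable {w : ℝ × ℝ → ℝ}

lemma FF_cont2 (ρ δ : ℝ) (hw : Sm w) : Continuous (fun y : (ℝ × ℝ) × ℝ => FF ρ (kth δ y.2) w y.1) := by
  unfold FF Fden
  have c1 : Continuous (fun z : ℝ × ℝ => ρ * w z + dX w z) := (continuous_const.mul hw.cont).add hw.dX.cont
  have c2 := hw.dT.cont
  have c3 : Continuous (fun z : ℝ × ℝ => ρ * dT w z + dT (dX w) z) :=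
    (continuous_const.mul hw.dT.cont).add hw.dX.dT.cont
  have c4 : Continuous (fun z : ℝ × ℝ => ((ρ * w z + dX w z) ^ 2 + dT w z ^ 2) / ρ ^ 2) :=
    ((c1.pow 2).add (c2.pow 2)).div_const _
  have d1 : Continuous (fun y : (ℝ × ℝ) × ℝ =>
      (y.2, ((ρ * w y.1 + dX w y.1) ^ 2 + dT w y.1 ^ 2) / ρ ^ 2)) :=
    continuous_snd.prodMk (c4.comp continuous_fst)
  have d2 : Continuous (fun y : (ℝ × ℝ) × ℝ => (y.2, (ρ * w y.1 + dX w y.1, dT w y.1))) :=
    continuous_snd.prodMk ((c1.comp continuous_fst).prodMk (c2.comp continuous_fst))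
  have e1 : Continuous (fun y : (ℝ × ℝ) × ℝ =>
      KK (kth δ y.2) (((ρ * w y.1 + dX w y.1) ^ 2 + dT w y.1 ^ 2) / ρ ^ 2)) := (KK_cont2 δ).comp d1
  have e2 : Continuous (fun y : (ℝ × ℝ) × ℝ =>
      Theta ρ (kth δ y.2) (ρ * w y.1 + dX w y.1) (dT w y.1)) := by
    have := (Theta_cont2 ρ δ).comp d2
    simp only [Function.comp_def] at this
    exact this
  have e3 : Continuous (fun y : (ℝ × ℝ) × ℝ => ρ * dT w y.1 + dT (dX w) y.1) := c3.comp continuous_fst
  exact (continuous_const.mul e1).add (e2.mul e3)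

lemma FF_avg (hw : Sm w) (hZm : MeasurableSet Z) (hZ : Z ⊆ Icc a b) (z : ℝ × ℝ) :
    FF ρ (kZ δ Z) w z = (1 / 2) * ∫ t in Z, FF ρ (kth δ t) w z := by
  have i1 : IntegrableOn (fun t => -(ρ / 2) * KK (kth δ t) (((ρ * w z + dX w z) ^ 2 + dT w z ^ 2) / ρ ^ 2)) Z := by
    refine IntegrableOn.mono_set ?_ hZ
    refine ContinuousOn.integrableOn_compact isCompact_Icc (Continuous.continuousOn ?_)
    have d1 : Continuous (fun t : ℝ => (t, ((ρ * w z + dX w z) ^ 2 + dT w z ^ 2) / ρ ^ 2)) :=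
      continuous_id.prodMk continuous_const
    have e1 : Continuous (fun t : ℝ => KK (kth δ t) (((ρ * w z + dX w z) ^ 2 + dT w z ^ 2) / ρ ^ 2)) :=
      (KK_cont2 δ).comp d1
    exact continuous_const.mul e1
  have i2 : IntegrableOn (fun t => Theta ρ (kth δ t) (ρ * w z + dX w z) (dT w z) *
      (ρ * dT w z + dT (dX w) z)) Z := by
    refine IntegrableOn.mono_set ?_ hZ
    refine ContinuousOn.integrableOn_compact isCompact_Icc (Continuous.continuousOn ?_)
    have d1 : Continuous (fun t : ℝ => (t, (ρ * w z + dX w z, dT w z))) :=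
      continuous_id.prodMk continuous_const
    have e1 : Continuous (fun t : ℝ => Theta ρ (kth δ t) (ρ * w z + dX w z) (dT w z)) := by
      have := (Theta_cont2 ρ δ).comp d1
      simp only [Function.comp_def] at this
      exact this
    exact e1.mul continuous_const
  unfold FF Fden
  rw [integral_add i1 i2, integral_const_mul, integral_mul_const, KK_avg hZm hZ, Theta_avg hZm hZ]
  ring

/-- Fubini on the strip. -/
lemma J_avg {G : ℝ × ℝ → ℝ → ℝ} (hG : Continuous (Function.uncurry G)) {R : ℝ}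
    (hR : ∀ z t, R < |z.1| → G z t = 0) (hZm : MeasurableSet Z) (hZ : Z ⊆ Icc a b) :
    J (fun z => ∫ t in Z, G z t) = ∫ t in Z, J (fun z => G z t) := by
  unfold J
  refine integral_integral_swap ?_
  have e : mu2.prod (volume.restrict Z) =
      ((volume : Measure (ℝ × ℝ)).prod (volume : Measure ℝ)).restrict
        ((univ ×ˢ Ioc 0 (2 * Real.pi)) ×ˢ Z) := by
    rw [mu2_eq, Measure.prod_restrict]
  rw [e]
  have h1 : IntegrableOn (Function.uncurry G) ((Icc (-R) R ×ˢ Icc 0 (2 * Real.pi)) ×ˢ Icc a b)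
      ((volume : Measure (ℝ × ℝ)).prod (volume : Measure ℝ)) := by
    rw [← Measure.volume_eq_prod]
    exact hG.continuousOn.integrableOn_compact ((isCompact_Icc.prod isCompact_Icc).prod isCompact_Icc)
  have hm1 : MeasurableSet (((univ : Set ℝ) ×ˢ Ioc 0 (2 * Real.pi)) ×ˢ Z) :=
    (MeasurableSet.univ.prod measurableSet_Ioc).prod hZm
  have hm2 : MeasurableSet ((Icc (-R) R ×ˢ Icc 0 (2 * Real.pi)) ×ˢ Icc a b) :=
    (measurableSet_Icc.prod measurableSet_Icc).prod measurableSet_Icc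
  have h2 : IntegrableOn (Function.uncurry G) ((((univ : Set ℝ) ×ˢ Ioc 0 (2 * Real.pi)) ×ˢ Z) \
      ((Icc (-R) R ×ˢ Icc 0 (2 * Real.pi)) ×ˢ Icc a b)) ((volume : Measure (ℝ × ℝ)).prod (volume : Measure ℝ)) := by
    refine (integrableOn_zero (s := (((univ : Set ℝ) ×ˢ Ioc 0 (2 * Real.pi)) ×ˢ Z) \
      ((Icc (-R) R ×ˢ Icc 0 (2 * Real.pi)) ×ˢ Icc a b))
      (μ := (volume : Measure (ℝ × ℝ)).prod (volume : Measure ℝ)) (ε' := ℝ)).congr_fun (fun y hy => ?_)
      (hm1.diff hm2)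
    have : R < |y.1.1| := by
      by_contra hcon
      exact hy.2 ⟨⟨abs_le.1 (not_lt.1 hcon), Ioc_subset_Icc_self hy.1.1.2⟩, hZ hy.1.2⟩
    simp only [Function.uncurry]
    rw [hR y.1 y.2 this]
  refine (h1.union h2).mono_set (fun y hy => ?_)
  by_cases h : y ∈ (Icc (-R) R ×ˢ Icc 0 (2 * Real.pi)) ×ˢ Icc a b
  · exact Or.inl h
  · exact Or.inr ⟨hy, h⟩

lemma Lam_avg (hδ : 0 < δ) (hw : Sm w) {χ : ℝ → ℝ} (hχ : IsCut χ) (hZm : MeasurableSet Z) (hZ : Z ⊆ Icc a b) :
    Lam ρ (kZ δ Z) χ w = (1 / 2) * ∫ t in Z, Lam ρ (kth δ t) χ w := by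
  obtain ⟨κ, hκ⟩ := kZ_KB hδ hZm
  obtain ⟨κ', _, hκ'⟩ := kth_KB hδ
  rw [Lam_eq ρ hκ hw hχ.smooth.continuous hχ.cpt]
  have e1 : ∀ t, Lam ρ (kth δ t) χ w = J (fun z => χ z.1 * FF ρ (kth δ t) w z) := fun t =>
    Lam_eq ρ (hκ' t) hw hχ.smooth.continuous hχ.cpt
  simp_rw [e1]
  obtain ⟨R, hR⟩ := (XS.of_fst hχ.cpt)
  rw [← J_avg (G := fun z t => χ z.1 * FF ρ (kth δ t) w z) (R := R) ?_ ?_ hZm hZ, ← J_const_mul]
  · congr 1
    funext z
    rw [FF_avg hw hZm hZ z, integral_const_mul]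
    ring
  · have c1 : Continuous (fun y : (ℝ × ℝ) × ℝ => χ y.1.1) :=
      hχ.smooth.continuous.comp (continuous_fst.comp continuous_fst)
    exact c1.mul (FF_cont2 ρ δ hw)
  · intro z t hz
    have := hR z.1 z.2 hz
    simp only at this
    rw [this, zero_mul]

lemma Lam_cont_t (hδ : 0 < δ) (hw : Sm w) {χ : ℝ → ℝ} (hχ : IsCut χ) :
    Continuous (fun t => Lam ρ (kth δ t) χ w) := by
  obtain ⟨κ', _, hκ'⟩ := kth_KB hδ
  have e1 : ∀ t, Lam ρ (kth δ t) χ w = J (fun z => χ z.1 * FF ρ (kth δ t) w z) := fun t =>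
    Lam_eq ρ (hκ' t) hw hχ.smooth.continuous hχ.cpt
  simp_rw [e1]
  obtain ⟨R, hR⟩ := (XS.of_fst hχ.cpt)
  have hc : Continuous (fun y : (ℝ × ℝ) × ℝ => χ y.1.1 * FF ρ (kth δ y.2) w y.1) := by
    have c1 : Continuous (fun y : (ℝ × ℝ) × ℝ => χ y.1.1) :=
      hχ.smooth.continuous.comp (continuous_fst.comp continuous_fst)
    exact c1.mul (FF_cont2 ρ δ hw)
  have e2 : ∀ t, J (fun z => χ z.1 * FF ρ (kth δ t) w z) =
      ∫ z in Icc (-R) R ×ˢ Icc 0 (2 * Real.pi), χ z.1 * FF ρ (kth δ t) w z := by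
    intro t
    unfold J
    rw [mu2_eq]
    have h1 : ∫ z in univ ×ˢ Ioc 0 (2 * Real.pi), χ z.1 * FF ρ (kth δ t) w z =
        ∫ z in univ ×ˢ Icc 0 (2 * Real.pi), χ z.1 * FF ρ (kth δ t) w z := by
      refine setIntegral_congr_set ?_
      rw [Measure.volume_eq_prod]
      exact Measure.set_prod_ae_eq (ae_eq_refl _) Ioc_ae_eq_Icc
    rw [h1]
    refine (setIntegral_eq_of_subset_of_forall_diff_eq_zero (MeasurableSet.univ.prod measurableSet_Icc)
      (prod_mono (subset_univ _) le_rfl) fun z hz => ?_)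
    have : R < |z.1| := by
      by_contra hcon
      exact hz.2 ⟨abs_le.1 (not_lt.1 hcon), hz.1.2⟩
    have := hR z.1 z.2 this
    simp only at this
    rw [this, zero_mul]
  simp_rw [e2]
  exact continuous_parametric_integral_of_continuous (μ := volume)
    (f := fun t (z : ℝ × ℝ) => χ z.1 * FF ρ (kth δ t) w z) (hc.comp continuous_swap) (isCompact_Icc.prod isCompact_Icc)

end

section
variable {ρ C : ℝ} {h : ℝ → ℝ} {v : ℝ × ℝ → ℝ}

lemma LamC_cont_t (hh : IndH ρ C h) (hv : InC ρ C h v) {χ : ℝ → ℝ} (hχ : IsCut χ) {δ : ℝ} (hδ : 0 < δ) :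
    Continuous (fun t => LamC ρ (kth δ t) χ v) := by
  obtain ⟨κ, _, hκ⟩ := kth_KB hδ
  obtain ⟨M, hM⟩ := blockA_mod hh hχ κ
  have hu : TendstoUniformly (fun (ε : ℝ) t => Lam ρ (kth δ t) χ (moll ε v)) (fun t => LamC ρ (kth δ t) χ v)
      (𝓝[>] (0 : ℝ)) := by
    rw [Metric.tendstoUniformly_iff]
    intro e he
    have h1 : Tendsto (fun ε : ℝ => M * Real.sqrt ε) (𝓝[>] 0) (𝓝 (M * Real.sqrt 0)) := by
      refine Tendsto.mono_left ?_ nhdsWithin_le_nhds
      exact (by fun_prop : Continuous fun δ : ℝ => M * Real.sqrt δ).tendsto 0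
    simp only [Real.sqrt_zero, mul_zero] at h1
    filter_upwards [h1.eventually (gt_mem_nhds he), Ioo_mem_nhdsGT one_pos] with ε hε1 hε2 t
    rw [dist_comm, Real.dist_eq]
    exact (hM _ (hκ t) v hv ε hε2.1 hε2.2).trans_lt hε1
  refine hu.continuous (Eventually.frequently ?_)
  filter_upwards [self_mem_nhdsWithin] with ε hε
  exact Lam_cont_t hδ (moll_smooth hε hv.locInt) hχ

lemma LamC_avg (hh : IndH ρ C h) (hv : InC ρ C h v) {χ : ℝ → ℝ} (hχ : IsCut χ) {δ a b : ℝ} (hδ : 0 < δ)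
    {Z : Set ℝ} (hZm : MeasurableSet Z) (hZ : Z ⊆ Icc a b) :
    LamC ρ (kZ δ Z) χ v = (1 / 2) * ∫ t in Z, LamC ρ (kth δ t) χ v := by
  obtain ⟨κ, _, hκ⟩ := kth_KB hδ
  obtain ⟨κ', hκ'⟩ := kZ_KB hδ hZm
  obtain ⟨M, hM⟩ := blockA_mod hh hχ κ
  have h1 := lamC_tendsto hh hχ hκ' hv
  have hZf : volume Z < ⊤ := lt_of_le_of_lt (measure_mono hZ) measure_Icc_lt_top
  have h2 : Tendsto (fun ε => (1 / 2) * ∫ t in Z, Lam ρ (kth δ t) χ (moll ε v)) (𝓝[>] (0 : ℝ))
      (𝓝 ((1 / 2) * ∫ t in Z, LamC ρ (kth δ t) χ v)) := by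
    refine Tendsto.const_mul _ ?_
    rw [tendsto_iff_dist_tendsto_zero]
    have h3 : Tendsto (fun ε : ℝ => M * Real.sqrt ε * volume.real Z) (𝓝[>] 0) (𝓝 0) := by
      have : Tendsto (fun ε : ℝ => M * Real.sqrt ε * volume.real Z) (𝓝[>] 0)
          (𝓝 (M * Real.sqrt 0 * volume.real Z)) := by
        refine Tendsto.mono_left ?_ nhdsWithin_le_nhds
        exact (by fun_prop : Continuous fun δ : ℝ => M * Real.sqrt δ * volume.real Z).tendsto 0
      simpa using this
    refine squeeze_zero' (Eventually.of_forall fun _ => dist_nonneg) ?_ h3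
    filter_upwards [Ioo_mem_nhdsGT (show (0 : ℝ) < 1 from one_pos)] with ε hε
    have i1 : IntegrableOn (fun t => Lam ρ (kth δ t) χ (moll ε v)) Z :=
      ((Lam_cont_t hδ (moll_smooth hε.1 hv.locInt) hχ).continuousOn.integrableOn_compact
        (isCompact_Icc (a := a) (b := b))).mono_set hZ
    have i2 : IntegrableOn (fun t => LamC ρ (kth δ t) χ v) Z :=
      ((LamC_cont_t hh hv hχ hδ).continuousOn.integrableOn_compact
        (isCompact_Icc (a := a) (b := b))).mono_set hZ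
    rw [Real.dist_eq, ← integral_sub i1 i2, ← Real.norm_eq_abs]
    exact norm_setIntegral_le_of_norm_le_const hZf fun t _ => by
      rw [Real.norm_eq_abs]
      exact hM _ (hκ t) v hv ε hε.1 hε.2
  refine tendsto_nhds_unique_of_eventuallyEq h1 h2 ?_
  filter_upwards [self_mem_nhdsWithin] with ε hε
  exact Lam_avg hδ (moll_smooth hε hv.locInt) hχ hZm hZ

/-- the functional only sees the weight on `[0, 2B^2/rho^2]`. -/
lemma LamC_congr (hh : IndH ρ C h) (hv : InC ρ C h v) {χ : ℝ → ℝ} {k k' : ℝ → ℝ}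
    (hkk : ∀ s, 0 ≤ s → s ≤ 2 * ((ρ + 1) * C) ^ 2 / ρ ^ 2 → k s = k' s) :
    LamC ρ k χ v = LamC ρ k' χ v := by
  have hρ := hh.rho_pos
  have key : ∀ ε : ℝ, 0 < ε → Lam ρ k χ (moll ε v) = Lam ρ k' χ (moll ε v) := by
    intro ε hε
    have hB := moll_Bd hh hv hε
    have hFF : ∀ z, FF ρ k (moll ε v) z = FF ρ k' (moll ε v) z := by
      intro z
      have h1 := RR_le hB z
      have h0 := RR_nonneg ρ (moll ε v) z
      unfold RR at h1 h0
      unfold FF Fden
      congr 1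
      · congr 1
        unfold KK
        refine intervalIntegral.integral_congr fun s hs => ?_
        rw [uIcc_of_le h0] at hs
        exact hkk s hs.1 (hs.2.trans h1)
      · congr 1
        unfold Theta
        congr 1
        refine intervalIntegral.integral_congr fun s hs => ?_
        refine hkk _ (by positivity) ?_
        refine le_trans ?_ h1
        refine div_le_div_of_nonneg_right ?_ (sq_nonneg ρ)
        have : s ^ 2 ≤ (dT (moll ε v) z) ^ 2 := by
          rcases le_total 0 (dT (moll ε v) z) with h2 | h2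
          · rw [uIcc_of_le h2] at hs
            exact pow_le_pow_left₀ hs.1 hs.2 2
          · rw [uIcc_of_ge h2] at hs
            nlinarith [hs.1, hs.2]
        linarith
    unfold Lam
    simp_rw [hFF]
  unfold LamC limUnder
  congr 1
  refine Filter.map_congr ?_
  filter_upwards [self_mem_nhdsWithin] with ε hε
  exact key ε hε

/-- **(G3)** if the functionals with thin weights agree asymptotically at almost every level, then the
functional with weight one agrees. -/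
theorem G3 (hh : IndH ρ C h) {χ : ℝ → ℝ} (hχ : IsCut χ) {v₁ v₂ : ℝ × ℝ → ℝ} (hv₁ : InC ρ C h v₁)
    (hv₂ : InC ρ C h v₂)
    (hD : ∀ᵐ t₀ : ℝ, 0 < t₀ → Tendsto (fun n : ℕ => LamC ρ (kth (1 / ((n : ℝ) + 1)) t₀) χ v₁ -
      LamC ρ (kth (1 / ((n : ℝ) + 1)) t₀) χ v₂) atTop (𝓝 0)) :
    LamC ρ (fun _ => 1) χ v₁ = LamC ρ (fun _ => 1) χ v₂ := by
  set T : ℝ := 2 * ((ρ + 1) * C) ^ 2 / ρ ^ 2 with hT
  have hT0 : 0 ≤ T := by positivity
  set S : Set ℝ := Icc (-1) (T + 1) with hS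
  set D : ℕ → ℝ → ℝ := fun n t => LamC ρ (kth (1 / ((n : ℝ) + 1)) t) χ v₁ -
      LamC ρ (kth (1 / ((n : ℝ) + 1)) t) χ v₂ with hDdef
  have hδ : ∀ n : ℕ, 0 < 1 / ((n : ℝ) + 1) := fun n => by positivity
  have hδ1 : ∀ n : ℕ, 1 / ((n : ℝ) + 1) ≤ 1 := fun n => by
    rw [div_le_one (by positivity)]
    have : (0 : ℝ) ≤ n := Nat.cast_nonneg n
    linarith
  have hc : ∀ n, Continuous (D n) := fun n =>
    (LamC_cont_t hh hv₁ hχ (hδ n)).sub (LamC_cont_t hh hv₂ hχ (hδ n))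
  obtain ⟨M, hM⟩ := blockG_small hh hχ
  have hmain : ∀ n, ∀ Z : Set ℝ, MeasurableSet Z → Z ⊆ S → ∫ t in Z, D n t =
      2 * (LamC ρ (kZ (1 / ((n : ℝ) + 1)) Z) χ v₁ - LamC ρ (kZ (1 / ((n : ℝ) + 1)) Z) χ v₂) := by
    intro n Z hZm hZ
    rw [LamC_avg hh hv₁ hχ (hδ n) hZm hZ, LamC_avg hh hv₂ hχ (hδ n) hZm hZ]
    have i1 : IntegrableOn (fun t => LamC ρ (kth (1 / ((n : ℝ) + 1)) t) χ v₁) Z :=
      ((LamC_cont_t hh hv₁ hχ (hδ n)).continuousOn.integrableOn_compact
        (isCompact_Icc (a := -1) (b := T + 1))).mono_set hZ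
    have i2 : IntegrableOn (fun t => LamC ρ (kth (1 / ((n : ℝ) + 1)) t) χ v₂) Z :=
      ((LamC_cont_t hh hv₂ hχ (hδ n)).continuousOn.integrableOn_compact
        (isCompact_Icc (a := -1) (b := T + 1))).mono_set hZ
    rw [hDdef]
    simp only
    rw [integral_sub i1 i2]
    ring
  have hae : ∀ᵐ t, t ∈ S → Tendsto (fun n => D n t) atTop (𝓝 0) := by
    have hne : ∀ᵐ t : ℝ, t ≠ 0 := by
      rw [ae_iff]
      simp
    filter_upwards [hD, hne] with t ht1 ht2 _
    rcases lt_or_gt_of_ne ht2 with ht | ht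
    · -- negative levels do not contribute
      have h0 : Tendsto (fun n : ℕ => 1 / ((n : ℝ) + 1)) atTop (𝓝 0) := tendsto_one_div_add_atTop_nhds_zero_nat
      refine (tendsto_const_nhds (x := (0 : ℝ))).congr' ?_
      filter_upwards [h0.eventually (gt_mem_nhds (show (0 : ℝ) < -t by linarith))] with n hn
      have hz : ∀ v, InC ρ C h v → LamC ρ (kth (1 / ((n : ℝ) + 1)) t) χ v = LamC ρ (fun _ => 0) χ v := by
        intro v hv
        refine LamC_congr hh hv fun s hs _ => ?_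
        unfold kth
        rw [etaS_zero (hδ n), mul_zero]
        rw [abs_of_nonneg (by linarith)]
        linarith
      have hz2 : ∀ v, InC ρ C h v → LamC ρ (fun _ => (0 : ℝ)) χ v = 0 := by
        intro v hv
        have hk0 : KB 0 (fun _ : ℝ => (0 : ℝ)) := ⟨contDiff_const, fun _ => by simp, fun _ => by simp⟩
        have h3 := lamC_tendsto hh hχ hk0 hv
        have h4 : (fun ε => Lam ρ (fun _ => (0 : ℝ)) χ (moll ε v)) = fun _ => 0 := by
          funext ε
          unfold Lam FF Fden KK Theta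
          simp
        rw [h4] at h3
        exact (tendsto_nhds_unique h3 tendsto_const_nhds)
      rw [hDdef]
      simp only
      rw [hz v₁ hv₁, hz v₂ hv₂, hz2 v₁ hv₁, hz2 v₂ hv₂, sub_zero]
    · exact ht1 ht
  have hSf : volume S ≠ ⊤ := measure_Icc_lt_top.ne
  have hlim := egorov_int (S := S) measurableSet_Icc hSf hc hae
    (fun n => (hc n).continuousOn.integrableOn_compact isCompact_Icc) (M := 4 * |M|) (by positivity)
    (fun n Z hZm hZ => by
      rw [hmain n Z hZm hZ]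
      obtain ⟨κ, hκ⟩ := kZ_KB (hδ n) hZm
      have hZf : volume Z ≠ ⊤ := (lt_of_le_of_lt (measure_mono hZ) measure_Icc_lt_top).ne
      have hb : ∀ v, InC ρ C h v → |LamC ρ (kZ (1 / ((n : ℝ) + 1)) Z) χ v| ≤ |M| * Real.sqrt (volume.real Z) := by
        intro v hv
        refine (hM κ _ hκ (fun s => ⟨kZ_nonneg (hδ n) s, kZ_le_one (hδ n) s⟩) v hv).trans ?_
        have h5 : Real.sqrt (∫ s in (0 : ℝ)..M, kZ (1 / ((n : ℝ) + 1)) Z s) ≤ Real.sqrt (volume.real Z) :=
          Real.sqrt_le_sqrt (kZ_int (hδ n) hZm hZf M)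
        exact mul_le_mul (le_abs_self _) h5 (Real.sqrt_nonneg _) (abs_nonneg _)
      have b1 := hb v₁ hv₁
      have b2 := hb v₂ hv₂
      rw [abs_mul, abs_of_pos (by norm_num : (0 : ℝ) < 2)]
      have b3 := abs_sub (LamC ρ (kZ (1 / ((n : ℝ) + 1)) Z) χ v₁) (LamC ρ (kZ (1 / ((n : ℝ) + 1)) Z) χ v₂)
      linarith)
  have hconst : ∀ n, ∫ t in S, D n t = 2 * (LamC ρ (fun _ => 1) χ v₁ - LamC ρ (fun _ => 1) χ v₂) := by
    intro n
    rw [hmain n S measurableSet_Icc le_rfl]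
    have h6 : ∀ v, InC ρ C h v → LamC ρ (kZ (1 / ((n : ℝ) + 1)) S) χ v = LamC ρ (fun _ => 1) χ v := by
      intro v hv
      refine LamC_congr hh hv fun s hs hs' => ?_
      have := hδ1 n
      exact kZ_one (hδ n) (by linarith) (by linarith)
    rw [h6 v₁ hv₁, h6 v₂ hv₂]
  simp_rw [hconst] at hlim
  have := tendsto_nhds_unique hlim tendsto_const_nhds
  linarith

end

end Pool.Agent.Helper31.LS
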