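import Pool.Agent.Helper31.LS.G2

set_option autoImplicit false

open MeasureTheory Filter Topology Set

namespace Pool.Agent.Helper31.LS

open Pool.Agent.Helper42.Fr

section
variable {ρ κ : ℝ} {k χ : ℝ → ℝ}

/-- joint continuity of the density. -/
lemma Fden_cont (hk : KB κ k) : Continuous (fun y : ℝ × ℝ × ℝ => Fden ρ k y.1 y.2.1 y.2.2) := by
  unfold Fden
  have c1 : Continuous (fun y : ℝ × ℝ × ℝ => (y.1 ^ 2 + y.2.1 ^ 2) / ρ ^ 2) := by fun_prop
  have c2 : Continuous (fun y : ℝ × ℝ × ℝ => KK k ((y.1 ^ 2 + y.2.1 ^ 2) / ρ ^ 2)) :=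
    (Pool.Agent.Helper42.Fr.KK_cont hk.smooth.continuous).comp c1
  have c3 : Continuous (fun y : ℝ × ℝ × ℝ => Theta ρ k y.1 y.2.1) := by
    have := (Pool.Agent.Helper42.Fr.Theta_cont (ρ := ρ) hk.smooth.continuous).comp
      (continuous_fst.prodMk (continuous_fst.comp continuous_snd) : Continuous fun y : ℝ × ℝ × ℝ => (y.1, y.2.1))
    simp only [Function.comp_def] at this
    exact this
  exact (continuous_const.mul c2).add (c3.mul (continuous_snd.comp continuous_snd))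

/-- limits of the functional along bounded pointwise convergence of the first order data. -/
theorem Lam_lim (hk : KB κ k) (hχ : IsCut χ) {W : ℕ → ℝ × ℝ → ℝ} {W₀ : ℝ × ℝ → ℝ} (hW : ∀ j, Sm (W j))
    (hW₀ : Sm W₀) (h0 : ∀ z, Tendsto (fun j => W j z) atTop (𝓝 (W₀ z)))
    (hX : ∀ z, Tendsto (fun j => dX (W j) z) atTop (𝓝 (dX W₀ z)))
    (hT : ∀ z, Tendsto (fun j => dT (W j) z) atTop (𝓝 (dT W₀ z)))
    (hTX : ∀ z, Tendsto (fun j => dT (dX (W j)) z) atTop (𝓝 (dT (dX W₀) z)))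
    (hb : ∀ R : ℝ, ∃ K : ℝ, ∀ᶠ j in atTop, ∀ z : ℝ × ℝ, |z.1| ≤ R → z.2 ∈ Ioc (0 : ℝ) (2 * Real.pi) →
      |W j z| ≤ K ∧ |dX (W j) z| ≤ K ∧ |dT (W j) z| ≤ K ∧ |dT (dX (W j)) z| ≤ K) :
    Tendsto (fun j => Lam ρ k χ (W j)) atTop (𝓝 (Lam ρ k χ W₀)) := by
  obtain ⟨R, hR⟩ := XS.of_fst hχ.cpt
  obtain ⟨K, hK⟩ := hb R
  -- bound of the density on a compact set
  set K' : ℝ := (|ρ| + 1) * |K| with hK'
  have hcomp : IsCompact (Icc (-K') K' ×ˢ (Icc (-K') K' ×ˢ Icc (-K') K')) :=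
    isCompact_Icc.prod (isCompact_Icc.prod isCompact_Icc)
  obtain ⟨B, hB⟩ := hcomp.exists_bound_of_continuousOn (Fden_cont (ρ := ρ) hk).continuousOn
  rw [Pool.Agent.Helper42.Fr.Lam_eq ρ hk hW₀ hχ.smooth.continuous hχ.cpt]
  have e : ∀ j, Lam ρ k χ (W j) = J (fun z => χ z.1 * FF ρ k (W j) z) := fun j =>
    Pool.Agent.Helper42.Fr.Lam_eq ρ hk (hW j) hχ.smooth.continuous hχ.cpt
  simp_rw [e]
  unfold J
  refine tendsto_integral_filter_of_dominated_convergence (fun z => B * χ z.1) ?_ ?_ ?_ ?_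
  · refine Eventually.of_forall fun j => ?_
    have c1 : Continuous (fun z : ℝ × ℝ => χ z.1) := hχ.smooth.continuous.comp continuous_fst
    exact (c1.mul (Pool.Agent.Helper42.Fr.FF_cont ρ hk (hW j))).aestronglyMeasurable
  · filter_upwards [hK] with j hj
    filter_upwards [mu2_ae] with z hz
    by_cases hzR : R < |z.1|
    · have := hR z.1 z.2 hzR
      simp only at this
      rw [this]
      simp
    · obtain ⟨a0, a1, a2, a3⟩ := hj z (not_lt.1 hzR) hz
      have b0 : |W j z| ≤ |K| := a0.trans (le_abs_self K)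
      have b1 : |dX (W j) z| ≤ |K| := a1.trans (le_abs_self K)
      have b2 : |dT (W j) z| ≤ |K| := a2.trans (le_abs_self K)
      have b3 : |dT (dX (W j)) z| ≤ |K| := a3.trans (le_abs_self K)
      have n0 : 0 ≤ |K| := abs_nonneg _
      have n1 : 0 ≤ |ρ| := abs_nonneg _
      have m1 : |ρ * W j z + dX (W j) z| ≤ K' := by
        refine (abs_add_le _ _).trans ?_
        rw [abs_mul, hK']
        have := mul_le_mul_of_nonneg_left b0 n1
        linarith
      have m2 : |dT (W j) z| ≤ K' := by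
        rw [hK']
        have := mul_nonneg n1 n0
        linarith
      have m3 : |ρ * dT (W j) z + dT (dX (W j)) z| ≤ K' := by
        refine (abs_add_le _ _).trans ?_
        rw [abs_mul, hK']
        have := mul_le_mul_of_nonneg_left b2 n1
        linarith
      have := hB (ρ * W j z + dX (W j) z, dT (W j) z, ρ * dT (W j) z + dT (dX (W j)) z)
        ⟨abs_le.1 m1, abs_le.1 m2, abs_le.1 m3⟩
      rw [norm_mul, Real.norm_eq_abs (χ z.1), abs_of_nonneg (hχ.nonneg _), mul_comm]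
      exact mul_le_mul_of_nonneg_right this (hχ.nonneg _)
  · exact ((CX.of_fst hχ.cpt hχ.smooth.continuous).const_mul B).integrable
  · refine Eventually.of_forall fun z => ?_
    refine Tendsto.const_mul _ ?_
    have hc := (Fden_cont (ρ := ρ) hk).tendsto
      (ρ * W₀ z + dX W₀ z, dT W₀ z, ρ * dT W₀ z + dT (dX W₀) z)
    have ht : Tendsto (fun j => ((ρ * W j z + dX (W j) z, dT (W j) z, ρ * dT (W j) z + dT (dX (W j)) z) : ℝ × ℝ × ℝ))
        atTop (𝓝 (ρ * W₀ z + dX W₀ z, dT W₀ z, ρ * dT W₀ z + dT (dX W₀) z)) := by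
      refine Tendsto.prodMk_nhds ?_ (Tendsto.prodMk_nhds ?_ ?_)
      · exact ((h0 z).const_mul ρ).add (hX z)
      · exact hT z
      · exact ((hT z).const_mul ρ).add (hTX z)
    have h9 := hc.comp ht
    simp only [Function.comp_def] at h9
    unfold FF
    exact h9

end

end Pool.Agent.Helper31.LS
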