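import Pool.Agent.Helper31.LS.GI1

set_option autoImplicit false

open MeasureTheory Filter Topology Set

namespace Pool.Agent.Helper31.LS

open Pool.Agent.Helper42.Fr

section
variable {ρ C : ℝ} {h : ℝ → ℝ} {vh : ℝ × ℝ → ℝ}

/-- **blockG_cont** -/
theorem gi_cont (hT : Traj ρ C h vh) {k χ : ℝ → ℝ} {κ : ℝ} (hk : KB κ k) (hχ : IsCut χ) {ε : ℝ} (hε : 0 < ε) :
    Continuous (fun X => Lam ρ k χ (moll ε (shift X vh))) := by
  set W := moll ε vh with hWdef
  have hW : Sm W := moll_smooth hε hT.locInt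
  have e : ∀ X, moll ε (shift X vh) = shift X W := fun X => moll_shift ε X vh
  simp_rw [e]
  refine continuous_iff_seqContinuous.2 fun X X₀ hX => ?_
  have hpt : ∀ g : ℝ × ℝ → ℝ, Continuous g → ∀ z, Tendsto (fun j => shift (X j) g z) atTop (𝓝 (shift X₀ g z)) := by
    intro g hg z
    have h1 : Tendsto (fun j => ((z.1 + X j, z.2) : ℝ × ℝ)) atTop (𝓝 (z.1 + X₀, z.2)) :=
      (tendsto_const_nhds.add hX).prodMk_nhds tendsto_const_nhds
    exact (hg.tendsto _).comp h1
  refine Lam_lim hk hχ (fun j => hW.shift _) (hW.shift _) (hpt W hW.cont) ?_ ?_ ?_ ?_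
  · intro z
    simp_rw [dX_shift hW]
    exact hpt _ hW.dX.cont z
  · intro z
    simp_rw [dT_shift hW]
    exact hpt _ hW.dT.cont z
  · intro z
    simp_rw [dX_shift hW, dT_shift hW.dX]
    exact hpt _ hW.dX.dT.cont z
  · intro R
    have hcomp : IsCompact (Icc (-(R + |X₀| + 1)) (R + |X₀| + 1) ×ˢ Icc (0 : ℝ) (2 * Real.pi)) :=
      isCompact_Icc.prod isCompact_Icc
    obtain ⟨K0, hK0⟩ := hcomp.exists_bound_of_continuousOn hW.cont.continuousOn
    obtain ⟨K1, hK1⟩ := hcomp.exists_bound_of_continuousOn hW.dX.cont.continuousOn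
    obtain ⟨K2, hK2⟩ := hcomp.exists_bound_of_continuousOn hW.dT.cont.continuousOn
    obtain ⟨K3, hK3⟩ := hcomp.exists_bound_of_continuousOn hW.dX.dT.cont.continuousOn
    refine ⟨max (max K0 K1) (max K2 K3), ?_⟩
    have h1 : ∀ᶠ j in atTop, |X j - X₀| < 1 := by
      have := (Metric.tendsto_nhds.1 hX) 1 one_pos
      filter_upwards [this] with j hj
      rwa [Real.dist_eq] at hj
    filter_upwards [h1] with j hj z hz1 hz2
    have hmem : (z.1 + X j, z.2) ∈ Icc (-(R + |X₀| + 1)) (R + |X₀| + 1) ×ˢ Icc (0 : ℝ) (2 * Real.pi) := by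
      have a1 := abs_le.1 hz1
      have a2 := abs_lt.1 hj
      have a3 := neg_abs_le X₀
      have a4 := le_abs_self X₀
      exact ⟨⟨by linarith, by linarith⟩, Ioc_subset_Icc_self hz2⟩
    rw [dX_shift hW, dT_shift hW, dT_shift hW.dX]
    refine ⟨?_, ?_, ?_, ?_⟩
    · exact (hK0 _ hmem).trans ((le_max_left _ _).trans (le_max_left _ _))
    · exact (hK1 _ hmem).trans ((le_max_right _ _).trans (le_max_left _ _))
    · exact (hK2 _ hmem).trans ((le_max_left _ _).trans (le_max_right _ _))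
    · exact (hK3 _ hmem).trans ((le_max_right _ _).trans (le_max_right _ _))

lemma cv_conv {fs : ℕ → ℝ × ℝ → ℝ} {f g : ℝ × ℝ → ℝ} (hc : ConvD fs f) (hg : Continuous g)
    (hgc : HasCompactSupport g) (z : ℝ × ℝ) : Tendsto (fun j => cv (fs j) g z) atTop (𝓝 (cv f g z)) := by
  unfold cv
  exact hc (fun w => g (z - w)) (hg.comp (continuous_const.sub continuous_id))
    (hgc.comp_homeomorph (Homeomorph.subLeft z))

/-- local bound of convolutions by the local `L1` norm. -/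
lemma cv_l1 {g : ℝ × ℝ → ℝ} (hg : Continuous g) (hgc : HasCompactSupport g) (R : ℝ) :
    ∃ R' K : ℝ, 0 ≤ K ∧ ∀ f : ℝ × ℝ → ℝ, LocallyIntegrable f → ∀ z : ℝ × ℝ, |z.1| ≤ R → z.2 ∈ Ioc (0 : ℝ) (2 * Real.pi) →
      |cv f g z| ≤ K * ∫ w in Icc (-R') R' ×ˢ Icc (-R') R', |f w| := by
  obtain ⟨K, hK⟩ := hg.bounded_above_of_compact_support hgc
  obtain ⟨r, hr⟩ := hgc.isBounded.subset_closedBall (0 : ℝ × ℝ)
  refine ⟨|R| + |r| + 2 * Real.pi, K, (norm_nonneg _).trans (hK 0), ?_⟩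
  intro f hf z hz1 hz2
  set R' := |R| + |r| + 2 * Real.pi with hR'
  unfold cv
  have h1 : ∫ w, f w * g (z - w) = ∫ w in Icc (-R') R' ×ˢ Icc (-R') R', f w * g (z - w) := by
    refine (setIntegral_eq_integral_of_forall_compl_eq_zero fun w hw => ?_).symm
    have : g (z - w) = 0 := by
      by_contra hne
      have h2 := hr (subset_tsupport _ hne)
      rw [Metric.mem_closedBall, dist_zero_right, Prod.norm_def] at h2
      simp only [Real.norm_eq_abs, Prod.fst_sub, Prod.snd_sub] at h2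
      have h3 : |z.1 - w.1| ≤ |r| := (le_max_left _ _).trans (h2.trans (le_abs_self _))
      have h4 : |z.2 - w.2| ≤ |r| := (le_max_right _ _).trans (h2.trans (le_abs_self _))
      have a1 := abs_le.1 h3
      have a2 := abs_le.1 h4
      have a3 := abs_le.1 hz1
      have a4 := le_abs_self R
      have a5 := Real.pi_pos
      have a6 := abs_nonneg R
      exact hw ⟨⟨by linarith, by linarith⟩, ⟨by linarith [hz2.1], by linarith [hz2.2]⟩⟩
    rw [this, mul_zero]
  rw [h1, ← Real.norm_eq_abs, ← integral_const_mul]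
  refine norm_integral_le_of_norm_le ?_ (Eventually.of_forall fun w => ?_)
  · exact ((hf.integrableOn_isCompact (isCompact_Icc.prod isCompact_Icc)).abs).const_mul _
  · rw [norm_mul, mul_comm, Real.norm_eq_abs (f w)]
    exact mul_le_mul_of_nonneg_right (hK _) (abs_nonneg _)

lemma locInt_shift' {w : ℝ × ℝ → ℝ} (hw : LocallyIntegrable w) (X : ℝ) : LocallyIntegrable (shift X w) := by
  rw [locallyIntegrable_iff]
  intro K hK
  have hmp : MeasurePreserving (fun z : ℝ × ℝ => z + (X, 0)) := measurePreserving_add_right _ _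
  have hemb : MeasurableEmbedding (fun z : ℝ × ℝ => z + (X, 0)) := measurableEmbedding_addRight _
  have hK' : IsCompact ((fun z : ℝ × ℝ => z + (X, 0)) '' K) := hK.image (by fun_prop)
  have h1 : IntegrableOn w ((fun z : ℝ × ℝ => z + (X, 0)) '' K) := hw.integrableOn_isCompact hK'
  have h2 := (hmp.integrableOn_image hemb).1 h1
  have e : (w ∘ fun z : ℝ × ℝ => z + (X, 0)) = shift X w := by
    funext z
    have : z + (X, 0) = (z.1 + X, z.2) := by ext <;> simp
    simp only [Function.comp, shift, this]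
  rw [e] at h2
  exact h2

/-- **blockG_lim** -/
theorem gi_lim (hT : Traj ρ C h vh) {k χ : ℝ → ℝ} {κ : ℝ}
    (hk : KB κ k) (hχ : IsCut χ) {ε : ℝ} (hε : 0 < ε)
    {X : ℕ → ℝ} (hX : Tendsto X atTop atTop) {v : ℝ × ℝ → ℝ} (hv : InC ρ C h v)
    (hc : ConvD (fun j => shift (X j) vh) v) :
    Tendsto (fun j => Lam ρ k χ (moll ε (shift (X j) vh))) atTop (𝓝 (Lam ρ k χ (moll ε v))) := by
  have hl : ∀ j, LocallyIntegrable (shift (X j) vh) := fun j => locInt_shift' hT.locInt _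
  have sk := ker_smooth ε
  have ck := ker_cpt hε
  have e0 : ∀ f, moll ε f = cv f (ker ε) := fun f => rfl
  have eX : ∀ f, LocallyIntegrable f → dX (moll ε f) = cv f (dX (ker ε)) := fun f hf => dX_cv hf sk ck
  have eT : ∀ f, LocallyIntegrable f → dT (moll ε f) = cv f (dT (ker ε)) := fun f hf => dT_cv hf sk ck
  have eTX : ∀ f, LocallyIntegrable f → dT (dX (moll ε f)) = cv f (dT (dX (ker ε))) := fun f hf => by
    rw [eX f hf, dT_cv hf sk.dX (cpt_dX ck)]
  refine Lam_lim hk hχ (fun j => moll_smooth hε (hl j)) (moll_smooth hε hv.locInt) ?_ ?_ ?_ ?_ ?_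
  · intro z
    exact cv_conv hc sk.cont ck z
  · intro z
    simp_rw [fun j => eX _ (hl j)]
    rw [eX _ hv.locInt]
    exact cv_conv hc sk.dX.cont (cpt_dX ck) z
  · intro z
    simp_rw [fun j => eT _ (hl j)]
    rw [eT _ hv.locInt]
    exact cv_conv hc sk.dT.cont (cpt_dT ck) z
  · intro z
    simp_rw [fun j => eTX _ (hl j)]
    rw [eTX _ hv.locInt]
    exact cv_conv hc sk.dX.dT.cont (cpt_dT (cpt_dX ck)) z
  · intro R
    have key : ∀ g : ℝ × ℝ → ℝ, Continuous g → HasCompactSupport g → ∃ K : ℝ, ∀ᶠ j in atTop, ∀ z : ℝ × ℝ,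
        |z.1| ≤ R → z.2 ∈ Ioc (0 : ℝ) (2 * Real.pi) → |cv (shift (X j) vh) g z| ≤ K := by
      intro g hg hgc
      obtain ⟨R', K, hK0, hK⟩ := cv_l1 hg hgc R
      obtain ⟨M, X₀, hM⟩ := hT.l1 R'
      refine ⟨K * M, ?_⟩
      filter_upwards [hX.eventually_ge_atTop X₀] with j hj z h1 h2
      exact (hK _ (hl j) z h1 h2).trans (mul_le_mul_of_nonneg_left (hM _ hj) hK0)
    obtain ⟨K0, hK0⟩ := key _ sk.cont ck
    obtain ⟨K1, hK1⟩ := key _ sk.dX.cont (cpt_dX ck)
    obtain ⟨K2, hK2⟩ := key _ sk.dT.cont (cpt_dT ck)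
    obtain ⟨K3, hK3⟩ := key _ sk.dX.dT.cont (cpt_dT (cpt_dX ck))
    refine ⟨max (max K0 K1) (max K2 K3), ?_⟩
    filter_upwards [hK0, hK1, hK2, hK3] with j h0 h1 h2 h3 z hz1 hz2
    rw [eX _ (hl j), eT _ (hl j), dT_cv (hl j) sk.dX (cpt_dX ck)]
    refine ⟨?_, ?_, ?_, ?_⟩
    · exact (h0 z hz1 hz2).trans ((le_max_left _ _).trans (le_max_left _ _))
    · exact (h1 z hz1 hz2).trans ((le_max_right _ _).trans (le_max_left _ _))
    · exact (h2 z hz1 hz2).trans ((le_max_left _ _).trans (le_max_right _ _))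
    · exact (h3 z hz1 hz2).trans ((le_max_right _ _).trans (le_max_right _ _))

lemma cv_dom {vs : ℕ → ℝ × ℝ → ℝ} {v g : ℝ × ℝ → ℝ} (hvs : ∀ j, InC ρ C h (vs j)) (hv : InC ρ C h v)
    (hc : ∀ z, Tendsto (fun j => vs j z) atTop (𝓝 (v z))) (hg : Continuous g) (hgc : HasCompactSupport g)
    (z : ℝ × ℝ) : Tendsto (fun j => cv (vs j) g z) atTop (𝓝 (cv v g z)) := by
  unfold cv
  have hgi : Integrable (fun w => g (z - w)) := (hg.integrable_of_hasCompactSupport hgc).comp_sub_left z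
  refine tendsto_integral_of_dominated_convergence (fun w => C * |g (z - w)|) ?_ (hgi.abs.const_mul C) ?_ ?_
  · intro j
    exact ((hvs j).cont.mul (hg.comp (continuous_const.sub continuous_id))).aestronglyMeasurable
  · intro j
    refine Eventually.of_forall fun w => ?_
    rw [norm_mul, Real.norm_eq_abs, Real.norm_eq_abs]
    exact mul_le_mul_of_nonneg_right ((hvs j).bdd w) (abs_nonneg _)
  · exact Eventually.of_forall fun w => (hc w).mul_const _

/-- **blockG_contC** -/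
theorem gi_contC (hh : IndH ρ C h) {k χ : ℝ → ℝ} {κ : ℝ} (hk : KB κ k) (hχ : IsCut χ)
    (vs : ℕ → ℝ × ℝ → ℝ) (v : ℝ × ℝ → ℝ)
    (hvs : ∀ j, InC ρ C h (vs j)) (hv : InC ρ C h v) (hc : ∀ z, Tendsto (fun j => vs j z) atTop (𝓝 (v z))) :
    Tendsto (fun j => LamC ρ k χ (vs j)) atTop (𝓝 (LamC ρ k χ v)) := by
  have hC := hh.C_nonneg
  obtain ⟨M, hM⟩ := blockA_mod hh hχ κ
  have hfix : ∀ ε : ℝ, 0 < ε → Tendsto (fun j => Lam ρ k χ (moll ε (vs j))) atTop (𝓝 (Lam ρ k χ (moll ε v))) := by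
    intro ε hε
    have sk := ker_smooth ε
    have ck := ker_cpt hε
    have eX : ∀ f, LocallyIntegrable f → dX (moll ε f) = cv f (dX (ker ε)) := fun f hf => dX_cv hf sk ck
    have eT : ∀ f, LocallyIntegrable f → dT (moll ε f) = cv f (dT (ker ε)) := fun f hf => dT_cv hf sk ck
    refine Lam_lim hk hχ (fun j => moll_smooth hε (hvs j).locInt) (moll_smooth hε hv.locInt) ?_ ?_ ?_ ?_ ?_
    · intro z
      exact cv_dom hvs hv hc sk.cont ck z
    · intro z
      simp_rw [fun j => eX _ (hvs j).locInt]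
      rw [eX _ hv.locInt]
      exact cv_dom hvs hv hc sk.dX.cont (cpt_dX ck) z
    · intro z
      simp_rw [fun j => eT _ (hvs j).locInt]
      rw [eT _ hv.locInt]
      exact cv_dom hvs hv hc sk.dT.cont (cpt_dT ck) z
    · intro z
      simp_rw [fun j => eX _ (hvs j).locInt, fun j => dT_cv (hvs j).locInt sk.dX (cpt_dX ck)]
      rw [eX _ hv.locInt, dT_cv hv.locInt sk.dX (cpt_dX ck)]
      exact cv_dom hvs hv hc sk.dX.dT.cont (cpt_dT (cpt_dX ck)) z
    · intro R
      have i3 : Integrable (dT (dX (ker ε))) := sk.dX.dT.cont.integrable_of_hasCompactSupport (cpt_dT (cpt_dX ck))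
      refine ⟨max C (C * ∫ z, |dT (dX (ker ε)) z|), Eventually.of_forall fun j z _ _ => ⟨?_, ?_, ?_, ?_⟩⟩
      · exact (moll_bound hε (hvs j).bdd z).trans (le_max_left _ _)
      · exact (moll_dX_le hC (hvs j) hε z).trans (le_max_left _ _)
      · exact (moll_dT_le hC (hvs j) hε z).trans (le_max_left _ _)
      · rw [eX _ (hvs j).locInt, dT_cv (hvs j).locInt sk.dX (cpt_dX ck)]
        exact (cv_bound (hvs j).bdd i3 z).trans (le_max_right _ _)
  rw [Metric.tendsto_nhds]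
  intro e he
  obtain ⟨ε, hε0, hε1, hεM⟩ : ∃ ε : ℝ, 0 < ε ∧ ε < 1 ∧ M * Real.sqrt ε < e / 3 := by
    have h1 : Tendsto (fun ε : ℝ => M * Real.sqrt ε) (𝓝[>] 0) (𝓝 (M * Real.sqrt 0)) := by
      refine Tendsto.mono_left ?_ nhdsWithin_le_nhds
      exact (by fun_prop : Continuous fun δ : ℝ => M * Real.sqrt δ).tendsto 0
    simp only [Real.sqrt_zero, mul_zero] at h1
    obtain ⟨ε, hε1, hε2⟩ := ((h1.eventually (gt_mem_nhds (show (0 : ℝ) < e / 3 by positivity))).and
      (Ioo_mem_nhdsGT one_pos)).exists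
    exact ⟨ε, hε2.1, hε2.2, hε1⟩
  have h2 := (Metric.tendsto_nhds.1 (hfix ε hε0)) (e / 3) (by positivity)
  filter_upwards [h2] with j hj
  rw [Real.dist_eq] at hj ⊢
  have a1 := abs_le.1 ((hM k hk (vs j) (hvs j) ε hε0 hε1).trans hεM.le)
  have a2 := abs_le.1 ((hM k hk v hv ε hε0 hε1).trans hεM.le)
  have a3 := abs_lt.1 hj
  rw [abs_lt]
  constructor
  · linarith [a1.1, a1.2, a2.1, a2.2, a3.1, a3.2]
  · linarith [a1.1, a1.2, a2.1, a2.2, a3.1, a3.2]

end

end Pool.Agent.Helper31.LS
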