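import Pool.Agent.Helper31.LS.GI2

set_option autoImplicit false

open MeasureTheory Filter Topology Set

namespace Pool.Agent.Helper31.LS

open Pool.Agent.Helper42.Fr

section
variable {ρ C : ℝ} {h : ℝ → ℝ}

lemma Lst_cont (ρ : ℝ) {φ : ℝ × ℝ → ℝ} (hφ : IsTest φ) : Continuous (Lst ρ φ) := by
  have h1 := hφ.smooth
  have c1 := Sm.dX (Sm.dX h1)
  have c2 := Sm.dT (Sm.dT h1)
  have c3 := Sm.dX h1
  unfold Lst
  exact (((c1.cont.add c2.cont).sub (continuous_const.mul c3.cont)).add
    (continuous_const.mul h1.continuous))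

lemma Lst_cpt (ρ : ℝ) {φ : ℝ × ℝ → ℝ} (hφ : IsTest φ) : HasCompactSupport (Lst ρ φ) := by
  have h1 := hφ.cpt
  have c1 := cpt_dX (cpt_dX h1)
  have c2 := cpt_dT (cpt_dT h1)
  have c3 := cpt_dX h1
  unfold Lst
  exact ((c1.add c2).sub (c3.mul_left)).add h1.mul_left

/-- **blockG_compact** -/
theorem gi_compact (hh : IndH ρ C h) (vs : ℕ → ℝ × ℝ → ℝ) (hvs : ∀ j, InC ρ C h (vs j)) :
    ∃ φ : ℕ → ℕ, StrictMono φ ∧ ∃ v, InC ρ C h v ∧ ∀ z, Tendsto (fun j => vs (φ j) z) atTop (𝓝 (v z)) := by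
  have hC := hh.C_nonneg
  set q : ℕ → ℝ × ℝ := TopologicalSpace.denseSeq (ℝ × ℝ) with hq
  have hdense : DenseRange q := TopologicalSpace.denseRange_denseSeq _
  have hK : IsCompact (Set.pi univ (fun _ : ℕ => Icc (-C) C)) := isCompact_univ_pi fun _ => isCompact_Icc
  obtain ⟨a, _, φ, hφ, ha⟩ := hK.tendsto_subseq (x := fun n i => vs n (q i)) (fun n i _ => abs_le.1 ((hvs n).bdd _))
  rw [tendsto_pi_nhds] at ha
  -- pointwise convergence
  have hex : ∀ z, ∃ l, Tendsto (fun j => vs (φ j) z) atTop (𝓝 l) := by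
    intro z
    refine cauchySeq_tendsto_of_complete ?_
    rw [Metric.cauchySeq_iff]
    intro e he
    obtain ⟨i, hi⟩ := hdense.exists_dist_lt z (show 0 < e / (6 * (C + 1)) by positivity)
    have hd : C * (|z.1 - (q i).1| + |z.2 - (q i).2|) ≤ e / 3 := by
      rw [Prod.dist_eq, max_lt_iff, Real.dist_eq, Real.dist_eq] at hi
      have h1 : |z.1 - (q i).1| + |z.2 - (q i).2| ≤ 2 * (e / (6 * (C + 1))) := by linarith [hi.1, hi.2]
      have h2 : C * (2 * (e / (6 * (C + 1)))) ≤ e / 3 := by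
        have : C * (2 * (e / (6 * (C + 1)))) = (C / (C + 1)) * (e / 3) := by
          field_simp
          ring
        rw [this]
        have h3 : C / (C + 1) ≤ 1 := by
          rw [div_le_one (by positivity)]
          linarith
        nlinarith
      exact (mul_le_mul_of_nonneg_left h1 hC).trans h2
    have hcs := (ha i).cauchySeq
    rw [Metric.cauchySeq_iff] at hcs
    obtain ⟨N, hN⟩ := hcs (e / 3) (by positivity)
    refine ⟨N, fun m hm n hn => ?_⟩
    have h3 := hN m hm n hn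
    simp only [Function.comp, Real.dist_eq] at h3
    rw [Real.dist_eq]
    have h4 := abs_le.1 (((hvs (φ m)).lip z (q i)).trans hd)
    have h5 := abs_le.1 (((hvs (φ n)).lip z (q i)).trans hd)
    have h6 := abs_lt.1 h3
    rw [abs_lt]
    constructor
    · linarith [h4.1, h4.2, h5.1, h5.2, h6.1, h6.2]
    · linarith [h4.1, h4.2, h5.1, h5.2, h6.1, h6.2]
  choose v hv using hex
  have hlip : ∀ z w : ℝ × ℝ, |v z - v w| ≤ C * (|z.1 - w.1| + |z.2 - w.2|) := by
    intro z w
    exact le_of_tendsto' ((hv z).sub (hv w)).abs fun j => (hvs (φ j)).lip z w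
  have hbdd : ∀ z, |v z| ≤ C := fun z => le_of_tendsto' (hv z).abs fun j => (hvs (φ j)).bdd z
  have hvc : Continuous v := by
    rw [continuous_iff_continuousAt]
    intro z
    rw [ContinuousAt, tendsto_iff_dist_tendsto_zero]
    have h1 : Tendsto (fun w : ℝ × ℝ => C * (|w.1 - z.1| + |w.2 - z.2|)) (𝓝 z) (𝓝 0) := by
      have : Continuous fun w : ℝ × ℝ => C * (|w.1 - z.1| + |w.2 - z.2|) := by fun_prop
      have h2 := this.tendsto z
      simpa using h2
    refine squeeze_zero (fun _ => dist_nonneg) (fun w => ?_) h1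
    rw [Real.dist_eq]
    exact hlip w z
  have hint : ∀ ψ : ℝ × ℝ → ℝ, Continuous ψ → HasCompactSupport ψ →
      Tendsto (fun j => ∫ z, vs (φ j) z * ψ z) atTop (𝓝 (∫ z, v z * ψ z)) := by
    intro ψ hψ hψc
    have hψi : Integrable ψ := hψ.integrable_of_hasCompactSupport hψc
    refine tendsto_integral_of_dominated_convergence (fun w => C * |ψ w|) ?_ (hψi.abs.const_mul C) ?_ ?_
    · intro j
      exact ((hvs (φ j)).cont.mul hψ).aestronglyMeasurable
    · intro j
      refine Eventually.of_forall fun w => ?_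
      rw [norm_mul, Real.norm_eq_abs, Real.norm_eq_abs]
      exact mul_le_mul_of_nonneg_right ((hvs (φ j)).bdd w) (abs_nonneg _)
    · exact Eventually.of_forall fun w => (hv w).mul_const _
  refine ⟨φ, hφ, v, ⟨hbdd, hlip, ?_, ?_, ?_, ?_⟩, hv⟩
  · intro x t
    refine tendsto_nhds_unique (hv (x, t + 2 * Real.pi)) ?_
    simp_rw [fun j => (hvs (φ j)).per x t]
    exact hv (x, t)
  · intro x t
    exact le_of_tendsto' (hv (x, t)) fun j => (hvs (φ j)).le x t
  · intro ψ hψ hψ0
    exact ge_of_tendsto' (hint (Lst ρ ψ) (Lst_cont ρ hψ) (Lst_cpt ρ hψ)) fun j => (hvs (φ j)).sub ψ hψ hψ0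
  · intro ψ hψ hψ0 hsub
    have hev : ∀ᶠ j in atTop, tsupport ψ ⊆ {z : ℝ × ℝ | vs (φ j) z < h z.2} := by
      by_contra hcon
      rw [Filter.not_eventually] at hcon
      obtain ⟨σ, hσ, hσ'⟩ := Filter.extraction_of_frequently_atTop hcon
      have hz : ∀ n, ∃ z ∈ tsupport ψ, h z.2 ≤ vs (φ (σ n)) z := by
        intro n
        have := hσ' n
        rw [Set.not_subset] at this
        obtain ⟨z, hz1, hz2⟩ := this
        exact ⟨z, hz1, not_lt.1 hz2⟩
      choose z hz1 hz2 using hz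
      obtain ⟨z₀, hz₀, τ, hτ, hlim⟩ := hψ.cpt.isCompact.tendsto_subseq hz1
      have h1 : v z₀ < h z₀.2 := hsub hz₀
      have h2 : Tendsto (fun n => vs (φ (σ (τ n))) z₀) atTop (𝓝 (v z₀)) :=
        (hv z₀).comp (hσ.tendsto_atTop.comp hτ.tendsto_atTop)
      have hhc : Continuous h := by
        rw [continuous_iff_continuousAt]
        intro t
        rw [ContinuousAt, tendsto_iff_dist_tendsto_zero]
        have h1 : Tendsto (fun w : ℝ => C * |w - t|) (𝓝 t) (𝓝 0) := by
          have : Continuous fun w : ℝ => C * |w - t| := by fun_prop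
          have h2 := this.tendsto t
          simpa using h2
        refine squeeze_zero (fun _ => dist_nonneg) (fun w => ?_) h1
        rw [Real.dist_eq]
        exact hh.lip w t
      have h3 : Tendsto (fun n => h (z (τ n)).2) atTop (𝓝 (h z₀.2)) :=
        (hhc.tendsto _).comp ((continuous_snd.tendsto z₀).comp hlim)
      have h4 : Tendsto (fun n => C * (|(z (τ n)).1 - z₀.1| + |(z (τ n)).2 - z₀.2|)) atTop (𝓝 0) := by
        have : Continuous fun w : ℝ × ℝ => C * (|w.1 - z₀.1| + |w.2 - z₀.2|) := by fun_prop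
        have h5 := (this.tendsto z₀).comp hlim
        simp only [sub_self, abs_zero, add_zero, mul_zero] at h5
        exact h5
      have h5 : ∀ n, h (z (τ n)).2 ≤ vs (φ (σ (τ n))) z₀ + C * (|(z (τ n)).1 - z₀.1| + |(z (τ n)).2 - z₀.2|) := by
        intro n
        have := abs_le.1 ((hvs (φ (σ (τ n)))).lip (z (τ n)) z₀)
        have := hz2 (τ n)
        linarith
      have h6 := le_of_tendsto_of_tendsto' h3 (h2.add h4) h5
      linarith
    refine tendsto_nhds_unique (hint (Lst ρ ψ) (Lst_cont ρ hψ) (Lst_cpt ρ hψ)) ?_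
    refine tendsto_const_nhds.congr' ?_
    filter_upwards [hev] with j hj
    exact ((hvs (φ j)).harm ψ hψ hψ0 hj).symm

end

end Pool.Agent.Helper31.LS
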