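import Pool.Agent.Helper31.LS.OneD2
import Pool.Agent.Helper42.Fr.Cls

set_option autoImplicit false

open MeasureTheory Filter Topology Set

namespace Pool.Agent.Helper31.LS

open Pool.Agent.Helper42.Fr

/-! ### A partition of unity on the circle -/

/-- hat function, `sum_n hat (θ + 2πn) = 1`. -/
noncomputable def hat (θ : ℝ) : ℝ := max 0 (1 - |θ| / (2 * Real.pi))

lemma hat_cont : Continuous hat := by
  unfold hat
  fun_prop

lemma hat_nonneg (θ : ℝ) : 0 ≤ hat θ := le_max_left _ _

lemma hat_le_one (θ : ℝ) : hat θ ≤ 1 := by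
  unfold hat
  have : 0 ≤ |θ| / (2 * Real.pi) := by positivity
  exact max_le zero_le_one (by linarith)

lemma hat_zero {θ : ℝ} (h : 2 * Real.pi ≤ |θ|) : hat θ = 0 := by
  unfold hat
  have hp := Real.pi_pos
  have : 1 ≤ |θ| / (2 * Real.pi) := (one_le_div (by positivity)).2 h
  exact max_eq_left (by linarith)

lemma hat_of_le {θ : ℝ} (h : |θ| ≤ 2 * Real.pi) : hat θ = 1 - |θ| / (2 * Real.pi) := by
  unfold hat
  have hp := Real.pi_pos
  have : |θ| / (2 * Real.pi) ≤ 1 := (div_le_one (by positivity)).2 h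
  exact max_eq_right (by linarith)

lemma hat_sum {θ : ℝ} (h1 : -Real.pi ≤ θ) (h2 : θ ≤ Real.pi) :
    hat (θ - 2 * Real.pi) + hat θ + hat (θ + 2 * Real.pi) = 1 := by
  have hp := Real.pi_pos
  have h0 : |θ| ≤ 2 * Real.pi := abs_le.2 ⟨by linarith, by linarith⟩
  rw [hat_of_le h0]
  rcases le_total 0 θ with h | h
  · have e1 : hat (θ + 2 * Real.pi) = 0 := hat_zero (by rw [abs_of_nonneg (by linarith)]; linarith)
    have e2 : |θ - 2 * Real.pi| = 2 * Real.pi - θ := by rw [abs_of_nonpos (by linarith)]; ring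
    rw [e1, hat_of_le (by rw [e2]; linarith), e2, abs_of_nonneg h]
    field_simp
    ring
  · have e1 : hat (θ - 2 * Real.pi) = 0 := hat_zero (by rw [abs_of_nonpos (by linarith)]; linarith)
    have e2 : |θ + 2 * Real.pi| = 2 * Real.pi + θ := by rw [abs_of_nonneg (by linarith)]; ring
    rw [e1, hat_of_le (by rw [e2]; linarith), e2, abs_of_nonpos h]
    field_simp
    ring

lemma hat_int {g : ℝ → ℝ} (hp : Function.Periodic g (2 * Real.pi))
    (hi : IntervalIntegrable g volume (-(3 * Real.pi)) (3 * Real.pi)) :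
    ∫ θ, g θ * hat θ = ∫ θ in (-Real.pi)..Real.pi, g θ := by
  have hpi := Real.pi_pos
  have hi2 : IntervalIntegrable (fun θ => g θ * hat θ) volume (-(3 * Real.pi)) (3 * Real.pi) :=
    hi.mul_continuousOn hat_cont.continuousOn
  have hi2a : IntervalIntegrable (fun θ => g θ * hat θ) volume (-(3 * Real.pi)) (-Real.pi) :=
    hi2.mono_set (by
      rw [uIcc_of_le (by linarith), uIcc_of_le (by linarith)]
      exact Icc_subset_Icc le_rfl (by linarith))
  have hi2b : IntervalIntegrable (fun θ => g θ * hat θ) volume (-Real.pi) Real.pi :=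
    hi2.mono_set (by
      rw [uIcc_of_le (by linarith), uIcc_of_le (by linarith)]
      exact Icc_subset_Icc (by linarith) (by linarith))
  have hi2c : IntervalIntegrable (fun θ => g θ * hat θ) volume Real.pi (3 * Real.pi) :=
    hi2.mono_set (by
      rw [uIcc_of_le (by linarith), uIcc_of_le (by linarith)]
      exact Icc_subset_Icc (by linarith) (by linarith))
  have hib : IntervalIntegrable g volume (-Real.pi) Real.pi :=
    hi.mono_set (by
      rw [uIcc_of_le (by linarith), uIcc_of_le (by linarith)]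
      exact Icc_subset_Icc (by linarith) (by linarith))
  have h1 : ∫ θ, g θ * hat θ = ∫ θ in (-(3 * Real.pi))..(3 * Real.pi), g θ * hat θ := by
    refine (intervalIntegral.integral_eq_integral_of_support_subset ?_).symm
    intro θ hθ
    have : |θ| < 2 * Real.pi := by
      by_contra hcon
      exact hθ (by simp [hat_zero (not_lt.1 hcon)])
    have := abs_lt.1 this
    exact ⟨by linarith, by linarith⟩
  have h2 : ∫ θ in (-(3 * Real.pi))..(-Real.pi), g θ * hat θ =
      ∫ θ in (-Real.pi)..Real.pi, g θ * hat (θ - 2 * Real.pi) := by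
    have e := intervalIntegral.integral_comp_sub_right (a := -Real.pi) (b := Real.pi)
      (fun θ => g θ * hat θ) (2 * Real.pi)
    have e1 : -Real.pi - 2 * Real.pi = -(3 * Real.pi) := by ring
    have e2 : Real.pi - 2 * Real.pi = -Real.pi := by ring
    rw [e1, e2] at e
    rw [← e]
    refine intervalIntegral.integral_congr fun θ _ => ?_
    simp only [hp.sub_eq]
  have h3 : ∫ θ in Real.pi..(3 * Real.pi), g θ * hat θ =
      ∫ θ in (-Real.pi)..Real.pi, g θ * hat (θ + 2 * Real.pi) := by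
    have e := intervalIntegral.integral_comp_add_right (a := -Real.pi) (b := Real.pi)
      (fun θ => g θ * hat θ) (2 * Real.pi)
    have e1 : -Real.pi + 2 * Real.pi = Real.pi := by ring
    have e2 : Real.pi + 2 * Real.pi = 3 * Real.pi := by ring
    rw [e1, e2] at e
    rw [← e]
    refine intervalIntegral.integral_congr fun θ _ => ?_
    simp only [hp θ]
  have c1 : IntervalIntegrable (fun θ => g θ * hat (θ - 2 * Real.pi)) volume (-Real.pi) Real.pi :=
    hib.mul_continuousOn (hat_cont.comp (continuous_id.sub continuous_const)).continuousOn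
  have c2 : IntervalIntegrable (fun θ => g θ * hat (θ + 2 * Real.pi)) volume (-Real.pi) Real.pi :=
    hib.mul_continuousOn (hat_cont.comp (continuous_id.add continuous_const)).continuousOn
  rw [h1, ← intervalIntegral.integral_add_adjacent_intervals (hi2a.trans hi2b) hi2c,
    ← intervalIntegral.integral_add_adjacent_intervals hi2a hi2b, h2, h3,
    ← intervalIntegral.integral_add c1 hi2b, ← intervalIntegral.integral_add (c1.add hi2b) c2]
  refine intervalIntegral.integral_congr fun θ hθ => ?_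
  rw [uIcc_of_le (by linarith)] at hθ
  have := hat_sum hθ.1 hθ.2
  calc _ = g θ * (hat (θ - 2 * Real.pi) + hat θ + hat (θ + 2 * Real.pi)) := by ring
    _ = g θ := by rw [this, mul_one]

/-- the integral over the strip as an integral over the plane against the hat function. -/
lemma hat_int2 {G : ℝ × ℝ → ℝ} (hp : Per G)
    (hi : IntegrableOn G (univ ×ˢ Icc (-(3 * Real.pi)) (3 * Real.pi))) :
    ∫ z, G z * hat z.2 = ∫ z in univ ×ˢ Ioo (-Real.pi) Real.pi, G z := by
  have hpi := Real.pi_pos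
  have hm : volume.restrict ((univ : Set ℝ) ×ˢ Icc (-(3 * Real.pi)) (3 * Real.pi)) =
      (volume : Measure ℝ).prod (volume.restrict (Icc (-(3 * Real.pi)) (3 * Real.pi))) := by
    rw [Measure.volume_eq_prod, ← Measure.prod_restrict, Measure.restrict_univ]
  have hm2 : volume.restrict ((univ : Set ℝ) ×ˢ Ioo (-Real.pi) Real.pi) =
      (volume : Measure ℝ).prod (volume.restrict (Ioo (-Real.pi) Real.pi)) := by
    rw [Measure.volume_eq_prod, ← Measure.prod_restrict, Measure.restrict_univ]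
  -- integrability on the plane
  have hI1 : IntegrableOn (fun z : ℝ × ℝ => G z * hat z.2) (univ ×ˢ Icc (-(3 * Real.pi)) (3 * Real.pi)) := by
    refine Integrable.mul_bdd (c := 1) hi (hat_cont.comp continuous_snd).aestronglyMeasurable ?_
    refine Eventually.of_forall fun z => ?_
    rw [Real.norm_eq_abs, abs_of_nonneg (hat_nonneg _)]
    exact hat_le_one _
  have hI : Integrable (fun z : ℝ × ℝ => G z * hat z.2) := by
    rw [← integrableOn_iff_integrable_of_support_subset (s := univ ×ˢ Icc (-(3 * Real.pi)) (3 * Real.pi))]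
    · exact hI1
    · intro z hz
      refine ⟨trivial, ?_⟩
      have : |z.2| < 2 * Real.pi := by
        by_contra hcon
        exact hz (by simp [hat_zero (not_lt.1 hcon)])
      have := abs_lt.1 this
      exact ⟨by linarith, by linarith⟩
  have hI2 : IntegrableOn G (univ ×ˢ Ioo (-Real.pi) Real.pi) :=
    hi.mono_set (prod_mono le_rfl (Ioo_subset_Icc_self.trans (Icc_subset_Icc (by linarith) (by linarith))))
  rw [Measure.volume_eq_prod] at hI
  have e1 : ∫ z, G z * hat z.2 = ∫ x, ∫ θ, G (x, θ) * hat θ := by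
    rw [Measure.volume_eq_prod]
    exact integral_prod _ hI
  have e2 : ∫ z in univ ×ˢ Ioo (-Real.pi) Real.pi, G z = ∫ x, ∫ θ in Ioo (-Real.pi) Real.pi, G (x, θ) := by
    unfold IntegrableOn at hI2
    rw [hm2] at hI2 ⊢
    exact integral_prod _ hI2
  rw [e1, e2]
  refine integral_congr_ae ?_
  unfold IntegrableOn at hi
  rw [hm] at hi
  filter_upwards [hi.prod_right_ae] with x hx
  have hx' : IntervalIntegrable (fun θ => G (x, θ)) volume (-(3 * Real.pi)) (3 * Real.pi) := by
    rw [intervalIntegrable_iff_integrableOn_Icc_of_le (by linarith)]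
    exact hx
  rw [hat_int (g := fun θ => G (x, θ)) (fun θ => hp x θ) hx', intervalIntegral.integral_of_le (by linarith),
    integral_Ioc_eq_integral_Ioo]

/-! ### logarithmic polar coordinates -/

/-- the exponential map in real coordinates. -/
noncomputable def ex (z : ℝ × ℝ) : ℂ := Complex.exp ((z.1 : ℂ) + (z.2 : ℂ) * Complex.I)

lemma ex_cont : Continuous ex := by
  unfold ex
  fun_prop

lemma ex_norm (z : ℝ × ℝ) : ‖ex z‖ = Real.exp z.1 := by
  unfold ex
  rw [Complex.norm_exp]
  simp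

lemma ex_ne (z : ℝ × ℝ) : ex z ≠ 0 := Complex.exp_ne_zero _

lemma ex_per (x t : ℝ) : ex (x, t + 2 * Real.pi) = ex (x, t) := by
  unfold ex
  simp only
  have : (x : ℂ) + ((t + 2 * Real.pi : ℝ) : ℂ) * Complex.I =
      ((x : ℂ) + (t : ℂ) * Complex.I) + 2 * Real.pi * Complex.I := by
    push_cast; ring
  rw [this, Complex.exp_periodic]

lemma ex_arg {z : ℝ × ℝ} (h : z.2 ∈ Ioc (-Real.pi) Real.pi) : Complex.arg (ex z) = z.2 := by
  unfold ex
  rw [Complex.exp_add, ← Complex.ofReal_exp, Complex.exp_mul_I, Complex.arg_mul_cos_add_sin_mul_I (Real.exp_pos _) h]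

/-- derivative of `(x, t) ↦ (exp x, t)`. -/
noncomputable def exD (z : ℝ × ℝ) : ℝ × ℝ →L[ℝ] ℝ × ℝ :=
  (Real.exp z.1 • ContinuousLinearMap.id ℝ ℝ).prodMap (ContinuousLinearMap.id ℝ ℝ)

lemma exD_det (z : ℝ × ℝ) : (exD z).det = Real.exp z.1 := by
  have h : ((exD z : ℝ × ℝ →L[ℝ] ℝ × ℝ) : ℝ × ℝ →ₗ[ℝ] ℝ × ℝ) =
      (Real.exp z.1 • (LinearMap.id : ℝ →ₗ[ℝ] ℝ)).prodMap (LinearMap.id : ℝ →ₗ[ℝ] ℝ) := rfl
  rw [ContinuousLinearMap.det, h, LinearMap.det_prodMap]
  simp

lemma hasFDerivAt_ex (z : ℝ × ℝ) : HasFDerivAt (fun z : ℝ × ℝ => (Real.exp z.1, z.2)) (exD z) z := by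
  have h1 : HasFDerivAt (fun x : ℝ => Real.exp x) (Real.exp z.1 • ContinuousLinearMap.id ℝ ℝ) z.1 := by
    have := (Real.hasDerivAt_exp z.1).hasFDerivAt
    refine this.congr_fderiv ?_
    ext
    simp
  exact h1.prodMap z (hasFDerivAt_id z.2)

lemma logpolar (F : ℂ → ℝ) :
    ∫ z, F z = ∫ z in (univ : Set ℝ) ×ˢ Ioo (-Real.pi) Real.pi, Real.exp (2 * z.1) * F (ex z) := by
  rw [← Complex.integral_comp_polarCoord_symm F]
  change ∫ p in (Ioi (0 : ℝ)) ×ˢ Ioo (-Real.pi) Real.pi, p.1 • F (Complex.polarCoord.symm p) = _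
  have him : (Ioi (0 : ℝ)) ×ˢ Ioo (-Real.pi) Real.pi =
      (fun z : ℝ × ℝ => (Real.exp z.1, z.2)) '' ((univ : Set ℝ) ×ˢ Ioo (-Real.pi) Real.pi) := by
    ext ⟨r, t⟩
    constructor
    · rintro ⟨h1, h2⟩
      exact ⟨(Real.log r, t), ⟨trivial, h2⟩, by simp [Real.exp_log (show 0 < r from h1)]⟩
    · rintro ⟨⟨x, s⟩, ⟨_, h2⟩, h3⟩
      simp only [Prod.mk.injEq] at h3
      obtain ⟨h3, rfl⟩ := h3
      exact ⟨by rw [← h3]; exact Real.exp_pos _, h2⟩
  rw [him, integral_image_eq_integral_abs_det_fderiv_smul (volume : Measure (ℝ × ℝ))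
    (MeasurableSet.univ.prod measurableSet_Ioo) (f := fun z : ℝ × ℝ => (Real.exp z.1, z.2)) (f' := exD)
    (fun z _ => (hasFDerivAt_ex z).hasFDerivWithinAt)]
  · refine setIntegral_congr_fun (MeasurableSet.univ.prod measurableSet_Ioo) (fun z _ => ?_)
    simp only [smul_eq_mul]
    rw [exD_det, abs_of_pos (Real.exp_pos _), Complex.polarCoord_symm_apply]
    have e1 : ((Real.exp z.1 : ℝ) : ℂ) * ((Real.cos z.2 : ℂ) + (Real.sin z.2 : ℂ) * Complex.I) = ex z := by
      unfold ex
      rw [Complex.exp_add, Complex.exp_mul_I]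
      push_cast
      rfl
    rw [← mul_assoc, ← Real.exp_add]
    congr 1
    · congr 1; ring
    · exact congrArg F e1
  · rintro ⟨x, t⟩ _ ⟨y, s⟩ _ h
    simp only [Prod.mk.injEq, Real.exp_eq_exp] at h
    exact Prod.ext h.1 h.2

end Pool.Agent.Helper31.LS
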