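import Mathlib

set_option autoImplicit false

open MeasureTheory Filter Topology Set

namespace Pool.Agent.Helper31.LS

/-- semiconvex, Lipschitz, `2π`-periodic. -/
structure Semi (c0 C : ℝ) (g : ℝ → ℝ) : Prop where
  c0_nonneg : 0 ≤ c0
  bdd : ∀ t, |g t| ≤ C
  lip : ∀ s t, |g s - g t| ≤ C * |s - t|
  per : ∀ t, g (t + 2 * Real.pi) = g t
  cvx : ConvexOn ℝ univ (fun t => g t + c0 * t ^ 2)

/-- `m` is a (semi)subgradient of `g` at `t`. -/
def SubD (c0 : ℝ) (g : ℝ → ℝ) (t m : ℝ) : Prop :=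
  ∀ t', g t + m * (t' - t) - c0 * (t' - t) ^ 2 ≤ g t'

variable {c0 C : ℝ} {g : ℝ → ℝ}

theorem Semi.C_nonneg (hg : Semi c0 C g) : 0 ≤ C := (abs_nonneg _).trans (hg.bdd 0)

theorem Semi.cont (hg : Semi c0 C g) : Continuous g := by
  have : LipschitzWith C.toNNReal g := by
    apply LipschitzWith.of_dist_le_mul
    intro x y
    rw [Real.dist_eq, Real.dist_eq, Real.coe_toNNReal _ hg.C_nonneg]
    exact hg.lip x y
  exact this.continuous

theorem Semi.exists_sub (hg : Semi c0 C g) (s : ℝ) :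
    ∃ t, SubD c0 g t (s - (2 * c0 + 1) * t) := by
  set Φ : ℝ → ℝ := fun t => g t + (c0 + 1 / 2) * t ^ 2 - s * t with hΦ
  have hΦc : Continuous Φ := by
    have := hg.cont
    fun_prop
  set R : ℝ := 2 * (|s| + C) + 1 with hR
  have hC := hg.C_nonneg
  have hR0 : 0 < R := by positivity
  obtain ⟨t, ht, hmin⟩ := (isCompact_Icc (a := -R) (b := R)).exists_isMinOn
    ⟨0, by constructor <;> linarith⟩ hΦc.continuousOn
  have hglob : ∀ t', Φ t ≤ Φ t' := by
    intro t'
    by_cases h : t' ∈ Icc (-R) R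
    · exact hmin h
    · have h0 : Φ t ≤ Φ 0 := hmin (by constructor <;> linarith : (0:ℝ) ∈ Icc (-R) R)
      refine h0.trans ?_
      have habs : R < |t'| := by
        rw [mem_Icc, not_and_or] at h
        rcases h with h | h
        · push Not at h
          rw [lt_abs]
          right; linarith
        · push Not at h
          rw [lt_abs]
          left; exact h
      have h1 : g 0 - C * |t'| ≤ g t' := by
        have := (abs_le.1 (hg.lip t' 0)).1
        rw [sub_zero] at this
        linarith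
      have h2 : s * t' ≤ |s| * |t'| := by
        rw [← abs_mul]; exact le_abs_self _
      have h3 : (1 / 2) * R * |t'| ≤ (1 / 2) * t' ^ 2 := by
        rw [← sq_abs t']
        have : R * |t'| ≤ |t'| * |t'| := by
          apply mul_le_mul_of_nonneg_right habs.le (abs_nonneg _)
        nlinarith
      have h4 : 0 ≤ c0 * t' ^ 2 := mul_nonneg hg.c0_nonneg (sq_nonneg _)
      have h5 : (1 / 2) * R * |t'| = (|s| + C) * |t'| + (1 / 2) * |t'| := by
        rw [hR]; ring
      have h6 : 0 ≤ |t'| := abs_nonneg _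
      simp only [hΦ]
      nlinarith
  refine ⟨t, fun t' => ?_⟩
  -- strong convexity
  have hkey : (s - t) * (t' - t) ≤ (g t' + c0 * t' ^ 2) - (g t + c0 * t ^ 2) := by
    apply le_of_forall_pos_le_add
    intro ε hε
    set Δ := t' - t with hΔ
    obtain ⟨l, hl0, hl1, hlε⟩ : ∃ l : ℝ, 0 < l ∧ l ≤ 1 ∧ l * Δ ^ 2 ≤ ε := by
      refine ⟨min 1 (ε / (Δ ^ 2 + 1)), by positivity, min_le_left _ _, ?_⟩
      calc min 1 (ε / (Δ ^ 2 + 1)) * Δ ^ 2 ≤ (ε / (Δ ^ 2 + 1)) * Δ ^ 2 :=
            mul_le_mul_of_nonneg_right (min_le_right _ _) (sq_nonneg _)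
        _ ≤ ε := by
            rw [div_mul_eq_mul_div, div_le_iff₀ (by positivity)]
            nlinarith
    have h1 := hglob (t + l * Δ)
    have h2 := hg.cvx.2 (mem_univ t) (mem_univ t') (by linarith : 0 ≤ 1 - l) hl0.le (by ring)
    simp only [smul_eq_mul] at h2
    have e1 : (1 - l) * t + l * t' = t + l * Δ := by rw [hΔ]; ring
    rw [e1] at h2
    simp only [hΦ] at h1
    have h3 : l * ((s - t) * Δ) ≤ l * ((g t' + c0 * t' ^ 2) - (g t + c0 * t ^ 2) + l * Δ ^ 2 / 2) := by
      have e2 : (t + l * Δ) ^ 2 = t ^ 2 + 2 * l * Δ * t + l ^ 2 * Δ ^ 2 := by ring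
      nlinarith [h1, h2, e2]
    have h4 := le_of_mul_le_mul_left h3 hl0
    have h5 : l * Δ ^ 2 / 2 ≤ ε := by
      have : 0 ≤ l * Δ ^ 2 := by positivity
      linarith
    linarith
  have e : t' ^ 2 = t ^ 2 + 2 * t * (t' - t) + (t' - t) ^ 2 := by ring
  nlinarith [hkey, e]

open Classical in
/-- Minty parametrisation: the base point. -/
noncomputable def th (c0 : ℝ) (g : ℝ → ℝ) (s : ℝ) : ℝ :=
  if h : ∃ t, SubD c0 g t (s - (2 * c0 + 1) * t) then Classical.choose h else 0

/-- Minty parametrisation: the slope. -/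
noncomputable def mm (c0 : ℝ) (g : ℝ → ℝ) (s : ℝ) : ℝ := s - (2 * c0 + 1) * th c0 g s

theorem Semi.sub_th (hg : Semi c0 C g) (s : ℝ) : SubD c0 g (th c0 g s) (mm c0 g s) := by
  unfold mm th
  rw [dif_pos (hg.exists_sub s)]
  exact Classical.choose_spec (hg.exists_sub s)

theorem SubD.mono {t t' m m' : ℝ} (h : SubD c0 g t m) (h' : SubD c0 g t' m') :
    0 ≤ (m - m') * (t - t') + 2 * c0 * (t - t') ^ 2 := by
  have h1 := h t'
  have h2 := h' t
  nlinarith

theorem SubD.minty {t t' m m' : ℝ} (h : SubD c0 g t m) (h' : SubD c0 g t' m') :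
    (t - t') ^ 2 ≤ ((m + (2 * c0 + 1) * t) - (m' + (2 * c0 + 1) * t')) * (t - t') := by
  have := h.mono h'
  nlinarith

theorem Semi.unique (hg : Semi c0 C g) {t m s : ℝ} (h : SubD c0 g t m)
    (hs : m + (2 * c0 + 1) * t = s) : t = th c0 g s ∧ m = mm c0 g s := by
  have h1 := h.minty (hg.sub_th s)
  have e : mm c0 g s + (2 * c0 + 1) * th c0 g s = s := by unfold mm; ring
  rw [hs, e, sub_self, zero_mul] at h1
  have h2 : t = th c0 g s := by
    have : (t - th c0 g s) ^ 2 = 0 := le_antisymm h1 (sq_nonneg _)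
    have := pow_eq_zero_iff (two_ne_zero) |>.1 this
    linarith
  refine ⟨h2, ?_⟩
  unfold mm
  rw [← h2]
  linarith

theorem Semi.th_firm (hg : Semi c0 C g) (s s' : ℝ) :
    (th c0 g s - th c0 g s') ^ 2 ≤ (s - s') * (th c0 g s - th c0 g s') := by
  have h1 := (hg.sub_th s).minty (hg.sub_th s')
  have e : ∀ s, mm c0 g s + (2 * c0 + 1) * th c0 g s = s := fun s => by unfold mm; ring
  rwa [e, e] at h1

theorem Semi.th_lip (hg : Semi c0 C g) (s s' : ℝ) :
    |th c0 g s - th c0 g s'| ≤ |s - s'| := by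
  have h := hg.th_firm s s'
  set d := th c0 g s - th c0 g s'
  have h1 : |d| * |d| ≤ |s - s'| * |d| := by
    rw [← abs_mul, ← abs_mul, abs_of_nonneg (mul_self_nonneg d)]
    calc d * d = d ^ 2 := by ring
      _ ≤ (s - s') * d := h
      _ ≤ |(s - s') * d| := le_abs_self _
  by_cases hd : |d| = 0
  · rw [hd]; exact abs_nonneg _
  · exact le_of_mul_le_mul_right h1 (lt_of_le_of_ne (abs_nonneg _) (Ne.symm hd))

theorem Semi.th_mono (hg : Semi c0 C g) : Monotone (th c0 g) := by
  intro s s' hs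
  by_contra hcon
  push Not at hcon
  have h := hg.th_firm s s'
  have h1 : 0 < th c0 g s - th c0 g s' := sub_pos.2 hcon
  have h2 : (s - s') * (th c0 g s - th c0 g s') ≤ 0 :=
    mul_nonpos_of_nonpos_of_nonneg (by linarith) h1.le
  have h3 : 0 < (th c0 g s - th c0 g s') ^ 2 := by positivity
  linarith

theorem Semi.mm_lip (hg : Semi c0 C g) (s s' : ℝ) :
    |mm c0 g s - mm c0 g s'| ≤ (2 * c0 + 2) * |s - s'| := by
  have h := hg.th_lip s s'
  have hc := hg.c0_nonneg
  have e : mm c0 g s - mm c0 g s' = (s - s') - (2 * c0 + 1) * (th c0 g s - th c0 g s') := by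
    unfold mm; ring
  rw [e]
  calc _ ≤ |s - s'| + |(2 * c0 + 1) * (th c0 g s - th c0 g s')| := abs_sub _ _
    _ = |s - s'| + (2 * c0 + 1) * |th c0 g s - th c0 g s'| := by
        rw [abs_mul, abs_of_nonneg (by positivity : 0 ≤ 2 * c0 + 1)]
    _ ≤ |s - s'| + (2 * c0 + 1) * |s - s'| := by gcongr
    _ = _ := by ring

theorem SubD.abs_le (hg : Semi c0 C g) {t m : ℝ} (h : SubD c0 g t m) : |m| ≤ C := by
  have hc := hg.c0_nonneg
  -- |m| δ - c0 δ² ≤ C δ
  have key : ∀ δ > 0, |m| ≤ C + c0 * δ := by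
    intro δ hδ
    rcases le_total 0 m with hm | hm
    · have h1 := h (t + δ)
      have h2 := (_root_.abs_le.1 (hg.lip (t + δ) t)).2
      rw [add_sub_cancel_left, abs_of_pos hδ] at h2
      rw [add_sub_cancel_left] at h1
      rw [abs_of_nonneg hm]
      have h3 : m * δ ≤ (C + c0 * δ) * δ := by nlinarith
      exact le_of_mul_le_mul_right h3 hδ
    · have h1 := h (t - δ)
      have h2 := (_root_.abs_le.1 (hg.lip (t - δ) t)).2
      have e : t - δ - t = -δ := by ring
      rw [e, abs_neg, abs_of_pos hδ] at h2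
      rw [e] at h1
      rw [abs_of_nonpos hm]
      have h3 : -m * δ ≤ (C + c0 * δ) * δ := by nlinarith
      exact le_of_mul_le_mul_right h3 hδ
  apply le_of_forall_pos_le_add
  intro ε hε
  have := key (ε / (c0 + 1)) (by positivity)
  have h2 : c0 * (ε / (c0 + 1)) ≤ ε := by
    rw [mul_div_assoc', div_le_iff₀ (by positivity)]
    nlinarith
  linarith

theorem SubD.shift (hg : Semi c0 C g) {t m : ℝ} (h : SubD c0 g t m) :
    SubD c0 g (t + 2 * Real.pi) m := by
  intro t'
  have h1 := h (t' - 2 * Real.pi)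
  have h2 : g (t' - 2 * Real.pi) = g t' := by
    have := hg.per (t' - 2 * Real.pi)
    rw [sub_add_cancel] at this
    exact this.symm
  rw [h2] at h1
  rw [hg.per]
  have e : t' - (t + 2 * Real.pi) = t' - 2 * Real.pi - t := by ring
  rw [e]
  exact h1

theorem Semi.th_per (hg : Semi c0 C g) (s : ℝ) :
    th c0 g (s + 2 * Real.pi * (2 * c0 + 1)) = th c0 g s + 2 * Real.pi ∧
    mm c0 g (s + 2 * Real.pi * (2 * c0 + 1)) = mm c0 g s := by
  have h := (hg.sub_th s).shift hg
  have h2 := hg.unique h (s := s + 2 * Real.pi * (2 * c0 + 1)) (by unfold mm; ring)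
  exact ⟨h2.1.symm, h2.2.symm⟩

theorem SubD.eq_deriv {t m d : ℝ} (h : SubD c0 g t m) (hd : HasDerivAt g d t) : m = d := by
  have h1 : HasDerivAt (fun t' => g t' - m * (t' - t) + c0 * (t' - t) ^ 2) (d - m) t := by
    have h2 : HasDerivAt (fun t' => m * (t' - t)) m t := by
      simpa using ((hasDerivAt_id t).sub_const t).const_mul m
    have h3 : HasDerivAt (fun t' => c0 * (t' - t) ^ 2) 0 t := by
      have := (((hasDerivAt_id t).sub_const t).pow 2).const_mul c0
      simpa using this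
    have := (hd.fun_sub h2).fun_add h3
    simpa using this
  have h4 : IsLocalMin (fun t' => g t' - m * (t' - t) + c0 * (t' - t) ^ 2) t := by
    filter_upwards with t'
    have := h t'
    simp only [sub_self, mul_zero, ne_eq, OfNat.ofNat_ne_zero, not_false_eq_true, zero_pow]
    linarith
  have := h4.hasDerivAt_eq_zero h1
  linarith

/-- derivative of `g ∘ th` -/
theorem Semi.comp_deriv (hg : Semi c0 C g) {s θ : ℝ} (hθ : HasDerivAt (th c0 g) θ s) :
    HasDerivAt (fun s => g (th c0 g s)) (mm c0 g s * θ) s := by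
  have h0 : HasDerivAt (fun s' => g (th c0 g s') - mm c0 g s * th c0 g s') 0 s := by
    have hO : (fun s' => (g (th c0 g s') - mm c0 g s * th c0 g s')
        - (g (th c0 g s) - mm c0 g s * th c0 g s)) =O[𝓝 s] fun s' => (s' - s) ^ 2 := by
      apply Asymptotics.IsBigO.of_bound (3 * c0 + 2)
      filter_upwards with s'
      rw [Real.norm_eq_abs, Real.norm_eq_abs, abs_of_nonneg (sq_nonneg (s' - s))]
      set u := th c0 g s'
      set u0 := th c0 g s
      have h1 := hg.sub_th s u
      have h2 := hg.sub_th s' u0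
      have h3 := hg.th_lip s' s
      have h4 := hg.mm_lip s' s
      have hc := hg.c0_nonneg
      have h5 : (u - u0) ^ 2 ≤ (s' - s) ^ 2 := by
        rw [← sq_abs (u - u0), ← sq_abs (s' - s)]
        exact pow_le_pow_left₀ (abs_nonneg _) h3 2
      have h6 : |(mm c0 g s' - mm c0 g s) * (u - u0)| ≤ (2 * c0 + 2) * (s' - s) ^ 2 := by
        rw [abs_mul]
        calc _ ≤ ((2 * c0 + 2) * |s' - s|) * |s' - s| := by gcongr
          _ = (2 * c0 + 2) * (s' - s) ^ 2 := by rw [← sq_abs (s' - s)]; ring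
      have h7 := abs_le.1 h6
      have h8 : c0 * (u - u0) ^ 2 ≤ c0 * (s' - s) ^ 2 := mul_le_mul_of_nonneg_left h5 hc
      have h9 : (u0 - u) ^ 2 = (u - u0) ^ 2 := by ring
      rw [_root_.abs_le]
      constructor
      · nlinarith [h1, sq_nonneg (s' - s)]
      · have : g u - g u0 ≤ mm c0 g s' * (u - u0) + c0 * (u - u0) ^ 2 := by
          have e : mm c0 g s' * (u0 - u) = -(mm c0 g s' * (u - u0)) := by ring
          rw [h9, e] at h2
          linarith
        nlinarith [this, h7.2, sq_nonneg (s' - s)]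
    have hF := Asymptotics.IsBigO.hasFDerivAt (𝕜 := ℝ) (x₀ := s) (n := 2)
      (f := fun s' => (g (th c0 g s') - mm c0 g s * th c0 g s')
        - (g (th c0 g s) - mm c0 g s * th c0 g s))
      (by
        refine hO.trans ?_
        apply Asymptotics.isBigO_of_le
        intro x
        rw [norm_pow, norm_pow, norm_norm]) (by norm_num)
    have h1 := hF.hasDerivAt
    have h2 := h1.add_const (g (th c0 g s) - mm c0 g s * th c0 g s)
    simpa using h2
  have h1 := h0.fun_add (hθ.const_mul (mm c0 g s))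
  simpa using h1

end Pool.Agent.Helper31.LS
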