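import Pool.Agent.Helper31.LS.Trig3
import Pool.Agent.Helper42.Fr.Defs
import Pool.Agent.Helper44.LS.Defs

set_option autoImplicit false

open MeasureTheory Filter Topology Set
open scoped ContDiff Convolution

namespace Pool.Agent.Helper31.LS

open Pool.Agent.Helper42.Fr

/-! ### from two-dimensional to one-dimensional test functions -/

theorem eta_contDiff : ContDiff ℝ (⊤ : ℕ∞) eta := bmp.contDiff_normed

theorem eta_hasCompactSupport : HasCompactSupport eta := bmp.hasCompactSupport_normed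

theorem eta_nonneg (x : ℝ) : 0 ≤ eta x := bmp.nonneg_normed x

theorem eta_integral : ∫ x, eta x = 1 := bmp.integral_normed

theorem dX_prod {χ ψ : ℝ → ℝ} (hχ : Differentiable ℝ χ) (hψ : Differentiable ℝ ψ) :
    dX (fun z => χ z.1 * ψ z.2) = fun z => deriv χ z.1 * ψ z.2 := by
  funext z
  unfold dX
  have h1 : HasFDerivAt (fun z : ℝ × ℝ => χ z.1) ((deriv χ z.1) • ContinuousLinearMap.fst ℝ ℝ ℝ) z :=
    (hχ z.1).hasDerivAt.comp_hasFDerivAt z hasFDerivAt_fst
  have h2 : HasFDerivAt (fun z : ℝ × ℝ => ψ z.2) ((deriv ψ z.2) • ContinuousLinearMap.snd ℝ ℝ ℝ) z :=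
    (hψ z.2).hasDerivAt.comp_hasFDerivAt z hasFDerivAt_snd
  have h3 : fderiv ℝ (fun z : ℝ × ℝ => χ z.1 * ψ z.2) z = _ := (h1.mul h2).fderiv
  rw [h3]
  simp
  ring

theorem dT_prod {χ ψ : ℝ → ℝ} (hχ : Differentiable ℝ χ) (hψ : Differentiable ℝ ψ) :
    dT (fun z => χ z.1 * ψ z.2) = fun z => χ z.1 * deriv ψ z.2 := by
  funext z
  unfold dT
  have h1 : HasFDerivAt (fun z : ℝ × ℝ => χ z.1) ((deriv χ z.1) • ContinuousLinearMap.fst ℝ ℝ ℝ) z :=
    (hχ z.1).hasDerivAt.comp_hasFDerivAt z hasFDerivAt_fst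
  have h2 : HasFDerivAt (fun z : ℝ × ℝ => ψ z.2) ((deriv ψ z.2) • ContinuousLinearMap.snd ℝ ℝ ℝ) z :=
    (hψ z.2).hasDerivAt.comp_hasFDerivAt z hasFDerivAt_snd
  have h3 : fderiv ℝ (fun z : ℝ × ℝ => χ z.1 * ψ z.2) z = _ := (h1.mul h2).fderiv
  rw [h3]
  simp

theorem contDiff_deriv' {χ : ℝ → ℝ} (hχ : ContDiff ℝ (⊤ : ℕ∞) χ) : ContDiff ℝ (⊤ : ℕ∞) (deriv χ) := by
  have : ContDiff ℝ ((⊤ : ℕ∞) + 1 : WithTop ℕ∞) χ := by simpa using hχ
  exact (contDiff_succ_iff_deriv.1 this).2.2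

theorem Lst_prod {ρ : ℝ} {χ ψ : ℝ → ℝ} (hχ : ContDiff ℝ (⊤ : ℕ∞) χ) (hψ : ContDiff ℝ (⊤ : ℕ∞) ψ)
    (z : ℝ × ℝ) : Lst ρ (fun z => χ z.1 * ψ z.2) z
      = deriv (deriv χ) z.1 * ψ z.2 + χ z.1 * deriv (deriv ψ) z.2
        - 2 * ρ * (deriv χ z.1 * ψ z.2) + ρ ^ 2 * (χ z.1 * ψ z.2) := by
  have hd : ∀ {u : ℝ → ℝ}, ContDiff ℝ (⊤ : ℕ∞) u → Differentiable ℝ u := fun h =>
    h.differentiable (by simp)
  unfold Lst
  rw [dX_prod (hd hχ) (hd hψ), dT_prod (hd hχ) (hd hψ),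
    dX_prod (hd (contDiff_deriv' hχ)) (hd hψ), dT_prod (hd hχ) (hd (contDiff_deriv' hψ))]

theorem integral_deriv_zero {χ : ℝ → ℝ} (hχ : ContDiff ℝ (⊤ : ℕ∞) χ) (hc : HasCompactSupport χ) :
    ∫ x, deriv χ x = 0 := by
  have h1 : ContDiff ℝ 1 χ := hχ.of_le (by exact_mod_cast le_top)
  have h2 := hc.integral_Ioi_deriv_eq h1 0
  have h3 := hc.integral_Iic_deriv_eq h1 0
  have hint : Integrable (deriv χ) :=
    (contDiff_deriv' hχ).continuous.integrable_of_hasCompactSupport hc.deriv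
  rw [← intervalIntegral.integral_Iic_add_Ioi (b := 0) hint.integrableOn hint.integrableOn, h2, h3]
  ring

theorem integral_prod_test {ρ : ℝ} {g : ℝ → ℝ} (hg : Continuous g) {ψ : ℝ → ℝ}
    (hψ : ContDiff ℝ (⊤ : ℕ∞) ψ) (hc : HasCompactSupport ψ) :
    ∫ z : ℝ × ℝ, g z.2 * Lst ρ (fun z => eta z.1 * ψ z.2) z
      = ∫ t, g t * (deriv (deriv ψ) t + ρ ^ 2 * ψ t) := by
  have hη := eta_contDiff
  have hηc := eta_hasCompactSupport
  have hη' := contDiff_deriv' hη
  have hη'' := contDiff_deriv' hη'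
  have hψ'' := contDiff_deriv' (contDiff_deriv' hψ)
  have i0 : Integrable eta := hη.continuous.integrable_of_hasCompactSupport hηc
  have i1 : Integrable (deriv eta) := hη'.continuous.integrable_of_hasCompactSupport hηc.deriv
  have i2 : Integrable (deriv (deriv eta)) :=
    hη''.continuous.integrable_of_hasCompactSupport hηc.deriv.deriv
  have j0 : Integrable (fun t => g t * ψ t) :=
    (hg.mul hψ.continuous).integrable_of_hasCompactSupport hc.mul_left
  have j2 : Integrable (fun t => g t * deriv (deriv ψ) t) :=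
    (hg.mul hψ''.continuous).integrable_of_hasCompactSupport hc.deriv.deriv.mul_left
  have e : (fun z : ℝ × ℝ => g z.2 * Lst ρ (fun z => eta z.1 * ψ z.2) z)
      = fun z => deriv (deriv eta) z.1 * (g z.2 * ψ z.2) + eta z.1 * (g z.2 * deriv (deriv ψ) z.2)
        - 2 * ρ * (deriv eta z.1 * (g z.2 * ψ z.2)) + ρ ^ 2 * (eta z.1 * (g z.2 * ψ z.2)) := by
    funext z
    rw [Lst_prod hη hψ]
    ring
  have k1 := i2.mul_prod j0
  have k2 := i0.mul_prod j2
  have k3 := (i1.mul_prod j0).const_mul (2 * ρ)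
  have k4 := (i0.mul_prod j0).const_mul (ρ ^ 2)
  have k12 : Integrable (fun z : ℝ × ℝ => deriv (deriv eta) z.1 * (g z.2 * ψ z.2)
      + eta z.1 * (g z.2 * deriv (deriv ψ) z.2)) (volume.prod volume) := k1.add k2
  have k123 : Integrable (fun z : ℝ × ℝ => deriv (deriv eta) z.1 * (g z.2 * ψ z.2)
      + eta z.1 * (g z.2 * deriv (deriv ψ) z.2) - 2 * ρ * (deriv eta z.1 * (g z.2 * ψ z.2)))
      (volume.prod volume) := k12.sub k3
  rw [e]
  rw [Measure.volume_eq_prod]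
  rw [integral_add k123 k4, integral_sub k12 k3, integral_add k1 k2,
    integral_const_mul, integral_const_mul]
  rw [integral_prod_mul (f := deriv (deriv eta)) (g := fun t => g t * ψ t),
    integral_prod_mul (f := eta) (g := fun t => g t * deriv (deriv ψ) t),
    integral_prod_mul (f := deriv eta) (g := fun t => g t * ψ t),
    integral_prod_mul (f := eta) (g := fun t => g t * ψ t),
    integral_deriv_zero hη hηc, integral_deriv_zero hη' hηc.deriv, eta_integral]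
  have e2 : (fun t => g t * (deriv (deriv ψ) t + ρ ^ 2 * ψ t))
      = fun t => g t * deriv (deriv ψ) t + ρ ^ 2 * (g t * ψ t) := by
    funext t; ring
  rw [e2, integral_add j2 (j0.const_mul _), integral_const_mul]
  ring

theorem isTest_prod {ψ : ℝ → ℝ} (hψ : ContDiff ℝ (⊤ : ℕ∞) ψ) (hc : HasCompactSupport ψ) :
    IsTest (fun z => eta z.1 * ψ z.2) := by
  constructor
  · exact (eta_contDiff.comp contDiff_fst).mul (hψ.comp contDiff_snd)
  · apply HasCompactSupport.intro (K := tsupport eta ×ˢ tsupport ψ)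
      (eta_hasCompactSupport.isCompact.prod hc.isCompact)
    intro z hz
    rw [mem_prod, not_and_or] at hz
    rcases hz with h | h
    · rw [image_eq_zero_of_notMem_tsupport h, zero_mul]
    · rw [image_eq_zero_of_notMem_tsupport h, mul_zero]

variable {ρ C : ℝ} {h g : ℝ → ℝ}

theorem lip1 (hg : InC ρ C h (fun z => g z.2)) (s t : ℝ) : |g s - g t| ≤ C * |s - t| := by
  have := hg.lip (0, s) (0, t)
  simpa using this

theorem C_nonneg (hg : InC ρ C h (fun z => g z.2)) : 0 ≤ C := (abs_nonneg _).trans (hg.bdd (0, 0))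

theorem cont1 (hg : InC ρ C h (fun z => g z.2)) : Continuous g := by
  have : LipschitzWith C.toNNReal g := by
    apply LipschitzWith.of_dist_le_mul
    intro x y
    rw [Real.dist_eq, Real.dist_eq, Real.coe_toNNReal _ (C_nonneg hg)]
    exact lip1 hg x y
  exact this.continuous

theorem oneD_sub (hg : InC ρ C h (fun z => g z.2)) {ψ : ℝ → ℝ}
    (hψ : ContDiff ℝ (⊤ : ℕ∞) ψ) (hc : HasCompactSupport ψ) (h0 : ∀ t, 0 ≤ ψ t) :
    0 ≤ ∫ t, g t * (deriv (deriv ψ) t + ρ ^ 2 * ψ t) := by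
  rw [← integral_prod_test (cont1 hg) hψ hc]
  exact hg.sub _ (isTest_prod hψ hc) (fun z => mul_nonneg (eta_nonneg _) (h0 _))

theorem oneD_harm (hg : InC ρ C h (fun z => g z.2)) {ψ : ℝ → ℝ}
    (hψ : ContDiff ℝ (⊤ : ℕ∞) ψ) (hc : HasCompactSupport ψ) (h0 : ∀ t, 0 ≤ ψ t)
    (hs : tsupport ψ ⊆ {t | g t < h t}) :
    ∫ t, g t * (deriv (deriv ψ) t + ρ ^ 2 * ψ t) = 0 := by
  rw [← integral_prod_test (cont1 hg) hψ hc]
  refine hg.harm _ (isTest_prod hψ hc) (fun z => mul_nonneg (eta_nonneg _) (h0 _)) ?_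
  intro z hz
  have h1 : tsupport (fun z : ℝ × ℝ => eta z.1 * ψ z.2) ⊆ Prod.snd ⁻¹' (tsupport ψ) := by
    apply closure_minimal _ ((isClosed_tsupport ψ).preimage continuous_snd)
    intro w hw
    apply subset_tsupport
    rw [Function.mem_support] at hw ⊢
    exact right_ne_zero_of_mul hw
  exact hs (h1 hz)

end Pool.Agent.Helper31.LS
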