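import Mathlib

set_option autoImplicit false

open MeasureTheory Filter Topology Set

namespace Pool.Agent.Helper31.LS

/-- Sard for Lipschitz functions on the line. -/
theorem lipschitz_sard {r : ℝ → ℝ} {K : NNReal} (hr : LipschitzWith K r) :
    ∀ᵐ t0 : ℝ, ∀ s, r s = t0 → DifferentiableAt ℝ r s ∧ deriv r s ≠ 0 := by
  have h1 : volume (r '' {s | ¬ DifferentiableAt ℝ r s}) = 0 := by
    have h0 : volume {s | ¬ DifferentiableAt ℝ r s} = 0 := by
      have := hr.ae_differentiableAt_real
      rwa [ae_iff] at this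
    have h := hr.hausdorffMeasure_image_le (d := 1) zero_le_one {s | ¬ DifferentiableAt ℝ r s}
    rw [hausdorffMeasure_real, h0, mul_zero] at h
    exact le_antisymm h (by positivity)
  have h2 : volume (r '' {s | DifferentiableAt ℝ r s ∧ deriv r s = 0}) = 0 := by
    apply addHaar_image_eq_zero_of_det_fderivWithin_eq_zero (f' := fun s => fderiv ℝ r s)
    · intro s hs
      exact hs.1.hasFDerivAt.hasFDerivWithinAt
    · intro s hs
      have : fderiv ℝ r s = 0 := by
        ext
        simpa using hs.2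
      rw [this]
      simp
  have h3 : volume (r '' {s | ¬ DifferentiableAt ℝ r s} ∪
      r '' {s | DifferentiableAt ℝ r s ∧ deriv r s = 0}) = 0 := measure_union_null h1 h2
  filter_upwards [measure_eq_zero_iff_ae_notMem.1 h3] with t0 ht s hs
  by_contra hcon
  apply ht
  by_cases hd : DifferentiableAt ℝ r s
  · right
    refine ⟨s, ⟨hd, ?_⟩, hs⟩
    by_contra h
    exact hcon ⟨hd, h⟩
  · left
    exact ⟨s, hd, hs⟩

/-- telescoping over finitely many disjoint gaps -/
theorem telescope {f : ℝ → ℂ} (hf : ∀ s, f s ≠ 0) {η : ℝ} (hη : 0 < η) (F : Finset ℝ) :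
    ∀ (a b : ℝ), a ≤ b → (∀ s ∈ F, a < s - η ∧ s + η < b) →
      (∀ s ∈ F, ∀ s' ∈ F, s < s' → s + η < s' - η) →
      (∀ x y, a ≤ x → x ≤ y → y ≤ b → (∀ s ∈ F, ∀ u ∈ Icc x y, u ∉ Ioo (s - η) (s + η)) →
        f x = f y) →
      f b = f a * ∏ s ∈ F, (f (s + η) * (f (s - η))⁻¹) := by
  induction F using Finset.induction_on_max with
  | empty =>
    intro a b hab _ _ h
    simp only [Finset.prod_empty, mul_one]
    exact (h a b le_rfl hab le_rfl (by simp)).symm
  | insert m F hm ih =>
    intro a b hab hF hsep h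
    have hmF : m ∉ F := fun hmem => lt_irrefl _ (hm m hmem)
    have hmb := hF m (Finset.mem_insert_self m F)
    have h1 := ih a (m - η) hmb.1.le
      (fun s hs => ⟨(hF s (Finset.mem_insert_of_mem hs)).1,
        hsep s (Finset.mem_insert_of_mem hs) m (Finset.mem_insert_self m F) (hm s hs)⟩)
      (fun s hs s' hs' hss => hsep s (Finset.mem_insert_of_mem hs) s'
        (Finset.mem_insert_of_mem hs') hss)
      (fun x y hx hxy hy hav => h x y hx hxy (by linarith) (by
        intro s hs u hu hmem
        rcases Finset.mem_insert.1 hs with rfl | hs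
        · have h1 := hmem.1
          have h2 := hu.2
          linarith
        · exact hav s hs u hu hmem))
    have h2 : f (m + η) = f b := h (m + η) b (by linarith) (by linarith) le_rfl (by
      intro s hs u hu hmem
      rcases Finset.mem_insert.1 hs with rfl | hs
      · have h1 := hmem.2
        have h2 := hu.1
        linarith
      · have h3 := hsep s (Finset.mem_insert_of_mem hs) m (Finset.mem_insert_self m F) (hm s hs)
        have h1 := hmem.2
        have h2 := hu.1
        linarith)
    rw [Finset.prod_insert hmF, ← h2]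
    rw [h1]
    have h4 : f (m - η) ≠ 0 := hf _
    rw [← h1]
    rw [mul_comm (f (m + η) * (f (m - η))⁻¹), ← mul_assoc, ← h1]
    field_simp

/-- products of unit numbers close to each other -/
theorem norm_prod_sub_prod_le {ι : Type*} (F : Finset ι) (a b : ι → ℂ)
    (ha : ∀ i ∈ F, ‖a i‖ ≤ 1) (hb : ∀ i ∈ F, ‖b i‖ ≤ 1) :
    ‖∏ i ∈ F, a i - ∏ i ∈ F, b i‖ ≤ ∑ i ∈ F, ‖a i - b i‖ := by
  classical
  induction F using Finset.induction_on with
  | empty => simp
  | insert i F hi ih =>
    rw [Finset.prod_insert hi, Finset.prod_insert hi, Finset.sum_insert hi]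
    have e : a i * ∏ i ∈ F, a i - b i * ∏ i ∈ F, b i
        = (a i - b i) * ∏ i ∈ F, a i + b i * (∏ i ∈ F, a i - ∏ i ∈ F, b i) := by ring
    rw [e]
    have h1 : ‖∏ i ∈ F, a i‖ ≤ 1 := by
      rw [norm_prod]
      exact Finset.prod_le_one (fun i _ => norm_nonneg _)
        (fun j hj => ha j (Finset.mem_insert_of_mem hj))
    have h2 := ih (fun j hj => ha j (Finset.mem_insert_of_mem hj))
      (fun j hj => hb j (Finset.mem_insert_of_mem hj))
    calc _ ≤ ‖(a i - b i) * ∏ i ∈ F, a i‖ + ‖b i * (∏ i ∈ F, a i - ∏ i ∈ F, b i)‖ :=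
          norm_add_le _ _
      _ ≤ ‖a i - b i‖ * 1 + 1 * ∑ i ∈ F, ‖a i - b i‖ := by
          rw [norm_mul, norm_mul]
          gcongr
          exact hb i (Finset.mem_insert_self i F)
      _ = _ := by ring

end Pool.Agent.Helper31.LS
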