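import Pool.Agent.Helper42.Fr.Defs
import Pool.Agent.Helper44.LS.Defs

set_option autoImplicit false

open MeasureTheory Filter Topology Set

namespace Pool.Agent.Helper31.LS

open Pool.Agent.LS Pool.Agent.Helper42.Fr

variable {ρ M : ℝ} {h : ℝ → ℝ}

theorem sin_lower {x : ℝ} (h1 : Real.pi / 4 ≤ x) (h2 : x ≤ Real.pi / 2) : 1 / 2 ≤ Real.sin x := by
  have hπ := Real.pi_pos
  have h3 : Real.sin (Real.pi / 6) ≤ Real.sin x := by
    apply Real.sin_le_sin_of_le_of_le_pi_div_two <;> linarith
  rwa [Real.sin_pi_div_six] at h3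

/-- local Lipschitz estimate for a bounded trigonometrically convex function -/
theorem TrigConvex.lip_local (hρ : 0 < ρ) (hh : TrigConvex ρ h) (hM : ∀ t, |h t| ≤ M) {a b : ℝ}
    (hab : a < b) (hr : b - a ≤ Real.pi / (4 * ρ)) : |h b - h a| ≤ 4 * M * ρ * (b - a) := by
  have hπ := Real.pi_pos
  have hM0 : 0 ≤ M := (abs_nonneg _).trans (hM 0)
  set r := Real.pi / (4 * ρ) with hrdef
  have hr0 : 0 < r := by positivity
  have hρr : ρ * r = Real.pi / 4 := by rw [hrdef]; field_simp
  have hπρ : Real.pi / ρ = 4 * r := by rw [hrdef]; field_simp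
  have hsba : |Real.sin (ρ * (b - a))| ≤ ρ * (b - a) := by
    have := Real.abs_sin_sub_sin_le (ρ * (b - a)) 0
    rw [Real.sin_zero, sub_zero, sub_zero, abs_of_pos (mul_pos hρ (by linarith) : 0 < ρ * (b - a))] at this
    exact this
  have hba : 0 ≤ ρ * (b - a) := by
    have : 0 < b - a := by linarith
    positivity
  rw [abs_le]
  constructor
  · -- h a - h b
    have h3 := hh (a - r) a b (by linarith) hab (by rw [hπρ]; linarith)
    have e1 : Real.sin (ρ * (a - (a - r))) = Real.sin (ρ * r) := by ring_nf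
    have hs := sin_lower (x := ρ * (b - (a - r))) (by nlinarith) (by nlinarith)
    have hd : |Real.sin (ρ * (a - (a - r))) - Real.sin (ρ * (b - (a - r)))| ≤ ρ * (b - a) := by
      refine (Real.abs_sin_sub_sin_le _ _).trans ?_
      rw [← mul_sub, abs_mul, abs_of_pos hρ]
      have : a - (a - r) - (b - (a - r)) = -(b - a) := by ring
      rw [this, abs_neg, abs_of_pos (by linarith)]
    have h4 : (h a - h b) * Real.sin (ρ * (b - (a - r)))
        ≤ h (a - r) * Real.sin (ρ * (b - a))
          + h b * (Real.sin (ρ * (a - (a - r))) - Real.sin (ρ * (b - (a - r)))) := by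
      linarith
    have h5 : h (a - r) * Real.sin (ρ * (b - a)) ≤ M * (ρ * (b - a)) := by
      refine (le_abs_self _).trans ?_
      rw [abs_mul]
      exact mul_le_mul (hM _) hsba (abs_nonneg _) hM0
    have h6 : h b * (Real.sin (ρ * (a - (a - r))) - Real.sin (ρ * (b - (a - r))))
        ≤ M * (ρ * (b - a)) := by
      refine (le_abs_self _).trans ?_
      rw [abs_mul]
      exact mul_le_mul (hM _) hd (abs_nonneg _) hM0
    by_contra hcon
    push Not at hcon
    have h7 : 4 * M * ρ * (b - a) < h a - h b := by linarith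
    have h8 : 0 ≤ M * (ρ * (b - a)) := by positivity
    have h9 : (h a - h b) * (1 / 2) ≤ (h a - h b) * Real.sin (ρ * (b - (a - r))) :=
      mul_le_mul_of_nonneg_left hs (by nlinarith)
    nlinarith
  · have h3 := hh a b (b + r) hab (by linarith) (by rw [hπρ]; linarith)
    have hs := sin_lower (x := ρ * (b + r - a)) (by nlinarith) (by nlinarith)
    have hd : |Real.sin (ρ * (b + r - b)) - Real.sin (ρ * (b + r - a))| ≤ ρ * (b - a) := by
      refine (Real.abs_sin_sub_sin_le _ _).trans ?_
      rw [← mul_sub, abs_mul, abs_of_pos hρ]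
      have : b + r - b - (b + r - a) = -(b - a) := by ring
      rw [this, abs_neg, abs_of_pos (by linarith)]
    have h4 : (h b - h a) * Real.sin (ρ * (b + r - a))
        ≤ h a * (Real.sin (ρ * (b + r - b)) - Real.sin (ρ * (b + r - a)))
          + h (b + r) * Real.sin (ρ * (b - a)) := by
      linarith
    have h5 : h (b + r) * Real.sin (ρ * (b - a)) ≤ M * (ρ * (b - a)) := by
      refine (le_abs_self _).trans ?_
      rw [abs_mul]
      exact mul_le_mul (hM _) hsba (abs_nonneg _) hM0
    have h6 : h a * (Real.sin (ρ * (b + r - b)) - Real.sin (ρ * (b + r - a)))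
        ≤ M * (ρ * (b - a)) := by
      refine (le_abs_self _).trans ?_
      rw [abs_mul]
      exact mul_le_mul (hM _) hd (abs_nonneg _) hM0
    by_contra hcon
    push Not at hcon
    have h8 : 0 ≤ M * (ρ * (b - a)) := by positivity
    have h9 : (h b - h a) * (1 / 2) ≤ (h b - h a) * Real.sin (ρ * (b + r - a)) :=
      mul_le_mul_of_nonneg_left hs (by nlinarith)
    nlinarith

theorem TrigConvex.lip (hρ : 0 < ρ) (hh : TrigConvex ρ h) (hM : ∀ t, |h t| ≤ M) (s t : ℝ) :
    |h s - h t| ≤ 4 * M * ρ * |s - t| := by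
  have hM0 : 0 ≤ M := (abs_nonneg _).trans (hM 0)
  have hπ := Real.pi_pos
  wlog hst : t < s generalizing s t
  · rcases lt_or_eq_of_le (not_lt.1 hst) with h1 | h1
    · rw [abs_sub_comm (h s), abs_sub_comm s]
      exact this t s h1
    · rw [h1]; simp
  rw [abs_of_pos (sub_pos.2 hst)]
  by_cases hr : s - t ≤ Real.pi / (4 * ρ)
  · exact TrigConvex.lip_local hρ hh hM hst hr
  · push Not at hr
    have h1 : |h s - h t| ≤ 2 * M := by
      refine (abs_sub _ _).trans ?_
      linarith [hM s, hM t]
    have h2 : 2 * M ≤ 4 * M * ρ * (Real.pi / (4 * ρ)) := by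
      have e : 4 * M * ρ * (Real.pi / (4 * ρ)) = M * Real.pi := by field_simp
      rw [e]
      have : (2:ℝ) ≤ Real.pi := Real.two_le_pi
      nlinarith
    have h3 : 4 * M * ρ * (Real.pi / (4 * ρ)) ≤ 4 * M * ρ * (s - t) := by
      apply mul_le_mul_of_nonneg_left hr.le (by positivity)
    linarith

/-- midpoint inequality -/
theorem TrigConvex.mid (hρ : 0 < ρ) (hh : TrigConvex ρ h) (t : ℝ) {s : ℝ} (hs0 : 0 ≤ s)
    (hs : s < Real.pi / (2 * ρ)) : 2 * h t * Real.cos (ρ * s) ≤ h (t - s) + h (t + s) := by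
  rcases hs0.eq_or_lt with rfl | hs0
  · simp; linarith
  have hπ := Real.pi_pos
  have h2 : 2 * s < Real.pi / ρ := by
    have : Real.pi / ρ = 2 * (Real.pi / (2 * ρ)) := by field_simp
    linarith
  have h3 := hh (t - s) t (t + s) (by linarith) (by linarith) (by linarith)
  have e1 : ρ * (t + s - (t - s)) = 2 * (ρ * s) := by ring
  have e2 : ρ * (t + s - t) = ρ * s := by ring
  have e3 : ρ * (t - (t - s)) = ρ * s := by ring
  rw [e1, e2, e3, Real.sin_two_mul] at h3
  have hsin : 0 < Real.sin (ρ * s) := by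
    apply Real.sin_pos_of_pos_of_lt_pi (by positivity)
    have : ρ * s < ρ * (Real.pi / (2 * ρ)) := mul_lt_mul_of_pos_left hs hρ
    have e : ρ * (Real.pi / (2 * ρ)) = Real.pi / 2 := by field_simp
    linarith
  have h4 : (2 * h t * Real.cos (ρ * s)) * Real.sin (ρ * s)
      ≤ (h (t - s) + h (t + s)) * Real.sin (ρ * s) := by linarith
  exact le_of_mul_le_mul_right h4 hsin

/-- continuous and locally midpoint convex implies convex -/
theorem convexOn_of_mid {F : ℝ → ℝ} (hF : Continuous F) {r : ℝ} (hr : 0 < r)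
    (hmid : ∀ t s, 0 ≤ s → s < r → 2 * F t ≤ F (t - s) + F (t + s)) : ConvexOn ℝ univ F := by
  refine ⟨convex_univ, fun x _ y _ a b ha hb hab => ?_⟩
  -- wlog x < y
  wlog hxy : x < y generalizing x y a b
  · rcases lt_or_eq_of_le (not_lt.1 hxy) with h1 | h1
    · have := this (x := y) (y := x) (by trivial) (by trivial) (a := b) (b := a) hb ha
        (by rw [add_comm]; exact hab) h1
      rw [add_comm (a • x), add_comm (a • F x)]
      exact this
    · subst h1
      rw [← add_smul, ← add_smul, hab, one_smul, one_smul]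
  set G : ℝ → ℝ := fun t => F t - (F x + (F y - F x) / (y - x) * (t - x)) with hG
  have hGc : Continuous G := by fun_prop
  have hGx : G x = 0 := by simp [hG]
  have hGy : G y = 0 := by
    simp only [hG]
    have : y - x ≠ 0 := by linarith
    field_simp
    ring
  have hGmid : ∀ t s, 0 ≤ s → s < r → 2 * G t ≤ G (t - s) + G (t + s) := by
    intro t s h1 h2
    have := hmid t s h1 h2
    simp only [hG]
    linarith
  have hle : ∀ t ∈ Icc x y, G t ≤ 0 := by
    by_contra hcon
    push Not at hcon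
    obtain ⟨t0, ht0, hpos⟩ := hcon
    obtain ⟨t1, ht1, hmax⟩ := (isCompact_Icc (a := x) (b := y)).exists_isMaxOn
      ⟨t0, ht0⟩ hGc.continuousOn
    set m := G t1 with hm
    have hmpos : 0 < m := hpos.trans_le (hmax ht0)
    -- smallest maximum point
    have hKc : IsCompact (Icc x y ∩ G ⁻¹' {m}) :=
      (isCompact_Icc).inter_right (isClosed_singleton.preimage hGc)
    obtain ⟨t2, ht2, hleast⟩ := hKc.exists_isLeast ⟨t1, ht1, rfl⟩
    have hGt2 : G t2 = m := ht2.2
    have hxt2 : x < t2 := by
      rcases ht2.1.1.eq_or_lt with h1 | h1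
      · rw [← h1, hGx] at hGt2; linarith
      · exact h1
    have ht2y : t2 < y := by
      rcases ht2.1.2.eq_or_lt with h1 | h1
      · rw [h1, hGy] at hGt2; linarith
      · exact h1
    obtain ⟨s, hs0, hs1, hs2, hs3⟩ : ∃ s, 0 < s ∧ s < r ∧ x ≤ t2 - s ∧ t2 + s ≤ y := by
      refine ⟨min (r / 2) (min (t2 - x) (y - t2)), ?_, ?_, ?_, ?_⟩
      · have h1 : 0 < t2 - x := by linarith
        have h2 : 0 < y - t2 := by linarith
        positivity
      · exact (min_le_left _ _).trans_lt (by linarith)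
      · have := (min_le_right (r / 2) (min (t2 - x) (y - t2))).trans (min_le_left _ _)
        linarith
      · have := (min_le_right (r / 2) (min (t2 - x) (y - t2))).trans (min_le_right _ _)
        linarith
    have h1 := hGmid t2 s hs0.le hs1
    have h2 : G (t2 + s) ≤ m := hmax ⟨by linarith, hs3⟩
    have h3 : G (t2 - s) ≤ m := hmax ⟨hs2, by linarith⟩
    have h4 : G (t2 - s) = m := by linarith
    have h5 := hleast ⟨⟨hs2, by linarith⟩, h4⟩
    linarith
  have hpt : a • x + b • y ∈ Icc x y := by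
    simp only [smul_eq_mul]
    have e : a = 1 - b := by linarith
    subst e
    constructor <;> nlinarith
  have := hle _ hpt
  simp only [hG, smul_eq_mul] at this ⊢
  have hyx : y - x ≠ 0 := by linarith
  have e : (F y - F x) / (y - x) * (a * x + b * y - x) = b * (F y - F x) := by
    have e' : a = 1 - b := by linarith
    subst e'
    field_simp
    ring
  rw [e] at this
  have e' : a = 1 - b := by linarith
  subst e'
  linarith

theorem TrigConvex.convex (hρ : 0 < ρ) (hh : TrigConvex ρ h) (hM : ∀ t, |h t| ≤ M) :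
    ConvexOn ℝ univ (fun t => h t + ρ ^ 2 * M / 2 * t ^ 2) := by
  have hM0 : 0 ≤ M := (abs_nonneg _).trans (hM 0)
  have hπ := Real.pi_pos
  have hc : Continuous h := by
    have : LipschitzWith (4 * M * ρ).toNNReal h := by
      apply LipschitzWith.of_dist_le_mul
      intro x y
      rw [Real.dist_eq, Real.dist_eq, Real.coe_toNNReal _ (by positivity)]
      exact TrigConvex.lip hρ hh hM x y
    exact this.continuous
  apply convexOn_of_mid (r := Real.pi / (2 * ρ)) (by fun_prop) (by positivity)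
  intro t s hs0 hs
  have h1 := TrigConvex.mid hρ hh t hs0 hs
  have h2 := Real.one_sub_sq_div_two_le_cos (x := ρ * s)
  have h3 : h t * (1 - Real.cos (ρ * s)) ≤ M * ((ρ * s) ^ 2 / 2) := by
    have h4 : 0 ≤ 1 - Real.cos (ρ * s) := by linarith [Real.cos_le_one (ρ * s)]
    calc h t * (1 - Real.cos (ρ * s)) ≤ M * (1 - Real.cos (ρ * s)) :=
          mul_le_mul_of_nonneg_right ((le_abs_self _).trans (hM t)) h4
      _ ≤ M * ((ρ * s) ^ 2 / 2) := by
          apply mul_le_mul_of_nonneg_left _ hM0
          linarith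
  nlinarith

/-- trigonometrically convex periodic functions are bounded -/
theorem TrigConvex.bounded (hρ : 0 < ρ) (hh : TrigConvex ρ h)
    (hper : ∀ t, h (t + 2 * Real.pi) = h t) : ∃ M, 0 ≤ M ∧ ∀ t, |h t| ≤ M := by
  have hπ := Real.pi_pos
  set r := Real.pi / (4 * ρ) with hrdef
  have hr0 : 0 < r := by positivity
  have hρr : ρ * r = Real.pi / 4 := by rw [hrdef]; field_simp
  have hπρ : Real.pi / ρ = 4 * r := by rw [hrdef]; field_simp
  -- a finite grid
  obtain ⟨N, hN⟩ : ∃ N : ℕ, 2 * Real.pi ≤ N * r := by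
    obtain ⟨N, hN⟩ := exists_nat_ge (2 * Real.pi / r)
    exact ⟨N, by rwa [div_le_iff₀ hr0] at hN⟩
  set M0 : ℝ := ∑ i ∈ Finset.range (N + 4), |h (i * r)| with hM0def
  have hM0 : ∀ i : ℕ, i < N + 4 → |h (i * r)| ≤ M0 := by
    intro i hi
    exact Finset.single_le_sum (f := fun i : ℕ => |h (i * r)|) (fun _ _ => abs_nonneg _)
      (Finset.mem_range.2 hi)
  have hM00 : 0 ≤ M0 := Finset.sum_nonneg fun _ _ => abs_nonneg _
  -- upper bound between consecutive grid points (step i, i+2)
  have hup : ∀ i : ℕ, i + 2 < N + 4 → ∀ t, i * r ≤ t → t ≤ (i + 2) * r → h t ≤ 4 * M0 := by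
    intro i hi t ht1 ht2
    have g1 := hM0 i (by omega)
    have g2 := hM0 (i + 2) hi
    push_cast at g2
    rcases ht1.eq_or_lt with h1 | h1
    · rw [← h1]; linarith [le_abs_self (h (i * r))]
    rcases ht2.eq_or_lt with h2 | h2
    · rw [h2]; linarith [le_abs_self (h ((i + 2) * r))]
    have h3 := hh (i * r) t ((i + 2) * r) h1 h2 (by rw [hπρ]; nlinarith)
    have e : ρ * ((i + 2) * r - i * r) = Real.pi / 2 := by
      have : ρ * ((i + 2) * r - i * r) = 2 * (ρ * r) := by ring
      rw [this, hρr]; ring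
    rw [e, Real.sin_pi_div_two, mul_one] at h3
    have h4 : h (i * r) * Real.sin (ρ * ((i + 2) * r - t)) ≤ M0 * 1 := by
      refine (le_abs_self _).trans ?_
      rw [abs_mul]
      exact mul_le_mul g1 (Real.abs_sin_le_one _) (abs_nonneg _) hM00
    have h5 : h ((i + 2) * r) * Real.sin (ρ * (t - i * r)) ≤ M0 * 1 := by
      refine (le_abs_self _).trans ?_
      rw [abs_mul]
      exact mul_le_mul g2 (Real.abs_sin_le_one _) (abs_nonneg _) hM00
    linarith
  -- for t in [0, 2π]
  have hmain : ∀ t ∈ Icc (0:ℝ) (2 * Real.pi), |h t| ≤ 6 * M0 := by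
    intro t ht
    set i := ⌊t / r⌋₊ with hi
    have h1 : (i : ℝ) * r ≤ t := by
      have := Nat.floor_le (div_nonneg ht.1 hr0.le)
      rwa [le_div_iff₀ hr0] at this
    have h2 : t < (i + 1) * r := by
      have := Nat.lt_floor_add_one (t / r)
      rwa [div_lt_iff₀ hr0] at this
    have hiN : i ≤ N := by
      have : (i : ℝ) * r ≤ N * r := h1.trans (ht.2.trans hN)
      exact_mod_cast le_of_mul_le_mul_right this hr0
    have hu := hup i (by omega) t h1 (by nlinarith)
    rw [abs_le]
    refine ⟨?_, by linarith⟩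
    -- lower bound by the midpoint inequality at the grid point (i+1) r
    have g := hM0 (i + 1) (by omega)
    push_cast at g
    have hs0 : 0 ≤ (i + 1) * r - t := by linarith
    have hs1 : (i + 1) * r - t < Real.pi / (2 * ρ) := by
      have e : Real.pi / (2 * ρ) = 2 * r := by rw [hrdef]; field_simp; norm_num
      rw [e]; nlinarith
    have hm := TrigConvex.mid hρ hh ((i + 1) * r) hs0 hs1
    have e1 : (i + 1) * r - ((i + 1) * r - t) = t := by ring
    rw [e1] at hm
    have hu2 := hup (i + 1) (by omega) ((i + 1) * r + ((i + 1) * r - t)) (by push_cast; linarith)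
      (by push_cast; nlinarith)
    have hcos : |2 * h ((i + 1) * r) * Real.cos (ρ * ((i + 1) * r - t))| ≤ 2 * M0 * 1 := by
      rw [abs_mul, abs_mul, abs_two]
      exact mul_le_mul (mul_le_mul_of_nonneg_left g (by norm_num)) (Real.abs_cos_le_one _)
        (abs_nonneg _) (by positivity)
    have := (abs_le.1 hcos).1
    linarith
  refine ⟨6 * M0, by positivity, fun t => ?_⟩
  have hp : Function.Periodic h (2 * Real.pi) := hper
  obtain ⟨y, hy, hys⟩ := hp.exists_mem_Ico₀ (by positivity) t
  rw [hys]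
  exact hmain y ⟨hy.1, hy.2.le⟩

/-- all requirements of `IndH` follow from trigonometric convexity and periodicity -/
theorem exists_IndH (hρ : 0 < ρ) (hh : TrigConvex ρ h) (hper : ∀ t, h (t + 2 * Real.pi) = h t) :
    ∃ C₀, 1 ≤ C₀ ∧ ∀ C, C₀ ≤ C → IndH ρ C h := by
  obtain ⟨M, hM0, hM⟩ := TrigConvex.bounded hρ hh hper
  refine ⟨max 1 (max M (4 * M * ρ)), le_max_left _ _, fun C hC => ?_⟩
  have h1 : 1 ≤ C := (le_max_left _ _).trans hC
  have h2 : M ≤ C := ((le_max_left _ _).trans (le_max_right _ _)).trans hC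
  have h3 : 4 * M * ρ ≤ C := ((le_max_right _ _).trans (le_max_right _ _)).trans hC
  refine ⟨hρ, h1, fun t => (hM t).trans h2, fun s t => ?_, hper, ?_⟩
  · exact (TrigConvex.lip hρ hh hM s t).trans (mul_le_mul_of_nonneg_right h3 (abs_nonneg _))
  · exact TrigConvex.convex hρ hh (fun t => (hM t).trans h2)

end Pool.Agent.Helper31.LS
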