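import Mathlib

set_option autoImplicit false

open MeasureTheory Filter Topology Set

namespace Pool.Agent.Helper31.LS

/-- three point inequality for smooth functions -/
theorem trig3_of_smooth {ρ : ℝ} (hρ : 0 < ρ) {u : ℝ → ℝ} (hu : ContDiff ℝ 2 u) {a b c : ℝ}
    (hab : a < b) (hbc : b < c) (hac : c - a < Real.pi / ρ)
    (h : ∀ t ∈ Icc a c, 0 ≤ deriv (deriv u) t + ρ ^ 2 * u t) :
    u b * Real.sin (ρ * (c - a)) ≤ u a * Real.sin (ρ * (c - b)) + u c * Real.sin (ρ * (b - a)) := by
  have hρac : ρ * (c - a) < Real.pi := by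
    have := mul_lt_mul_of_pos_left hac hρ
    rwa [mul_div_cancel₀ _ hρ.ne'] at this
  have hρac0 : 0 < ρ * (c - a) := by
    have : 0 < c - a := by linarith
    positivity
  set S : ℝ := Real.sin (ρ * (c - a)) with hS
  have hSpos : 0 < S := Real.sin_pos_of_pos_of_lt_pi hρac0 hρac
  set d : ℝ := (Real.pi - ρ * (c - a)) / 2 with hd
  have hd0 : 0 < d := by rw [hd]; linarith
  -- first and second derivatives of u
  have hu1 : ∀ t, HasDerivAt u (deriv u t) t := fun t =>
    (hu.differentiable (by norm_num)).differentiableAt.hasDerivAt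
  have hu' : ContDiff ℝ 1 (deriv u) := by
    have : ContDiff ℝ (1 + 1) u := by simpa [one_add_one_eq_two] using hu
    exact (contDiff_succ_iff_deriv.1 this).2.2
  have hu2 : ∀ t, HasDerivAt (deriv u) (deriv (deriv u) t) t := fun t =>
    (hu'.differentiable (by norm_num)).differentiableAt.hasDerivAt
  -- v = S u - interpolating sinusoid
  set v : ℝ → ℝ := fun t => S * u t - (u a * Real.sin (ρ * (c - t)) + u c * Real.sin (ρ * (t - a)))
    with hv
  set v' : ℝ → ℝ := fun t => S * deriv u t
    - (u a * (Real.cos (ρ * (c - t)) * (-ρ)) + u c * (Real.cos (ρ * (t - a)) * ρ)) with hv'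
  set v'' : ℝ → ℝ := fun t => S * deriv (deriv u) t
    - (u a * (-Real.sin (ρ * (c - t)) * (-ρ) * (-ρ)) + u c * (-Real.sin (ρ * (t - a)) * ρ * ρ)) with hv''
  have hl1 : ∀ t, HasDerivAt (fun t => ρ * (c - t)) (-ρ) t := by
    intro t
    have := ((hasDerivAt_id t).const_sub c).const_mul ρ
    simpa using this
  have hl2 : ∀ t, HasDerivAt (fun t => ρ * (t - a)) ρ t := by
    intro t
    have := ((hasDerivAt_id t).sub_const a).const_mul ρ
    simpa using this
  have hvd : ∀ t, HasDerivAt v (v' t) t := by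
    intro t
    exact ((hu1 t).const_mul S).sub ((((hl1 t).sin).const_mul (u a)).add
      (((hl2 t).sin).const_mul (u c)))
  have hv'd : ∀ t, HasDerivAt v' (v'' t) t := by
    intro t
    exact ((hu2 t).const_mul S).sub (((((hl1 t).cos).mul_const (-ρ)).const_mul (u a)).add
      ((((hl2 t).cos).mul_const ρ).const_mul (u c)))
  have hveq : ∀ t, v'' t + ρ ^ 2 * v t = S * (deriv (deriv u) t + ρ ^ 2 * u t) := by
    intro t
    simp only [hv, hv'']
    ring
  have hva : v a = 0 := by
    simp only [hv, hS, sub_self, mul_zero, Real.sin_zero, add_zero]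
    ring
  have hvc : v c = 0 := by
    simp only [hv, hS, sub_self, mul_zero, Real.sin_zero, zero_add]
    ring
  set w : ℝ → ℝ := fun t => Real.sin (ρ * (t - a) + d) with hw
  set w' : ℝ → ℝ := fun t => Real.cos (ρ * (t - a) + d) * ρ with hw'
  have hwd : ∀ t, HasDerivAt w (w' t) t := fun t => ((hl2 t).add_const d).sin
  have hw'd : ∀ t, HasDerivAt w' (-ρ ^ 2 * w t) t := by
    intro t
    have := ((((hl2 t).add_const d).cos).mul_const ρ)
    convert! this using 1
    simp only [hw]
    ring
  have hwpos : ∀ t ∈ Icc a c, 0 < w t := by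
    intro t ht
    apply Real.sin_pos_of_pos_of_lt_pi
    · have : 0 ≤ ρ * (t - a) := mul_nonneg hρ.le (by linarith [ht.1])
      linarith
    · have : ρ * (t - a) ≤ ρ * (c - a) := by
        apply mul_le_mul_of_nonneg_left _ hρ.le
        linarith [ht.2]
      rw [hd]
      linarith
  -- the Wronskian is monotone
  set φ : ℝ → ℝ := fun t => w t * v' t - w' t * v t with hφ
  have hφd : ∀ t, HasDerivAt φ (w t * (v'' t + ρ ^ 2 * v t)) t := by
    intro t
    have := ((hwd t).mul (hv'd t)).sub ((hw'd t).mul (hvd t))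
    convert! this using 1
    ring
  have hφmono : MonotoneOn φ (Icc a c) := by
    apply monotoneOn_of_deriv_nonneg (convex_Icc a c)
    · exact fun t _ => (hφd t).continuousAt.continuousWithinAt
    · exact fun t _ => (hφd t).differentiableAt.differentiableWithinAt
    · intro t ht
      rw [interior_Icc] at ht
      have ht' : t ∈ Icc a c := ⟨ht.1.le, ht.2.le⟩
      rw [(hφd t).deriv, hveq]
      exact mul_nonneg (hwpos t ht').le (mul_nonneg hSpos.le (h t ht'))
  -- conclusion
  have hgoal : v b ≤ 0 := by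
    by_contra hcon
    push Not at hcon
    set q : ℝ → ℝ := fun t => v t / w t with hq
    have hqd : ∀ t ∈ Icc a c, HasDerivAt q (φ t / w t ^ 2) t := by
      intro t ht
      have := (hvd t).div (hwd t) (hwpos t ht).ne'
      convert! this using 1
      simp only [hφ]
      ring
    have hb : b ∈ Icc a c := ⟨hab.le, hbc.le⟩
    have hqb : 0 < q b := div_pos hcon (hwpos b hb)
    have hqa : q a = 0 := by simp only [hq, hva, zero_div]
    have hqc : q c = 0 := by simp only [hq, hvc, zero_div]
    obtain ⟨ξ1, hξ1, e1⟩ := exists_hasDerivAt_eq_slope q (fun t => φ t / w t ^ 2) hab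
      (fun t ht => (hqd t ⟨ht.1, ht.2.trans hbc.le⟩).continuousAt.continuousWithinAt)
      (fun t ht => hqd t ⟨ht.1.le, ht.2.le.trans hbc.le⟩)
    obtain ⟨ξ2, hξ2, e2⟩ := exists_hasDerivAt_eq_slope q (fun t => φ t / w t ^ 2) hbc
      (fun t ht => (hqd t ⟨hab.le.trans ht.1, ht.2⟩).continuousAt.continuousWithinAt)
      (fun t ht => hqd t ⟨hab.le.trans ht.1.le, ht.2.le⟩)
    have hm1 : ξ1 ∈ Icc a c := ⟨hξ1.1.le, hξ1.2.le.trans hbc.le⟩
    have hm2 : ξ2 ∈ Icc a c := ⟨hab.le.trans hξ2.1.le, hξ2.2.le⟩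
    have hle := hφmono hm1 hm2 (hξ1.2.trans hξ2.1).le
    have p1 : 0 < φ ξ1 := by
      have : 0 < φ ξ1 / w ξ1 ^ 2 := by
        rw [e1, hqa, sub_zero]
        exact div_pos hqb (by linarith)
      exact (div_pos_iff_of_pos_right (by have := hwpos ξ1 hm1; positivity)).1 this
    have p2 : φ ξ2 < 0 := by
      have : φ ξ2 / w ξ2 ^ 2 < 0 := by
        rw [e2, hqc, zero_sub]
        exact div_neg_of_neg_of_pos (by linarith) (by linarith)
      by_contra hge
      push Not at hge
      have : 0 ≤ φ ξ2 / w ξ2 ^ 2 := by positivity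
      linarith
    linarith
  have : v b = S * u b - (u a * Real.sin (ρ * (c - b)) + u c * Real.sin (ρ * (b - a))) := rfl
  linarith

end Pool.Agent.Helper31.LS
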